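import Pool.Agent.Lib.RT95.B_GROW

/-! The inverse branch of the return to the critical point. -/

set_option autoImplicit false

open Filter Topology Set Metric Complex Bornology MeasureTheory N62a1eb23
open scoped Real ENNReal

namespace RT95

open Pool.Agent.Lib.MP_c35c17_an KN KR73

theorem XBRU.ret_P {n L q k : ℕ} {σ : Sy n} {ν : ℕ → ZMod n} {μ : Md σ L} (hG : μ.Good ν)
    (h : Rq ν q) (hk : (k + 1) * q ≤ L) : μ.S (k * q) ⊆ μ.P 0 (q - 1) := fun z hz x hx => by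
  obtain ⟨⟨a, ha⟩, -⟩ := hG
  rw [add_mul, one_mul] at hk
  have h1 := μ.S_P (s := q - 1) (by omega) hz x hx
  rw [ha _ (by omega), h.mul fun e => absurd (Nat.le_of_dvd x.succ_pos e) (by omega),
    ← ha _ (by omega)] at h1
  rwa [zero_add]

theorem st_BRU {n : ℕ} (hn : 2 ≤ n) (hBRW : St_BRW n) (hMISS : St_MISS n) (hSEP : St_SEP n)
    (hSMALL : St_SMALL n) : St_BRU n := by
  intro σ L μ b g d T ν hO hG hR w hw hQ M hM hMw
  have hF := hO.fit
  have hs0 : 0 < sep n b d w := sep_pos hn hF.lv.hb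
  have hs1 : sep n b d w ≤ 1 := sep_le_one hn hF.lv.hb
  have hL := hO.hor
  have hb := XSEP.b_pow hF.lv (show 1 ≤ 4 by norm_num)
  have hLip := one_le_Lip hn hF.lv.hb
  have hds : d + 1 ≤ ss d := by unfold ss; omega
  have hχ := hF.hom_zero
  set r := sep n b d w / Lip n b with hr
  have hU : ∀ z ∈ ball (0 : ℂ) r, ‖z‖ < 1 := fun z hz =>
    (mem_ball_zero_iff.mp hz).trans_le ((div_le_self hs0.le hLip).trans hs1)
  have hU' : ∀ z ∈ ball (0 : ℂ) r, z ∉ σ.Ext 1 := fun z hz h => by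
    linarith [hU z hz, hF.ext_one.mp h]
  obtain ⟨h1, h2, h3⟩ := hBRW σ L μ b g hF 0 (T + ss d) (ball 0 r) (by omega)
    (disjoint_left.mpr hU') fun i' y hi e _ => by
      refine disjoint_left.mpr fun z hz hz' => ?_
      have h4 := hSEP σ L μ b g d T hO w hQ 0 (Nat.zero_le T) (μ.S (y + 1)) (μ.S_conn _) (μ.S_unb _)
        ((hMISS σ L μ b g d T hO).2 (y + 1) (by omega) (by omega)) _ (μ.S_map hz')
      have h5 := hF.lip (u := z) (v := 0) (by linarith [hU z hz]) (by rw [norm_zero]; linarith)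
      have h6 := (lt_div_iff₀' (by linarith)).mp (mem_ball_zero_iff.mp hz)
      rw [σ.G_zero, hχ, sub_zero] at h5
      exact absurd (h4.trans h5) (not_le.mpr h6)
  have hS := hSMALL σ L μ b g d T ν hO hG hR w hw hQ M hM hMw
  have hY : ∀ z ∈ ball (0 : ℂ) r, σ.G^[T + ss d] (μ.Y 0 (T + ss d) z) ∉ σ.Ext 1 :=
    fun z hz => (h2 z hz).symm ▸ hU' z hz
  have hN : ∀ z ∈ ball (0 : ℂ) r, μ.Y 0 (T + ss d) z ∉ σ.Ext 1 := fun z hz h =>
    hY z hz (σ.ext_fwd one_pos h _)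
  have hg : ∀ z ∈ ball (0 : ℂ) r, g (σ.hom.symm (μ.Y 0 (T + ss d) z)) = μ.Y 0 (T + ss d) z :=
    fun z hz => hF.g_symm ((not_le.mp (mt hF.ext_one.mpr (hN z hz))).trans hF.four_lt)
  have hRet : μ.Ret (T + ss d + 1) (gam b M w) fun x => σ.hom.symm (μ.Y 0 (T + ss d) x) := by
    intro k z hk hz
    have h4 : σ.G z ∈ μ.P 0 (T + ss d) := XBRU.ret_P hG hR hk hz
    refine ⟨fun h5 => ?_, ?_⟩
    · have h6 := hS (σ.G z) ⟨μ.P_mono (by omega) h4, fun h7 => h5 (σ.Ext_mono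
        (inv_anti₀ (npow_pos hn _) (npow_mono hn (by omega))) ((σ.ext_pow _ 1 z).mp h7))⟩
      have h8 := hF.hm.lip' (z ^ n) 0
      rw [sub_zero, norm_pow, hχ] at h8
      exact h8.trans (mul_le_mul_of_nonneg_left h6 zero_le_two)
    · show σ.hom.symm (μ.Y 0 _ _) = _
      rw [Function.iterate_succ_apply, μ.P_back h4]
      exact σ.hom.symm_apply_apply _
  have hc : σ.G^[T + ss d + 1] 0 = cc n g (T + ss d) := by
    rw [Function.iterate_succ_apply, σ.G_zero, hF.c_eq]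
  refine ⟨fun x => σ.hom.symm (μ.Y 0 (T + ss d) x),
    ⟨fun z hz => (hF.hol_symm (hN z hz)).comp_differentiableWithinAt z (h1 z hz),
    fun x hx => ?_, fun x hx => ?_, fun x hx m hm => ?_, ?_, ?_⟩, hRet⟩
  · rw [Fq, hg x hx]
    exact (hF.iter_eq (hY x hx) le_rfl).symm.trans (h2 x hx)
  · have h4 := hF.hm.lip' (σ.hom.symm (μ.Y 0 (T + ss d) x)) 0
    rw [sub_zero, σ.hom.apply_symm_apply, hχ] at h4
    exact h4.trans (mul_le_mul_of_nonneg_left
      (hS _ ⟨μ.P_mono (by omega) (h3 hx), XGROW.back (hY x hx) (by omega)⟩) zero_le_two)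
  · rw [hg x hx, ← hF.iter_eq (hY x hx) hm]
    rcases (show m ≤ T + ss d from hm).eq_or_lt with rfl | h4
    · rw [h2 x hx]
      linarith [hU x hx, hF.lv.five_le]
    · exact hF.iter_small (hY x hx) h4
  · exact (hRet 1 (cc n g (T + ss d)) (by omega) (by rw [one_mul, ← hc]; exact μ.c_mem' _)).1
      (hc ▸ σ.orb_not (inv_pos.mpr (npow_pos hn _)) _)
  · have h4 := (hRet 0 0 (by omega) (by rw [zero_mul]; exact μ.c_mem' 0)).2
    rwa [hc, zero_pow (by omega)] at h4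

end RT95
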