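import Pool.Agent.Lib.RT95.K17

/-! Block BRW: branches along words. -/

set_option autoImplicit false

open Filter Topology Set Metric Complex Bornology MeasureTheory N62a1eb23
open scoped Real ENNReal

namespace RT95

open Pool.Agent.Lib.MP_c35c17_an KN KR73

theorem st_BRW {n : ℕ} (hn : 2 ≤ n) : St_BRW n := by
  have _ := hn
  intro σ L μ b g hF i x U hx h1U hU
  induction x generalizing i with
  | zero => exact ⟨differentiableOn_id, fun _ _ => rfl, fun _ _ y hy => absurd hy (Nat.not_lt_zero y)⟩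
  | succ x ih =>
    obtain ⟨h1, h2, h3⟩ := ih (i + 1) (by omega) fun i' y a b => hU i' y (by omega) (by omega)
    have h4 : ∀ z ∈ U, μ.Y (i + 1) x z ∉ μ.S 0 := fun z hz h => by
      have h5 := μ.S_iter7 h x
      rw [h2 z hz, zero_add] at h5
      exact Set.disjoint_left.1 (hU (i + 1) x (Nat.lt_succ_self i) (by omega) fun j hj =>
        μ.V_uniq7 (h3 hz j hj) (by simpa using μ.S_V7 (by omega) (μ.S_iter7 h j))) hz h5
    have h6 : ∀ z ∈ U, σ.G (μ.Y i (x + 1) z) = μ.Y (i + 1) x z := fun z hz => by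
      rw [μ.Y_succ7]
      exact μ.inv _ _ (h4 z hz)
    refine ⟨DifferentiableOn.congr (fun z hz => (μ.hol _ _ (h4 z hz) (hF.hol7 fun h =>
      Set.disjoint_left.1 h1U hz ?_)).comp_differentiableWithinAt z (h1 z hz))
      fun z _ => μ.Y_succ7, fun z hz => ?_, fun z hz => ?_⟩
    · rw [← h2 z hz]
      exact σ.ex_fwd7 one_pos x h
    · rw [Function.iterate_succ_apply, h6 z hz, h2 z hz]
    · intro y hy
      rcases y with _ | y
      · exact ⟨_, h4 z hz, μ.Y_succ7.symm⟩
      · rw [Function.iterate_succ_apply, h6 z hz, show i + (y + 1) = i + 1 + y by omega]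
        exact h3 hz y (by omega)

end RT95
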