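import Pool.Agent.Lib.RT95.Blue
import Pool.Agent.Lib.RT.T28
import Pool.Agent.Lib.RT.T45

/-! A system that fits a level. -/

set_option autoImplicit false

open Filter Topology Set Metric Complex Bornology
open scoped Real

namespace RT95

open KN

namespace CHART

theorem big {n : ℕ} {b : ℝ} (hn : 2 ≤ n) (hb : 100 ≤ b) : (5 : ℝ) ^ n ≤ b ^ (3 * n) / 2 := by
  have h1 : (10 : ℝ) ≤ b ^ 3 := by
    have := pow_le_pow_left₀ (by norm_num : (0 : ℝ) ≤ 100) hb 3
    linarith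
  have h2 : (10 : ℝ) ^ n ≤ (b ^ 3) ^ n := pow_le_pow_left₀ (by norm_num) h1 n
  have h3 : (2 : ℝ) ^ 1 ≤ 2 ^ n := pow_le_pow_right₀ (by norm_num) (by omega)
  have h4 : (10 : ℝ) ^ n = 2 ^ n * 5 ^ n := by rw [← mul_pow]; norm_num
  have h5 : (0 : ℝ) < 5 ^ n := by positivity
  rw [pow_mul]
  nlinarith

theorem orb {n : ℕ} {b : ℝ} {g : ℂ → ℂ} {hom : ℂ ≃ₜ ℂ} (h : Lv n b g) (hm : Hm n b g hom)
    (j : ℕ) : (G0 n hom)^[j] 0 = (G0 n g)^[j] 0 := by
  induction j with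
  | zero => rfl
  | succ j ih =>
    rw [Function.iterate_succ_apply', Function.iterate_succ_apply', ih]
    refine hm.eq _ ?_
    rw [norm_pow]
    exact (pow_le_pow_left₀ (norm_nonneg _) (h.bdd j) n).trans (big h.hn h.hb)

end CHART

theorem st_CHART {n : ℕ} (hn : 2 ≤ n) : St_CHART n := by
  intro b g h
  have hb := h.hb
  have hb1 : (1 : ℝ) < b := by linarith
  have hB : (32 : ℝ) ≤ b ^ (3 * n) :=
    le_trans (by linarith) (le_self_pow₀ hb1.le (by omega : 3 * n ≠ 0))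
  obtain ⟨φ, f1, f2, f3, -, f5, f6, -⟩ := RT28.hom (g := g) hB h.ent.differentiableOn
    fun y hy => h.near y (mem_ball_zero_iff.1 hy).le
  have hm : Hm n b g φ := ⟨f1, f2, f3, f5, fun y y' => by simpa using f6 (φ y) (φ y')⟩
  have hl : 0 < Real.log b := Real.log_pos hb1
  have he : Real.exp (4 * Real.log b * (3 / 4)) = b ^ 3 := by
    rw [show 4 * Real.log b * (3 / 4) = (3 : ℕ) * Real.log b by push_cast; ring, Real.exp_nat_mul,
      Real.exp_log (by linarith)]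
  have hout : ∀ u : ℂ, Real.exp (4 * Real.log b * (3 / 4)) ≤ ‖u‖ → φ (u ^ n) = u ^ n := by
    intro u hu
    rw [he] at hu
    refine f2 _ ?_
    rw [norm_pow, pow_mul]
    exact pow_le_pow_left₀ (by positivity) hu n
  have hM : ∀ j, ‖(fun u => φ (u ^ n))^[j] 0‖ ≤ 5 := fun j => by
    have := h.bdd j
    rwa [← CHART.orb h hm j] at this
  obtain ⟨A, hA⟩ := RT45.exists_log (hom := φ) hn (by positivity : 0 < 4 * Real.log b)
    (by norm_num : (0 : ℝ) < 3 / 4) hout hM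
  have htop : ∀ t x : ℝ, 3 / 4 ≤ t → A ⟨t, x⟩ = ⟨4 * Real.log b * t, 2 * π * x⟩ := by
    intro t x ht
    rw [hA.eq0 ⟨t, x⟩ ht]
    exact Complex.ext (RT45.A0_re _ _) (RT45.A0_im _ _)
  refine ⟨⟨φ, fun z => exp (A z), 2 * Real.log b / π, hn, by positivity, hA.contB, ?_, ?_, ?_,
    fun U hU hUo => hA.image_open hUo hU, ?_, fun j ζ hζ => ?_⟩, h, hm, fun t x ht => ?_⟩
  · intro ζ ζ' h1 h2 h3
    obtain ⟨m, hm⟩ := hA.inj ζ h1 ζ' h2 h3
    exact ⟨by simp [hm], m, by simp [hm]⟩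
  · intro t x ht
    have e : (⟨n * t, n * x⟩ : ℂ) = n * (⟨t, x⟩ : ℂ) := by apply Complex.ext <;> simp
    rw [e]
    exact hA.eqn ⟨t, x⟩ ht
  · intro t x ht
    have e : (⟨t, x + 1 / n⟩ : ℂ) = (⟨t, x⟩ : ℂ) + I / n := by
      have h0 : (I / n : ℂ) = (((1 / n : ℝ)) : ℂ) * I := by push_cast; ring
      rw [h0]
      apply Complex.ext
      · rw [add_re, re_ofReal_mul]; simp
      · rw [add_im, im_ofReal_mul]; simp
    show exp (A _) = _ * exp (A _)
    rw [e, hA.rot ⟨t, x⟩ ht, exp_add, mul_comm]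
  · intro ε hε
    refine ⟨3 / 4, fun t x ht => ?_⟩
    have e : (2 * π * (⟨2 * Real.log b / π * t, x⟩ : ℂ)) = ⟨4 * Real.log b * t, 2 * π * x⟩ := by
      have h0 : (2 * π : ℂ) = ((2 * π : ℝ) : ℂ) := by push_cast; ring
      rw [h0]
      apply Complex.ext
      · rw [re_ofReal_mul]
        show 2 * π * (2 * Real.log b / π * t) = 4 * Real.log b * t
        field_simp
        ring
      · rw [im_ofReal_mul]
    show ‖exp (A _) / _ - 1‖ ≤ ε
    rw [e, htop t x ht, div_self (exp_ne_zero _), sub_self, norm_zero]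
    exact hε.le
  · exact RT45.miss hn (by positivity : 0 < 4 * Real.log b) le_rfl hA.eq0 hA.eqn hM hζ j
  · show exp (A _) = _
    rw [htop t x ht]

end RT95
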