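import Pool.Agent.Lib.RT95.Blue
import Pool.Agent.Lib.KR73.B_C0
import Pool.Agent.Lib.KR73.B_C2
import Pool.Agent.Lib.KR73.B_C5

/-! Block COLC: the collar pieces have uniformly bounded capacity. -/

set_option autoImplicit false

open Filter Topology Set Metric Complex Bornology MeasureTheory N62a1eb23
open scoped Real ENNReal

namespace RT95

open Pool.Agent.Lib.MP_c35c17_an KN KR73

namespace XCOLC

/-- a uniform neighbourhood gives a uniform bound for the capacity -/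
theorem c0u (R : ℝ) {δ : ℝ} (hδ : 0 < δ) : ∃ w > 0, ∀ K O : Set ℂ, K ⊆ closedBall 0 R →
    (∀ p ∈ K, ball p δ ⊆ O) → Cap K O w := by
  classical
  obtain ⟨t, -, ht, hc⟩ := finite_cover_balls_of_compact (isCompact_closedBall (0 : ℂ) R)
    (by positivity : 0 < δ / 4)
  choose w hw h using fun x : ℂ => st_C0 _ _ (isCompact_closedBall x (δ / 4)) isOpen_ball
    (closedBall_subset_ball (by linarith : δ / 4 < δ / 2))
  set W := 1 + ∑ x ∈ ht.toFinset, w x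
  have hs : 0 ≤ ∑ x ∈ ht.toFinset, w x := Finset.sum_nonneg fun x _ => (hw x).le
  have hW : 0 < W := by positivity
  refine ⟨1 + ht.toFinset.card * W, by positivity, fun K O hK hO => ?_⟩
  refine ((cap_biUnion st_C5 (ht.toFinset.filter fun x => ball x (δ / 2) ⊆ O)
    (fun x => closedBall x (δ / 4)) hW one_pos fun x hx => ?_).le (by positivity) ?_).mono
    (fun p hp => ?_) Subset.rfl
  · obtain ⟨h1, h2⟩ := Finset.mem_filter.mp hx
    refine ((h x).mono Subset.rfl h2).le (hw x).le ?_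
    linarith [Finset.single_le_sum (fun x _ => (hw x).le) h1]
  · gcongr
    exact Finset.filter_subset _ _
  · obtain ⟨x, hx, h1⟩ := mem_iUnion₂.mp (hc (hK hp))
    exact mem_iUnion₂.mpr ⟨x, Finset.mem_filter.mpr ⟨ht.mem_toFinset.mpr hx,
      (ball_subset_ball' (by linarith [mem_ball'.mp h1])).trans (hO p hp)⟩,
      ball_subset_closedBall h1⟩

theorem cap_inv {K O K' O' : Set ℂ} {w : ℝ} {h : ℂ → ℂ} (hO : IsOpen O)
    (hd : DifferentiableOn ℂ h O) (hi : InjOn h O) (hK : K ⊆ O) (h1 : MapsTo h K K')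
    (h2 : O' ⊆ h '' O) (hc : Cap K' O' w) : Cap K O w := by
  refine (st_C2 _ _ w _ (Q.isOpen_image_of_injOn hO hd hi O subset_rfl hO)
    (Q.differentiableOn_invFunOn hO hd hi fun z hz =>
      XC2.deriv_ne_zero_of_injOn (hO.mem_nhds hz) (hd.analyticAt (hO.mem_nhds hz)) hi)
    (Function.invFunOn_injOn_image h O) (hc.mono Subset.rfl h2)).mono
    (fun z hz => ⟨_, h1 hz, hi.leftInvOn_invFunOn (hK hz)⟩) (hi.invFunOn_image Subset.rfl).le

/-- round sectors -/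
theorem round (n : ℕ) {l : ℝ} (hl : 0 < l) : ∃ δ > 0, ∀ α t x : ℝ, 1 ≤ t → t ≤ n →
    |x - α| ≤ 1 / 4 → ∀ y ∈ ball (exp (⟨l * t, 2 * π * x⟩ : ℂ)) δ, ∃ t' x' : ℝ, 3 / 4 < t' ∧
      t' < n + 1 / 2 ∧ |x' - α| < 1 / 2 ∧ y = exp (⟨l * t', 2 * π * x'⟩ : ℂ) := by
  have hπ := Real.pi_pos
  obtain ⟨δ, hδ, h⟩ := (((isCompact_Icc (a := l) (b := l * n)).reProdIm
    (isCompact_Icc (a := -(π / 2)) (b := π / 2))).image continuous_exp).exists_thickening_subset_open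
    (isOpenMap_exp _ ((isOpen_Ioo (a := l * (3 / 4)) (b := l * (n + 1 / 2))).reProdIm
      (isOpen_Ioo (a := -π) (b := π))))
    (image_mono fun z hz => ⟨⟨by linarith [hz.1.1], by linarith [hz.1.2]⟩,
      by linarith [hz.2.1], by linarith [hz.2.2]⟩)
  refine ⟨δ, hδ, fun α t x h1 h2 h3 y hy => ?_⟩
  obtain ⟨h4, h5⟩ := abs_le.mp h3
  have e (s r : ℝ) : exp (⟨s, r⟩ : ℂ) = exp (⟨s, r - 2 * π * α⟩ : ℂ) * exp ((2 * π * α : ℝ) * I) := by
    rw [← exp_add]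
    congr 1
    apply Complex.ext <;> simp
  obtain ⟨ζ, ⟨⟨a1, a2⟩, a3, a4⟩, a5⟩ := h (a := y / exp ((2 * π * α : ℝ) * I)) (mem_thickening_iff.mpr
    ⟨exp (⟨l * t, 2 * π * x - 2 * π * α⟩ : ℂ), ⟨_, ⟨⟨by dsimp only; nlinarith, by dsimp only; nlinarith⟩,
      by dsimp only; nlinarith, by dsimp only; nlinarith⟩, rfl⟩, by
        rw [mem_ball, e, dist_eq_norm] at hy
        rwa [dist_eq_norm, div_sub' (exp_ne_zero _), norm_div, norm_exp_ofReal_mul_I, div_one,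
          mul_comm]⟩)
  refine ⟨ζ.re / l, α + ζ.im / (2 * π), by rw [lt_div_iff₀ hl]; linarith,
    by rw [div_lt_iff₀ hl]; linarith, ?_, ?_⟩
  · rw [add_sub_cancel_left, abs_lt, lt_div_iff₀ (by positivity), div_lt_iff₀ (by positivity)]
    constructor <;> linarith
  · rw [e, mul_div_cancel₀ _ hl.ne', mul_add, add_sub_cancel_left,
      mul_div_cancel₀ _ (by positivity), a5, div_mul_cancel₀ _ (exp_ne_zero _)]

theorem int_zero {x y : ℝ} (h : Cg x y) (h1 : |x - y| < 1) : x = y := by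
  obtain ⟨m, rfl⟩ := h
  rw [add_sub_cancel_left, ← Int.cast_abs, ← Int.cast_one, Int.cast_lt, Int.abs_lt_one_iff] at h1
  simp [h1]

variable {n : ℕ} {σ : Sy n} {b : ℝ} {g : ℂ → ℂ}

theorem iter (σ : Sy n) (k : ℕ) {t : ℝ} (x : ℝ) (ht : 0 < t) :
    σ.G^[k] (σ.B ⟨t, x⟩) = σ.B ⟨(n : ℝ) ^ k * t, (n : ℝ) ^ k * x⟩ := by
  induction k with
  | zero => simp
  | succ k ih =>
    rw [Function.iterate_succ_apply', ih, Sy.G, σ.conj _ _ (mul_pos (npow_pos σ.hn k) ht), pow_succ',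
      mul_assoc, mul_assoc]

theorem normB (h : Fit σ b g) {t τ : ℝ} (x : ℝ) (h0 : 0 < t) (h1 : t ≤ τ) (h2 : 3 / 4 ≤ τ) :
    ‖σ.B ⟨t, x⟩‖ ≤ Real.exp (4 * Real.log b * τ) := by
  have hl : 0 < Real.log b := Real.log_pos (by linarith [h.lv.hb])
  by_contra hc
  have hc := not_le.mp hc
  have h3 := (Real.exp_pos _).trans hc
  have h4 : τ < Real.log ‖σ.B ⟨t, x⟩‖ / (4 * Real.log b) := by
    rw [lt_div_iff₀' (by positivity), Real.lt_log_iff_exp_lt h3]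
    exact hc
  have h5 := h.chart _ (arg (σ.B ⟨t, x⟩) / (2 * π)) (h2.trans h4.le)
  rw [mul_div_cancel₀ _ (by positivity), mul_div_cancel₀ _ (by positivity)] at h5
  have h6 := (σ.inj _ ⟨t, x⟩ (by dsimp only; linarith) h0
    (h5.trans (Eq.trans (congrArg exp (Complex.ext (log_re _).symm (log_im _).symm))
      (exp_log (norm_pos_iff.mp h3))))).1
  dsimp only at h6
  linarith

theorem pow_le (h : Fit σ b g) (u : ℂ) : ‖u ^ n‖ ≤ ‖σ.G u‖ + 4 := by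
  have := norm_sub_norm_le (u ^ n) (σ.hom (u ^ n))
  rw [norm_sub_rev] at this
  linarith [h.hm.near (u ^ n), show ‖σ.G u‖ = ‖σ.hom (u ^ n)‖ from rfl]

theorem iter_eq (h : Fit σ b g) (k : ℕ) {t : ℝ} (x : ℝ) (h0 : 0 < t)
    (h1 : (n : ℝ) ^ k * t ≤ 5 / 4) : (G0 n g)^[k] (σ.B ⟨t, x⟩) = σ.G^[k] (σ.B ⟨t, x⟩) := by
  have hb := h.lv.hb
  induction k with
  | zero => rfl
  | succ k ih =>
    rw [Function.iterate_succ_apply', ih (le_trans (mul_le_mul_of_nonneg_right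
      (npow_mono σ.hn (Nat.le_succ k)) h0.le) h1)]
    have h2 := normB h ((n : ℝ) ^ (k + 1) * x) (mul_pos (npow_pos σ.hn _) h0) h1 (by norm_num)
    rw [← iter σ _ x h0, show 4 * Real.log b * (5 / 4) = (5 : ℕ) * Real.log b by push_cast; ring,
      Real.exp_nat_mul, Real.exp_log (by linarith)] at h2
    rw [Function.iterate_succ_apply'] at h2 ⊢
    refine (h.hm.eq _ ((pow_le h _).trans ?_)).symm
    have h3 : b ^ 6 ≤ b ^ (3 * n) := pow_le_pow_right₀ (by linarith) (by have := σ.hn; omega)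
    have h4 : b ≤ b ^ 5 := le_self_pow₀ (by linarith) (by norm_num)
    nlinarith

theorem cob_open (σ : Sy n) (α : ℝ) (q : ℕ) : IsOpen (σ.Cob α q) := by
  refine σ.opn _ (fun ζ hζ => (mul_pos_iff_of_pos_left (npow_pos σ.hn q)).1
    (lt_trans (by norm_num) hζ.1)) ?_
  refine IsOpen.and (isOpen_lt ?_ ?_) (IsOpen.and (isOpen_lt ?_ ?_) (isOpen_lt ?_ ?_)) <;> fun_prop

theorem one (n : ℕ) {b : ℝ} (hb : 100 ≤ b) : ∃ w > 0, ∀ (σ : Sy n) (g : ℂ → ℂ), Fit σ b g →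
    ∀ α : ℝ, Cap (σ.Col α 1) (σ.Cob α 1) w := by
  have hl : 0 < Real.log b := Real.log_pos (by linarith)
  obtain ⟨δ, hδ, H⟩ := round n (l := 4 * Real.log b) (by positivity)
  set R := Real.exp (4 * Real.log b * 1)
  have hR : 0 < R := Real.exp_pos _
  set L := 2 * (n * (R + 1) ^ (n - 1)) + 1 with hL
  have hL0 : 0 < L := by positivity
  obtain ⟨w, hw, h⟩ := c0u R (lt_min one_pos (div_pos hδ hL0))
  refine ⟨w, hw, fun σ g hF α => ?_⟩
  have hn : (0 : ℝ) < n := npos σ.hn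
  have hK : σ.Col α 1 ⊆ closedBall 0 R := by
    rintro _ ⟨ζ, ⟨h1, h2, -⟩, rfl⟩
    rw [pow_one] at h1 h2
    exact mem_closedBall_zero_iff.mpr (normB hF ζ.im (by nlinarith) (by nlinarith) (by norm_num))
  refine h _ _ hK fun p hp => ?_
  have hpR := mem_closedBall_zero_iff.mp (hK hp)
  obtain ⟨ζ, ⟨h1, h2, h3⟩, rfl⟩ := hp
  refine (convex_ball _ _).isPreconnected.subset_of_closure_inter_subset (cob_open σ α 1)
    ⟨_, mem_ball_self (lt_min one_pos (div_pos hδ hL0)), ζ,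
      ⟨by linarith, by linarith, by linarith⟩, rfl⟩ fun u ⟨hu, hd⟩ => ?_
  rw [pow_one] at h1 h2 h3
  have hc : IsCompact (σ.B '' (Icc (3 / 4 / (n : ℝ)) ((n + 1 / 2) / n) ×ℂ
      Icc (α - 1 / 2 / n) (α + 1 / 2 / n))) := (isCompact_Icc.reProdIm isCompact_Icc).image_of_continuousOn
    (σ.cont.mono fun z hz => lt_of_lt_of_le (by positivity) hz.1.1)
  obtain ⟨ξ, ⟨⟨a1, a2⟩, a3⟩, rfl⟩ := closure_minimal (image_mono fun z hz => by
    obtain ⟨b1, b2, b3⟩ := hz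
    rw [pow_one] at b1 b2 b3
    have b4 := abs_lt.mp ((lt_div_iff₀' hn).mpr b3)
    exact ⟨⟨(div_le_iff₀' hn).mpr b1.le, (le_div_iff₀' hn).mpr b2.le⟩, by linarith, by linarith⟩)
    hc.isClosed hu
  have a4 : n * |ξ.im - α| ≤ 1 / 2 :=
    (le_div_iff₀' hn).mp (abs_le.mpr ⟨by linarith [a3.1], by linarith [a3.2]⟩)
  have a0 : 0 < ξ.re := lt_of_lt_of_le (by positivity) a1
  have z0 : 0 < ζ.re := by nlinarith
  have ab (y : ℝ) : |n * y - n * α| = n * |y - α| := by rw [← mul_sub, abs_mul, abs_of_pos hn]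
  obtain ⟨d1, d2⟩ := lt_min_iff.mp (mem_ball_iff_norm.mp hd)
  obtain ⟨t', x', c1, c2, c3, c4⟩ := H (n * α) (n * ζ.re) (n * ζ.im) h1 h2 (by rwa [ab])
    (σ.B ⟨n * ξ.re, n * ξ.im⟩) (by
      rw [← hF.chart _ _ (by linarith), ← σ.conj _ _ a0, ← σ.conj _ _ z0, mem_ball_iff_norm]
      have m := (convex_closedBall (0 : ℂ) (R + 1)).norm_image_sub_le_of_norm_hasDerivWithin_le
        (C := n * (R + 1) ^ (n - 1)) (fun x _ => (hasDerivAt_pow n x).hasDerivWithinAt)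
        (fun x hx => by
          rw [norm_mul, norm_pow, Complex.norm_natCast]
          gcongr
          exact mem_closedBall_zero_iff.mp hx)
        (mem_closedBall_zero_iff.mpr (hpR.trans (by linarith)))
        (mem_closedBall_zero_iff.mpr (by linarith [norm_le_norm_sub_add (σ.B ξ) (σ.B ζ)]) :
          σ.B ξ ∈ _)
      rw [lt_div_iff₀ hL0, hL] at d2
      refine (hF.hm.lip _ _).trans_lt ?_
      change 2 * ‖σ.B ξ ^ n - σ.B ζ ^ n‖ < δ
      nlinarith [norm_nonneg (σ.B ξ - σ.B ζ)])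
  rw [← hF.chart _ _ c1.le] at c4
  obtain ⟨e1, e2⟩ := σ.inj _ _ (mul_pos hn a0) (lt_trans (by norm_num) c1) c4
  dsimp only at e1 e2
  have e3 := int_zero e2 ((abs_sub_le _ (n * α) _).trans_lt (by rw [ab, abs_sub_comm _ x']; linarith))
  refine ⟨ξ, ?_, rfl⟩
  rw [mem_ofPred_eq, pow_one, ← ab, e1, e3]
  exact ⟨c1, c2, c3⟩

end XCOLC

open XCOLC in
theorem st_COLC {n : ℕ} (hn : 2 ≤ n) : St_COLC n := by
  intro b
  by_cases hb : 100 ≤ b
  swap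
  · exact ⟨1, one_pos, fun σ g h => absurd h.lv.hb hb⟩
  obtain ⟨w, hw, H⟩ := one n hb
  refine ⟨w, hw, fun σ g hF α q hq => ?_⟩
  obtain ⟨k, rfl⟩ : ∃ k, q = k + 1 := ⟨q - 1, by omega⟩
  have hk := npow_pos hn k
  have h2 := ntwo hn
  have pos (ζ : ℂ) (h : 3 / 4 < (n : ℝ) ^ (k + 1) * ζ.re) : 0 < ζ.re :=
    (mul_pos_iff_of_pos_left (npow_pos hn _)).1 (lt_trans (by norm_num) h)
  have ab (y : ℝ) : (n : ℝ) ^ 1 * |(n : ℝ) ^ k * y - (n : ℝ) ^ k * α| =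
      (n : ℝ) ^ (k + 1) * |y - α| := by rw [← mul_sub, abs_mul, abs_of_pos hk]; ring
  have re (y : ℝ) : (n : ℝ) ^ 1 * ((n : ℝ) ^ k * y) = (n : ℝ) ^ (k + 1) * y := by ring
  refine cap_inv (h := σ.G^[k]) (cob_open σ α _) ?_ ?_
    (image_mono fun ζ ⟨a, b, c⟩ => ⟨by linarith, by linarith, by linarith⟩) ?_ ?_
    (H σ g hF ((n : ℝ) ^ k * α))
  · refine ((hF.lv.ent.comp (differentiable_pow n)).iterate k).differentiableOn.congr ?_
    rintro _ ⟨ζ, ⟨a, b, -⟩, rfl⟩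
    refine (iter_eq hF k ζ.im (pos ζ a) ?_).symm
    rw [← re, pow_one] at b
    nlinarith
  · rintro _ ⟨ζ, ⟨a, -, c⟩, rfl⟩ _ ⟨ξ, ⟨a', -, c'⟩, rfl⟩ e
    have e' := (iter σ k ζ.im (pos ζ a)).symm.trans (e.trans (iter σ k ξ.im (pos ξ a')))
    obtain ⟨e1, e2⟩ := σ.inj _ _ (mul_pos hk (pos ζ a)) (mul_pos hk (pos ξ a')) e'
    rw [← ab, pow_one] at c c'
    have e3 := int_zero e2 ((abs_sub_le _ ((n : ℝ) ^ k * α) _).trans_lt (by
      rw [abs_sub_comm _ (_ * ξ.im)]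
      nlinarith [abs_nonneg ((n : ℝ) ^ k * ζ.im - (n : ℝ) ^ k * α),
        abs_nonneg ((n : ℝ) ^ k * ξ.im - (n : ℝ) ^ k * α)]))
    rw [Complex.ext (mul_left_cancel₀ hk.ne' e1) (mul_left_cancel₀ hk.ne' e3)]
  · rintro _ ⟨ζ, ⟨a, b, c⟩, rfl⟩
    exact ⟨_, ⟨by rwa [re], by rwa [re], by rwa [ab]⟩, (iter σ k ζ.im (pos ζ (by linarith))).symm⟩
  · rintro _ ⟨ζ, ⟨a, b, c⟩, rfl⟩
    have e (y : ℝ) : (n : ℝ) ^ k * (y / (n : ℝ) ^ k) = y := mul_div_cancel₀ _ hk.ne'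
    have a' : 3 / 4 < (n : ℝ) ^ (k + 1) * (ζ.re / (n : ℝ) ^ k) := by rwa [← re, e]
    refine ⟨_, ⟨⟨ζ.re / (n : ℝ) ^ k, ζ.im / (n : ℝ) ^ k⟩,
      ⟨a', by rwa [← re, e], by rwa [← ab, e]⟩, rfl⟩, ?_⟩
    rw [iter σ k _ (pos ⟨_, 0⟩ a'), e, e]

end RT95
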