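import Pool.Agent.Lib.RT95.Blue
import Pool.Agent.Lib.RT.T23b

/-! The levels of the polynomial, escape of orbits, the size of the critical value. -/

set_option autoImplicit false

open Filter Topology Set Metric Complex Bornology MeasureTheory N62a1eb23
open scoped Real ENNReal

namespace RT95

open Pool.Agent.Lib.MP_c35c17_an KN KR73

theorem CONC.dQ_eq (n : ℕ) (c : ℂ) (k : ℕ) (y : ℂ) : dQ n c k (y + c) = RT23.W n c k y := by
  induction k with
  | zero => rfl
  | succ k ih => rw [RT23.W_succ, ← ih]; rfl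

theorem st_CONC {n : ℕ} (_hn : 2 ≤ n) : St_CONC n := by
  intro c p s g B w h
  obtain ⟨p, rfl⟩ := Nat.exists_eq_add_of_le' h.pos
  have hg : ∀ y, g y = s⁻¹ * (F n c)^[p] (s ^ n * y + c) := fun y => by
    have h1 := h.val y
    rw [Nat.add_sub_cancel] at h1
    rw [h1, inv_mul_cancel_left₀ h.ne]
  have hV : RT23.Vel n (fun u => g (u ^ n)) g w (Vh n g w) := ⟨fun _ => rfl, fun _ _ => rfl⟩
  refine ⟨fun u => (RT23.lv_one h.ne hg u).symm, fun u => ?_, fun k y => ?_⟩
  · have h1 := (RT23.lv_deriv h.ne hg 1 u).deriv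
    rwa [Function.iterate_one, one_mul] at h1
  · rw [show (k + 1) * (p + 1) - 1 = k * (p + 1) + p by rw [add_mul, one_mul]; omega]
    refine ⟨(RT23.lv_val h.ne hg k y).symm, ?_⟩
    rw [CONC.dQ_eq]
    refine hV.lv h.ne hg (fun y => ?_) k y
    rw [← CONC.dQ_eq, ← h.vel, Nat.add_sub_cancel]

theorem st_CHI {n : ℕ} (hn : 2 ≤ n) : St_CHI n := fun b g h h0 =>
  RT23.chi hn h.ent (fun y hy => h.near y (by
    have h1 : b ≤ b ^ (3 * n) := le_self_pow₀ (by linarith [h.hb]) (by omega)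
    linarith [h.hb])) h0

theorem st_ORB {n : ℕ} (hn : 2 ≤ n) : St_ORB n := by
  intro u ρ _ hM hs
  have key : ∀ k, 1 ≤ ‖u k‖ → ‖u k‖ ^ 2 ≤ 6 / 5 * (‖u (k + 1)‖ + ‖u 1‖) := fun k hk => by
    have h2 : ‖u k‖ ^ 2 ≤ ‖u k‖ ^ n := pow_le_pow_right₀ hk hn
    have h3 := norm_add_le (u k ^ n - (u (k + 1) - u 1)) (u (k + 1) - u 1)
    rw [sub_add_cancel, norm_pow] at h3
    linarith [hs k, norm_sub_le (u (k + 1)) (u 1)]
  have hχ : ‖u 1‖ ≤ 3 := by
    by_contra h
    have h := not_le.mp h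
    have := RT23.grow (t := fun k => ‖u k‖) (a := ‖u 1‖) (by linarith) (fun k hk => by
      have := key k (by linarith)
      nlinarith) hM 1
    simp at this
  exact ⟨hχ, fun k => (RT23.grow (t := fun k => ‖u k‖) (by norm_num) (fun k hk => by
    have := key k (by linarith)
    nlinarith) hM k).le⟩

end RT95
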