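import Pool.Agent.Lib.RT95.Blue
import Pool.Agent.Lib.RT.T23

/-! The velocity of the renormalized level is again in the cone. -/

set_option autoImplicit false

open Filter Topology Set Metric Complex
open scoped Real

namespace RT95

theorem st_CONE {n : ℕ} (hn : 2 ≤ n) (hC : St_COV n) (hP : St_PSI n) : St_CONE n := by
  intro b g w q r γ K X hv ha hu hw hlow hS s hs
  obtain ⟨-, hD, hC⟩ := hC b g q r γ K X hv ha hu
  obtain ⟨s1, -, hC⟩ := hC s hs
  have hP := hP b g w q r γ K X hv ha hu hw hlow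
  have hb : (1 : ℝ) ≤ b ^ (3 * n) := one_le_pow₀ (by linarith [hv.hb])
  have hK : 10 ^ 4 ≤ K := by linarith [hu.bK]
  have K0 : 0 < K := by linarith
  have hs0 : s ≠ 0 := fun e => by
    rw [e, zero_pow (by omega), zero_mul] at hs
    exact zero_ne_one hs
  have hd : Differentiable ℂ (Vh n g w (q - 1)) :=
    RT23.Vel.diff (n := n) (G := G0 n g) (g := g) (w := w) ⟨fun _ => rfl, fun _ _ => rfl⟩
      (hv.ent.comp (differentiable_id.pow n)) hv.ent hw.1 _
  set V := Vh n g w (q - 1) with hV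
  have hKV : K ≤ ‖V 0‖ := le_of_mul_le_mul_left (by nlinarith) K0
  have V0 : V 0 ≠ 0 := norm_pos_iff.mp (by linarith)
  have hi : K⁻¹ ≤ 1 := inv_le_one_of_one_le₀ (by linarith)
  have hr := hu.rK
  have r0 : 0 < r := by
    by_contra h
    nlinarith [mul_nonneg (neg_nonneg.mpr (not_lt.mp h)) K0.le]
  refine ⟨V 0 / s, fun y => V (s ^ n * y) / V 0,
    ⟨(hd.comp (differentiable_id.const_mul _)).div_const _, fun y hy => ?_⟩, ?_, fun y => ?_⟩
  · obtain ⟨x, x1, -, x2⟩ := hC y hy
    obtain ⟨x₀, y1, -, y2⟩ := hC 0 (by rw [norm_zero]; positivity)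
    have k3 : (10 ^ 4) ^ 3 ≤ K ^ 3 := pow_le_pow_left₀ (by norm_num) hK 3
    have k4 : K ^ 3 ≤ K ^ 6 := pow_le_pow_right₀ (by linarith) (by norm_num)
    have h1 := RT23.schwarz (P := fun x => V (X x)) (r := r / (200 * K))
      (hd.comp_differentiableOn (ha.hol.mono (ball_subset_ball (div_le_self r0.le (by linarith)))))
      (fun x hx => hP x (mem_ball_zero_iff.mp hx).le) (by
        rw [inv_pow, ← div_eq_mul_inv, div_lt_div_iff₀ (by positivity) (by positivity)]
        calc 4 * (200 * K) < 1 * K ^ 6 * K := by nlinarith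
          _ ≤ r * K * K ^ 6 * K := by gcongr
          _ = r * K ^ 8 := by ring) y1 x1
    simp only [x2, y2, mul_zero] at h1
    rw [div_sub_one V0, norm_div, div_le_iff₀ (norm_pos_iff.mpr V0)]
    refine h1.trans ?_
    rw [inv_pow, ← div_eq_mul_inv, div_div, div_le_iff₀ (by positivity)]
    calc 8 * (3 * q * K * ‖dd n g (q - 1)‖) ≤ 8 * (3 * K * K * (K * ‖V 0‖)) := by
          gcongr; exact hu.qK
      _ = 19200 * 1 * (K ^ 3 * ‖V 0‖ / 800) := by ring
      _ ≤ K ^ 3 * (r * K) * (K ^ 3 * ‖V 0‖ / 800) := by gcongr; linarith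
      _ = _ := by field_simp; ring
  · rw [norm_div, le_div_iff₀ (norm_pos_iff.mpr hs0)]
    have := s1.trans (pow_le_one₀ (by positivity) hi)
    nlinarith
  · field_simp

end RT95
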