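import Pool.Agent.Lib.RT95.Kit
import Pool.Agent.Lib.RT.T31

/-! The normalised inverse branch of the return is close to a translation. -/

set_option autoImplicit false

open Filter Topology Set Metric Complex

namespace RT95

theorem st_COV {n : ℕ} (hn : 2 ≤ n) : St_COV n := by
  intro b g q r γ K X hl hA hN
  have hb := hl.hb
  have K4 := hN.big hb
  have K0 : 0 < K := by linarith
  have r0 := hN.rpos hb
  have B4 := hl.big
  have x9 := hN.small hn hb hA.x0
  have kr := hN.inv_le hb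
  have L1 := one_le_Lip hn hb
  have kK : K⁻¹ * K = 1 := inv_mul_cancel₀ K0.ne'
  have γk : γ ≤ (K⁻¹ ^ 10) ^ (n - 1) * K⁻¹ ^ 10 := by
    rw [← pow_succ, show n - 1 + 1 = n by omega, ← pow_mul, inv_pow, ← one_div,
      le_div_iff₀ (by positivity)]
    exact hN.γK
  have Bk : 10 ^ 4 * b ^ (3 * n) * K⁻¹ ≤ 1 := by
    rw [← kK, mul_comm K⁻¹]; exact mul_le_mul_of_nonneg_right hN.bK (by positivity)
  have D2 : ‖deriv (Fq n g q) 0‖ ≤ 2 * ‖dd n g (q - 1)‖ := by
    rw [hl.deriv_Fq, norm_mul, mul_comm]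
    exact mul_le_mul_of_nonneg_right (hl.deriv_g_le (by rw [norm_zero]; linarith)) (norm_nonneg _)
  have DL : ‖dd n g (q - 1)‖ ≤ Lip n b ^ q := by
    have h1 := hl.dd_le 0 (q - 1)
    rw [zero_add, dd_zero, norm_one, mul_one] at h1
    exact h1.trans (pow_le_pow_right₀ L1 (by omega))
  set k := K⁻¹ with hk
  set B := b ^ (3 * n) with hB
  have k0 : 0 < k := inv_pos.2 K0
  have k1 : k ≤ 1 / 100 := by nlinarith
  have pk : ∀ a c : ℕ, k ^ (a + 1 + c) ≤ k ^ a / 100 := fun a c => by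
    have h1 : k ^ c ≤ 1 := pow_le_one₀ k0.le (by linarith)
    have h2 := pow_pos k0 a
    rw [pow_add, pow_succ]
    nlinarith [mul_pos h2 k0]
  have e1 : 4 * (2 * γ) / r ≤ (k ^ 10) ^ (n - 1) := by
    rw [div_le_iff₀ r0]
    have h1 := pk 1 8
    have h2 : 0 < (k ^ 10) ^ (n - 1) := by positivity
    norm_num at h1
    nlinarith
  have e2 : (k ^ 10) ^ (n - 1) ≤ k ^ 10 :=
    pow_le_of_le_one (by positivity) (pow_le_one₀ k0.le (by linarith)) (by omega)
  have e3 : k ^ 10 ≤ 1 := pow_le_one₀ k0.le (by linarith)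
  obtain ⟨s₀, s0, a1, a2, a3, a4⟩ := RT31.ren hn (F := X) (P := Fq n g q) (M := K)
    (κ := 1 / (5 * B)) (ρ := 2 * k ^ 8) r0 hA.hol hA.sm (hl.Fq_diff q) hA.inv hA.X0 (by linarith)
    (by positivity) (by rw [div_le_div_iff₀ (by positivity) two_pos]; linarith)
    (by
      have h1 := hN.eK
      have h2 : (1 : ℝ) ≤ b ^ 4 := one_le_pow₀ (by linarith)
      have h3 : 0 < Lip n b ^ q := by positivity
      have h4 : 1 * Lip n b ^ q * 1 ≤ b ^ 4 * Lip n b ^ q * K := by gcongr; linarith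
      calc _ ≤ 1 * (2 * Lip n b ^ q) := by gcongr <;> linarith
        _ ≤ _ := by linarith)
    (by positivity)
    (by
      have h1 := pk 3 4
      have h2 : 1 / (5 * B) * r / (100 * K) = r * k / (500 * B) := by rw [hk]; field_simp; ring
      rw [h2, le_div_iff₀ (by positivity)]
      have h3 : k * k ≤ r * k := by gcongr
      have h4 : k ^ 3 * B ≤ k * k := by nlinarith [mul_pos k0 k0]
      norm_num at h1
      nlinarith [pow_pos k0 3])
    (by have := pk 8 0; norm_num at this; linarith [pow_pos k0 8])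
  have s10 : ‖s₀‖ ≤ k ^ 10 :=
    le_of_pow_le_pow_left₀ (by omega) (by positivity) (a2.trans e1)
  have D0 : deriv (Fq n g q) 0 ≠ 0 := right_ne_zero_of_mul_eq_one a1
  refine ⟨D0, ?_, fun s hs => ?_⟩
  · have h1 : ‖s₀‖ ^ (n - 1) * ‖deriv (Fq n g q) 0‖ = 1 := by
      rw [← norm_pow, ← norm_mul, a1, norm_one]
    have h2 : 1 ≤ k ^ 10 * (2 * ‖dd n g (q - 1)‖) := by
      rw [← h1]; gcongr; exact (a2.trans e1).trans e2
    have h3 := pk 2 7
    have h4 : k ^ 2 * K ^ 2 = 1 := by rw [← mul_pow, kK, one_pow]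
    have h5 := norm_nonneg (dd n g (q - 1))
    norm_num at h3
    refine le_of_mul_le_mul_left ?_ (pow_pos k0 2)
    nlinarith
  have es : s ^ (n - 1) = s₀ ^ (n - 1) := mul_right_cancel₀ D0 (hs.trans a1.symm)
  have ns : ‖s‖ = ‖s₀‖ := by
    have h1 := congrArg norm es
    rwa [norm_pow, norm_pow, pow_left_inj₀ (norm_nonneg _) (norm_nonneg _) (by omega)] at h1
  have s1 : s ≠ 0 := by rwa [← norm_ne_zero_iff, ns, norm_ne_zero_iff]
  have pn : ∀ z : ℂ, z ^ n = z ^ (n - 1) * z := fun z => by rw [← pow_succ]; congr 1; omega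
  refine ⟨ns ▸ s10, fun x hx => ?_, fun y hy => ?_⟩
  · have h1 := a3 x (by linarith [pow_pos k0 8])
    have e : ∀ z : ℂ, X x / z ^ n - (x - cc n g (q - 1)) / z =
        (X x / z ^ (n - 1) - (x - cc n g (q - 1))) / z := fun z => by
      rw [pn z, sub_div (X x / _), div_div]
    rw [e, norm_div, norm_div, ← ns, ← es] at h1
    rw [e, norm_div, norm_div]
    exact h1.trans (le_of_eq (by ring))
  · have ny : ‖y * s / s₀‖ = ‖y‖ := by
      rw [norm_div, norm_mul, ns, mul_div_cancel_right₀ _ (norm_ne_zero_iff.2 s0)]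
    have h0 : B * k ^ 10 ≤ k ^ 9 / 10 ^ 4 := by nlinarith [pow_pos k0 9]
    have h9 := pk 8 0
    norm_num at h9
    obtain ⟨x, -, h2, h3⟩ := a4 (y * s / s₀) (by
      have : ‖y‖ * ‖s₀‖ ≤ 2 * B * k ^ 10 := by gcongr
      rw [ny]
      linarith [pow_pos k0 8])
    have h4 : ‖(x - cc n g (q - 1)) / s₀‖ ≤ 4 * B := by
      have h5 := norm_sub_norm_le ((x - cc n g (q - 1)) / s₀) (y * s / s₀)
      have h6 : 1 / (5 * B) ≤ 1 / 2 := by
        rw [div_le_div_iff₀ (by positivity) two_pos]; linarith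
      rw [ny] at h3 h5
      nlinarith [norm_nonneg y]
    refine ⟨x, ?_, by rwa [norm_div, ns, ← norm_div], ?_⟩
    · rw [norm_div, div_le_iff₀ (norm_pos_iff.2 s0)] at h4
      have h5 : 4 * B * ‖s₀‖ ≤ 4 * B * k ^ 10 := by gcongr
      linarith [norm_sub_norm_le x (cc n g (q - 1)), pow_pos k0 8]
    · rw [h2, pn s₀, pn s, es]; field_simp

end RT95
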