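import Pool.Agent.Lib.RT95.Blue
import Pool.Agent.Lib.RT.T34

/-! The continuum of the new model. -/

set_option autoImplicit false

open Filter Topology Set Metric Complex Bornology
open scoped Real

namespace RT95

open KN

namespace DN

variable {n : ℕ}

theorem rot (σ : Sy n) {t : ℝ} (ht : 0 < t) (x : ℝ) (m : ℕ) :
    σ.B ⟨t, x + m / n⟩ = exp (2 * π * I / n) ^ m * σ.B ⟨t, x⟩ := by
  induction m with
  | zero => simp
  | succ m ih =>
    have e : x + ((m + 1 : ℕ) : ℝ) / n = x + m / n + 1 / n := by push_cast; ring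
    rw [e, σ.rot t _ ht, ih, pow_succ]
    ring

theorem pre (σ : Sy n) {t x : ℝ} (ht : 0 < t) {u : ℂ} (h : σ.G u = σ.B ⟨t, x⟩) :
    ∃ x' : ℝ, u = σ.B ⟨t / n, x'⟩ := by
  have hn := σ.hn
  have hnR : (0 : ℝ) < n := by exact_mod_cast (by omega : 0 < n)
  have ht' : 0 < t / n := div_pos ht hnR
  have h1 := σ.conj (t / n) (x / n) ht'
  rw [mul_div_cancel₀ _ hnR.ne', mul_div_cancel₀ _ hnR.ne', ← h] at h1
  have h2 : σ.B ⟨t / n, x / n⟩ ^ n = u ^ n := σ.hom.injective h1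
  have h0 : σ.B ⟨t / n, x / n⟩ ≠ 0 := σ.orb 0 _ ht'
  have h3 : (u / σ.B ⟨t / n, x / n⟩) ^ n = 1 := by
    rw [div_pow, ← h2, div_self (pow_ne_zero _ h0)]
  have : NeZero n := ⟨by omega⟩
  obtain ⟨m, -, hm⟩ := (isPrimitiveRoot_exp n (by omega)).eq_pow_of_pow_eq_one h3
  refine ⟨x / n + m / n, ?_⟩
  rw [rot σ ht', hm, div_mul_cancel₀ _ h0]

theorem pre_iter (σ : Sy n) (k : ℕ) : ∀ {t x : ℝ}, 0 < t → ∀ {u : ℂ}, σ.G^[k] u = σ.B ⟨t, x⟩ →
    ∃ x' : ℝ, u = σ.B ⟨t / (n : ℝ) ^ k, x'⟩ := by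
  have hn := σ.hn
  have hnR : (0 : ℝ) < n := by exact_mod_cast (by omega : 0 < n)
  induction k with
  | zero => intro t x _ u h; exact ⟨x, by simpa using h⟩
  | succ k ih =>
    intro t x ht u h
    rw [Function.iterate_succ_apply'] at h
    obtain ⟨x1, h1⟩ := pre σ ht h
    obtain ⟨x2, h2⟩ := ih (div_pos ht hnR) h1
    exact ⟨x2, by rw [h2, div_div, pow_succ']⟩

theorem inj {σ : Sy n} {L : ℕ} (μ : Md σ L) (k : ℕ) (hk : k ≤ L) : InjOn σ.G^[k] μ.D := by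
  induction k with
  | zero => exact fun _ _ _ _ h => h
  | succ k ih =>
    intro z hz z' hz' h
    rw [Function.iterate_succ_apply', Function.iterate_succ_apply'] at h
    obtain ⟨y, hy, e⟩ := μ.sect k (by omega) (Or.inl (mem_image_of_mem _ hz))
    obtain ⟨y', hy', e'⟩ := μ.sect k (by omega) (Or.inl (mem_image_of_mem _ hz'))
    rw [← e, ← e', μ.inv _ y hy, μ.inv _ y' hy'] at h
    exact ih (by omega) hz hz' (by rw [← e, ← e', h])

theorem iter (σ : Sy n) (k : ℕ) {t : ℝ} (ht : 0 < t) (x : ℝ) :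
    σ.G^[k] (σ.B ⟨t, x⟩) = σ.B ⟨(n : ℝ) ^ k * t, (n : ℝ) ^ k * x⟩ := by
  have hn := σ.hn
  have hnR : (0 : ℝ) < n := by exact_mod_cast (by omega : 0 < n)
  induction k with
  | zero => simp
  | succ k ih =>
    rw [Function.iterate_succ_apply', ih]
    have := σ.conj ((n : ℝ) ^ k * t) ((n : ℝ) ^ k * x) (by positivity)
    rw [← mul_assoc, ← mul_assoc, ← pow_succ'] at this
    exact this

end DN

theorem st_DN {n : ℕ} (hn : 2 ≤ n) : St_DN n := by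
  intro σ L μ k τ s E hk hs hτ hE
  have hnR : (0 : ℝ) < n := by exact_mod_cast (by omega : 0 < n)
  have hg := μ.gpos
  have hp : 0 < (n : ℝ) ^ k := by positivity
  have ha : 0 < (n : ℝ) ^ k * μ.g := by positivity
  have hG : Continuous σ.G^[k] := (σ.hom.continuous.comp (continuous_pow n)).iterate k
  have hγ : ContinuousOn (fun t : ℝ => σ.B ⟨t, (n : ℝ) ^ k * μ.ϑ⟩) (Icc ((n : ℝ) ^ k * μ.g) τ) := by
    have hc : Continuous fun t : ℝ => (⟨t, (n : ℝ) ^ k * μ.ϑ⟩ : ℂ) := by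
      have : (fun t : ℝ => (⟨t, (n : ℝ) ^ k * μ.ϑ⟩ : ℂ)) =
          fun t : ℝ => (t : ℂ) + (((n : ℝ) ^ k * μ.ϑ : ℝ) : ℂ) * I :=
        funext fun t => mk_eq_add_mul_I _ _
      rw [this]; fun_prop
    exact σ.cont.comp hc.continuousOn fun t ht => lt_of_lt_of_le ha ht.1
  have hi : InjOn (fun t : ℝ => σ.B ⟨t, (n : ℝ) ^ k * μ.ϑ⟩) (Icc ((n : ℝ) ^ k * μ.g) τ) :=
    fun t ht t' ht' h => (σ.inj _ _ (lt_of_lt_of_le ha ht.1) (lt_of_lt_of_le ha ht'.1) h).1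
  have hout : ∀ t, (n : ℝ) ^ k * μ.g < t → t ≤ τ →
      σ.B ⟨t, (n : ℝ) ^ k * μ.ϑ⟩ ∉ σ.G^[k] '' μ.D := by
    rintro t ht - ⟨z, hz, e⟩
    obtain ⟨x', h1⟩ := DN.pre_iter σ k (ha.trans ht) e
    have h2 := μ.top0 ⟨t / (n : ℝ) ^ k, x'⟩ (div_pos (ha.trans ht) hp) (h1 ▸ hz)
    have h3 : t / (n : ℝ) ^ k ≤ μ.g := h2
    rw [div_le_iff₀ hp] at h3
    linarith
  have hD : IsCompact (σ.G^[k] '' μ.D) := μ.cpt.image hG
  have hC := hD.union (isCompact_Icc.image_of_continuousOn hγ)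
  have hP := RT34.conn_arc (μ.pre.image _ hG.continuousOn) hτ hγ
    ⟨_, μ.base, DN.iter σ k hg μ.ϑ⟩
  have hZ := RT34.zp_attach hD.isClosed
    (RT34.zp_image μ.cpt hG.continuousOn (DN.inj μ k hk) μ.zp) hγ hi hout
  have hd : Continuous fun z : ℂ => z / s := continuous_id.div_const s
  rw [hE]
  exact ⟨hC.image hd, hP.image _ hd.continuousOn,
    RT34.zp_image hC hd.continuousOn (fun _ _ _ _ h => (div_left_inj' hs).1 h) hZ⟩

end RT95
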