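import Pool.Agent.Lib.RT95.B_CONC
import Pool.Agent.Lib.KR73.FO

/-! A large velocity forces the parameter to be close to the hyperbolic parameters. -/

set_option autoImplicit false

open Filter Topology Set Metric Complex Bornology MeasureTheory N62a1eb23
open scoped Real ENNReal

namespace RT95

open Pool.Agent.Lib.MP_c35c17_an KN KR73

theorem END.inj {n : ℕ} (hn : 2 ≤ n) {l : ℂ} (hl : l ∉ closure (HH n)) :
    Function.Injective fun j => (F n l)^[j] 0 := by
  by_contra h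
  refine hl (finite_orbit hn (fun ht => ?_) h)
  obtain ⟨a, b, e, hab⟩ := Function.not_injective_iff.mp h
  wlog hlt : a < b generalizing a b
  · exact this b a e.symm hab.symm (by omega)
  obtain ⟨k, rfl⟩ := Nat.exists_eq_add_of_lt hlt
  have h1 : ∀ i, (F n l)^[i * (k + 1) + a] 0 = (F n l)^[a] 0 := fun i => by
    induction i with
    | zero => simp
    | succ i ih =>
      rw [show (i + 1) * (k + 1) + a = k + 1 + (i * (k + 1) + a) by ring,
        Function.iterate_add_apply, ih, ← Function.iterate_add_apply]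
      rw [show k + 1 + a = a + k + 1 by ring]
      exact e.symm
  obtain ⟨N, hN⟩ := eventually_atTop.mp ((tendsto_norm_atTop_iff_cobounded.mpr ht).eventually
    (eventually_gt_atTop ‖(F n l)^[a] 0‖))
  have := hN (N * (k + 1) + a) (by nlinarith)
  rw [h1] at this
  exact lt_irrefl _ this

theorem st_END {n : ℕ} (hn : 2 ≤ n) (hL : St_LAND) (hX : St_CHI n) (hC : St_CONC n) :
    St_END n := by
  obtain ⟨C, hC0, hL⟩ := hL
  refine ⟨7 * C, by positivity, fun c _ b p s g B w k K h hv hw hk hK hV _ => ?_⟩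
  rcases (infDist_nonneg (x := c) (s := HH n)).eq_or_lt with hd | hd
  · rw [← hd, zero_mul]; positivity
  obtain ⟨c1, c2, c3⟩ := hC c p s g B w h
  have hp := h.pos
  have hs := h.ne
  have hinj : ∀ l ∈ ball c (infDist c (HH n)), Function.Injective fun j => (F n l)^[j] 0 :=
    fun l hl => END.inj hn fun hcl => by
      have h1 := infDist_le_dist_of_mem (x := c) hcl
      rw [infDist_closure, dist_comm] at h1
      exact absurd hl (not_lt.mpr h1)
  have hχ : 1 / 8 ≤ ‖g 0‖ := not_lt.mp fun h0 => by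
    obtain ⟨u, h1, h2⟩ := hX b g hv h0
    have h3 : c ∈ HH n := ⟨p, s * u, hp, by
      rw [Function.IsPeriodicPt, Function.IsFixedPt, c1, h1], differentiable_iter n c p _, by
      rwa [(hasDerivAt_iter n c p _).deriv, ← c2]⟩
    exact hd.ne' (infDist_zero_of_mem h3)
  have hz : (0 : ℂ) ^ n = 0 := zero_pow (by omega)
  have key : ∀ i, (F n c)^[(i + 1) * p] 0 = s * (G0 n g)^[i] (g 0) ∧
      dP n c ((i + 1) * p) = s * B * Vh n g w i 0 ∧ ‖(G0 n g)^[i] (g 0)‖ ≤ 5 := fun i => by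
    obtain ⟨e1, e2⟩ := c3 i 0
    obtain ⟨m, hm⟩ : ∃ m, (i + 1) * p = m + 1 := ⟨(i + 1) * p - 1,
      (Nat.sub_add_cancel (Nat.mul_pos i.succ_pos hp)).symm⟩
    rw [hm, Nat.add_sub_cancel, mul_zero] at e1 e2
    rw [hm, RT23.dP_eq hn, ← CONC.dQ_eq, Function.iterate_succ_apply]
    have h1 := hv.bdd (i + 1)
    rw [Function.iterate_succ_apply, G0, hz] at h1
    exact ⟨by rw [← e1, F, hz], e2, h1⟩
  obtain ⟨a1, a2, a3⟩ := key k
  obtain ⟨b1, b2, b3⟩ := key 0
  rw [zero_add, one_mul] at b1 b2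
  rw [Function.iterate_zero, id] at b1 b3
  have hne : ∀ l ∈ ball c (infDist c (HH n)), ∀ j, 0 < j → (F n l)^[j] 0 ≠ 0 :=
    fun l hl j hj e => hj.ne' (hinj l hl (a₂ := 0) e)
  have hg0 : g 0 ≠ 0 := norm_pos_iff.mp (by linarith)
  have h1 := hL (fun l => (F n l)^[(k + 1) * p] 0 / (F n l)^[p] 0) c _ hd
    (fun l hl => (((hasDerivAt_param n _ l).div (hasDerivAt_param n p l)
      (hne l hl p hp)).differentiableAt).differentiableWithinAt)
    (fun l hl => ⟨div_ne_zero (hne l hl _ (Nat.mul_pos k.succ_pos hp)) (hne l hl p hp), fun e => by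
      have := hinj l hl ((div_eq_one_iff_eq (hne l hl p hp)).mp e)
      nlinarith⟩)
    (by
      simp only [a1, b1]
      rw [mul_div_mul_left _ _ hs, norm_div, div_le_iff₀ (by linarith)]
      linarith)
  rw [((hasDerivAt_param n _ c).fun_div (hasDerivAt_param n p c)
    (hne c (mem_ball_self hd) p hp)).deriv, a1, a2, b1, b2] at h1
  have h2 : (s * B * Vh n g w k 0 * (s * g 0) - s * (G0 n g)^[k] (g 0) * (s * B * Vh n g w 0 0)) /
      (s * g 0) ^ 2 = B * ((Vh n g w k 0 * g 0 - (G0 n g)^[k] (g 0) * w 0) / g 0 ^ 2) := by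
    change (_ - _ * (s * B * w 0)) / _ = _
    field_simp
  have h3 : ‖w 0‖ ≤ 5 / 4 := by
    have h4 := hw.2 0 (by rw [norm_zero]; have := hv.hb; positivity)
    have := norm_add_le (w 0 - 1) 1
    rw [sub_add_cancel, norm_one] at this
    linarith
  have h4 : K / 7 ≤ ‖(Vh n g w k 0 * g 0 - (G0 n g)^[k] (g 0) * w 0) / g 0 ^ 2‖ := by
    rw [norm_div, norm_pow, le_div_iff₀ (by positivity)]
    have h5 := norm_sub_norm_le (Vh n g w k 0 * g 0) ((G0 n g)^[k] (g 0) * w 0)
    rw [norm_mul, norm_mul] at h5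
    have h6 : ‖(G0 n g)^[k] (g 0)‖ * ‖w 0‖ ≤ 5 * (5 / 4) := by gcongr
    have h7 : K * ‖g 0‖ ≤ ‖Vh n g w k 0‖ * ‖g 0‖ := by gcongr
    have h8 : K * ‖g 0‖ * ‖g 0‖ ≤ K * ‖g 0‖ * 5 := by gcongr
    nlinarith
  rw [h2, norm_mul] at h1
  have h5 : infDist c (HH n) * (‖B‖ * (K / 7)) ≤ C := le_trans (by gcongr) h1
  linarith

end RT95
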