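import Pool.Agent.Lib.RT95.Blue
import Pool.Agent.Lib.RT.T2

/-! The functional equation along the legs and the oscillation bound. -/

set_option autoImplicit false

open Filter Topology Set Metric Complex

namespace RT95

namespace FEC

variable {n q j₀ j₂ L : ℕ} {Λ : ℂ → ℂ} {g ϑ : ℝ}

theorem leg_cont (h : Lm n q j₂ Λ) {a : ℝ} (ha : 0 < a) (x : ℝ) :
    ContinuousOn (fun t : ℝ => Λ ⟨a * t, x⟩) (Ioi 0) := by
  have c : Continuous fun t : ℝ => (⟨a * t, x⟩ : ℂ) := by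
    simp only [mk_eq_add_mul_I]; fun_prop
  exact h.cont.comp c.continuousOn fun t ht => mul_pos ha ht

theorem tip_pos (h : Lm n q j₂ Λ) (hl : Legs n q j₀ Λ L g ϑ) (k : ℕ) : 0 < tip n q g k := by
  have := hl.gpos
  have : 0 < n := by have := h.hn; omega
  unfold tip; positivity

theorem tip_add (k i : ℕ) : tip n q g (k + i) = (n : ℝ) ^ (i * q) * tip n q g k := by
  unfold tip; rw [add_mul, pow_add]; ring

theorem step (h : Lm n q j₂ Λ) (hl : Legs n q j₀ Λ L g ϑ) {k : ℕ} (hk : (k + j₀ + 3) * q ≤ L) :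
    ∃ m : ℤ, ∀ t, tip n q g k ≤ t → t < ((n : ℝ) ^ ((j₀ + 3) * q))⁻¹ →
      yy n q Λ ϑ (k + 1) ((n : ℝ) ^ q * t) = n * yy n q Λ ϑ k t + m * I := by
  have n2 : (2 : ℝ) ≤ n := by exact_mod_cast h.hn
  have hs : Ico (tip n q g k) ((n : ℝ) ^ ((j₀ + 3) * q))⁻¹ ⊆ Ioi 0 :=
    fun t ht => (tip_pos h hl k).trans_le ht.1
  obtain ⟨m, hm⟩ := RT2.int_const (isPreconnected_Ico (a := tip n q g k)
      (b := ((n : ℝ) ^ ((j₀ + 3) * q))⁻¹))
    (f := fun t => yy n q Λ ϑ (k + 1) ((n : ℝ) ^ q * t)) (g := fun t => n * yy n q Λ ϑ k t)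
    ((leg_cont h (by positivity) _).mono hs)
    (continuousOn_const.mul (((leg_cont h one_pos _).mono hs).congr fun t _ => by
      simp only [one_mul]; rfl)) fun t ht => by
      have h1 := hl.up 1 k t (by rwa [show k + 1 + j₀ + 2 = k + j₀ + 3 by ring]) ht.1
        (by rw [show 1 + j₀ + 2 = j₀ + 3 by ring]; exact ht.2)
      have h2 : ((n : ℝ) ^ 1)⁻¹ ≤ 2⁻¹ := by rw [pow_one]; gcongr
      obtain ⟨m, hm⟩ := h.fe t _ (hs ht) (h1.trans (by linarith))
      refine ⟨m, Eq.trans ?_ hm⟩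
      rw [yy, add_mul, pow_add, one_mul]
      congr 2
      ring
  exact ⟨m, fun t h1 h2 => hm t ⟨h1, h2⟩⟩

theorem band (h : Lm n q j₂ Λ) {a : ℝ} (ha : 0 < a) :
    ∃ W : ℝ, ∀ t x : ℝ, a ≤ t → |(Λ ⟨t, x⟩).im - x| ≤ W := by
  have n0 : 0 < n := by have := h.hn; omega
  obtain ⟨c, hc⟩ := h.im
  obtain ⟨T, hT⟩ := hc 1 one_pos
  have rot : ∀ z : ℂ, 0 < z.re → Λ (z + I / n) = Λ z + I / n := fun z hz => by
    rw [← h.rot z.re z.im hz]
    congr 1
    exact Complex.ext (RT2.re_one z n) (RT2.im_one z n)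
  obtain ⟨W, hW⟩ := (RT2.band (φ := fun z => |(Λ z).im - z.im|)
    (((continuous_im.comp_continuousOn h.cont).sub continuous_im.continuousOn).abs)
    (fun m z hz => by simp [RT2.shift_I n0 rot m hz]) (W := |c| + 2) (by
      filter_upwards [tendsto_comap.eventually (eventually_ge_atTop T)] with z hz
      have h1 := hT z.re z.im hz
      have h2 := abs_sub_abs_le_abs_sub ((Λ z).im - z.im) c
      linarith) ha).1
  exact ⟨W, fun t x ht => hW ⟨t, x⟩ ht⟩

end FEC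

open FEC

theorem st_FEC : St_FEC := by
  intro n q j₀ j₂ Λ L g ϑ h hl k i
  have n1 : (1 : ℝ) ≤ n := by exact_mod_cast (by have := h.hn; omega : 1 ≤ n)
  induction i with
  | zero => exact fun _ => ⟨0, fun t _ _ => by simp⟩
  | succ i ih =>
    intro hk
    have hk' : (k + i + j₀ + 3) * q ≤ L := le_trans (Nat.mul_le_mul_right _ (by omega)) hk
    obtain ⟨m, hm⟩ := ih hk'
    obtain ⟨m', hm'⟩ := step h hl hk'
    refine ⟨n * m + m', fun t h1 h2 => ?_⟩
    have p := (h.pos ⟨t, (n : ℝ) ^ (k * q) * ϑ / n⟩ ((tip_pos h hl k).trans_le h1)).le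
    have h3 : (n : ℝ) ^ i * (yy n q Λ ϑ k t).re < ((n : ℝ) ^ (j₀ + j₂ + 4))⁻¹ :=
      lt_of_le_of_lt (mul_le_mul_of_nonneg_right (pow_le_pow_right₀ n1 (by omega)) p) h2
    have h4 := hm t h1 h3
    have h5 : (n : ℝ) ^ (i * q) * t < ((n : ℝ) ^ ((j₀ + 3) * q))⁻¹ := by
      by_contra! c
      have h6 := h.low (j₀ + 3) _ ((n : ℝ) ^ ((k + i) * q) * ϑ / n) c
      have h7 := congrArg re h4
      rw [← ofReal_natCast, ← ofReal_pow, add_re, re_ofReal_mul] at h7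
      rw [show j₀ + 3 + 1 + j₂ = j₀ + j₂ + 4 by ring] at h6
      simp only [yy] at h7 h3
      simp only [mul_re, intCast_re, I_re, mul_zero, intCast_im, I_im, mul_one, sub_zero,
        add_zero] at h7
      linarith
    have h6 := hm' _ (by rw [tip_add]; gcongr) h5
    rw [← add_assoc, add_mul i, pow_add, one_mul, mul_comm ((n : ℝ) ^ (i * q)), mul_assoc, h6, h4]
    push_cast
    ring

theorem st_OSC : St_OSC := by
  intro n q j₀ j₂ Λ h J
  have n0 : (0 : ℝ) < n := by exact_mod_cast (by have := h.hn; omega : 0 < n)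
  obtain ⟨W, hW⟩ := band h (a := ((n : ℝ) ^ ((J + j₀ + 2) * q))⁻¹) (by positivity)
  refine ⟨2 * W, fun L g ϑ j hl hL t t' h1 h1' h2 h2' => ?_⟩
  obtain ⟨m, hm⟩ := st_FEC n q j₀ j₂ Λ L g ϑ h hl 1 j
    (le_trans (Nat.mul_le_mul_right _ (by omega)) hL)
  have key : ∀ t, tip n q g 1 ≤ t → (yy n q Λ ϑ 1 t).re ∈
      Ico ((n : ℝ) ^ (j + J))⁻¹ ((n : ℝ) ^ (j + (j₀ + j₂ + 4)))⁻¹ →
      |(n : ℝ) ^ j * (yy n q Λ ϑ 1 t).im + m - (n : ℝ) ^ ((1 + j) * q) * ϑ / n| ≤ W := by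
    intro t h1 h2
    have pw : ∀ a : ℕ, (n : ℝ) ^ j * ((n : ℝ) ^ (j + a))⁻¹ = ((n : ℝ) ^ a)⁻¹ := fun a => by
      rw [pow_add]; field_simp
    have h3 := hm t h1 (by rw [← pw]; exact mul_lt_mul_of_pos_left h2.2 (by positivity))
    rw [← ofReal_natCast, ← ofReal_pow] at h3
    have h4 := congrArg re h3
    have h5 := congrArg im h3
    rw [add_re, re_ofReal_mul] at h4
    rw [add_im, im_ofReal_mul] at h5
    simp only [mul_re, mul_im, intCast_re, I_re, mul_zero, intCast_im, I_im, mul_one, sub_zero,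
      add_zero] at h4 h5
    rw [← h5]
    refine hW _ _ (le_of_not_gt fun c => ?_)
    have h6 := hl.up J (1 + j) _ (le_trans (Nat.mul_le_mul_right _ (by omega)) hL)
      (by rw [tip_add]; gcongr) c
    rw [h4, ← pw] at h6
    exact h2.1.not_gt (lt_of_mul_lt_mul_left h6 (by positivity))
  have a1 := abs_le.1 (key t h1 h2)
  have a2 := abs_le.1 (key t' h1' h2')
  rw [← abs_of_pos (pow_pos n0 j), ← abs_mul, abs_le]
  constructor <;> linarith [a1.1, a1.2, a2.1, a2.2]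

end RT95
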