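import Pool.Agent.Lib.RT95.Blue
import Pool.Agent.Lib.RT.T34g
import Pool.Agent.Lib.KR73.B_CST

/-! The polynomial with its Boettcher chart is a system with raw models. -/

set_option autoImplicit false

open Filter Topology Set Metric Complex Bornology MeasureTheory N62a1eb23
open scoped Real ENNReal

namespace RT95

open Pool.Agent.Lib.MP_c35c17_an KN KR73

theorem st_GLOB {n : ℕ} (hn : 2 ≤ n) : St_GLOB n := by
  intro c hc Φ h hi θ hP ap
  have cj := cj_of_bot hn hc h
  have hG : G0 n (Homeomorph.addRight c) = F n c := rfl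
  refine ⟨⟨Homeomorph.addRight c, Bc Φ, 1, hn, one_pos, (Bc_diff cj).continuousOn,
    fun ζ ζ' => Bc_inj cj, fun t x ht => ?_, fun t x ht => ?_, fun U hU ho => ?_, fun ε hε => ?_,
    fun j ζ hζ => RT34.g_miss hn hc h hζ j⟩, fun _ => rfl, ?_, fun L e he => ?_⟩
  · rw [hG]
    simpa using Bc_iter' (x := x) hn cj ht 1
  · simpa using XBR.rot_chart hn hc h ht x 1
  · refine isOpen_iff_mem_nhds.mpr ?_
    rintro _ ⟨z, hz, rfl⟩
    exact RT34.g_open cj (hU hz) (image_mem_map (ho.mem_nhds hz))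
  · obtain ⟨R, hR⟩ := L.UI.far h hε
    refine ⟨R, fun t x ht => ?_⟩
    rw [one_mul]
    refine (hR _ ?_).le
    rw [norm_chart]
    have h1 := Real.add_one_le_exp (2 * π * t)
    have h2 := Real.exp_pos (2 * π * t)
    rcases le_total t 0 with a | a
    · linarith
    · nlinarith [Real.two_le_pi]
  · obtain ⟨R, r, k⟩ := st_CST hn (st_EXT hn) c hc Φ h
    exact isBounded_ball.subset k.ball
  · obtain ⟨D, g, ϑ, a1, a2, a3, a4, a5, a6, a7, a8, a9, a10⟩ :=
      RT34.g_raw hn hc h hi hP ap (L + 1) he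
    exact ⟨⟨D, g, ϑ, a5, a1, a2, a3, by simpa using a4, a7, a8, fun l b1 b2 =>
      a10 l b2 0 (Nat.zero_le _) (by omega)⟩, a6, 0, fun j hj =>
        (a9 j (by omega)).trans (add_zero _).symm⟩

end RT95
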