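import Pool.Agent.Lib.RT95.B_SEP

/-! Growth of the derivative along the orbit of the critical value. -/

set_option autoImplicit false

open Filter Topology Set Metric Complex Bornology MeasureTheory N62a1eb23
open scoped Real ENNReal

namespace RT95

open Pool.Agent.Lib.MP_c35c17_an KN KR73

namespace XGROW

/-- backwards along an orbit that ends off the exterior -/
theorem back {n : ℕ} {σ : Sy n} {z : ℂ} {m k : ℕ} (hz : σ.G^[m] z ∉ σ.Ext 1) (hk : k ≤ m) :
    z ∉ σ.Ext ((n : ℝ) ^ k)⁻¹ := fun h => by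
  obtain ⟨e, rfl⟩ := Nat.exists_eq_add_of_le' hk
  have h1 := (σ.ext_pow 0 k z).mpr (by rwa [zero_add])
  rw [pow_zero, inv_one] at h1
  exact hz (Function.iterate_add_apply σ.G e k z ▸ σ.ext_fwd one_pos h1 e)

/-- the Cauchy estimate for an inverse branch -/
theorem cauchy {Y P : ℂ → ℂ} {p c : ℂ} {ρ γ : ℝ} (hρ : 0 < ρ) (hY : DifferentiableOn ℂ Y (ball p ρ))
    (hP : Differentiable ℂ P) (hi : ∀ z ∈ ball p ρ, P (Y z) = z) (hc : Y p = c)
    (hγ : ∀ z ∈ ball p ρ, ‖Y z - c‖ ≤ γ) : ρ ≤ 2 * γ * ‖deriv P c‖ := by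
  have hsub : closedBall p (ρ / 2) ⊆ ball p ρ := closedBall_subset_ball (half_lt_self hρ)
  have h11 := norm_deriv_le_of_forall_mem_sphere_norm_le (f := fun z => Y z - c)
    (half_pos hρ) (DifferentiableOn.diffContOnCl (by
      rw [closure_ball p (half_pos hρ).ne']
      exact (hY.mono hsub).sub_const _)) fun z hz => hγ z (hsub (sphere_subset_closedBall hz))
  have hnb := ball_mem_nhds p hρ
  have h13 : deriv P c * deriv Y p = 1 := by
    have h14 := (hP (Y p)).hasDerivAt.comp p (hY.differentiableAt hnb).hasDerivAt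
    rw [hc] at h14
    exact h14.unique ((hasDerivAt_id p).congr_of_eventuallyEq (mem_of_superset hnb hi))
  rw [deriv_sub_const, le_div_iff₀ (half_pos hρ)] at h11
  have h15 := congrArg norm h13
  rw [norm_mul, norm_one] at h15
  have h16 := mul_le_mul_of_nonneg_left h11 (norm_nonneg (deriv P c))
  rw [← mul_assoc, h15] at h16
  linarith

end XGROW

theorem st_GROW {n : ℕ} (hn : 2 ≤ n) (hBRW : St_BRW n) (hMISS : St_MISS n) (hSER : St_SER n)
    (hSEP : St_SEP n) : St_GROW n := by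
  intro σ L μ b g d T hO w hw hQ m hm
  have hF := hO.fit
  have hs0 : 0 < sep n b d w := sep_pos hn hF.lv.hb
  have hs1 : sep n b d w ≤ 1 := sep_le_one hn hF.lv.hb
  have hL := hO.hor
  have hb := XSEP.b_pow hF.lv (show 1 ≤ 4 by norm_num)
  set ρ := sep n b d w with hρ
  set p := cc n g m with hp
  have hU : ∀ z ∈ ball p ρ, z ∉ σ.Ext 1 := fun z hz h => by
    linarith [norm_sub_norm_le z p, mem_ball_iff_norm.mp hz, hF.lv.cc_le m, hF.ext_one.mp h]
  obtain ⟨h1, h2, h3⟩ := hBRW σ L μ b g hF 0 m (ball p ρ) (by omega) (disjoint_left.mpr hU)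
    fun i' y hi e hy => by
      have e' : i' + y = m := by omega
      refine disjoint_left.mpr fun z hz hz' => ?_
      have h4 := hSEP σ L μ b g d T hO w hQ m hm (μ.S y) (μ.S_conn y) (μ.S_unb y)
        (e' ▸ ((hMISS σ L μ b g d T hO).1 i' y hi (by omega) hy).2.symm) z hz'
      exact absurd (mem_ball_iff_norm.mp hz) (not_lt.mpr h4)
  have hc : μ.Y 0 m p = g 0 := by
    rw [hp, ← hF.c_eq, ← hF.hom_zero]
    exact μ.P_back (μ.S_P (s := m) (by omega) (μ.c_mem 0))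
  have hY : ∀ z ∈ ball p ρ, σ.G^[m] (μ.Y 0 m z) ∉ σ.Ext 1 := fun z hz => (h2 z hz).symm ▸ hU z hz
  have hP := hF.lv.iter_diff m
  have hi : ∀ z ∈ ball p ρ, (G0 n g)^[m] (μ.Y 0 m z) = z := fun z hz =>
    (hF.iter_eq (hY z hz) le_rfl).symm.trans (h2 z hz)
  refine ⟨(XGROW.cauchy (γ := 2 * b ^ 4) hs0 h1 hP hi hc fun z hz => ?_).trans_eq (by rw [dd]; ring),
    fun M hM hMw => XGROW.cauchy hs0 h1 hP hi hc fun z hz => ?_⟩
  · have h4 := not_le.mp fun h => hY z hz (σ.ext_fwd one_pos (hF.ext_one.mpr h) m)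
    have h5 : ‖g 0‖ ≤ 5 := hF.lv.cc_le 0
    linarith [norm_sub_le (μ.Y 0 m z) (g 0)]
  have hM0 : (0 : ℝ) < M := lt_of_lt_of_le (by positivity) hMw
  obtain ⟨M, rfl⟩ : ∃ M', M = M' + 1 :=
    ⟨M - 1, by have : 0 < M := (by exact_mod_cast hM0); omega⟩
  have h5 : μ.Y 0 m '' ball p ρ ⊆ μ.Ph 0 ((M + 1) * ss d) ((M + 1) * ss d) := by
    rintro _ ⟨z, hz, rfl⟩
    exact ⟨μ.P_mono hM (h3 hz), XGROW.back (hY z hz) hM⟩
  have h8 := (hSER σ L μ b g d T hO w 0 M hQ (by nlinarith)).mono h5 (hF.Ph_ball μ 0 d 0)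
  have hq : 0 < √((M : ℝ) + 1) := Real.sqrt_pos.mpr (by positivity)
  have hq2 : √((M : ℝ) + 1) ^ 2 = M + 1 := Real.sq_sqrt (by positivity)
  push_cast at hMw
  have h10 := st_LA2 _ _ (b ^ 4) _ (g 0) (μ.Y 0 m z) h8 (div_pos hw hq) (by
    rw [div_le_iff₀ hq]
    exact (abs_le_of_sq_le_sq' (by rw [mul_pow, hq2]; linarith) (by positivity)).2) Subset.rfl
    ((convex_ball p ρ).isPreconnected.image _ h1.continuousOn) ⟨p, mem_ball_self hs0, hc⟩
    ⟨z, hz, rfl⟩
  rw [div_pow, hq2, one_div_div] at h10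
  rw [gam]
  push_cast
  exact h10

end RT95
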