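import Pool.Agent.Lib.RT95.K17

/-! Block L3: high points are high in the next system. -/

set_option autoImplicit false

open Filter Topology Set Metric Complex Bornology MeasureTheory N62a1eb23
open scoped Real ENNReal

namespace RT95

open Pool.Agent.Lib.MP_c35c17_an KN KR73

theorem st_L3 {n : ℕ} (hn : 2 ≤ n) : St_L3 n := by
  intro σ σ' b g ν q s hF hL
  obtain ⟨T, hT⟩ := σ.far7 (‖s‖ * b ^ 4)
  have h1n : (1 : ℝ) < n := by linarith [ntwo hn]
  obtain ⟨j₂, hj⟩ := pow_unbounded_of_one_lt T h1n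
  refine ⟨j₂, fun j z hz => by_contra fun hu => ?_⟩
  have key : ∀ i ≤ j + 1 + j₂, s * σ'.G^[i] (z / s) = σ.G^[i * q] z := fun i hi => by
    induction i with
    | zero => simp [mul_div_cancel₀ _ hL.ne]
    | succ i ih =>
      rw [Function.iterate_succ_apply', hL.l1, ih (by omega), ← Function.iterate_add_apply,
        add_comm q, add_one_mul]
      intro h
      obtain ⟨e, he⟩ : ∃ e, j + 1 + j₂ = e + 1 + i := ⟨j + j₂ - i, by omega⟩
      rw [he, ← σ'.ex_inv7] at hu
      refine hu (σ'.mono7 ?_ h)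
      have h2 := two_le_npow hn (Nat.succ_pos e)
      exact (inv_anti₀ two_pos h2).trans (by norm_num)
  have h2 : σ'.G^[j + 1 + j₂] (z / s) ∉ σ'.Ext 1 := fun h => hu (by
    have h3 := (σ'.ex_inv7 (j + 1 + j₂) 0 (z / s)).mp (by simpa using h)
    rwa [zero_add] at h3)
  rw [hF.one7, not_le] at h2
  have h3 : σ.G^[(j + 1 + j₂) * q] z ∈ σ.Ext T := by
    have h4 := (σ.ex_iter7 (inv_pos.mpr (npow_pos hn (j * q))) ((j + 1 + j₂) * q) z).mpr hz
    refine σ.mono7 ?_ h4
    rw [← div_eq_mul_inv, le_div_iff₀ (npow_pos hn _)]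
    refine (mul_le_mul_of_nonneg_right hj.le (npow_pos hn _).le).trans ?_
    rw [← pow_add]
    refine npow_mono hn ?_
    have h5 := Nat.le_mul_of_pos_right j₂ hL.q1
    rw [add_mul, add_mul]
    omega
  have h4 := hT _ h3
  rw [← key _ le_rfl, norm_mul] at h4
  exact absurd (mul_lt_mul_of_pos_left h2 (norm_pos_iff.mpr hL.ne)) (not_lt.mpr h4)

end RT95
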