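import Pool.Agent.Lib.RT95.Blue
import Pool.Agent.Lib.RT.T2

/-! The change of chart between two consecutive systems. -/

set_option autoImplicit false

open Filter Topology Set Metric Complex
open scoped Real

namespace RT95

namespace LAMX

variable {n : ℕ} (σ : Sy n)

theorem ne0 (z : ℂ) (hz : 0 < z.re) : σ.B z ≠ 0 := σ.orb 0 z hz

theorem rot (z : ℂ) (hz : 0 < z.re) : σ.B (z + I / n) = exp (2 * π * I / n) * σ.B z := by
  rw [← σ.rot z.re z.im hz]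
  exact congrArg _ (Complex.ext (RT2.re_one z n) (RT2.im_one z n))

theorem inj (z z' : ℂ) (hz : 0 < z.re) (hz' : 0 < z'.re) (e : σ.B z = σ.B z') :
    ∃ m : ℤ, z = z' + m * I := by
  obtain ⟨h1, m, h2⟩ := σ.inj z z' hz hz' e
  exact ⟨m, Complex.ext (by simpa using h1) (by simpa using h2)⟩

theorem asym : Tendsto (fun z => σ.B z * exp (-(((2 * π * σ.κ : ℝ) : ℂ) * z.re + 2 * π * I * z.im)))
    (comap re atTop) (𝓝 1) := by
  refine Metric.tendsto_nhds.2 fun ε hε => ?_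
  obtain ⟨T, hT⟩ := σ.far (ε / 2) (half_pos hε)
  filter_upwards [tendsto_comap.eventually (eventually_ge_atTop T)] with z hz
  refine lt_of_le_of_lt (le_of_eq ?_) ((hT z.re z.im hz).trans_lt (half_lt_self hε))
  rw [dist_eq_norm, exp_neg, ← div_eq_mul_inv, mk_eq_add_mul_I (σ.κ * z.re)]
  congr 4
  push_cast
  ring

theorem opn (z : ℂ) (hz : 0 < z.re) : 𝓝 (σ.B z) ≤ map σ.B (𝓝 z) := fun V hV => by
  have o : IsOpen {ζ : ℂ | 0 < ζ.re} := isOpen_lt continuous_const continuous_re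
  obtain ⟨U, h1, h2, h3⟩ := _root_.mem_nhds_iff.1 (inter_mem hV (o.mem_nhds hz))
  exact mem_of_superset ((σ.opn U (fun w hw => (h1 hw).2) h2).mem_nhds ⟨z, h3, rfl⟩)
    (by rintro _ ⟨w, hw, rfl⟩; exact (h1 hw).1)

theorem iter (k : ℕ) (t x : ℝ) (ht : 0 < t) :
    σ.G^[k] (σ.B ⟨t, x⟩) = σ.B ⟨(n : ℝ) ^ k * t, (n : ℝ) ^ k * x⟩ := by
  have n0 : (0 : ℝ) < n := by exact_mod_cast (by have := σ.hn; omega : 0 < n)
  induction k with
  | zero => simp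
  | succ k ih =>
    rw [Function.iterate_succ_apply', ih, pow_succ', mul_assoc, mul_assoc]
    exact σ.conj _ _ (by positivity)

theorem bd {b : ℝ} {g : ℂ → ℂ} (f : Fit σ b g) (T : ℝ) :
    ∃ R : ℝ, ∀ z : ℂ, 0 < z.re → z.re ≤ T → ‖σ.B z‖ ≤ R := by
  have lb : 0 < 4 * Real.log b := mul_pos four_pos (Real.log_pos (by linarith [f.lv.hb]))
  refine ⟨Real.exp (4 * Real.log b * max T (3 / 4)), fun z hz hT => le_of_not_gt fun c => ?_⟩
  have h1 : max T (3 / 4) < Real.log ‖σ.B z‖ / (4 * Real.log b) := by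
    rw [lt_div_iff₀' lb, Real.lt_log_iff_exp_lt (norm_pos_iff.2 (ne0 σ z hz))]
    exact c
  have h2 := f.chart _ (arg (σ.B z) / (2 * π)) ((le_max_right _ _).trans h1.le)
  rw [mul_div_cancel₀ _ lb.ne', mul_div_cancel₀ _ (by positivity)] at h2
  have h3 := (σ.inj z _ hz (lt_of_lt_of_le (by norm_num) ((le_max_right _ _).trans h1.le))
    (((exp_log (ne0 σ z hz)).symm.trans
      (congrArg exp (Complex.ext (log_re _) (log_im _)))).trans h2.symm)).1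
  exact (hT.trans (le_max_left _ _)).not_gt (h1.trans_eq h3.symm)

end LAMX

theorem st_LAM {n : ℕ} (hn : 2 ≤ n) (hL3 : St_L3 n) : St_LAM n := by
  intro σ σ' b g ν q s f k
  have n1 : (1 : ℝ) < n := by exact_mod_cast hn
  have n0 : (0 : ℝ) < n := by linarith
  obtain ⟨j₂, h3⟩ := hL3 σ σ' b g ν q s f k
  obtain ⟨Λ, c, p, e, r, -, i, t1, t2, -⟩ := RT2.lift (by omega : 0 < n)
    (mul_pos Real.two_pi_pos σ.κpos) (mul_pos Real.two_pi_pos σ'.κpos) k.ne σ.cont (LAMX.ne0 σ)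
    (LAMX.rot σ) (LAMX.asym σ) (LAMX.inj σ) σ'.cont (LAMX.ne0 σ') (LAMX.rot σ') (LAMX.asym σ')
    (LAMX.inj σ') (LAMX.opn σ') (LAMX.bd σ' f) fun z hz => by
      obtain ⟨j, hj⟩ := pow_unbounded_of_one_lt z.re⁻¹ n1
      obtain ⟨w, hw, e⟩ := h3 j (σ.B z) ⟨z, inv_le_of_inv_le₀ hz (hj.le.trans
        (pow_le_pow_right₀ n1.le (Nat.le_mul_of_pos_right _ k.q1))), rfl⟩
      exact ⟨w, lt_of_lt_of_le (by positivity) hw, e⟩
  refine ⟨j₂, Λ, ⟨hn, k.q1, c, p, fun t x ht => ?_, i, ⟨-arg s / (2 * π), fun ε hε => ?_⟩,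
    fun u => ?_, fun t x ht h => ?_, fun j t x ht => ?_⟩, e⟩
  · rw [← r ⟨t, x⟩ ht]
    exact congrArg _ (Complex.ext (RT2.re_one ⟨t, x⟩ n).symm (RT2.im_one ⟨t, x⟩ n).symm)
  · obtain ⟨T, hT⟩ := eventually_atTop.1 (eventually_comap.1 (Metric.tendsto_nhds.1 t2 ε hε))
    exact ⟨T, fun t x ht => (hT t ht ⟨t, x⟩ rfl).le⟩
  · obtain ⟨T, hT⟩ := eventually_atTop.1 (eventually_comap.1 (tendsto_atTop.1 t1 u))
    exact ⟨T, fun t x ht => hT t ht ⟨t, x⟩ rfl⟩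
  · have h0 := p ⟨t, x⟩ ht
    have h1 := k.l1 (σ'.B (Λ ⟨t, x⟩)) (by
      rintro ⟨w, hw, e'⟩
      exact h.not_ge ((σ'.inj _ _ (lt_of_lt_of_le (by norm_num) hw) h0 e').1 ▸ hw))
    have h2 : σ'.G (σ'.B (Λ ⟨t, x⟩)) = σ'.B (n * Λ ⟨t, x⟩) :=
      (σ'.conj _ _ h0).trans (congrArg _ (Complex.ext (by simp) (by simp)))
    have h4 : (0 : ℝ) < (n : ℝ) ^ q * t := by positivity
    rw [h2, e _ ht, mul_div_cancel₀ _ k.ne, LAMX.iter σ q t x ht] at h1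
    refine LAMX.inj σ' _ _ (p _ h4) (by simpa using mul_pos n0 h0) ?_
    rw [e _ h4, ← h1, mul_div_cancel_left₀ _ k.ne]
  · have h0 : 0 < t := lt_of_lt_of_le (by positivity) ht
    obtain ⟨w, hw, e'⟩ := h3 j (σ.B ⟨t, x⟩) ⟨_, ht, rfl⟩
    exact (σ'.inj _ _ (lt_of_lt_of_le (by positivity) hw) (p _ h0) (e'.trans (e _ h0).symm)).1 ▸ hw

end RT95
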