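import Pool.Agent.Lib.RT95.Blue
import Pool.Agent.Lib.MP_91ca62_lc.Landau

/-! Landau's theorem with a uniform constant. -/

set_option autoImplicit false

open Filter Topology Set Metric Complex
open scoped Real

namespace RT95

open Pool.Agent.Const69

theorem LAND.explicit (x c : ℂ) {r : ℝ} (hr : 0 < r) (g : ℂ → ℂ)
    (hg : DifferentiableOn ℂ g (ball c r)) (h01 : ∀ z ∈ ball c r, g z ≠ 0 ∧ g z ≠ 1)
    (hx : g c = x) : ‖deriv g c‖ ≤ ‖x‖ * ‖(2 * Real.pi * I : ℂ)‖ *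
      (‖(log x / (2 * Real.pi * I)) ^ 2 - 1‖ + 1) * (96 * 6 / r) := by
  set l : ℂ := log x / (2 * Real.pi * I) with hl
  have hx0 : x ≠ 0 := hx ▸ (h01 c (mem_ball_self hr)).1
  have hpi : (2 * Real.pi * I : ℂ) ≠ 0 := two_pi_I_ne_zero
  obtain ⟨L₁, hL₁d, hL₁c, hL₁⟩ := exists_log hr hg (fun z hz => (h01 z hz).1)
    (y := log x) (by rw [exp_log hx0, hx])
  set L : ℂ → ℂ := fun z => L₁ z / (2 * Real.pi * I) with hL
  have hLd : DifferentiableOn ℂ L (ball c r) := hL₁d.div_const _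
  have hLc : L c = l := by simp only [hL, hl, hL₁c]
  have hgL : ∀ z ∈ ball c r, exp (L z * (2 * Real.pi * I)) = g z := by
    intro z hz
    simp only [hL]
    rw [div_mul_cancel₀ _ hpi, hL₁ z hz]
  have hLint : ∀ z ∈ ball c r, ∀ n : ℤ, L z ≠ n := by
    intro z hz n hn
    have h1 := hgL z hz
    rw [hn, exp_int_mul_two_pi_mul_I] at h1
    exact (h01 z hz).2 h1.symm
  have hsq : ∀ z ∈ ball c r, L z ^ 2 - 1 ≠ 0 := by
    intro z hz h
    have h1 : (L z - 1) * (L z + 1) = 0 := by linear_combination h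
    rcases mul_eq_zero.mp h1 with h2 | h2
    · exact hLint z hz 1 (by push_cast; linear_combination h2)
    · exact hLint z hz (-1) (by push_cast; linear_combination h2)
  obtain ⟨M, hMd, -, hM⟩ := exists_log hr (g := fun z => L z ^ 2 - 1)
    ((hLd.pow 2).sub_const 1) hsq (y := log (L c ^ 2 - 1))
    (exp_log (hsq c (mem_ball_self hr)))
  set Q : ℂ → ℂ := fun z => exp (M z / 2) with hQ
  have hQd : DifferentiableOn ℂ Q (ball c r) := (hMd.div_const 2).cexp
  have hQ2 : ∀ z ∈ ball c r, (L z + Q z) * (L z - Q z) = 1 := by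
    intro z hz
    have h1 : Q z * Q z = L z ^ 2 - 1 := by
      simp only [hQ]
      rw [← exp_add, add_halves, hM z hz]
    linear_combination -h1
  have hne : ∀ z ∈ ball c r, L z + Q z ≠ 0 := fun z hz h => by
    have := hQ2 z hz
    rw [h, zero_mul] at this
    exact zero_ne_one this
  obtain ⟨F, hFd, -, hF⟩ := exists_log hr (g := fun z => L z + Q z) (hLd.add hQd) hne
    (y := log (L c + Q c)) (exp_log (hne c (mem_ball_self hr)))
  have hcosh : ∀ z ∈ ball c r, cosh (F z) = L z := by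
    intro z hz
    have h1 : exp (-F z) = L z - Q z := by
      rw [exp_neg, hF z hz]
      exact (eq_inv_of_mul_eq_one_right (hQ2 z hz)).symm
    rw [Complex.cosh, hF z hz, h1]
    ring
  have hb := bloch hr (show (0 : ℝ) < 6 by norm_num) hFd (fun w hw => by
    obtain ⟨v, hv, n, hn⟩ := exists_cosh_int w
    obtain ⟨z, hz, rfl⟩ := hw hv
    exact hLint z hz n (by rw [← hcosh z hz, hn]))
  have hev : g =ᶠ[𝓝 c] fun z => exp (cosh (F z) * (2 * Real.pi * I)) := by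
    filter_upwards [ball_mem_nhds c hr] with z hz
    rw [hcosh z hz, hgL z hz]
  have hFc : HasDerivAt F (deriv F c) c :=
    (hFd.differentiableAt (ball_mem_nhds c hr)).hasDerivAt
  have hder := ((hFc.ccosh.mul_const (2 * Real.pi * I)).cexp.congr_of_eventuallyEq hev).deriv
  rw [hder, hcosh c (mem_ball_self hr), hgL c (mem_ball_self hr), hx]
  have hs : ‖sinh (F c)‖ ≤ ‖l ^ 2 - 1‖ + 1 := by
    have h1 : sinh (F c) ^ 2 = l ^ 2 - 1 := by
      rw [sinh_sq, hcosh c (mem_ball_self hr), hLc]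
    rw [← h1, norm_pow]
    nlinarith [norm_nonneg (sinh (F c))]
  rw [norm_mul, norm_mul, norm_mul]
  have h1 : ‖sinh (F c)‖ * ‖deriv F c‖ ≤ (‖l ^ 2 - 1‖ + 1) * (96 * 6 / r) :=
    mul_le_mul hs hb (norm_nonneg _) (by positivity)
  calc ‖x‖ * (‖sinh (F c)‖ * ‖deriv F c‖ * ‖(2 * Real.pi * I : ℂ)‖)
      ≤ ‖x‖ * ((‖l ^ 2 - 1‖ + 1) * (96 * 6 / r) * ‖(2 * Real.pi * I : ℂ)‖) := by gcongr
    _ = _ := by ring

theorem LAND.log_sq {t : ℝ} (h0 : 0 < t) (h : t ≤ 40) : t * Real.log t ^ 2 ≤ 64000 := by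
  rcases le_total t 1 with h1 | h1
  · have h2 : 0 < √t := Real.sqrt_pos.mpr h0
    have h3 := Real.log_le_sub_one_of_pos (inv_pos.mpr h2)
    rw [Real.log_inv, Real.log_sqrt h0.le] at h3
    have h4 := Real.log_nonpos h0.le h1
    have h5 : √t * -Real.log t ≤ 2 := by
      have := mul_le_mul_of_nonneg_left h3 h2.le
      rw [mul_sub, mul_inv_cancel₀ h2.ne'] at this
      linarith
    have h6 : 0 ≤ √t * -Real.log t := mul_nonneg h2.le (by linarith)
    have h7 : t * Real.log t ^ 2 = (√t * -Real.log t) ^ 2 := by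
      rw [mul_pow, Real.sq_sqrt h0.le]; ring
    nlinarith
  · have h2 := Real.log_le_sub_one_of_pos h0
    have h3 := Real.log_nonneg h1
    have h4 : Real.log t ^ 2 ≤ 40 ^ 2 := pow_le_pow_left₀ h3 (by linarith) 2
    nlinarith

theorem st_LAND : St_LAND := by
  refine ⟨10 ^ 10, by norm_num, fun f c r hr hf h01 h40 => ?_⟩
  have h1 := LAND.explicit _ c hr f hf h01 rfl
  have h0 : 0 < ‖f c‖ := norm_pos_iff.mpr (h01 c (mem_ball_self hr)).1
  have h2 : ‖(2 * Real.pi * I : ℂ)‖ = 2 * π := by simp [abs_of_pos Real.pi_pos]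
  have h3 : ‖log (f c)‖ ^ 2 ≤ Real.log ‖f c‖ ^ 2 + 16 := by
    rw [Complex.sq_norm, normSq_apply, log_re, log_im]
    have := abs_le.mp (abs_arg_le_pi (f c))
    nlinarith [Real.pi_lt_four, Real.pi_pos]
  have h4 : ‖(log (f c) / (2 * Real.pi * I)) ^ 2 - 1‖ ≤ Real.log ‖f c‖ ^ 2 + 17 := by
    refine (norm_sub_le _ _).trans ?_
    rw [norm_pow, norm_div, h2, norm_one, div_pow]
    have h5 : ‖log (f c)‖ ^ 2 / (2 * π) ^ 2 ≤ ‖log (f c)‖ ^ 2 :=
      div_le_self (by positivity) (by nlinarith [Real.pi_gt_three])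
    linarith
  have h5 := LAND.log_sq h0 h40
  rw [h2, ← mul_div_assoc, le_div_iff₀ hr] at h1
  have h6 : ‖f c‖ * (‖(log (f c) / (2 * Real.pi * I)) ^ 2 - 1‖ + 1) ≤ 65000 := by nlinarith
  have h7 : 0 ≤ ‖f c‖ * (‖(log (f c) / (2 * Real.pi * I)) ^ 2 - 1‖ + 1) := by positivity
  nlinarith [Real.pi_lt_four, Real.pi_pos]

end RT95
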