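import Pool.Agent.Lib.RT95.Blue
import Pool.Agent.Lib.RT.T34g

/-! The slits of a model carry logarithms. -/

set_option autoImplicit false

open Filter Topology Set Metric Complex Bornology MeasureTheory N62a1eb23
open scoped Real ENNReal

namespace RT95

open Pool.Agent.Lib.MP_c35c17_an KN KR73

namespace XLG

variable {n : ℕ} (σ : Sy n)

theorem conj (z : ℂ) (hz : 0 < z.re) : σ.G (σ.B z) = σ.B (n * z) := by
  refine (σ.conj z.re z.im hz).trans (congrArg _ (Complex.ext ?_ ?_)) <;> simp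

theorem rot (z : ℂ) (hz : 0 < z.re) : σ.B (z + I / n) = exp (2 * π * I / n) * σ.B z := by
  refine Eq.trans (congrArg _ (Complex.ext ?_ ?_)) (σ.rot z.re z.im hz)
  · simp [div_re]
  · rw [add_im, ← ofReal_natCast, div_ofReal_im, I_im]

theorem inj (z w : ℂ) (hz : 0 < z.re) (hw : 0 < w.re) (e : σ.B z = σ.B w) :
    ∃ m : ℤ, z = w + m * I := by
  obtain ⟨a, m, b⟩ := σ.inj z w hz hw e
  exact ⟨m, Complex.ext (by simpa using a) (by simpa using b)⟩

theorem tend (x : ℝ) : Tendsto (fun t : ℝ => ‖σ.B ⟨t, x⟩‖) atTop atTop := by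
  obtain ⟨T, hT⟩ := σ.far (1 / 2) one_half_pos
  have h1 : Tendsto (fun t : ℝ => 1 / 2 * Real.exp (2 * π * (σ.κ * t))) atTop atTop :=
    (Real.tendsto_exp_atTop.comp ((tendsto_id.const_mul_atTop σ.κpos).const_mul_atTop
      Real.two_pi_pos)).const_mul_atTop one_half_pos
  refine tendsto_atTop_mono' _ ((eventually_ge_atTop T).mono fun t ht => ?_) h1
  have h2 := norm_sub_norm_le 1 (σ.B ⟨t, x⟩ / exp (2 * π * (⟨σ.κ * t, x⟩ : ℂ)))
  rw [norm_sub_rev, norm_one, norm_div, norm_chart] at h2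
  rw [← le_div_iff₀ (Real.exp_pos _)]
  linarith [hT t x ht]

theorem cont : Continuous σ.G := σ.hom.continuous.comp (continuous_pow n)

end XLG

theorem st_LG {n : ℕ} (hn : 2 ≤ n) : St_LG n := fun σ L μ l hl =>
  (RT34.sl_lg (ϑ := μ.ϑ) hn (XLG.cont σ) σ.cont (XLG.inj σ) (XLG.tend σ) μ.cpt μ.zp μ.gpos
    (RT34.inj_iter fun k hk => ⟨μ.A (nu n μ.ϑ k), fun z hz => by
      obtain ⟨y, hy, rfl⟩ := μ.sect k (by omega) (Or.inl hz)
      rw [μ.inv _ y hy]⟩)
    (RT34.sl_top (hom := σ.hom) hn (fun _ => rfl) (XLG.conj σ) (XLG.rot σ) μ.top0 l)).2.2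

end RT95
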