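import Pool.Agent.Lib.RT95.Blue
import Pool.Agent.Lib.RT.T2

/-! Last hits of the legs. -/

set_option autoImplicit false

open Filter Topology Set Metric Complex

namespace RT95

namespace LHX

theorem tip_pos {n q : ℕ} (hn : 2 ≤ n) {g : ℝ} (hg : 0 < g) (k : ℕ) : 0 < tip n q g k := by
  have : (0 : ℝ) < n := by exact_mod_cast (by omega : 0 < n)
  unfold tip
  positivity

theorem step {n q j₀ j₂ : ℕ} {Λ : ℂ → ℂ} {L : ℕ} {g ϑ : ℝ} (h : Lm n q j₂ Λ)
    (l : Legs n q j₀ Λ L g ϑ) {k : ℕ} {u T : ℝ} (hL : (k + 1 + j₀ + 2) * q ≤ L)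
    (hu : (n : ℝ) * u < ((n : ℝ) ^ (j₀ + j₂ + 4))⁻¹) (hT : LH n q Λ g ϑ k u T) :
    LH n q Λ g ϑ (k + 1) (n * u) ((n : ℝ) ^ q * T) := by
  have n2 : (2 : ℝ) ≤ n := by exact_mod_cast h.hn
  have n0 : (0 : ℝ) < n := by linarith
  have nq : (0 : ℝ) < (n : ℝ) ^ q := by positivity
  have t0 := tip_pos (q := q) h.hn l.gpos k
  have ey : ∀ t : ℝ, yy n q Λ ϑ (k + 1) ((n : ℝ) ^ q * t) =
      Λ ⟨(n : ℝ) ^ q * t, (n : ℝ) ^ q * ((n : ℝ) ^ (k * q) * ϑ / n)⟩ := fun t => by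
    unfold yy
    congr 2
    ring
  have fe : ∀ t, tip n q g k ≤ t → (yy n q Λ ϑ k t).re < 5 / 8 →
      (yy n q Λ ϑ (k + 1) ((n : ℝ) ^ q * t)).re = n * (yy n q Λ ϑ k t).re := fun t ht hr => by
    obtain ⟨m, hm⟩ := h.fe t _ (t0.trans_le ht) hr
    rw [ey, hm]
    simp [yy]
  have u1 : ((n : ℝ) ^ (j₀ + j₂ + 4))⁻¹ ≤ ((n : ℝ) ^ (j₀ + 2 + 1 + j₂))⁻¹ :=
    inv_anti₀ (by positivity) (pow_le_pow_right₀ (by linarith) (by omega))
  have u2 : ((n : ℝ) ^ (j₀ + j₂ + 4))⁻¹ ≤ 1 := inv_le_one_of_one_le₀ (one_le_pow₀ (by linarith))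
  have u0 : 0 < u := hT.2.1 ▸ h.pos _ (t0.trans_le hT.1)
  refine ⟨?_, ?_, fun t ht => ?_⟩
  · refine le_trans (le_of_eq ?_) (mul_le_mul_of_nonneg_left hT.1 nq.le)
    unfold tip
    ring
  · rw [fe T hT.1 (by rw [hT.2.1]; nlinarith), hT.2.1]
  · have h3 : T < t / (n : ℝ) ^ q := by rwa [lt_div_iff₀' nq]
    rw [← mul_div_cancel₀ t nq.ne']
    generalize t / (n : ℝ) ^ q = t' at h3
    rcases lt_or_ge (yy n q Λ ϑ k t').re (5 / 8) with c | c
    · rw [fe _ (hT.1.trans h3.le) c]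
      exact mul_lt_mul_of_pos_left (hT.2.2 _ h3) n0
    · have h4 : ((n : ℝ) ^ ((1 + j₀ + 2) * q))⁻¹ ≤ t' := le_of_not_gt fun c' => by
        have h5 := l.up 1 k t' hL (hT.1.trans h3.le) c'
        have h6 : ((n : ℝ) ^ 1)⁻¹ ≤ 2⁻¹ := inv_anti₀ two_pos (by rwa [pow_one])
        linarith
      rw [ey]
      refine (hu.trans_le u1).trans_le (h.low (j₀ + 2) _ _ ?_)
      refine le_trans (le_of_eq ?_) (mul_le_mul_of_nonneg_left h4 nq.le)
      field_simp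
      ring

end LHX

theorem st_LH : St_LH := by
  intro n q j₀ j₂ Λ L g ϑ h l
  have n1 : (1 : ℝ) ≤ n := by exact_mod_cast (by have := h.hn; omega : 1 ≤ n)
  refine ⟨fun k u hu => RT2.last_hit (f := fun t => (yy n q Λ ϑ k t).re) ?_ hu ?_, fun k i u T => ?_⟩
  · refine continuous_re.comp_continuousOn (h.cont.comp (Continuous.continuousOn ?_)
      fun t ht => (LHX.tip_pos h.hn l.gpos k).trans_le ht)
    exact equivRealProdCLM.symm.continuous.comp (continuous_id.prodMk continuous_const)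
  · refine tendsto_atTop.2 fun u => ?_
    obtain ⟨T, hT⟩ := h.re u
    exact eventually_atTop.2 ⟨T, fun t ht => hT t _ ht⟩
  · induction i with
    | zero => intro _ _ hT; simpa using hT
    | succ i ih =>
      intro hL hu hT
      have u0 : 0 < u := hT.2.1 ▸ h.pos _ ((LHX.tip_pos h.hn l.gpos k).trans_le hT.1)
      have h1 := LHX.step h l (k := k + i) (le_trans (Nat.mul_le_mul_right _ (by omega)) hL)
        (by rwa [← mul_assoc, ← pow_succ'])
        (ih (le_trans (Nat.mul_le_mul_right _ (by omega)) hL) (lt_of_le_of_lt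
          (mul_le_mul_of_nonneg_right (pow_le_pow_right₀ n1 i.le_succ) u0.le) hu) hT)
      rwa [← mul_assoc, ← pow_succ', ← mul_assoc, ← pow_add, add_comm q, ← add_one_mul] at h1

end RT95
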