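import Pool.Agent.Lib.RT95.Blue
import Pool.Agent.Lib.RT.T27
import Pool.Agent.Lib.RT.T34g
import Pool.Agent.Lib.KN55.B_JAN

/-! Block MD: a raw model has inverse branches. -/

set_option autoImplicit false

open Filter Topology Set Metric Complex Bornology MeasureTheory N62a1eb23
open scoped Real ENNReal

namespace RT95

open Pool.Agent.Lib.MP_c35c17_an KN KR73

namespace XMD

variable {n : ℕ} (σ : Sy n)

theorem conj' (z : ℂ) (hz : 0 < z.re) : σ.G (σ.B z) = σ.B (n * z) := by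
  have h := σ.conj z.re z.im hz
  rwa [← RT27.mk_mul] at h

theorem rot' (z : ℂ) (hz : 0 < z.re) : σ.B (z + I / n) = exp (2 * π * I / n) * σ.B z := by
  refine Eq.trans (congrArg _ (Complex.ext ?_ ?_)) (σ.rot z.re z.im hz)
  · simp [div_re]
  · rw [add_im, ← ofReal_natCast, div_ofReal_im, I_im]

theorem inj' (z w : ℂ) (hz : 0 < z.re) (hw : 0 < w.re) (e : σ.B z = σ.B w) :
    ∃ m : ℤ, z = w + m * I := by
  obtain ⟨a, m, b⟩ := σ.inj z w hz hw e
  exact ⟨m, Complex.ext (by simpa using a) (by simpa using b)⟩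

theorem tends (x : ℝ) : Tendsto (fun t : ℝ => ‖σ.B ⟨t, x⟩‖) atTop atTop := by
  obtain ⟨T, hT⟩ := σ.far (1 / 2) one_half_pos
  have h1 : Tendsto (fun t : ℝ => Real.exp (2 * π * (σ.κ * t)) * (1 / 2)) atTop atTop :=
    (Real.tendsto_exp_atTop.comp ((tendsto_id.const_mul_atTop σ.κpos).const_mul_atTop
      Real.two_pi_pos)).atTop_mul_const one_half_pos
  refine tendsto_atTop_mono' _ ?_ h1
  filter_upwards [eventually_ge_atTop T] with t ht
  have h2 := (norm_sub_norm_le 1 _).trans ((norm_sub_rev _ _).trans_le (hT t x ht))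
  have h3 : ‖exp (2 * π * (⟨σ.κ * t, x⟩ : ℂ))‖ = Real.exp (2 * π * (σ.κ * t)) := by
    rw [norm_exp]
    simp
  rw [norm_one, norm_div, h3] at h2
  rw [← le_div_iff₀' (Real.exp_pos _)]
  linarith

theorem G_cont : Continuous σ.G := σ.hom.continuous.comp (continuous_pow n)

end XMD

open XMD in
theorem st_MD {n : ℕ} (hn : 2 ≤ n) : St_MD n := by
  intro σ L ρ
  have top := RT34.sl_top hn (G := σ.G) (hom := σ.hom) (fun _ => rfl) (conj' σ) (rot' σ) ρ.top0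
  obtain ⟨hcl, hub, hlg⟩ : IsClosed (ρ.S 0) ∧ ¬ IsBounded (ρ.S 0) ∧ Lg (ρ.S 0) :=
    RT34.sl_lg (ϑ := ρ.ϑ) hn (G_cont σ) σ.cont (inj' σ) (tends σ) ρ.cpt ρ.zp ρ.gpos (l := 0)
      (injOn_id _) (top 0)
  have hco : ∀ l, IsPreconnected (ρ.S l) :=
    RT34.sl_conn hn (G_cont σ) σ.cont (conj' σ) ρ.pre ρ.gpos ρ.base
  have hoff : ∀ t x : ℝ, ρ.g < t → σ.B ⟨t, x⟩ ∈ ρ.S 0 → Cg x ρ.ϑ := fun t x ht h => by
    simpa using RT34.sl_off (ϑ := ρ.ϑ) hn (inj' σ) ρ.gpos (top 0) (by simpa using ht) h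
  obtain ⟨r, h1, h2, h3, h4, h5⟩ := RT27.roots hn σ.hom σ.cont (conj' σ) (rot' σ) hcl (hco 0) hub
    (by
      have h1 := st_JAN ρ.S {0} (finite_singleton 0) (fun l hl => hl ▸ hcl) (fun l hl => hl ▸ hlg)
        fun l hl l' hl' e => (e (hl.trans hl'.symm)).elim
      rwa [show Om ρ.S {0} = (ρ.S 0)ᶜ by ext; simp [Om]] at h1)
    (Or.inl ⟨_, ρ.mem, rfl⟩) ρ.gpos fun t x ht e1 e2 h =>
      e1.ne' ((hoff t x ht h).eq_of_abs (abs_lt.mpr ⟨by linarith, by linarith⟩))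
  have hs : ∀ y ∉ ρ.S 0, σ.hom (σ.hom.symm y) ∉ ρ.S 0 := fun y hy => by
    rwa [σ.hom.apply_symm_apply]
  have ho := (hcl.preimage σ.hom.continuous).isOpen_compl
  have hinv : ∀ a, ∀ y ∉ ρ.S 0, σ.G (r a (σ.hom.symm y)) = y := fun a y hy => by
    rw [Sy.G, G0, h2 a _ (hs y hy), σ.hom.apply_symm_apply]
  have hdj : ∀ a b, ∀ y ∉ ρ.S 0, ∀ y' ∉ ρ.S 0, r a (σ.hom.symm y) = r b (σ.hom.symm y') → a = b :=
    fun a b y hy y' hy' e => by
      have e1 : y = y' := by rw [← hinv a y hy, e, hinv b y' hy']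
      subst e1
      exact h3 a b _ (hs y hy) e
  have hsu : ∀ y, σ.G y ∉ ρ.S 0 → ∃ a, y = r a (σ.hom.symm (σ.G y)) := fun y hy => by
    obtain ⟨a, ha⟩ := h4 y hy
    exact ⟨a, by rwa [Sy.G, G0, σ.hom.symm_apply_apply]⟩
  have hop : ∀ a, IsOpen ((fun y => r a (σ.hom.symm y)) '' (ρ.S 0)ᶜ) := fun a => by
    rw [← image_image (r a) σ.hom.symm]
    refine Q.isOpen_image_of_injOn ho (h1 a)
      (fun z hz z' hz' e => by rw [← h2 a z hz, e, h2 a z' hz']) _ ?_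
      (σ.hom.symm.isOpenMap _ hcl.isOpen_compl)
    rintro _ ⟨y, hy, rfl⟩
    exact hs y hy
  refine ⟨⟨ρ, fun a y => r a (σ.hom.symm y), fun a => ?_, fun a y hy hd => ?_, hinv, hdj, hsu, hop,
    fun l hl => ?_, h5⟩, rfl⟩
  · exact (h1 a).continuousOn.comp σ.hom.symm.continuous.continuousOn fun y hy => hs y hy
  · exact ((h1 a).differentiableAt (ho.mem_nhds (hs y hy))).comp y hd
  · have h0 := mul_pos (npow_pos hn l) ρ.gpos
    refine RT27.sect hn (G := σ.G) (g := fun a y => r a (σ.hom.symm y))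
      (t := (n : ℝ) ^ l * ρ.g + ρ.g) (conj' σ) (rot' σ) hop hdj hsu h5
      (fun t ht => Or.inr ⟨t, by simpa using ht.le, by simp⟩) ρ.gpos (hco l)
      (fun y hy => disjoint_left.mp (ρ.dis (l + 1) (by omega) (by omega))
        (RT34.sl_map hn (conj' σ) ρ.gpos l hy))
      (by nlinarith [ntwo hn, ρ.gpos]) (Or.inr ⟨_, le_add_of_nonneg_right ρ.gpos.le, rfl⟩)

end RT95
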