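import Pool.Agent.Lib.RT95.K17

/-! Block MISS: cylinders miss the border slits. -/

set_option autoImplicit false

open Filter Topology Set Metric Complex Bornology MeasureTheory N62a1eb23
open scoped Real ENNReal

namespace RT95

open Pool.Agent.Lib.MP_c35c17_an KN KR73

theorem st_MISS {n : ℕ} (hn : 2 ≤ n) : St_MISS n := by
  have _ := hn
  intro σ L μ b g d T hO
  have hd := hO.ss_le7
  have hL := hO.hor
  have hs : ss d = 4 * d + 4 := rfl
  refine ⟨fun i' y h1 h2 h => ?_, fun k h1 h2 => ?_⟩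
  · obtain ⟨x, hx, hne⟩ := hO.nr i' h1 h2
    obtain ⟨e, rfl⟩ := Nat.exists_eq_add_of_le (not_lt.mp fun hlt => hne (h x hlt))
    refine ⟨by omega, disjoint_left.mpr fun z hz hS => hne ?_⟩
    rw [← add_assoc]
    exact μ.V_uniq7 (hz e (by omega)) (μ.S_V7 (by omega) (μ.S_iter7 hS e))
  · obtain ⟨x, hx, hne⟩ := hO.nr k h1 h2
    refine disjoint_left.mpr fun z hS hz => hne ?_
    have h := hz x hx
    rw [zero_add] at h
    exact μ.V_uniq7 (μ.S_V7 (by omega) (μ.S_iter7 hS x)) h

end RT95
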