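import Pool.Agent.Lib.RT95.Blue

/-! The new raw model after one renormalization step. -/

set_option autoImplicit false

open Filter Topology Set Metric Complex Bornology MeasureTheory N62a1eb23
open scoped Real ENNReal

namespace RT95

open Pool.Agent.Lib.MP_c35c17_an KN KR73

namespace NEW

variable {n : ℕ}

theorem one_lt (σ : Sy n) : (1 : ℝ) < n := by exact_mod_cast lt_of_lt_of_le one_lt_two σ.hn

theorem iter (σ : Sy n) (l : ℕ) {t : ℝ} (x : ℝ) (ht : 0 < t) :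
    σ.G^[l] (σ.B ⟨t, x⟩) = σ.B ⟨(n : ℝ) ^ l * t, (n : ℝ) ^ l * x⟩ := by
  have h1 := one_lt σ
  induction l with
  | zero => simp
  | succ l ih =>
    rw [Function.iterate_succ_apply', ih, Sy.G, σ.conj _ _ (by positivity), pow_succ',
      mul_assoc, mul_assoc]

theorem rotk (σ : Sy n) (k : ℕ) {t : ℝ} (x : ℝ) (ht : 0 < t) :
    σ.B ⟨t, x + k / n⟩ = exp (2 * π * I / n) ^ k * σ.B ⟨t, x⟩ := by
  induction k with
  | zero => simp
  | succ k ih =>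
    have : x + ((k + 1 : ℕ) : ℝ) / n = x + k / n + 1 / n := by push_cast; ring
    rw [this, σ.rot _ _ ht, ih, pow_succ']
    ring

theorem pre1 (σ : Sy n) {u ζ : ℂ} (hζ : 0 < ζ.re) (h : σ.G u = σ.B ζ) :
    ∃ ξ : ℂ, n * ξ.re = ζ.re ∧ u = σ.B ξ := by
  have h1 := one_lt σ
  have hn0 : n ≠ 0 := by have := σ.hn; omega
  have ht : 0 < ζ.re / n := by positivity
  have hc := σ.conj (ζ.re / n) (ζ.im / n) ht
  rw [mul_div_cancel₀ _ (by positivity), mul_div_cancel₀ _ (by positivity)] at hc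
  have hv : σ.B ⟨ζ.re / n, ζ.im / n⟩ ≠ 0 := σ.orb 0 _ ht
  have he : u ^ n = σ.B ⟨ζ.re / n, ζ.im / n⟩ ^ n := σ.hom.injective (h.trans hc.symm)
  have : NeZero n := ⟨hn0⟩
  obtain ⟨i, -, hi⟩ := (Complex.isPrimitiveRoot_exp n hn0).eq_pow_of_pow_eq_one
    (ξ := u / σ.B ⟨ζ.re / n, ζ.im / n⟩) (by rw [div_pow, he, div_self (pow_ne_zero _ hv)])
  refine ⟨⟨ζ.re / n, ζ.im / n + i / n⟩, mul_div_cancel₀ _ (by positivity), ?_⟩
  rw [rotk σ i _ ht, hi, div_mul_cancel₀ _ hv]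

theorem prel (σ : Sy n) (l : ℕ) {u ζ : ℂ} (hζ : 0 < ζ.re) (h : σ.G^[l] u = σ.B ζ) :
    ∃ ξ : ℂ, (n : ℝ) ^ l * ξ.re = ζ.re ∧ u = σ.B ξ := by
  have h1 := one_lt σ
  induction l generalizing ζ with
  | zero => exact ⟨ζ, by simp, h⟩
  | succ l ih =>
    rw [Function.iterate_succ_apply'] at h
    obtain ⟨ξ, h2, h3⟩ := pre1 σ hζ h
    have hξ : 0 < ξ.re := by
      rw [← h2] at hζ
      exact (mul_pos_iff_of_pos_left (by positivity)).1 hζ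
    obtain ⟨η, h4, h5⟩ := ih hξ h3
    exact ⟨η, by rw [← h2, ← h4, pow_succ', mul_assoc], h5⟩

theorem top {σ : Sy n} {L : ℕ} (ρ : Raw σ L) (l : ℕ) {ζ : ℂ} (hζ : 0 < ζ.re)
    (h : σ.B ζ ∈ σ.G^[l] '' ρ.D) : ζ.re ≤ (n : ℝ) ^ l * ρ.g := by
  have h1 := one_lt σ
  obtain ⟨d, hd, h⟩ := h
  obtain ⟨ξ, h2, rfl⟩ := prel σ l hζ h
  have hξ : 0 < ξ.re := by
    rw [← h2] at hζ
    exact (mul_pos_iff_of_pos_left (by positivity)).1 hζ
  rw [← h2]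
  exact mul_le_mul_of_nonneg_left (ρ.top0 ξ hξ hd) (by positivity)

theorem S_map {σ : Sy n} {L : ℕ} (ρ : Raw σ L) {l : ℕ} {z : ℂ} (hz : z ∈ ρ.S l) :
    σ.G z ∈ ρ.S (l + 1) := by
  have h1 := one_lt σ
  have hg := ρ.gpos
  rcases hz with ⟨d, hd, rfl⟩ | ⟨t, ht, rfl⟩
  · exact Or.inl ⟨d, hd, Function.iterate_succ_apply' _ _ _⟩
  · have ht' : (n : ℝ) ^ l * ρ.g ≤ t := ht
    have ht0 : 0 < t := lt_of_lt_of_le (by positivity) ht'
    refine Or.inr ⟨n * t, ?_, ?_⟩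
    · rw [mem_Ici, pow_succ', mul_assoc]
      exact mul_le_mul_of_nonneg_left ht' (by positivity)
    · simp only [Sy.G]
      rw [σ.conj _ _ ht0, pow_succ', mul_assoc]

theorem S_iter {σ : Sy n} {L : ℕ} (ρ : Raw σ L) {l : ℕ} {z : ℂ} (hz : z ∈ ρ.S l) (j : ℕ) :
    σ.G^[j] z ∈ ρ.S (l + j) := by
  induction j with
  | zero => exact hz
  | succ j ih =>
    rw [Function.iterate_succ_apply']
    exact S_map ρ ih

end NEW

open NEW in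
theorem st_NEW {n : ℕ} (hn : 2 ≤ n) (hDN : St_DN n) : St_NEW n := by
  intro σ σ' ν q s j₀ j₂ Λ L μ L' τ hs hup hΛ hB hgood hL hdis htip
  have h1 := one_lt σ
  have hn0 : (n : ℝ) ≠ 0 := by positivity
  have hg := μ.gpos
  obtain ⟨k, rfl⟩ : ∃ k, q = k + 1 := ⟨q - 1, by have := hΛ.q1; omega⟩
  simp only [Nat.add_sub_cancel] at hdis
  have htp : tip n (k + 1) μ.g 1 = (n : ℝ) ^ k * μ.g := by
    rw [tip, one_mul, pow_succ]
    field_simp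
  have hyy : ∀ t, yy n (k + 1) Λ μ.ϑ 1 t = Λ ⟨t, (n : ℝ) ^ k * μ.ϑ⟩ := fun t => by
    rw [yy, one_mul, pow_succ]
    congr 2
    field_simp
  obtain ⟨hlo, hhi, hmx, ⟨j, hjL, hj1, hj2⟩, hmar⟩ := htip
  rw [htp] at hlo hmx hj1 hmar
  simp only [hyy] at hmx hj2 hmar ⊢
  have htp0 : 0 < (n : ℝ) ^ k * μ.g := by positivity
  have hτ : 0 < τ := htp0.trans_le hlo
  have h3 : 3 * (k + 1) ≤ L := le_trans (Nat.mul_le_mul_right _ (by omega)) hL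
  set E0 : Set ℂ := σ.G^[k] '' μ.D ∪
    (fun t : ℝ => σ.B ⟨t, (n : ℝ) ^ k * μ.ϑ⟩) '' Icc ((n : ℝ) ^ k * μ.g) τ with hE0
  obtain ⟨hc, hp, hz⟩ := hDN σ L μ k τ s _ (by omega) hs hlo rfl
  rw [← hE0] at hc hp hz
  set y := Λ ⟨τ, (n : ℝ) ^ k * μ.ϑ⟩ with hy
  have hypos : 0 < y.re := hΛ.pos _ hτ
  have hES : ∀ z ∈ E0, z ∈ μ.S k := by
    rintro z (hz | ⟨t, ht, rfl⟩)
    · exact Or.inl hz
    · exact Or.inr ⟨t, ht.1, rfl⟩
  have hGS : ∀ z ∈ E0, σ.G z ∈ μ.S (1 * (k + 1)) := fun z hz => by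
    rw [one_mul]
    exact S_map μ.toRaw (hES z hz)
  -- points of the image of the old continuum are deep
  have hdeep : ∀ z ∈ σ.G^[k] '' μ.D, ∀ ζ : ℂ, 0 < ζ.re → σ'.B ζ = z / s →
      (n : ℝ) ^ (L' + 1) * ζ.re < y.re := by
    intro z hz ζ hζ hζz
    have hne : z ∉ σ.Ext ((n : ℝ) ^ ((j + j₀ + 2) * (k + 1)))⁻¹ := by
      rintro ⟨ξ, hξ, rfl⟩
      have hξ' : ((n : ℝ) ^ ((j + j₀ + 2) * (k + 1)))⁻¹ ≤ ξ.re := hξ
      have := top μ.toRaw k (lt_of_lt_of_le (by positivity) hξ') hz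
      linarith
    have := (hup L μ hgood h3 j 1 z hjL (hGS z (Or.inl hz)) hne).1
    have h4 : ζ.re < ((n : ℝ) ^ j)⁻¹ := by
      by_contra hh
      exact this ⟨ζ, not_lt.1 hh, hζz⟩
    exact lt_of_lt_of_le (mul_lt_mul_of_pos_left h4 (by positivity)) hj2
  have htop : ∀ ζ : ℂ, 0 < ζ.re → σ'.B ζ ∈ (fun z => z / s) '' E0 → ζ.re ≤ y.re := by
    rintro ζ hζ ⟨z, hz | ⟨t, ht, rfl⟩, hzζ⟩
    · have := hdeep z hz ζ hζ hzζ.symm
      have h5 : (1 : ℝ) ≤ (n : ℝ) ^ (L' + 1) := one_le_pow₀ h1.le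
      nlinarith
    · have ht0 : 0 < t := htp0.trans_le ht.1
      have h5 := hB ⟨t, (n : ℝ) ^ k * μ.ϑ⟩ ht0
      have h6 := (σ'.inj _ _ hζ (hΛ.pos _ ht0) (hzζ.symm.trans h5.symm)).1
      rw [h6]
      exact hmx t ht
  -- the new map acts as the return map
  have hret : ∀ z ∈ E0, ∀ l ≤ L' + 1, σ'.G^[l] (z / s) = σ.G^[l * (k + 1)] z / s := by
    intro z hz l hl
    have hne : z ∉ σ.Ext ((n : ℝ) ^ ((L' + 1 + j₀ + 2) * (k + 1)))⁻¹ := by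
      rintro ⟨ξ, hξ, rfl⟩
      have hξ' : ((n : ℝ) ^ ((L' + 1 + j₀ + 2) * (k + 1)))⁻¹ ≤ ξ.re := hξ
      have hξ0 : 0 < ξ.re := lt_of_lt_of_le (by positivity) hξ'
      rcases hz with hz | ⟨t, ht, hz⟩
      · have := top μ.toRaw k hξ0 hz
        linarith
      · have h6 := (σ.inj _ _ (htp0.trans_le ht.1) hξ0 hz).1
        have h7 : t = ξ.re := h6
        linarith [ht.2]
    refine (hup L μ hgood h3 (L' + 1) 1 z ?_ (hGS z hz) hne).2 l (by omega)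
    rw [show 1 + (L' + 1) + j₀ + 2 = L' + j₀ + 4 by ring]
    exact hL
  refine ⟨⟨(fun z => z / s) '' E0, y.re, y.im, hypos, hc, hp, hz, ?_, ?_, htop, ?_⟩, rfl, rfl⟩
  · have h0 : σ.G 0 = σ.hom 0 := by
      simp only [Sy.G, G0]
      rw [zero_pow (by omega)]
    have h0' : σ'.G 0 = σ'.hom 0 := by
      simp only [Sy.G, G0]
      rw [zero_pow (by omega)]
    have hne : (0 : ℂ) ∉ σ.Ext ((n : ℝ) ^ ((0 + j₀ + 2) * (k + 1)))⁻¹ := by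
      rintro ⟨ξ, hξ, h⟩
      have hξ' : ((n : ℝ) ^ ((0 + j₀ + 2) * (k + 1)))⁻¹ ≤ ξ.re := hξ
      exact σ.orb 0 ξ (lt_of_lt_of_le (by positivity) hξ') h
    have h5 := (hup L μ hgood h3 0 0 0 (le_trans (Nat.mul_le_mul_right _ (by omega)) hL)
      (by rw [zero_mul, h0]; exact Or.inl ⟨_, μ.mem, rfl⟩) hne).2 1 (by omega)
    rw [zero_div, Function.iterate_one, h0', one_mul, Function.iterate_succ_apply, h0] at h5
    exact ⟨_, Or.inl ⟨_, μ.mem, rfl⟩, h5.symm⟩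
  · exact ⟨_, Or.inr ⟨τ, ⟨hlo, le_rfl⟩, rfl⟩, (hB ⟨τ, (n : ℝ) ^ k * μ.ϑ⟩ hτ).symm⟩
  · intro l hl1 hl2
    have hnl : (1 : ℝ) < (n : ℝ) ^ l := one_lt_pow₀ h1 (by omega)
    rw [Set.disjoint_left]
    rintro u (⟨_, ⟨z, hz, rfl⟩, rfl⟩ | ⟨t, ht, rfl⟩) (⟨v, hv, h⟩ | ⟨t', ht', h⟩)
    · obtain ⟨z', hz', rfl⟩ := hv
      rw [hret z hz l hl2] at h
      have h' : z' = σ.G^[l * (k + 1)] z := by
        simpa [hs] using h
      exact Set.disjoint_left.1 (hdis l hl1 hl2) (S_iter μ.toRaw (hES z hz) _) (h' ▸ hES z' hz')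
    · simp only [pow_zero, one_mul, mem_Ici] at ht' h
      have ht0' : 0 < t' := hypos.trans_le ht'
      rcases hz with hz | ⟨t, ht, rfl⟩
      · obtain ⟨ξ, h5, h6⟩ := prel σ' l (ζ := ⟨t', y.im⟩) ht0' h.symm
        have h5' : (n : ℝ) ^ l * ξ.re = t' := h5
        have hξ : 0 < ξ.re := by
          rw [← h5'] at ht0'
          exact (mul_pos_iff_of_pos_left (by positivity)).1 ht0'
        have h7 := hdeep z hz ξ hξ h6.symm
        have h8 : (n : ℝ) ^ l * ξ.re ≤ (n : ℝ) ^ (L' + 1) * ξ.re :=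
          mul_le_mul_of_nonneg_right (pow_le_pow_right₀ h1.le hl2) hξ.le
        linarith
      · have ht0 : 0 < t := htp0.trans_le ht.1
        have hp0 := hΛ.pos ⟨t, (n : ℝ) ^ k * μ.ϑ⟩ ht0
        rw [← hB ⟨t, (n : ℝ) ^ k * μ.ϑ⟩ ht0, ← Complex.eta (Λ ⟨t, (n : ℝ) ^ k * μ.ϑ⟩),
          iter σ' l _ hp0] at h
        obtain ⟨h5, h6⟩ := σ'.inj _ _ (by positivity : 0 < (n : ℝ) ^ l *
          (Λ ⟨t, (n : ℝ) ^ k * μ.ϑ⟩).re) ht0' h.symm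
        exact hmar l hl1 hl2 t ht (ht'.trans (le_of_eq h5.symm)) h6
    · have ht' : (n : ℝ) ^ l * y.re ≤ t := ht
      have h' : v = σ'.B ⟨t, (n : ℝ) ^ l * y.im⟩ := h
      have := htop ⟨t, (n : ℝ) ^ l * y.im⟩ (lt_of_lt_of_le (by positivity) ht') (h' ▸ hv)
      have h5 : t ≤ y.re := this
      nlinarith
    · simp only [pow_zero, one_mul, mem_Ici] at ht' h
      have ht1 : (n : ℝ) ^ l * y.re ≤ t := ht
      obtain ⟨-, h6⟩ := σ'.inj ⟨t, (n : ℝ) ^ l * y.im⟩ ⟨t', y.im⟩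
        (lt_of_lt_of_le (by positivity) ht1) (hypos.trans_le ht') h.symm
      exact hmar l hl1 hl2 τ ⟨hlo, le_rfl⟩ (by nlinarith) h6

end RT95
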