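import Pool.Agent.Lib.RT95.Blue

/-! The sizes of a level. -/

set_option autoImplicit false

open scoped Real

namespace RT95

open KR73

namespace NUM

theorem lip_ge {n : ℕ} (hn : 2 ≤ n) {b : ℝ} (hb : 100 ≤ b) : 4 * b ^ 4 ≤ Lip n b := by
  have h1 : (1 : ℝ) ≤ b ^ 4 := one_le_pow₀ (by linarith)
  have h2 : b ^ 4 ≤ (b ^ 4) ^ (n - 1) := le_self_pow₀ h1 (by omega)
  have h3 : (2 : ℝ) ≤ n := by exact_mod_cast hn
  rw [Lip]
  nlinarith

theorem quot {d t x a : ℕ} (hd : 20 ≤ d) (ha : 1 ≤ a) (h : d ^ (a + 1) ≤ x)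
    (ht : x ≤ t + ss d + 1) : (d : ℝ) ^ a ≤ 10 * ((t / ss d : ℕ) : ℝ) := by
  have h1 : d ^ a ≤ 10 * (t / ss d) := by
    have h2 : 0 < ss d := by rw [ss]; omega
    have h3 := Nat.lt_div_mul_add (a := t) h2
    have h4 : ss d ≤ 5 * d := by rw [ss]; omega
    have h5 : d ≤ d ^ a := Nat.le_self_pow (by omega) d
    have h6 : d ^ a * d ≤ (t / ss d + 2) * 5 * d := by
      rw [← pow_succ, mul_assoc]
      refine (h.trans ht).trans (le_trans ?_ (Nat.mul_le_mul_left _ h4))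
      rw [add_mul]
      omega
    have h7 : d ^ a ≤ (t / ss d + 2) * 5 := Nat.le_of_mul_le_mul_right h6 (by omega)
    omega
  exact_mod_cast h1

theorem ratio {C D m θ : ℝ} {a : ℕ} (hC : 0 < C) (hD : 0 < D) (hm : D ^ (a + 9) ≤ 10 * m)
    (hθ : 10 * C ^ 2 * θ ≤ D) : θ * D ^ a ≤ m / (C * D ^ 4) ^ 2 := by
  rw [le_div_iff₀ (by positivity)]
  have h1 := mul_le_mul_of_nonneg_right hθ (show 0 ≤ D ^ (a + 8) by positivity)
  have h2 : D * D ^ (a + 8) = D ^ (a + 9) := by ring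
  have h3 : θ * D ^ a * (C * D ^ 4) ^ 2 = 10 * C ^ 2 * θ * D ^ (a + 8) / 10 := by ring
  linarith

theorem nats {n d q : ℕ} (hn : 2 ≤ n) (hdn : 50 * n ≤ d) (hq : d ^ 28 ≤ q) :
    q - 1 - ss d + ss d + 1 = q ∧ (NN n d + 1) * ss d ≤ q - 1 - ss d ∧ 1 ≤ d ^ 18 ∧
      d ^ 18 ≤ q - 1 - ss d := by
  have hd20 : 100 ≤ d := by omega
  have hs : ss d + 1 ≤ 5 * d := by rw [ss]; omega
  have h0 : 0 < n * d ^ 2 := Nat.mul_pos (by omega) (Nat.pow_pos (by omega))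
  have h1 : NN n d + 1 ≤ 5 * n * d ^ 2 := by
    rw [NN, mul_assoc, mul_assoc]
    omega
  have ebig : (NN n d + 1) * ss d ≤ d ^ 4 :=
    calc (NN n d + 1) * ss d ≤ 5 * n * d ^ 2 * (5 * d) := Nat.mul_le_mul h1 (by omega)
      _ = 25 * n * d ^ 3 := by ring
      _ ≤ d * d ^ 3 := Nat.mul_le_mul_right _ (by omega)
      _ = d ^ 4 := by ring
  have e4 : d ^ 4 ≤ d ^ 18 := Nat.pow_le_pow_right (by omega) (by norm_num)
  have e1 : d ≤ d ^ 18 := Nat.le_self_pow (by norm_num) d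
  have e18 : 100 * d ^ 18 ≤ d ^ 28 := by
    refine le_trans ?_ (Nat.pow_le_pow_right (by omega) (show 19 ≤ 28 by norm_num))
    rw [pow_succ' d 18]; exact Nat.mul_le_mul_right _ hd20
  omega

end NUM

theorem st_NUM {n : ℕ} (hn : 2 ≤ n) : St_NUM n := by
  intro b C hb hC
  have hL := NUM.lip_ge hn hb
  have hb4 : (1 : ℝ) ≤ b ^ 4 := one_le_pow₀ (by linarith)
  have hL1 : 1 ≤ Lip n b := by linarith
  obtain ⟨l, hl0, hl⟩ : ∃ l : ℝ, 0 ≤ l ∧ Lip n b = Real.exp l :=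
    ⟨Real.log (Lip n b), Real.log_nonneg hL1, (Real.exp_log (by linarith)).symm⟩
  obtain ⟨A, hA⟩ : ∃ A : ℝ, A = l + 4002 := ⟨_, rfl⟩
  have hA0 : 0 < A := by linarith
  obtain ⟨θ, hθ⟩ : ∃ θ : ℝ, θ = 2000 + 15 * l + 16 * C ^ 2 + 10 * n * A := ⟨_, rfl⟩
  have hn0 : (2 : ℝ) ≤ n := by exact_mod_cast hn
  have hnA : 0 < 10 * n * A := by positivity
  have hC2 : 0 < C ^ 2 := by positivity
  have hθ0 : 0 < θ := by linarith
  have hb3 : 0 < b ^ (3 * n) := by positivity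
  refine ⟨⌈50 * (n : ℝ) + 10 ^ 4 * b ^ (3 * n) + 8 * C ^ 2 + 10 * C ^ 2 * θ⌉₊,
    fun d q hd hq1 hq2 => ?_⟩
  have hD := Nat.ceil_le.1 hd
  have hCθ : 0 < 10 * C ^ 2 * θ := by positivity
  have hdn : 50 * n ≤ d := by
    have : 50 * (n : ℝ) ≤ d := by linarith
    exact_mod_cast this
  have hd20 : 100 ≤ d := by omega
  have hD1 : (100 : ℝ) ≤ d := by exact_mod_cast hd20
  have hp : ∀ a a' : ℕ, a ≤ a' → (d : ℝ) ^ a ≤ (d : ℝ) ^ a' := fun a a' h =>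
    pow_le_pow_right₀ (by linarith) h
  have hN := NUM.nats hn hdn hq1
  have hM := NUM.quot (t := q - 1 - ss d) (a := 27) (by omega) (by norm_num) hq1 hN.1.ge
  have hM' := NUM.quot (d := d) (t := d ^ 18) (x := d ^ 18) (a := 17) (by omega) (by norm_num)
    le_rfl (by omega)
  have hq3 : (q : ℝ) ≤ ((d : ℝ) + 1) ^ 28 := by exact_mod_cast hq2.le
  have hq0 : 1 ≤ q := by have := hN.1; omega
  clear hq1 hq2 hd
  have hr := NUM.ratio (a := 18) (θ := θ) hC (by linarith) hM (by linarith)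
  have hr' := NUM.ratio (a := 8) (θ := θ) hC (by linarith) hM' (by linarith)
  have hW : 0 < (C * (d : ℝ) ^ 4) ^ 2 := by positivity
  have hW2 : (C * (d : ℝ) ^ 4) ^ 2 = C ^ 2 * (d : ℝ) ^ 8 := by ring
  have p0 : (1 : ℝ) ≤ (d : ℝ) ^ 8 := one_le_pow₀ (by linarith)
  have p1 : (d : ℝ) ≤ (d : ℝ) ^ 8 := le_self_pow₀ (by linarith) (by norm_num)
  have p8 := hp 8 18 (by norm_num)
  have p9 : 100 * (d : ℝ) ≤ (d : ℝ) ^ 18 := by
    have := hp 2 18 (by norm_num)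
    nlinarith
  have hqe : (q : ℝ) ≤ Real.exp (28 * d) := by
    refine hq3.trans ?_
    rw [show 28 * (d : ℝ) = (28 : ℕ) * (d : ℝ) by norm_num, Real.exp_nat_mul]
    exact pow_le_pow_left₀ (by linarith) (Real.add_one_le_exp _) _
  have hq0' : (1 : ℝ) ≤ q := by exact_mod_cast hq0
  have hb5 : 4 * b ^ 4 ≤ Real.exp l := hl ▸ hL
  have hsep : RT95.sep n b d (C * (d : ℝ) ^ 4) =
      Real.exp (-(l * (4 * d + 2)) - 2 * π * (C ^ 2 * (d : ℝ) ^ 8)) := by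
    rw [RT95.sep, hl, ← Real.exp_nat_mul, ← Real.exp_neg, ← Real.exp_add, hW2, ee]
    congr 1
    push_cast
    ring
  have hpi : π * (C ^ 2 * (d : ℝ) ^ 8) ≤ 4 * (C ^ 2 * (d : ℝ) ^ 8) :=
    mul_le_mul_of_nonneg_right Real.pi_le_four (by positivity)
  have hpi0 : 0 ≤ π * (C ^ 2 * (d : ℝ) ^ 8) := by positivity
  have l1 : l * d ≤ l * (d : ℝ) ^ 8 := mul_le_mul_of_nonneg_left p1 hl0
  have l0 : l * 100 ≤ l * d := mul_le_mul_of_nonneg_left hD1 hl0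
  have l9 : l * (100 * d) ≤ l * (d : ℝ) ^ 18 := mul_le_mul_of_nonneg_left p9 hl0
  have hx : A * (d : ℝ) ^ 18 = l * (d : ℝ) ^ 18 + 4002 * (d : ℝ) ^ 18 := by rw [hA]; ring
  have hgam : ∀ m : ℕ, gam b m (C * (d : ℝ) ^ 4) ≤ Real.exp (l - m / (C * (d : ℝ) ^ 4) ^ 2) :=
    fun m => by
      rw [gam, sub_eq_add_neg, Real.exp_add]
      exact mul_le_mul_of_nonneg_right hb5 (Real.exp_pos _).le
  have hg0 : ∀ m : ℕ, 0 < gam b m (C * (d : ℝ) ^ 4) := fun m => by rw [gam]; positivity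
  have hWm : ∀ m : ℝ, (d : ℝ) ^ 17 ≤ 10 * m → 100 * (C * (d : ℝ) ^ 4) ^ 2 ≤ m := fun m h => by
    have h1 : 1000 * C ^ 2 ≤ d := by nlinarith
    have h2 := mul_le_mul_of_nonneg_right h1 (show 0 ≤ (d : ℝ) ^ 8 by positivity)
    have h3 : (d : ℝ) * (d : ℝ) ^ 8 = (d : ℝ) ^ 9 := by ring
    have h4 := hp 9 17 (by norm_num)
    rw [hW2]
    linarith
  refine ⟨q - 1 - ss d, d ^ 18, (q - 1 - ss d) / ss d, d ^ 18 / ss d, Real.exp (A * (d : ℝ) ^ 18),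
    hN.1, by omega, hN.2.1, hN.2.2.1, hN.2.2.2, Nat.div_mul_le_self _ _,
    hWm _ ((hp 17 27 (by norm_num)).trans hM), Nat.div_mul_le_self _ _, hWm _ hM', ?_, ?_, ?_, ?_,
    ?_, hq0, ?_, ?_, ?_, ?_, hg0 _, ?_⟩
  · have h1 : 8 * b ^ 4 ≤ Real.exp (l + 1) := by
      rw [Real.exp_add]
      have := Real.add_one_le_exp 1
      nlinarith
    have h2 : (q : ℝ) ^ 34 ≤ Real.exp ((34 : ℕ) * (28 * d)) := by
      rw [Real.exp_nat_mul]
      exact pow_le_pow_left₀ (by linarith) hqe _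
    refine (mul_le_mul (mul_le_mul h1 h2 (by positivity) (Real.exp_pos _).le) (hgam _) (hg0 _).le
      (by positivity)).trans ?_
    rw [hsep, ← Real.exp_nat_mul, ← Real.exp_add, ← Real.exp_add, Real.exp_le_exp]
    have h3 : θ * (d : ℝ) ^ 8 = 2000 * (d : ℝ) ^ 8 + 15 * (l * (d : ℝ) ^ 8) +
        16 * (C ^ 2 * (d : ℝ) ^ 8) + 10 * n * A * (d : ℝ) ^ 8 := by rw [hθ]; ring
    have h4 : 0 ≤ 10 * n * A * (d : ℝ) ^ 8 := by positivity
    push_cast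
    linarith
  · have h1 : (2 : ℝ) ≤ Real.exp 1 := by have := Real.add_one_le_exp 1; linarith
    refine (mul_le_mul_of_nonneg_right (mul_le_mul_of_nonneg_right h1 (Real.exp_pos _).le)
      (by positivity)).trans ?_
    rw [hl, ← Real.exp_nat_mul, ← Real.exp_add, ← Real.exp_add, Real.exp_le_exp]
    push_cast
    linarith
  · rw [hl, ← Real.exp_nat_mul, Real.exp_le_exp, ss]
    push_cast
    linarith
  · rw [Real.exp_le_exp]
    have h1 : (q : ℝ) ≤ (((d : ℝ) + 1) ^ 14) ^ 2 := by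
      rw [← pow_mul]; exact hq3
    have h2 : √(q : ℝ) ≤ ((d : ℝ) + 1) ^ 14 := Real.sqrt_le_iff.2 ⟨by positivity, h1⟩
    have h3 : ((d : ℝ) + 1) ^ 14 ≤ (2 * d) ^ 14 := pow_le_pow_left₀ (by linarith) (by linarith) _
    have h4 : (100 : ℝ) ^ 4 ≤ (d : ℝ) ^ 4 := pow_le_pow_left₀ (by norm_num) hD1 _
    have h5 := mul_le_mul_of_nonneg_right h4 (show 0 ≤ (d : ℝ) ^ 14 by positivity)
    have h6 : (d : ℝ) ^ 4 * (d : ℝ) ^ 14 = (d : ℝ) ^ 18 := by ring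
    have h7 : (2 * (d : ℝ)) ^ 14 = 16384 * (d : ℝ) ^ 14 := by ring
    have h8 : 0 ≤ (d : ℝ) ^ 14 := by positivity
    linarith
  · have := Real.add_one_le_exp (A * (d : ℝ) ^ 18)
    linarith
  · exact hqe.trans (Real.exp_le_exp.2 (by linarith))
  · rw [hsep, hl, ← Real.exp_sub, Real.exp_le_one_iff]
    linarith
  · rw [hsep, hl, ← Real.exp_sub, ← Real.exp_add]
    refine Real.one_le_exp ?_
    have h1 : 8 * C ^ 2 ≤ d := by linarith
    have h2 := mul_le_mul_of_nonneg_right h1 (show 0 ≤ (d : ℝ) ^ 8 by positivity)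
    have h3 : (d : ℝ) * (d : ℝ) ^ 8 = (d : ℝ) ^ 9 := by ring
    have h4 := hp 9 18 (by norm_num)
    linarith
  · refine (mul_le_mul_of_nonneg_right (mul_le_mul_of_nonneg_right hb5 (by positivity))
      (Real.exp_pos _).le).trans ?_
    rw [hl, ← Real.exp_nat_mul, ← Real.exp_add, ← Real.exp_add, Real.exp_le_exp]
    obtain ⟨x, hx'⟩ : ∃ x, x = A * (d : ℝ) ^ 18 := ⟨_, rfl⟩
    rw [← hx'] at hx ⊢
    have h1 : (q : ℝ) ≤ Real.exp (x / 2) := hqe.trans (Real.exp_le_exp.2 (by linarith))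
    have h2 := Real.add_one_le_exp (x / 2)
    have h3 : Real.exp x = Real.exp (x / 2) * Real.exp (x / 2) := by
      rw [← Real.exp_add]; ring_nf
    have h4 : 4 * l ≤ Real.exp (x / 2) := by linarith
    have h5 : (4 : ℝ) ≤ Real.exp (x / 2) := by linarith
    have h6 := mul_le_mul h4 h1 (by linarith) (Real.exp_pos _).le
    have h7 := mul_le_mul (show x / 2 ≤ Real.exp (x / 2) by linarith) h5 (by norm_num)
      (Real.exp_pos _).le
    have h8 := mul_le_mul_of_nonneg_left hq0' hl0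
    linarith
  · refine (mul_le_mul_of_nonneg_right (hgam _) (by positivity)).trans ?_
    rw [← Real.exp_nat_mul, ← Real.exp_add, Real.exp_le_one_iff]
    have h3 : θ * (d : ℝ) ^ 18 = 2000 * (d : ℝ) ^ 18 + 15 * (l * (d : ℝ) ^ 18) +
        16 * (C ^ 2 * (d : ℝ) ^ 18) + 10 * n * (A * (d : ℝ) ^ 18) := by rw [hθ]; ring
    have h4 : 0 ≤ C ^ 2 * (d : ℝ) ^ 18 := by positivity
    push_cast
    linarith

end RT95
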