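import Pool.Agent.Lib.RT95.Blue
import Pool.Agent.Lib.RT.T34

/-! The order of last hits of two legs. -/

set_option autoImplicit false

open Filter Topology Set Metric Complex

namespace RT95

theorem st_ORD : St_ORD := by
  intro n q j₂ Λ h x x' T T' u hx hT hT' h0 h0' h1 h1'
  have hc : ∀ (y S : ℝ), 0 < S → ContinuousOn (fun t : ℝ => Λ ⟨t, y⟩) (Ici S) := by
    intro y S hS
    have c : Continuous fun t : ℝ => (⟨t, y⟩ : ℂ) := by
      have e : (fun t : ℝ => (⟨t, y⟩ : ℂ)) = fun t : ℝ => (t : ℂ) + (y : ℂ) * I := by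
        funext t
        apply Complex.ext <;> simp
      rw [e]
      fun_prop
    exact h.cont.comp c.continuousOn fun t ht => lt_of_lt_of_le hS ht
  have ht : ∀ y : ℝ, Tendsto (fun t : ℝ => (Λ ⟨t, y⟩).re) atTop atTop := by
    intro y
    refine tendsto_atTop.2 fun v => ?_
    obtain ⟨S, hS⟩ := h.re v
    exact (eventually_ge_atTop S).mono fun t ht => hS t y ht
  refine RT34.ord (γ := fun t : ℝ => Λ ⟨t, x⟩) (γ' := fun t : ℝ => Λ ⟨t, x'⟩) (u := u)
    (hc x T hT) (hc x' T' hT') ?_ h0 h0' ?_ ?_ (ht x) (ht x') ?_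
  · intro s hs t ht' e
    have m1 : (⟨s, x⟩ : ℂ) ∈ {ζ : ℂ | 0 < ζ.re} := lt_of_lt_of_le hT hs
    have m2 : (⟨t, x'⟩ : ℂ) ∈ {ζ : ℂ | 0 < ζ.re} := lt_of_lt_of_le hT' ht'
    have := h.inj m1 m2 e
    exact hx.ne (congrArg Complex.im this)
  · intro s hs
    rcases hs.eq_or_lt with e | e
    · rw [← e]; exact h0.ge
    · exact (h1 s e).le
  · intro s hs
    rcases hs.eq_or_lt with e | e
    · rw [← e]; exact h0'.ge
    · exact (h1' s e).le
  · obtain ⟨a, ha⟩ := h.im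
    obtain ⟨S, hS⟩ := ha ((x' - x) / 3) (by linarith)
    refine ⟨S, fun s hs t ht' => ?_⟩
    have a1 := abs_le.1 (hS s x hs)
    have a2 := abs_le.1 (hS t x' ht')
    show (Λ ⟨s, x⟩).im < (Λ ⟨t, x'⟩).im
    linarith [a1.2, a2.1]

end RT95
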