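import Pool.Agent.Lib.RT95.Blue
import Pool.Agent.Lib.RT.T23
import Pool.Agent.Lib.RT.T28

/-! The velocity along the inverse branch. -/

set_option autoImplicit false

open Set Metric Complex

namespace RT95

namespace XPSI

variable {n : ℕ} {b : ℝ} {g : ℂ → ℂ}

theorem vel (n : ℕ) (g w : ℂ → ℂ) : RT23.Vel n (G0 n g) g w (Vh n g w) :=
  ⟨fun _ => rfl, fun _ _ => rfl⟩

theorem dG (h : Lv n b g) : Differentiable ℂ (G0 n g) := h.ent.comp (differentiable_pow n)

theorem b3 (h : Lv n b g) {t : ℝ} (t0 : 0 ≤ t) (ht : t ≤ 2 * b ^ 2) : t ^ n ≤ b ^ (3 * n) := by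
  have hb := h.hb
  rw [pow_mul]
  exact pow_le_pow_left₀ t0 (by nlinarith [sq_nonneg b]) n

theorem b8 (h : Lv n b g) : 8 ≤ b ^ (3 * n) := by
  have hb := h.hb
  have := h.hn
  linarith [le_self_pow₀ (by linarith : 1 ≤ b) (show 3 * n ≠ 0 by omega)]

theorem lip1 (h : Lv n b g) : 1 ≤ Lip n b := by
  have hb := h.hb
  have h1 : (1 : ℝ) ≤ n := by exact_mod_cast (by linarith [h.hn] : 1 ≤ n)
  have h2 : (1 : ℝ) ≤ (b ^ 4) ^ (n - 1) := one_le_pow₀ (one_le_pow₀ (by linarith))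
  unfold Lip
  nlinarith

theorem dG_le (h : Lv n b g) {u : ℂ} (hu : ‖u‖ ≤ 5) : ‖deriv (G0 n g) u‖ ≤ Lip n b := by
  have hb := h.hb
  have h8 := b8 h
  have h1 : ‖u ^ n‖ ≤ b ^ (3 * n) := by
    rw [norm_pow]; exact b3 h (norm_nonneg _) (by nlinarith)
  have h2 := RT28.deriv_le (F := fun y => g y - y) (c := 0) (z := u ^ n) (r := 2 * b ^ (3 * n))
    (ρ := 8) (R := 4) (by norm_num) (h.ent.sub differentiable_id).differentiableOn
    (fun y hy => h.near y (mem_ball_zero_iff.1 hy).le) (by rw [sub_zero]; linarith)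
  rw [((h.ent _).hasDerivAt.fun_sub (hasDerivAt_id' _)).deriv] at h2
  have h3 : ‖deriv g (u ^ n)‖ ≤ 2 := by
    have := norm_add_le (deriv g (u ^ n) - 1) 1
    rw [sub_add_cancel, norm_one] at this
    linarith
  have h4 : deriv (G0 n g) u = deriv g (u ^ n) * (n * u ^ (n - 1)) :=
    ((h.ent _).hasDerivAt.comp u (hasDerivAt_pow n u)).deriv
  rw [h4, norm_mul, norm_mul, norm_pow, norm_natCast, Lip, mul_assoc]
  gcongr
  nlinarith [le_self_pow₀ (by linarith : 1 ≤ b) (show 4 ≠ 0 by omega)]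

theorem orb_le (h : Lv n b g) (m : ℕ) : ‖(G0 n g)^[m] (g 0)‖ ≤ 5 := by
  have := h.bdd (m + 1)
  rwa [Function.iterate_succ_apply, G0, zero_pow (by linarith [h.hn])] at this

theorem iter_le (h : Lv n b g) (m k : ℕ) :
    ‖deriv (G0 n g)^[k] ((G0 n g)^[m] (g 0))‖ ≤ Lip n b ^ k := by
  induction k with
  | zero => simp
  | succ k ih =>
    rw [RT23.deriv_iter_succ (dG h), norm_mul, pow_succ', ← Function.iterate_add_apply]
    exact mul_le_mul (dG_le h (orb_le h _)) ih (norm_nonneg _) (by linarith [lip1 h])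

theorem small {q : ℕ} {r γ K t : ℝ} (h : Lv n b g) (hN : Nu n b q r γ K) (ht : t ^ n ≤ 2 * γ) :
    t ≤ K⁻¹ ^ 9 := by
  have hK : 2 ≤ K := by linarith [hN.bK, b8 h]
  by_contra! hc
  have h1 := pow_le_pow_left₀ (by positivity) hc.le n
  have h2 : K ^ (10 * n) * (K⁻¹ ^ 9) ^ n = K ^ n := by
    rw [pow_mul, ← mul_pow]; congr 1; field_simp
  have h3 : K ^ 2 ≤ K ^ n := pow_le_pow_right₀ (by linarith) h.hn
  have h4 := mul_le_mul_of_nonneg_left (h1.trans ht) (by positivity : 0 ≤ K ^ (10 * n))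
  nlinarith [hN.γK]

end XPSI

open XPSI

theorem st_PSI {n : ℕ} (_hn : 2 ≤ n) : St_PSI n := by
  intro b g w q r γ K X hL hA hN hw hlow x hx
  have hb := hL.hb
  have h8 := b8 hL
  have hK : 80000 ≤ K := by linarith [hN.bK]
  have hr : 0 < r := by nlinarith [hN.rK]
  have hρ : r / (200 * K) < r := div_lt_self hr (by linarith)
  have h0 : ‖cc n g (q - 1)‖ ≤ r / (200 * K) := by
    refine (small hL hN hA.x0).trans ?_
    rw [le_div_iff₀ (by positivity)]
    have h1 : K⁻¹ ^ 9 ≤ K⁻¹ ^ 3 :=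
      pow_le_pow_of_le_one (by positivity) (inv_le_one_of_one_le₀ (by linarith)) (by norm_num)
    have h2 : K⁻¹ ^ 3 * (200 * K) ≤ K⁻¹ := by
      field_simp
      linarith
    have h3 : K⁻¹ ≤ r := by rw [inv_le_iff_one_le_mul₀ (by positivity)]; exact hN.rK
    nlinarith
  have m0 : cc n g (q - 1) ∈ ball (0 : ℂ) r := mem_ball_zero_iff.2 (h0.trans_lt hρ)
  have mx : x ∈ ball (0 : ℂ) r := mem_ball_zero_iff.2 (hx.trans_lt hρ)
  have hY : DifferentiableOn ℂ (fun x => g (X x)) (ball 0 r) := hL.ent.comp_differentiableOn hA.hol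
  have hγ : γ ≤ 1 := by
    nlinarith [hN.γK, hN.γpos, one_le_pow₀ (n := 10 * n) (by linarith : 1 ≤ K)]
  have hD : dd n g (q - 1) ≠ 0 := fun h => by
    have := hlow _ le_rfl
    rw [h, norm_zero, mul_zero] at this
    linarith
  have key := (vel n g w).psi (dG hL) hL.ent (N := q - 1) (ρ := 2 * b ^ (3 * n))
    (A := K * ‖dd n g (q - 1)‖) isOpen_ball hw.2 hA.hol hA.inv m0 mx (by linarith [hA.sm x mx])
    (fun m hm => by linarith [b3 hL (norm_nonneg _) (hA.bd x mx m hm.le)])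
    (fun m hm => ?_) (fun m hm => ?_) (by rwa [hA.X0])
  · rw [Nat.cast_pred hN.q1, sub_add_cancel] at key
    refine key.trans ?_
    rw [← mul_assoc]
    gcongr
    norm_num
  · have e : r / (200 * K) = 1 / 2 * r / (100 * K) := by field_simp; norm_num
    have hi := fun z hz => RT23.inv_branch (dG hL) isOpen_ball hY hm hA.inv (x := z) hz
    refine RT28.dist_le (R := 2 * b ^ 2) (M := K) hr
      ((RT23.diff_iter (dG hL) m).comp_differentiableOn hY) (fun z hz => hA.bd z hz m hm)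
      (fun z hz => right_ne_zero_of_mul_eq_one (hi z hz)) (by linarith) (by norm_num) (by norm_num)
      ?_ (e ▸ hx) (e ▸ h0)
    have h1 := congrArg norm (hi _ m0)
    rw [hA.X0, norm_mul, norm_one] at h1
    have h2 := (iter_le hL m (q - 1 - m)).trans
      (pow_le_pow_right₀ (lip1 hL) (show q - 1 - m ≤ q by omega))
    have h3 := mul_le_mul_of_nonneg_right h2
      (norm_nonneg (deriv (fun x => (G0 n g)^[m] (g (X x))) (cc n g (q - 1))))
    have h4 := mul_le_mul_of_nonneg_right hN.eK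
      (norm_nonneg (deriv (fun x => (G0 n g)^[m] (g (X x))) (cc n g (q - 1))))
    have h5 : 4 * (2 * b ^ 2) / r ≤ 4 * b ^ 4 * K := by
      rw [div_le_iff₀ hr]
      have h6 : 2 ≤ b ^ 2 := by nlinarith
      have : 2 * b ^ 2 ≤ b ^ 4 := by nlinarith
      nlinarith [mul_le_mul_of_nonneg_left hN.rK (by positivity : 0 ≤ 4 * b ^ 4)]
    nlinarith [mul_le_mul_of_nonneg_left (h1.ge.trans h3) (by positivity : 0 ≤ 4 * b ^ 4 * K)]
  · rw [hA.X0]
    have := mul_le_mul_of_nonneg_left (hlow m hm) (norm_nonneg (dd n g (q - 1)))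
    unfold dd at this ⊢
    nlinarith

end RT95
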