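import Pool.Agent.Lib.RT95.K17
import Pool.Agent.Lib.KR73.B_C0
import Pool.Agent.Lib.KR73.B_C2
import Pool.Agent.Lib.KR73.B_C3
import Pool.Agent.Lib.KR73.B_C5
import Pool.Agent.Lib.KR73.B_C6
import Pool.Agent.Lib.KR73.B_GAP0
import Pool.Agent.Lib.KR73.B_GAP
import Pool.Agent.Lib.KR73.B_CORN
import Pool.Agent.Lib.KR73.B_COL
import Pool.Agent.Lib.KR73.B_TOP
import Pool.Agent.Lib.KR73.B_IMP

/-! Block QQ: the a priori bound. -/

set_option autoImplicit false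

open Filter Topology Set Metric Complex Bornology MeasureTheory N62a1eb23
open scoped Real ENNReal

namespace RT95

open Pool.Agent.Lib.MP_c35c17_an KN KR73

namespace XQQ

/-- the standing hypotheses -/
structure Cx {n : ℕ} {σ : Sy n} {L : ℕ} (μ : Md σ L) (b : ℝ) (g : ℂ → ℂ) (d T : ℕ) (w₀ : ℝ) :
    Prop where
  ok : Ok μ b g d T
  brw : St_BRW n
  miss : St_MISS n
  ser : St_SER n
  wpos : 0 < w₀
  colc : ∀ (α : ℝ) (q : ℕ), 2 ≤ q → Cap (σ.Col α q) (σ.Cob α q) w₀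

variable {n : ℕ} {σ : Sy n} {L : ℕ} {μ : Md σ L} {b : ℝ} {g : ℂ → ℂ} {d T : ℕ} {w₀ : ℝ}
  (X : Cx μ b g d T w₀)
include X

theorem FRO1 {i : ℕ} (hi : i ≤ T) {z : ℂ} (hz : z ∈ closure (μ.P i (ss d)))
    (hz' : z ∉ μ.P i (ss d)) :
    ∃ x, 3 * d + 4 ≤ x ∧ x < ss d ∧ z ∈ μ.P i x ∧ σ.G^[x + 1] z ∈ μ.S 0 := by
  classical
  have hcl : ∀ y < ss d, σ.G^[y] z ∈ closure (μ.V (nu n μ.ϑ (i + y))) := fun y hy =>
    map_mem_closure (σ.contG7.iterate y) hz fun w hw => hw y hy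
  have hex : ∃ x, x < ss d ∧ σ.G^[x] z ∉ μ.V (nu n μ.ϑ (i + x)) := by
    by_contra h
    exact hz' fun x hx => by_contra fun h1 => h ⟨x, hx, h1⟩
  obtain ⟨hx1, hx2⟩ := Nat.find_spec hex
  set x := Nat.find hex with hx
  have hS : σ.G^[x + 1] z ∈ μ.S 0 := by
    by_contra h
    rw [Function.iterate_succ_apply'] at h
    obtain ⟨a, ha⟩ := μ.exists_V7 h
    exact hx2 (μ.V_cl7 ha (hcl x hx1) ▸ ha)
  refine ⟨x, ?_, hx1, fun y hy => ?_, hS⟩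
  · by_contra h
    have hs := X.ok.ss_le7
    have hL := X.ok.hor
    have hs' : ss d = 4 * d + 4 := rfl
    obtain ⟨j, hj, hne⟩ := X.ok.nr (i + x + 1) (by omega) (by omega)
    have h1 := μ.S_V7 (l := 0 + j) (by omega) (μ.S_iter7 hS j)
    rw [← Function.iterate_add_apply, zero_add] at h1
    have h2 := μ.V_cl7 h1 (hcl (j + (x + 1)) (by omega))
    exact hne (by rw [h2]; congr 1; omega)
  · by_contra h
    exact Nat.find_min hex hy ⟨hy.trans hx1, h⟩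

theorem FRO {i : ℕ} (hi : i ≤ T) {z : ℂ} (hz : z ∈ frontier (μ.Ph i (ss d) (ee d))) :
    (∃ α q, Cor n μ.ϑ d i α ∧ ee d ≤ q ∧ q ≤ (NN n d + 1) * ss d ∧ z ∈ σ.Col α q) ∨
      ∃ x, 3 * d + 4 ≤ x ∧ x < ss d ∧ z ∈ μ.Bl d i x := by
  have hn := σ.hn
  have hL := X.ok.hor
  rw [(μ.Ph_open7 X.ok.fit _ _ _).frontier_eq] at hz
  have p := npow_pos hn
  have hs := X.ok.ss_le7
  have hN := X.ok.Ns_le7
  have es : ss d = ee d + 2 := rfl
  have hq : ∀ q, q ≤ NN n d * ss d + ss d → q ≤ (NN n d + 1) * ss d := fun q h => by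
    rwa [add_mul, one_mul]
  have top : ∀ ζ : ℂ, σ.B ζ = z → ζ.re ≤ ((n : ℝ) ^ ee d)⁻¹ := fun ζ e => not_lt.mp fun h => by
    obtain ⟨y, ⟨ζ', h1, rfl⟩, h2⟩ :=
      mem_closure_iff.mp hz.1 _ (σ.opn7 (inv_pos.mpr (p (ee d)))) ⟨ζ, h, e⟩
    exact h2.2 ⟨ζ', (show ((n : ℝ) ^ ee d)⁻¹ < ζ'.re from h1).le, rfl⟩
  have low : ∀ (q : ℕ) (t : ℝ), q ≤ 2 * T → ((n : ℝ) ^ q)⁻¹ ≤ t → μ.g < t := fun q t h1 h2 => by
    have h3 := μ.g_lt7 X.ok.small (l := 0) (q := q) (by omega)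
    rw [pow_zero, one_mul] at h3
    linarith [inv_pos.mpr (p q)]
  by_cases hP : z ∈ μ.P i (ss d)
  · obtain ⟨ζ, h1, e⟩ : z ∈ σ.Ext ((n : ℝ) ^ ee d)⁻¹ := by_contra fun h => hz.2 ⟨hP, h⟩
    have h2 : (n : ℝ) ^ ee d * ζ.re = 1 := by
      rw [le_antisymm (top ζ e) h1, mul_inv_cancel₀ (p _).ne']
    rw [← e] at hP
    obtain ⟨α, h3, h4⟩ := st_TOP n μ.ϑ d (T + ss d) i ζ.im hn X.ok.nr (by omega) fun y hy =>
      ((μ.LET7 i (ss d) ζ.re ζ.im (low _ _ (by omega) h1)).mp hP y hy).2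
    refine Or.inl ⟨α, ee d, h3, le_rfl, hq _ (by omega), ζ, ⟨h2.ge, ?_, ?_⟩, e⟩
    · rw [h2]
      linarith [ntwo hn]
    · have h5 : 0 ≤ (n : ℝ) ^ ee d * |ζ.im - α| := mul_nonneg (p _).le (abs_nonneg _)
      have h6 : (4 : ℝ) ≤ (n : ℝ) ^ 2 := by nlinarith [ntwo hn]
      rw [es, pow_add, mul_right_comm] at h4
      nlinarith
  obtain ⟨x, x1, x2, x3, x4⟩ := FRO1 X hi (closure_mono sdiff_subset hz.1) hP
  by_cases hb : σ.G^[x + 1] z ∈ σ.Ext ((n : ℝ) ^ (NN n d * ss d))⁻¹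
  swap
  · refine Or.inr ⟨x, x1, x2, σ.G^[x] z, ?_, μ.P_back7 x3⟩
    rw [Function.iterate_succ_apply'] at x4 hb
    exact ⟨μ.S_P7 (by omega) x4, hb⟩
  obtain ⟨ζ, h1, e⟩ := (σ.ex_inv7 (x + 1) _ z).mp hb
  have h2 := low _ _ (by omega) h1
  have h3 := μ.gpos.trans h2
  have h4 := top ζ e
  rw [← e] at x3 x4
  have h5 : Cg ((n : ℝ) ^ (x + 1) * ζ.im) μ.ϑ := by
    rw [show σ.B ζ = σ.B ⟨ζ.re, ζ.im⟩ from rfl, σ.iter7 h3] at x4
    simpa using μ.off7 (by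
      rw [pow_zero, one_mul]
      exact h2.trans_le (le_mul_of_one_le_left h3.le (one_le_npow hn _))) x4
  have ex : 1 ≤ (n : ℝ) ^ (NN n d * ss d + (x + 1)) * ζ.re := by
    rwa [mem_ofPred_eq, inv_le_iff_one_le_mul₀' (p _)] at h1
  have ex' : ∃ q, 1 ≤ (n : ℝ) ^ q * ζ.re := ⟨_, ex⟩
  have h6 : ee d ≤ Nat.find ex' := (Nat.le_find_iff ex' _).mpr fun m hm => not_le.mpr (by
    refine (mul_le_mul_of_nonneg_left h4 (p m).le).trans_lt ?_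
    rw [← div_eq_mul_inv, div_lt_one (p _)]
    exact pow_lt_pow_right₀ (by linarith [ntwo hn]) hm)
  refine Or.inl ⟨ζ.im, Nat.find ex', ⟨x, x1, x2, h5, fun y hy =>
    ((μ.LET7 i x ζ.re ζ.im h2).mp x3 y hy).2⟩, h6, hq _ ((Nat.find_min' ex' ex).trans
      (by omega)), ζ, ⟨Nat.find_spec ex', ?_, by simp⟩, e⟩
  obtain ⟨q, e1⟩ : ∃ q, Nat.find ex' = q + 1 := ⟨Nat.find ex' - 1, by rw [ee] at h6; omega⟩
  have h7 := not_le.mp (Nat.find_min ex' (m := q) (by omega))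
  rw [e1, pow_succ', mul_assoc]
  exact mul_le_of_le_one_right (npos hn).le h7.le

theorem COLC {i : ℕ} (hi : i ≤ T) {α : ℝ} {q : ℕ} (hα : Cor n μ.ϑ d i α) (hq : ee d ≤ q)
    (hT : q ≤ T) : Cap (σ.Col α q) (μ.Ph i d 0) w₀ := by
  have hn := σ.hn
  have hN := npow_pos hn q
  have hL := X.ok.hor
  refine (X.colc α q (by unfold ee at hq; omega)).mono Subset.rfl ?_
  rintro _ ⟨ζ, ⟨h2, h3, h4⟩, rfl⟩
  have h0 : 0 < ζ.re := (mul_pos_iff_of_pos_left hN).1 (lt_trans (by norm_num) h2)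
  have h5 := μ.g_lt7 X.ok.small (l := 0) (q := q) (by omega)
  rw [pow_zero, one_mul, inv_eq_one_div, div_div, lt_div_iff₀ (by positivity)] at h5
  have h6 : μ.g < ζ.re := by
    by_contra h6
    nlinarith [mul_le_mul_of_nonneg_left (not_lt.1 h6) hN.le]
  have h7 : (n : ℝ) ^ 2 ≤ (n : ℝ) ^ q := npow_mono hn (by unfold ee at hq; omega)
  have h8 : (2 : ℝ) ≤ n := by exact_mod_cast hn
  have h9 : ζ.re < 1 := by
    by_contra h9
    nlinarith [mul_le_mul_of_nonneg_left (not_lt.1 h9) hN.le]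
  refine ⟨(μ.LET7 i d ζ.re ζ.im h6).2 (st_COL (st_GAP st_GAP0) n μ.ϑ d (T + ss d) i α ζ.im hn X.ok.nr
    (by omega) hα ((mul_le_mul_of_nonneg_right (npow_mono hn hq)
      (abs_nonneg _)).trans_lt h4)), fun h10 => ?_⟩
  rw [pow_zero, inv_one] at h10
  exact h9.not_ge ((σ.mem7 (t := ζ.re) (x := ζ.im) one_pos h0).1 h10)

theorem BSUB (i : ℕ) {x : ℕ} (hd : d ≤ x) (hx : x ≤ T) :
    DifferentiableOn ℂ (μ.Y i x) (σ.G ⁻¹' μ.Ph 0 d 0) ∧ InjOn (μ.Y i x) (σ.G ⁻¹' μ.Ph 0 d 0) ∧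
      μ.Y i x '' (σ.G ⁻¹' μ.Ph 0 d 0) ⊆ μ.Ph i d 0 := by
  have hL := X.ok.hor
  obtain ⟨h1, h2, h3⟩ := X.brw σ L μ b g X.ok.fit i x (σ.G ⁻¹' μ.Ph 0 d 0) (by omega)
    (disjoint_left.mpr fun z hz h => μ.Ph_off7 0 d 0 hz (σ.ex_fwd7 one_pos 1 h))
    fun i' y hi hy _ => disjoint_left.mpr fun z hz hs =>
      disjoint_left.mp ((X.miss σ L μ b g d T X.ok).2 (y + 1) (by omega) (by omega))
        (μ.S_map7 hs) hz.1
  refine ⟨h1, fun z hz z' hz' e => by rw [← h2 z hz, e, h2 z' hz'], ?_⟩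
  rintro _ ⟨z, hz, rfl⟩
  refine ⟨μ.P_mono7 hd (h3 hz), fun h => hz.2 ?_⟩
  have h4 := σ.ex_fwd7 (inv_pos.mpr (npow_pos σ.hn 0)) (x + 1) h
  rwa [Function.iterate_succ_apply', h2 z hz] at h4

theorem C3 {K O : Set ℂ} {w : ℝ} (hO : IsOpen O) (h1 : O ⊆ (σ.Ext 1)ᶜ) (h : Cap K O w) :
    Cap (σ.G ⁻¹' K) (σ.G ⁻¹' O) (√n * w) := by
  have e : ∀ A : Set ℂ, σ.G ⁻¹' A = F n 0 ⁻¹' (σ.hom.symm '' A) := fun A => by
    ext z
    rw [mem_preimage, mem_preimage, σ.hom.image_symm, mem_preimage, F, add_zero]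
    rfl
  rw [e, e]
  exact st_C3 σ.hn 0 _ _ _ (st_C2 _ _ _ _ hO
    (fun z hz => (X.ok.fit.hol7 (h1 hz)).differentiableWithinAt) σ.hom.symm.injective.injOn h)

theorem BLOB {w : ℝ} (i : ℕ) {x : ℕ} (hQ : μ.Q d T w) (hd : d ≤ x) (hx : x ≤ T) :
    Cap (μ.Bl d i x) (μ.Ph i d 0) (w / (2 * d)) := by
  have hn := σ.hn
  obtain ⟨M, hM⟩ : ∃ M, NN n d = M + 1 := ⟨NN n d - 1, by have := X.ok.NN_pos7; omega⟩
  have h1 := X.ser σ L μ b g d T X.ok w 0 M hQ (by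
    have := X.ok.Ns_le7
    rw [hM, add_mul] at this
    omega)
  obtain ⟨b1, b2, b3⟩ := BSUB X i hd hx
  have ho : IsOpen (σ.G ⁻¹' μ.Ph 0 d 0) := (μ.Ph_open7 X.ok.fit 0 d 0).preimage σ.contG7
  have h2 := (st_C2 _ _ _ _ ho b1 b2 (C3 X (μ.Ph_open7 X.ok.fit 0 d 0) (μ.Ph_off7 0 d 0) h1)).mono
    Subset.rfl b3
  have hn0 : (0 : ℝ) < n := by exact_mod_cast (by omega : 0 < n)
  have hd0 : (0 : ℝ) < d := by exact_mod_cast X.ok.dpos
  have e1 : ((M : ℝ) + 1) = n * (2 * d) ^ 2 := by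
    have : ((NN n d : ℕ) : ℝ) = M + 1 := by rw [hM]; push_cast; rfl
    rw [← this, NN]
    push_cast
    ring
  have e2 : √n * (w / √(M + 1)) = w / (2 * d) := by
    rw [e1, Real.sqrt_mul hn0.le, Real.sqrt_sq (by positivity)]
    have := (Real.sqrt_pos.2 hn0).ne'
    field_simp
  rw [e2, ← hM] at h2
  exact h2

omit X in
theorem col_cg {q : ℕ} {α α' : ℝ} (h : Cg α α') : σ.Col α q ⊆ σ.Col α' q := by
  obtain ⟨m, rfl⟩ := h
  rintro z ⟨ζ, ⟨h1, h2, h3⟩, rfl⟩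
  have h0 : 0 < ζ.re := (mul_pos_iff_of_pos_left (npow_pos σ.hn q)).1 (one_pos.trans_le h1)
  refine ⟨⟨ζ.re, ζ.im - m⟩, ⟨h1, h2, ?_⟩, ?_⟩
  · rwa [show ζ.im - m - α' = ζ.im - (α' + m) by ring]
  · rw [← σ.per7 h0 _ m, sub_add_cancel]

theorem IMP {w : ℝ} (hw : 0 < w) (hQ : μ.Q d T w) :
    μ.Q d T ((2 + 41 * (n : ℝ) ^ 2 * w₀) * (d : ℝ) ^ 4 + w / 2) := by
  intro i hi
  have hn := σ.hn
  have hw₀ := X.wpos
  obtain ⟨A, hA, hA1, hA2⟩ := st_CORN n μ.ϑ d i hn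
  have hd := X.ok.dpos
  have hd' : (1 : ℝ) ≤ d := by exact_mod_cast hd
  have hs := X.ok.ss_le7
  have h1 := cap_biUnion st_C5 (A ×ˢ Finset.Icc (ee d) ((NN n d + 1) * ss d))
    (fun p => σ.Col p.1 p.2) (O := μ.Ph i d 0) hw₀ one_pos fun p hp => by
      obtain ⟨e1, e2⟩ := Finset.mem_product.mp hp
      obtain ⟨e3, e4⟩ := Finset.mem_Icc.mp e2
      exact COLC X hi (hA1 _ e1) e3 (e4.trans X.ok.big)
  have hw' : 0 < w / (2 * d) := by positivity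
  have h2 := cap_biUnion st_C5 (Finset.Ico (3 * d + 4) (ss d)) (fun x => μ.Bl d i x)
    (O := μ.Ph i d 0) hw' one_pos fun x hx => by
      obtain ⟨e1, e2⟩ := Finset.mem_Ico.mp hx
      exact BLOB X i hQ (by omega) (by omega)
  have h3 := st_C5 _ _ _ _ _ (by positivity) (by positivity) h1 h2
  have h4 := st_C6 (μ.Ph i (ss d) (ee d)) (μ.Ph i d 0) _ (μ.Ph_open7 X.ok.fit _ _ _)
    (isBounded_ball.subset (μ.Ph_ball7 X.ok.fit _ _ _))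
    (μ.Ph_mono7 (by rw [ss]; omega) (Nat.zero_le _)) (h3.mono (fun z hz => by
      rcases FRO X hi hz with ⟨α, q, e1, e2, e3, e4⟩ | ⟨x, e1, e2, e3⟩
      · obtain ⟨α', e5, e6⟩ := hA2 α e1
        exact Or.inl (mem_biUnion (x := (α', q))
          (Finset.mem_product.mpr ⟨e5, Finset.mem_Icc.mpr ⟨e2, e3⟩⟩) (col_cg e6 e4))
      · exact Or.inr (mem_biUnion (Finset.mem_Ico.mpr ⟨e1, e2⟩) e3)) Subset.rfl)
  refine h4.le (by positivity) ?_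
  have h5 : (A ×ˢ Finset.Icc (ee d) ((NN n d + 1) * ss d)).card ≤ 41 * n ^ 2 * d ^ 4 := by
    rw [Finset.card_product, Nat.card_Icc]
    exact (Nat.mul_le_mul hA (Nat.sub_le _ _)).trans (XIMP.card_le hn hd)
  have h6 : (((A ×ˢ Finset.Icc (ee d) ((NN n d + 1) * ss d)).card : ℕ) : ℝ) ≤
      41 * (n : ℝ) ^ 2 * (d : ℝ) ^ 4 := by exact_mod_cast h5
  have h7 : (Finset.Ico (3 * d + 4) (ss d)).card = d := by
    rw [Nat.card_Ico, ss]
    omega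
  have h8 : (d : ℝ) * (w / (2 * d)) = w / 2 := by field_simp
  have h9 : (1 : ℝ) ≤ (d : ℝ) ^ 4 := one_le_pow₀ hd'
  have h10 := mul_le_mul_of_nonneg_right h6 hw₀.le
  rw [h7, h8]
  nlinarith

theorem FIN : ∃ w > 0, μ.Q d T w := by
  have hss := X.ok.ss_le7
  have hN := X.ok.NN_pos7
  have hone : ∀ i ≤ T, ∃ w > 0, Cap (μ.Ph i (ss d) (ee d)) (μ.Ph i d 0) w := by
    intro i hi
    have hsub : closure (μ.Ph i (ss d) (ee d)) ⊆ μ.Ph i d 0 := by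
      rw [closure_eq_self_union_frontier]
      refine union_subset (μ.Ph_mono7 (by unfold ss; omega) (Nat.zero_le _)) fun z hz => ?_
      rcases FRO X hi hz with ⟨α, q, h1, h2, h3, h4⟩ | ⟨x, h1, h2, h3⟩
      · exact (COLC X hi h1 h2 (h3.trans X.ok.big)).subset h4
      · refine (BSUB X i (x := x) (by omega) (by omega)).2.2 (image_mono (preimage_mono ?_) h3)
        refine μ.Ph_mono7 ?_ (Nat.zero_le _)
        exact le_trans (by unfold ss; omega) (Nat.le_mul_of_pos_left _ hN)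
    have hc : IsCompact (closure (μ.Ph i (ss d) (ee d))) :=
      (isBounded_ball.subset (μ.Ph_ball7 X.ok.fit i _ _)).isCompact_closure
    obtain ⟨w, hw, h⟩ := st_C0 _ _ hc (μ.Ph_open7 X.ok.fit i d 0) hsub
    exact ⟨w, hw, h.mono subset_closure Subset.rfl⟩
  choose! w hw using hone
  have h0 : ∀ i ∈ Finset.range (T + 1), 0 ≤ w i := fun i hi =>
    (hw i (Nat.lt_succ_iff.mp (Finset.mem_range.mp hi))).1.le
  refine ⟨∑ i ∈ Finset.range (T + 1), w i, ?_, fun i hi => ?_⟩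
  · exact Finset.sum_pos (fun i hi => (hw i (Nat.lt_succ_iff.mp (Finset.mem_range.mp hi))).1)
      Finset.nonempty_range_add_one
  · exact (hw i hi).2.le (hw i hi).1.le
      (Finset.single_le_sum h0 (Finset.mem_range.mpr (Nat.lt_succ_iff.mpr hi)))

/-- the a priori bound -/
theorem QQ : μ.Q d T (3 * (2 + 41 * (n : ℝ) ^ 2 * w₀) * (d : ℝ) ^ 4) := by
  obtain ⟨w, hw, h0⟩ := FIN X
  have hd : (0 : ℝ) < d := by exact_mod_cast X.ok.dpos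
  have hw₀ := X.wpos
  set C := 2 + 41 * (n : ℝ) ^ 2 * w₀ with hC
  have hC0 : 0 < C := by positivity
  have ha : 0 < C * (d : ℝ) ^ 4 := by positivity
  have h1 : ∀ j : ℕ, μ.Q d T (2 * (C * (d : ℝ) ^ 4) + w * (1 / 2) ^ j) := fun j => by
    induction j with
    | zero => exact fun i hi => (h0 i hi).le hw.le (by simp only [pow_zero]; linarith)
    | succ j ih =>
      exact fun i hi => (IMP X (by positivity) ih i hi).le (by positivity) (le_of_eq (by ring))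
  obtain ⟨j, hj⟩ := exists_pow_lt_of_lt_one (div_pos ha hw) (by norm_num : (1 / 2 : ℝ) < 1)
  rw [lt_div_iff₀' hw] at hj
  exact fun i hi => (h1 j i hi).le (by positivity) (by linarith)

end XQQ

theorem st_QQ {n : ℕ} (hn : 2 ≤ n) (hBRW : St_BRW n) (hMISS : St_MISS n) (hSER : St_SER n)
    (hCOLC : St_COLC n) : St_QQ n := by
  have _ := hn
  intro b
  obtain ⟨w₀, hw₀, h⟩ := hCOLC b
  exact ⟨3 * (2 + 41 * (n : ℝ) ^ 2 * w₀), by positivity, fun σ L μ g d T hO =>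
    XQQ.QQ ⟨hO, hBRW, hMISS, hSER, hw₀, h σ g hO.fit⟩⟩

end RT95
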