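import Pool.Agent.Lib.RT95.B_LG

/-! The renormalized level and the link between consecutive systems. -/

set_option autoImplicit false

open Filter Topology Set Metric Complex Bornology MeasureTheory N62a1eb23
open scoped Real ENNReal

namespace RT95

open Pool.Agent.Lib.MP_c35c17_an KN KR73

namespace XRENL

variable {n q : ℕ} {b r γ K : ℝ} {g : ℂ → ℂ} {σ : Sy n} {s : ℂ}

theorem b3 (hn : 2 ≤ n) (hb : 100 ≤ b) : 100 ≤ b ^ (3 * n) :=
  hb.trans (le_self_pow₀ (by linarith) (by omega))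

theorem iter_eq (h : Fit σ b g) (z : ℂ) (k : ℕ) (hk : ∀ m < k, ‖(G0 n g)^[m] z‖ ≤ 2 * b ^ 2) :
    σ.G^[k] z = (G0 n g)^[k] z := by
  induction k with
  | zero => rfl
  | succ k ih =>
    have hb := h.lv.hb
    rw [Function.iterate_succ_apply', Function.iterate_succ_apply',
      ih fun m hm => hk m (by omega)]
    refine h.hm.eq _ ?_
    have h1 : (2 * b ^ 2) ^ n * 2 ≤ b ^ (3 * n) := by
      calc (2 * b ^ 2) ^ n * 2 ≤ (2 * b ^ 2) ^ n * 2 ^ n := by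
            gcongr; exact le_self_pow₀ one_le_two (by have := h.lv.hn; omega)
        _ = (4 * b ^ 2) ^ n := by rw [← mul_pow]; ring_nf
        _ ≤ (b ^ 3) ^ n := by gcongr; nlinarith
        _ = b ^ (3 * n) := by rw [pow_mul]
    rw [norm_pow, le_div_iff₀ two_pos]
    exact le_trans (by gcongr; exact hk k (by omega)) h1

theorem orb_eq (h : Fit σ b g) (k : ℕ) : σ.G^[k] 0 = (G0 n g)^[k] 0 :=
  iter_eq h 0 k fun m _ => (h.lv.bdd m).trans (by nlinarith [h.lv.hb])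

theorem ext_iter {τ : ℝ} (hτ : 0 < τ) (j : ℕ) (u : ℂ) :
    σ.G^[j] u ∈ σ.Ext ((n : ℝ) ^ j * τ) ↔ u ∈ σ.Ext τ :=
  RT34.ext_iter (hom := σ.hom) σ.hn (fun _ => rfl) (XLG.conj σ) (XLG.rot σ) hτ j u

theorem norm_lt (h : Fit σ b g) {t : ℝ} (ht : 3 / 4 ≤ t) {u : ℂ} (hu : u ∉ σ.Ext t) :
    ‖u‖ < Real.exp (4 * Real.log b * t) := lt_of_not_ge fun c => hu (by
  have l : 0 < Real.log b := Real.log_pos (by linarith [h.lv.hb])
  have u0 : 0 < ‖u‖ := (Real.exp_pos _).trans_le c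
  have a : t ≤ Real.log ‖u‖ / (4 * Real.log b) := by
    rw [le_div_iff₀ (by positivity), Real.le_log_iff_exp_le u0, mul_comm]
    exact c
  refine ⟨⟨Real.log ‖u‖ / (4 * Real.log b), arg u / (2 * π)⟩, a, ?_⟩
  rw [h.chart _ _ (ht.trans a), mul_div_cancel₀ _ (by positivity), mul_div_cancel₀ _ (by positivity)]
  exact (congrArg exp (Complex.ext (log_re u).symm (log_im u).symm)).trans
    (exp_log (norm_pos_iff.mp u0)))

theorem pow_le (h : Fit σ b g) {u : ℂ} (hu : u ∉ σ.Ext (5 / 8)) : ‖u ^ n‖ ≤ b ^ (3 * n) / 2 := by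
  have hb := h.lv.hb
  have n2 := ntwo h.lv.hn
  have l : 0 < Real.log b := Real.log_pos (by linarith)
  have h1 := norm_lt h (t := (n : ℝ) ^ 1 * (5 / 8)) (by rw [pow_one]; linarith)
    fun c => hu ((ext_iter (by norm_num) 1 u).mp c)
  have h2 : Real.exp (4 * Real.log b * ((n : ℝ) ^ 1 * (5 / 8))) * b ≤ b ^ (3 * n) := by
    rw [← Real.exp_log (show 0 < b ^ (3 * n) by positivity), Real.log_pow]
    nth_rewrite 2 [← Real.exp_log (show 0 < b by linarith)]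
    rw [← Real.exp_add, Real.exp_le_exp]
    push_cast
    nlinarith
  have h3 := h.hm.near (u ^ n)
  have h4 := norm_sub_norm_le (u ^ n) (σ.hom (u ^ n))
  have h5 : ‖σ.hom (u ^ n)‖ < _ := h1
  rw [norm_sub_rev] at h4
  nlinarith [b3 h.lv.hn hb, Real.exp_pos (4 * Real.log b * ((n : ℝ) ^ 1 * (5 / 8)))]

theorem K_ge (hn : 2 ≤ n) (hb : 100 ≤ b) (h : Nu n b q r γ K) : 2 ≤ K := by
  linarith [h.bK, b3 hn hb]

theorem small (hn : 2 ≤ n) (hb : 100 ≤ b) (h : Nu n b q r γ K) {z : ℂ} (hz : ‖z‖ ^ n ≤ 2 * γ) :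
    ‖z‖ ≤ K⁻¹ ^ 8 := by
  have k2 := K_ge hn hb h
  refine le_of_pow_le_pow_left₀ (by omega : n ≠ 0) (by positivity) (hz.trans ?_)
  have h1 : (2 : ℝ) ≤ K ^ (2 * n) := k2.trans (le_self_pow₀ (by linarith) (by omega))
  have h2 := h.γK
  rw [← pow_mul, inv_pow, ← one_div, le_div_iff₀ (by positivity)]
  rw [show 10 * n = 2 * n + 8 * n by ring, pow_add] at h2
  nlinarith [mul_pos h.γpos (pow_pos (show 0 < K by linarith) (8 * n))]

theorem in_ball (hn : 2 ≤ n) (hb : 100 ≤ b) (h : Nu n b q r γ K) {x : ℂ} (hx : ‖x‖ ≤ K⁻¹ ^ 8) :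
    x ∈ ball (0 : ℂ) r ∧ ‖x‖ ≤ 1 := by
  have k2 := K_ge hn hb h
  have h0 : 0 < K⁻¹ := by positivity
  have h1 : K⁻¹ < 1 := inv_lt_one_of_one_lt₀ (by linarith)
  have h2 : K⁻¹ ^ 8 < K⁻¹ := pow_lt_self_of_lt_one₀ h0 h1 (by norm_num)
  have h3 : K⁻¹ ≤ r := by
    rw [inv_le_iff_one_le_mul₀ (by linarith)]
    exact h.rK
  exact ⟨mem_ball_zero_iff.mpr (by linarith), by linarith⟩

theorem fq_pow (hq : 1 ≤ q) (u : ℂ) : Fq n g q (u ^ n) = (G0 n g)^[q] u := by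
  obtain ⟨p, rfl⟩ : ∃ p, q = p + 1 := ⟨q - 1, by omega⟩
  rfl

theorem g0_ren (hq : 1 ≤ q) (u : ℂ) : G0 n (ren n g q s) u = s⁻¹ * (G0 n g)^[q] (s * u) := by
  rw [G0, ren, ← mul_pow, fq_pow hq]

theorem ren_iter (hq : 1 ≤ q) (hs : s ≠ 0) (j : ℕ) :
    (G0 n (ren n g q s))^[j] 0 = (G0 n g)^[j * q] 0 / s := by
  induction j with
  | zero => simp
  | succ j ih =>
    rw [Function.iterate_succ_apply', ih, g0_ren hq, mul_div_cancel₀ _ hs, add_mul, one_mul,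
      add_comm, Function.iterate_add_apply, div_eq_inv_mul]

theorem S_iter {L l : ℕ} (μ : Md σ L) {z : ℂ} (hz : z ∈ μ.S l) (j : ℕ) :
    σ.G^[j] z ∈ μ.S (l + j) := by
  induction j with
  | zero => exact hz
  | succ j ih =>
    rw [Function.iterate_succ_apply']
    exact RT34.sl_map (ϑ := μ.ϑ) σ.hn (XLG.conj σ) μ.gpos _ ih

theorem c_mem {L : ℕ} (μ : Md σ L) (l : ℕ) : σ.G (σ.G^[l] 0) ∈ μ.S l := by
  refine Or.inl ⟨_, μ.mem, ?_⟩
  rw [← Function.iterate_succ_apply' σ.G, Function.iterate_succ_apply, Sy.G, G0,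
    zero_pow (by have := σ.hn; omega)]

end XRENL

open XRENL

theorem st_RENL {n : ℕ} (hn : 2 ≤ n) (hCOV : St_COV n) (hORB : St_ORB n) : St_RENL n := by
  intro σ b g ν q r γ K s h hN hs hM hX
  have hb := h.lv.hb
  have h3 := b3 hn hb
  have s0 : s ≠ 0 := fun e => by
    rw [e, zero_pow (by omega), zero_mul] at hs
    exact zero_ne_one hs
  have x0 : (G0 n g)^[q] 0 = cc n g (q - 1) := by
    rw [← fq_pow hN.q1, zero_pow (by omega)]
    rfl
  have key : ∀ (L : ℕ) (μ : Md σ L), μ.Good ν → 3 * q ≤ L → ∀ (k : ℕ) (z : ℂ), (k + 2) * q ≤ L →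
      σ.G z ∈ μ.S (k * q) → σ.G^[q] z ∉ σ.Ext ((n : ℝ) ^ q)⁻¹ →
      ‖(z / s) ^ n - (σ.G^[q] z / s - cc n g (q - 1) / s)‖ ≤
        ‖σ.G^[q] z / s - cc n g (q - 1) / s‖ / 5 := fun L μ a1 a2 k z a3 a4 a5 => by
    obtain ⟨X, hA, hR⟩ := hX L μ a1 a2
    have b1 := (hR k z (le_trans (Nat.mul_le_mul_right _ (by omega)) a3) a4).2
    have b2 := (hR (k + 1) (σ.G^[q] z) a3 (by
      rw [← Function.iterate_succ_apply' σ.G, Function.iterate_succ_apply, add_mul, one_mul]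
      exact S_iter μ a4 q)).1 a5
    have b4 := ((hCOV b g q r γ K X h.lv hA hN).2.2 s hs).2.1 _ (small hn hb hN b2)
    rw [b1, ← div_pow, sub_div] at b4
    exact b4.trans (div_le_div_of_nonneg_left (norm_nonneg _) (by norm_num) (by linarith))
  have orb : ∀ (j : ℕ) (τ : ℝ), 0 < τ → σ.G^[j] 0 ∉ σ.Ext τ := by
    rintro j τ a ⟨ζ, c, e⟩
    exact σ.orb j ζ (a.trans_le c) e
  obtain ⟨u1, u2⟩ := hORB (fun k => (G0 n g)^[k * q] 0 / s) (5 / ‖s‖) (by simp)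
    (fun k => by
      rw [norm_div]
      exact div_le_div_of_nonneg_right (h.lv.bdd _) (norm_nonneg _)) fun k => by
      obtain ⟨μ, hμ⟩ := hM ((k + 3) * q)
      have e : σ.G^[q] (σ.G^[k * q] 0) = σ.G^[(k + 1) * q] 0 := by
        rw [add_mul, one_mul, add_comm, Function.iterate_add_apply]
      have := key _ μ hμ (Nat.mul_le_mul_right _ (by omega)) k _
        (Nat.mul_le_mul_right _ (by omega)) (c_mem μ _)
        (by rw [e]; exact orb _ _ (inv_pos.mpr (npow_pos hn q)))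
      rwa [e, orb_eq h, orb_eq h, ← x0, ← one_mul q, ← mul_assoc, mul_one, ← mul_assoc,
        mul_one] at this
  rw [one_mul, x0] at u1
  obtain ⟨μ, hμ⟩ := hM (3 * q)
  obtain ⟨X, hA, -⟩ := hX _ μ hμ le_rfl
  obtain ⟨c1, c2, c3⟩ := (hCOV b g q r γ K X h.lv hA hN).2.2 s hs
  refine ⟨⟨hn, hb, ?_, fun y hy => ?_, fun j => ?_⟩, fun σ' h' => ⟨hN.q1, s0, fun u hu => ?_,
    1 / ‖s‖, fun L μ a1 a2 k z a3 a4 a5 => ⟨?_, ?_⟩⟩⟩
  · have d : Differentiable ℂ (G0 n g) := h.lv.ent.comp (differentiable_pow n)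
    exact (((d.iterate (q - 1)).comp h.lv.ent).comp
      (differentiable_id.const_mul (s ^ n))).const_mul s⁻¹
  · obtain ⟨x, d1, d2, d3⟩ := c3 y hy
    have d4 := c2 x d1
    rw [d3, mul_div_cancel_left₀ _ (pow_ne_zero _ s0)] at d4
    have d5 : ‖(x - cc n g (q - 1)) / s‖ / (5 * b ^ (3 * n)) ≤ 1 := by
      rw [div_le_one (by positivity)]
      linarith
    rw [ren, ← d3, hA.inv x (in_ball hn hb hN d1).1, show s⁻¹ * x - y =
      cc n g (q - 1) / s - (y - (x - cc n g (q - 1)) / s) by ring]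
    linarith [norm_sub_le (cc n g (q - 1) / s) (y - (x - cc n g (q - 1)) / s)]
  · rw [ren_iter hN.q1 s0]
    linarith [u2 j]
  · have d0 := pow_le h' hu
    obtain ⟨x, d1, -, d3⟩ := c3 (u ^ n) (by linarith)
    rw [show σ'.G u = G0 n (ren n g q s) u from h'.hm.eq _ d0, g0_ren hN.q1, ← mul_assoc,
      mul_inv_cancel₀ s0, one_mul]
    refine (iter_eq h _ q fun m hm => ?_).symm
    rcases m with _ | m
    · have d4 := hA.sm x (in_ball hn hb hN d1).1
      rw [d3, ← mul_pow, norm_pow] at d4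
      exact (in_ball hn hb hN (small hn hb hN d4)).2.trans (by nlinarith)
    · have d4 := hA.bd x (in_ball hn hb hN d1).1 m (by omega)
      rwa [d3, ← mul_pow] at d4
  · obtain ⟨X, -, hR⟩ := hX L μ a1 a2
    rw [norm_div]
    refine div_le_div_of_nonneg_right (in_ball hn hb hN (small hn hb hN
      ((hR k z (le_trans (Nat.mul_le_mul_right _ (by omega)) a3) a4).1 fun c => a5 ?_))).2
      (norm_nonneg _)
    exact image_mono (fun ζ hζ => le_trans (inv_anti₀ (npow_pos hn q) (npow_mono hn (by omega))) hζ) c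
  · have d1 := key L μ a1 a2 k z a3 a4 fun c =>
      a5 ((ext_iter (inv_pos.mpr (npow_pos hn _)) q z).mp (by
        rwa [two_mul, pow_add, mul_inv, mul_inv_cancel_left₀ (npow_pos hn q).ne']))
    have d2 := norm_sub_norm_le ((z / s) ^ n) (σ.G^[q] z / s - cc n g (q - 1) / s)
    have d3 := norm_sub_le (σ.G^[q] z / s) (cc n g (q - 1) / s)
    rw [norm_pow] at d2
    linarith [norm_nonneg (σ.G^[q] z / s)]

end RT95
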