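import Pool.Agent.Lib.RT95.K17
import Pool.Agent.Lib.KR73.B_C2
import Pool.Agent.Lib.KR73.B_C4

/-! Block SER: the series law along the nest. -/

set_option autoImplicit false

open Filter Topology Set Metric Complex Bornology MeasureTheory N62a1eb23
open scoped Real ENNReal

namespace RT95

open Pool.Agent.Lib.MP_c35c17_an KN KR73

namespace XSER

theorem iso {n : ℕ} (hBRW : St_BRW n) (hMISS : St_MISS n) {σ : Sy n} {L : ℕ} {μ : Md σ L} {b : ℝ}
    {g : ℂ → ℂ} {d T : ℕ} (hO : Ok μ b g d T) (i x s q : ℕ) (hd : d ≤ s) (hi : i + x ≤ T + ss d) :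
    DifferentiableOn ℂ (μ.Y i x) (μ.Ph (i + x) s q) ∧ InjOn (μ.Y i x) (μ.Ph (i + x) s q) ∧
      μ.Y i x '' μ.Ph (i + x) s q = μ.Ph i (x + s) (q + x) := by
  have hL := hO.hor
  obtain ⟨h1, h2, h3⟩ := hBRW σ L μ b g hO.fit i x (μ.Ph (i + x) s q) (by omega)
    (disjoint_left.mpr (μ.Ph_off7 _ _ _)) fun i' y h1 h2 h3 =>
      ((hMISS σ L μ b g d T hO).1 i' y (by omega) (by omega) h3).2.mono_left
        fun z hz => h2 ▸ μ.P_mono7 hd hz.1
  refine ⟨h1, fun z hz z' hz' e => by rw [← h2 z hz, e, h2 z' hz'], Subset.antisymm ?_ ?_⟩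
  · rintro _ ⟨z, hz, rfl⟩
    refine ⟨μ.P_add7.mpr ⟨h3 hz, ?_⟩, fun h => hz.2 ?_⟩
    · rw [h2 z hz]; exact hz.1
    · rw [← h2 z hz]; exact (σ.ex_inv7 x q _).mpr h
  · intro z hz
    obtain ⟨h5, h6⟩ := μ.P_add7.mp hz.1
    exact ⟨_, ⟨h6, fun h => hz.2 ((σ.ex_inv7 x q z).mp h)⟩, μ.P_back7 h5⟩

end XSER

theorem st_SER {n : ℕ} (hn : 2 ≤ n) (hBRW : St_BRW n) (hMISS : St_MISS n) : St_SER n := by
  have _ := hn
  intro σ L μ b g d T hO w j M hQ hj
  have hd : d ≤ ss d := by unfold ss; omega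
  have he : ee d ≤ ss d := by unfold ss ee; omega
  have h := st_C4 (fun q => μ.Ph j (q * ss d + ss d) (ee d + q * ss d))
    (fun q => μ.Ph j (q * ss d + d) (0 + q * ss d)) M w (fun q hq => ?_) (fun q _ => ?_)
  · refine h.mono (μ.Ph_mono7 ?_ ?_) (μ.Ph_mono7 ?_ ?_)
    · rw [add_mul, one_mul]
    · rw [add_mul, one_mul]; omega
    · omega
    · omega
  · have h1 : q * ss d ≤ M * ss d := Nat.mul_le_mul_right _ hq
    have h2 := XSER.iso hBRW hMISS hO j (q * ss d) d 0 le_rfl (by omega)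
    have h3 := XSER.iso hBRW hMISS hO j (q * ss d) (ss d) (ee d) hd (by omega)
    have h4 := st_C2 _ _ w _ (μ.Ph_open7 hO.fit _ _ _) h2.1 h2.2.1 (hQ (j + q * ss d) (by omega))
    rwa [h2.2.2, h3.2.2] at h4
  · refine μ.Ph_mono7 ?_ ?_
    · rw [add_mul, one_mul]; omega
    · rw [add_mul, one_mul]; omega

end RT95
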