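import Pool.Agent.Lib.RT95.B_MD
import Pool.Agent.Lib.RT.T27b
import Pool.Agent.Lib.KR73.B_LA

/-! Block SMALL: deep pieces about the critical value are small. -/

set_option autoImplicit false

open Filter Topology Set Metric Complex Bornology MeasureTheory N62a1eb23
open scoped Real ENNReal

namespace RT95

open Pool.Agent.Lib.MP_c35c17_an KN KR73

namespace XSMALL

open XMD

variable {n : ℕ} {σ : Sy n} {L : ℕ} (μ : Md σ L) {z : ℂ} {a b : ZMod n} {i l : ℕ}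

theorem S_iter (hz : z ∈ μ.S l) (j : ℕ) : σ.G^[j] z ∈ μ.S (l + j) := by
  induction j with
  | zero => exact hz
  | succ j ih =>
    rw [Function.iterate_succ_apply']
    exact RT34.sl_map σ.hn (conj' σ) μ.gpos _ ih

theorem V_uniq (ha : z ∈ μ.V a) (hb : z ∈ μ.V b) : a = b := by
  obtain ⟨y, hy, rfl⟩ := ha
  obtain ⟨y', hy', e⟩ := hb
  exact μ.disj a b y hy y' hy' e.symm

theorem S_P {s : ℕ} (h : i + s ≤ L) : μ.S i ⊆ μ.P i s :=
  fun _ hz x hx => μ.sect _ (by omega) (S_iter μ hz x)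

theorem P_back {x : ℕ} (h : z ∈ μ.P i x) : μ.Y i x (σ.G^[x] z) = z := by
  induction x generalizing i z with
  | zero => rfl
  | succ x ih =>
    have h1 : σ.G z ∈ μ.P (i + 1) x := fun y hy => by
      rw [← Function.iterate_succ_apply, show i + 1 + y = i + (y + 1) by omega]
      exact h _ (by omega)
    obtain ⟨y, hy, e⟩ := h 0 (by omega)
    rw [Md.Y, br_succ, Function.iterate_succ_apply, ← Md.Y, ih h1]
    rw [Function.iterate_zero_apply, add_zero] at e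
    rw [← e, μ.inv _ y hy]

theorem top (l : ℕ) (ζ : ℂ) (hζ : 0 < ζ.re) (h : σ.B ζ ∈ σ.G^[l] '' μ.D) :
    ζ.re ≤ (n : ℝ) ^ l * μ.g :=
  RT34.sl_top σ.hn (G := σ.G) (hom := σ.hom) (fun _ => rfl) (conj' σ) (rot' σ) μ.top0 l ζ hζ h

theorem closed (hl : l ≤ L) : IsClosed (μ.S l) :=
  (RT34.sl_lg (ϑ := μ.ϑ) σ.hn (G_cont σ) σ.cont (inj' σ) (tends σ) μ.cpt μ.zp μ.gpos
    (RT34.inj_iter fun k hk => ⟨μ.A (nu n μ.ϑ k), fun z hz => by
      obtain ⟨y, hy, rfl⟩ := μ.sect k (by omega) (Or.inl hz)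
      rw [μ.inv _ y hy]⟩) (top μ l)).1

theorem ext_iter {τ : ℝ} (hτ : 0 < τ) (j : ℕ) (u : ℂ) :
    σ.G^[j] u ∈ σ.Ext ((n : ℝ) ^ j * τ) ↔ u ∈ σ.Ext τ :=
  RT34.ext_iter σ.hn (G := σ.G) (hom := σ.hom) (fun _ => rfl) (conj' σ) (rot' σ) hτ j u

/-- the first slits are pairwise disjoint -/
theorem disj {β : ℝ} {g : ℂ → ℂ} {d T : ℕ} {ν : ℕ → ZMod n} (h : Ok μ β g d T) (hν : μ.Good ν)
    (hR : Rq ν (T + ss d + 1)) {x y : ℕ} (hxy : x < y) (hy : y < d) :
    Disjoint (μ.S x) (μ.S y) := by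
  refine disjoint_left.mpr fun z h1 h2 => ?_
  have hs : ss d = 4 * d + 4 := rfl
  have hL := h.hor
  obtain ⟨e, he, hne⟩ := h.nr (y - x) (by omega) (by omega)
  obtain ⟨⟨a, ha⟩, -⟩ := hν
  have h3 := V_uniq μ (μ.sect _ (by omega) (S_iter μ h1 (T + ss d + 1 - x + e)))
    (μ.sect _ (by omega) (S_iter μ h2 (T + ss d + 1 - x + e)))
  rw [show x + (T + ss d + 1 - x + e) = e + (T + ss d + 1) by omega,
    show y + (T + ss d + 1 - x + e) = y - x + e + (T + ss d + 1) by omega, ha _ (by omega),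
    ha _ (by omega), hR _ (Nat.not_dvd_of_pos_of_lt (by omega) (by omega)),
    hR _ (Nat.not_dvd_of_pos_of_lt (by omega) (by omega)), ← ha _ (by omega),
    ← ha _ (by omega)] at h3
  exact hne h3.symm

end XSMALL

open XMD XSMALL in
theorem st_SMALL {n : ℕ} (hn : 2 ≤ n) (hBRW : St_BRW n) (hMISS : St_MISS n) (hSER : St_SER n)
    (hLG : St_LG n) : St_SMALL n := by
  intro σ L μ b g d T ν h hν hR w hw hQ M hM hMw z hz
  have hs : ss d = 4 * d + 4 := rfl
  have hL := h.hor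
  have hb := h.fit.lv.hb
  have p := npow_pos hn
  have n2 := ntwo hn
  have hl : 0 < 4 * Real.log b := by have := Real.log_pos (show 1 < b by linarith); positivity
  have hext : ∀ t, 3 / 4 ≤ t → ∀ u, u ∈ σ.Ext t ↔ Real.exp (4 * Real.log b * t) ≤ ‖u‖ :=
    fun t ht u => RT27.ext_round hl ht h.fit.chart u
  have hM0 : (0 : ℝ) < M := lt_of_lt_of_le (by positivity) hMw
  obtain ⟨M, rfl⟩ : ∃ M', M = M' + 1 :=
    ⟨M - 1, by have : 0 < M := (by exact_mod_cast hM0); omega⟩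
  set x := (M + 1) * ss d with hx
  set A : Set ℕ := {y | ∃ i', 1 ≤ i' ∧ i' + y = x ∧ ∀ j < y, nu n μ.ϑ (i' + j) = nu n μ.ϑ j}
    with hA
  have hmis : ∀ y ∈ A, y < d ∧ Disjoint (μ.P x d) (μ.S y) := fun y ⟨i', h1, h2, h3⟩ =>
    h2 ▸ (hMISS σ L μ b g d T h).1 i' y h1 (by omega) h3
  have hO : IsPreconnected (Om μ.S A) := st_JAN μ.S A
    ((finite_Iio d).subset fun y hy => (hmis y hy).1)
    (fun y hy => closed μ (by have := (hmis y hy).1; omega))
    (fun y hy => hLG σ L μ y (by have := (hmis y hy).1; omega)) fun y hy y' hy' e => by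
      rcases lt_or_gt_of_ne e with e | e
      · exact disj μ h hν hR e (hmis y' hy').1
      · exact (disj μ h hν hR e (hmis y hy).1).symm
  have hU := RT27.rad_chart hl h.fit.chart hO fun t ξ ht h1 y hy h2 => h1 y hy (by
    have h3 : (n : ℝ) ^ y * μ.g < 3 / 4 := by
      have h4 := mul_le_mul_of_nonneg_right (npow_mono hn
        (show y ≤ L by have := (hmis y hy).1; omega)) μ.gpos.le
      linarith [h.small]
    have h4 := RT34.sl_off hn (inj' σ) μ.gpos (top μ y) h3 h2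
    exact Or.inr ⟨t, h3.le.trans ht, RT27.cg_eq hn (rot' σ) (by linarith) h4.symm⟩)
  set U := Om μ.S A ∩ closedBall 0 (Real.exp (4 * Real.log b * (3 / 4))) with hUd
  have hU1 : Disjoint U (σ.Ext 1) := disjoint_left.mpr fun u hu h1 => by
    have h2 := Real.exp_le_exp.mp (((hext 1 (by norm_num) u).mp h1).trans
      (mem_closedBall_zero_iff.mp hu.2))
    linarith
  have hin : ∀ u ∈ μ.P x d, u ∉ σ.Ext (3 / 4) → u ∈ U := fun u h1 h2 =>
    ⟨fun y hy => disjoint_left.mp (hmis y hy).2 h1,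
      mem_closedBall_zero_iff.mpr (not_le.mp fun h3 => h2 ((hext _ le_rfl u).mpr h3)).le⟩
  obtain ⟨h1, h2, h3⟩ := hBRW σ L μ b g h.fit 0 x U (by omega) hU1 fun i' y hi e hy =>
    disjoint_left.mpr fun u hu => hu.1 y ⟨i', hi, by omega, hy⟩
  have h5 : μ.Y 0 x '' U ⊆ μ.Ph 0 x x := by
    rintro _ ⟨u, hu, rfl⟩
    refine ⟨h3 hu, fun h4 => disjoint_left.mp hU1 hu ?_⟩
    have h6 := (ext_iter (inv_pos.mpr (p x)) x _).mpr h4
    rwa [h2 u hu, mul_inv_cancel₀ (p x).ne'] at h6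
  have h8 : Cap (μ.Y 0 x '' U) (ball 0 (b ^ 4)) (w / √(M + 1)) :=
    (hSER σ L μ b g d T h w 0 M hQ (by rw [hx, add_mul] at hM; omega)).mono h5 fun u hu => by
      refine mem_ball_zero_iff.mpr (not_le.mp fun h4 => hu.2 ?_)
      rw [pow_zero, inv_one, hext 1 (by norm_num), mul_one,
        show 4 * Real.log b = Real.log (b ^ 4) by simp, Real.exp_log (by positivity)]
      exact h4
  have hq : 0 < √((M : ℝ) + 1) := Real.sqrt_pos.mpr (by positivity)
  have hq2 : √((M : ℝ) + 1) ^ 2 = M + 1 := Real.sq_sqrt (by positivity)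
  have hc : σ.hom 0 ∈ μ.S 0 := Or.inl ⟨_, μ.mem, rfl⟩
  have e1 : σ.G^[x] (σ.hom 0) ∈ U := by
    refine hin _ (S_P μ (by omega) (by simpa using S_iter μ hc x)) ?_
    rintro ⟨ζ, h4, e⟩
    refine σ.orb (x + 1) ζ (lt_of_lt_of_le (by norm_num) h4) (e.trans ?_)
    rw [Function.iterate_succ_apply, G0, zero_pow (by omega)]
    rfl
  have e2 : σ.G^[x] z ∈ U := by
    refine hin _ (fun y hy => ?_) fun ⟨ζ, h4, e⟩ => hz.2 ?_
    · rw [← Function.iterate_add_apply, add_comm y x]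
      simpa using hz.1 (x + y) (by omega)
    · refine (ext_iter (inv_pos.mpr (p _)) x z).mp ⟨ζ, le_trans (b := 3 / 4) (c := ζ.re) ?_ h4, e⟩
      rw [pow_succ, mul_inv, ← mul_assoc, mul_inv_cancel₀ (p x).ne', one_mul]
      exact (inv_anti₀ two_pos n2).trans (by norm_num)
  push_cast at hMw
  have h10 := st_LA2 _ _ _ _ (σ.hom 0) z h8 (div_pos hw hq) (by
    rw [div_le_iff₀ hq]
    exact (abs_le_of_sq_le_sq' (by rw [mul_pow, hq2]; linarith) (by positivity)).2) Subset.rfl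
    (hU.image _ h1.continuousOn) ⟨_, e1, P_back μ (S_P μ (by omega) hc)⟩
    ⟨_, e2, P_back μ fun y hy => hz.1 y (by omega)⟩
  rw [div_pow, hq2, one_div_div, h.fit.hm.eq 0 (by rw [norm_zero]; positivity)] at h10
  rw [gam]
  push_cast
  exact h10

end RT95
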