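import Pool.Agent.Lib.RT95.Blue

/-! The tip of the new model. -/

set_option autoImplicit false

open Filter Topology Set Metric Complex
open scoped Real

namespace RT95

open Pool.Agent.Lib.MP_c35c17_an KN KR73

theorem TIP.inv_le {n : ℕ} (hn : 2 ≤ n) {a b : ℕ} (h : a ≤ b) :
    ((n : ℝ) ^ b)⁻¹ ≤ ((n : ℝ) ^ a)⁻¹ := by
  have h1 : (1 : ℝ) ≤ n := by exact_mod_cast (by omega : 1 ≤ n)
  exact inv_anti₀ (by positivity) (pow_le_pow_right₀ h1 h)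

theorem TIP.inv_lt {n : ℕ} (hn : 2 ≤ n) {a b : ℕ} (h : a < b) :
    ((n : ℝ) ^ b)⁻¹ < ((n : ℝ) ^ a)⁻¹ := by
  have h1 : (1 : ℝ) < n := by exact_mod_cast (by omega : 1 < n)
  exact inv_strictAnti₀ (by positivity) (pow_lt_pow_right₀ h1 h)

theorem st_TIP (hH : St_HSEQ) (hO : St_OSC) (hA : St_ANG) : St_TIP := by
  intro n q j₀ j₂ Λ ν hΛ hν L' e he
  have hn := hΛ.hn
  have hq := hΛ.q1
  have hn1 : (1 : ℝ) < n := by exact_mod_cast (by omega : 1 < n)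
  obtain ⟨L₀, η, hη, hA⟩ := hA n ν L' hn hν
  obtain ⟨c, hc⟩ : ∃ c, c = j₀ + j₂ + 4 := ⟨_, rfl⟩
  obtain ⟨W, hO⟩ := hO n q j₀ j₂ Λ hΛ (2 * c + (L₀ + L' + 1))
  obtain ⟨j, ⟨j1, j2⟩, j3⟩ := ((((tendsto_pow_atTop_atTop_of_one_lt hn1).eventually_ge_atTop
    (W / η)).and ((tendsto_pow_atTop_atTop_of_one_lt hn1).eventually_gt_atTop e⁻¹)).and
    (eventually_gt_atTop L')).exists
  refine ⟨(j + (2 * c + (L₀ + L' + 1)) + j₀ + 4) * q, fun L g ϑ a hL hl hs => ?_⟩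
  have hle : ∀ m, m ≤ j + (2 * c + (L₀ + L' + 1)) + j₀ + 4 → m * q ≤ L := fun m hm =>
    (Nat.mul_le_mul_right q hm).trans hL
  obtain ⟨T, N, a₁, hT, hN, hI⟩ := hH n q j₀ j₂ Λ L g ϑ hΛ hl (j + 2 * c) L₀ (by omega)
    (hle _ (by omega)) fun k hk => (hs k (hle _ (by omega))).1
  have hg := hl.gpos
  have ht0 : 0 < tip n q g 1 := by rw [tip]; positivity
  obtain ⟨t1, t2, -⟩ := hT 0 (Nat.zero_le _)
  have hcont : ContinuousOn (fun t => (yy n q Λ ϑ 1 t).re) (Icc (tip n q g 1) (T 0)) := by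
    refine continuous_re.comp_continuousOn (hΛ.cont.comp (f := fun t : ℝ =>
      (⟨t, (n : ℝ) ^ (1 * q) * ϑ / n⟩ : ℂ)) (Continuous.continuousOn ?_) fun t ht =>
        ht0.trans_le ht.1)
    simp only [Complex.mk_eq_add_mul_I]
    fun_prop
  obtain ⟨τ, hτ, hmax⟩ := isCompact_Icc.exists_isMaxOn ⟨T 0, right_mem_Icc.mpr t1⟩ hcont
  have hT0 : T 0 < ((n : ℝ) ^ ((j + c + j₀ + 2) * q))⁻¹ := not_le.mp fun h => by
    have h1 : _ ≤ (yy n q Λ ϑ 1 (T 0)).re := hΛ.low _ _ _ h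
    rw [t2] at h1
    exact absurd h1 (not_le.mpr (TIP.inv_lt hn (by omega)))
  have hup : ∀ t ∈ Icc (tip n q g 1) (T 0),
      (yy n q Λ ϑ 1 t).re < ((n : ℝ) ^ (j + (j₀ + j₂ + 4)))⁻¹ := fun t ht => by
    rw [← hc]
    exact hl.up (j + c) 1 t (hle _ (by omega)) ht.1 (ht.2.trans_lt hT0)
  have hlo : ((n : ℝ) ^ (j + 2 * c))⁻¹ ≤ (yy n q Λ ϑ 1 τ).re := by
    have h1 : (yy n q Λ ϑ 1 (T 0)).re ≤ _ := hmax (right_mem_Icc.mpr t1)
    rwa [t2] at h1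
  have hosc : ∀ t, tip n q g 1 ≤ t → (yy n q Λ ϑ 1 t).re ∈
      Ico ((n : ℝ) ^ (j + (2 * c + (L₀ + L' + 1))))⁻¹ ((n : ℝ) ^ (j + (j₀ + j₂ + 4)))⁻¹ →
      |(yy n q Λ ϑ 1 t).im - (yy n q Λ ϑ 1 τ).im| ≤ η := fun t ht h => by
    have h1 := hO L g ϑ j hl hL t τ ht hτ.1 h ⟨(TIP.inv_le hn (by omega)).trans hlo, hup τ hτ⟩
    rw [div_le_iff₀ hη] at j1
    exact le_of_mul_le_mul_left (h1.trans j1) (by positivity)
  have hang := hA (fun r => (yy n q Λ ϑ 1 (T r)).im) N (a + a₁) (yy n q Λ ϑ 1 τ).im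
    (fun k hk => by rw [hN k hk, (hs k (hle _ (by omega))).2, add_assoc]) hI fun r hr => by
      obtain ⟨r1, r2, -⟩ := hT r hr
      exact hosc _ r1 (by
        rw [r2]; exact ⟨TIP.inv_le hn (by omega), TIP.inv_lt hn (by omega)⟩)
  refine ⟨τ, ⟨hτ.1, (hτ.2.trans_lt hT0).trans_le (TIP.inv_le hn
    (Nat.mul_le_mul_right q (by omega))), fun t ht => hmax ⟨ht.1, ht.2.trans hτ.2⟩,
    ⟨j + 2 * c + (L' + 1), hle _ (by omega), ?_, ?_⟩, fun l l1 l2 t ht h ⟨m, hm⟩ => ?_⟩, ?_,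
    a + a₁, fun k hk => (hang k hk).1⟩
  · have h1 := hl.small
    have h2 : (n : ℝ) ^ (1 * q) * (n : ℝ) ^ ((j + 2 * c + (L' + 1) + j₀ + 2) * q) ≤ (n : ℝ) ^ L := by
      rw [← pow_add, ← add_mul]
      exact pow_le_pow_right₀ hn1.le (hle _ (by omega))
    rw [tip, ← one_div, div_lt_div_iff₀ (by positivity) (by positivity)]
    nlinarith [mul_le_mul_of_nonneg_left h2 hg.le, mul_pos hg (pow_pos (by linarith : (0 : ℝ) < n) L)]
  · refine le_trans (le_of_eq ?_) hlo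
    rw [pow_add _ (j + 2 * c)]
    field_simp
  · obtain ⟨k, rfl⟩ := Nat.exists_eq_add_of_le' l1
    have hp : (0 : ℝ) < (n : ℝ) ^ (k + 1) := by positivity
    have h1 := hosc t ht.1 ⟨by
      refine (TIP.inv_le hn (show j + 2 * c + (k + 1) ≤ _ by omega)).trans ?_
      rw [pow_add, mul_inv, mul_inv_le_iff₀ hp]
      exact hlo.trans (h.trans_eq (mul_comm _ _)), hup t ⟨ht.1, ht.2.trans hτ.2⟩⟩
    have h2 := (hang k (by omega)).2 m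
    rw [show ((n : ℝ) ^ (k + 1) - 1) * (yy n q Λ ϑ 1 τ).im - m = -((n : ℝ) ^ (k + 1) *
      ((yy n q Λ ϑ 1 t).im - (yy n q Λ ϑ 1 τ).im)) by linear_combination hm, abs_neg, abs_mul,
      abs_of_pos hp] at h2
    exact absurd (mul_le_mul_of_nonneg_left h1 hp.le) (not_le.mpr h2)
  · refine ((hup τ hτ).trans_le (TIP.inv_le hn (Nat.le_add_right j _))).trans ?_
    exact inv_lt_of_inv_lt₀ he j2

end RT95
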