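import Pool.Agent.Lib.RT95.Blue

/-! Transfer of models to the next level. -/

set_option autoImplicit false

open Filter Topology Set Metric Complex Bornology MeasureTheory N62a1eb23
open scoped Real ENNReal

namespace RT95

open Pool.Agent.Lib.MP_c35c17_an KN KR73

namespace XTR

variable {n : ℕ} {σ : Sy n} {L : ℕ}

theorem per (σ : Sy n) {t x y : ℝ} (ht : 0 < t) (h : Cg x y) : σ.B ⟨t, x⟩ = σ.B ⟨t, y⟩ := by
  have n0 : (n : ℝ) ≠ 0 := Nat.cast_ne_zero.2 (by have := σ.hn; omega)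
  have n1 : (n : ℂ) ≠ 0 := Nat.cast_ne_zero.2 (by have := σ.hn; omega)
  have h1 : ∀ (k : ℕ) (x : ℝ), σ.B ⟨t, x + k / n⟩ = exp (2 * π * I / n) ^ k * σ.B ⟨t, x⟩ := by
    intro k x
    induction k with
    | zero => simp
    | succ k ih =>
      rw [pow_succ', mul_assoc, ← ih, ← σ.rot t _ ht]
      congr 2
      push_cast
      ring
  have h2 : Function.Periodic (fun x : ℝ => σ.B ⟨t, x⟩) 1 := fun x => by
    have := h1 n x
    rwa [div_self n0, ← exp_nat_mul, mul_div_cancel₀ _ n1, exp_two_pi_mul_I, one_mul] at this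
  obtain ⟨m, rfl⟩ := h
  simpa using h2.int_mul m y

theorem ncg (ρ : Raw σ L) {l : ℕ} (h1 : 1 ≤ l) (h2 : l ≤ L + 1) :
    ¬ Cg ((n : ℝ) ^ l * ρ.ϑ) ρ.ϑ := fun h => by
  have n1 : (1 : ℝ) ≤ (n : ℝ) ^ l := one_le_pow₀ (by have := σ.hn; exact_mod_cast by omega)
  have h3 : ρ.g ≤ (n : ℝ) ^ l * ρ.g := le_mul_of_one_le_left ρ.gpos.le n1
  refine disjoint_left.1 (ρ.dis l h1 h2) (Or.inr ⟨_, self_mem_Ici, rfl⟩)
    (Or.inr ⟨(n : ℝ) ^ l * ρ.g, by simpa using h3, ?_⟩)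
  simp only [pow_zero, one_mul]
  exact (per σ (ρ.gpos.trans_le h3) h).symm

theorem S_iter (ρ : Raw σ L) {l : ℕ} {z : ℂ} (hz : z ∈ ρ.S l) (j : ℕ) :
    σ.G^[j] z ∈ ρ.S (l + j) := by
  have n0 : (0 : ℝ) < n := by have := σ.hn; exact_mod_cast by omega
  induction j with
  | zero => exact hz
  | succ j ih =>
    rw [Function.iterate_succ_apply']
    rcases ih with ⟨y, hy, e⟩ | ⟨t, ht, e⟩
    · exact Or.inl ⟨y, hy, by rw [← e, ← add_assoc, Function.iterate_succ_apply']⟩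
    · have h1 : 0 < t := lt_of_lt_of_le (mul_pos (pow_pos n0 _) ρ.gpos) ht
      refine Or.inr ⟨n * t, ?_, ?_⟩
      · rw [mem_Ici, ← add_assoc, pow_succ', mul_assoc]
        exact mul_le_mul_of_nonneg_left ht n0.le
      · rw [← e, ← add_assoc, pow_succ', mul_assoc]
        exact (σ.conj t _ h1).symm

theorem disj (μ : Md σ L) {a b x : ℕ} (ha : a + x ≤ L) (hb : b + x ≤ L)
    (h : nu n μ.ϑ (a + x) ≠ nu n μ.ϑ (b + x)) : Disjoint (μ.S a) (μ.S b) := by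
  refine disjoint_left.2 fun z h1 h2 => h ?_
  obtain ⟨y, hy, e⟩ := μ.sect _ ha (S_iter μ.toRaw h1 x)
  obtain ⟨y', hy', e'⟩ := μ.sect _ hb (S_iter μ.toRaw h2 x)
  exact μ.disj _ _ y hy y' hy' (e.trans e'.symm)

end XTR

theorem st_TR {n : ℕ} (hn : 2 ≤ n) (hU : St_UP n) (hL : St_LAM n) (hT : St_TIP) (hN : St_NEW n) :
    St_TR n := by
  intro σ σ' b g ν q s hF hK hM hA L' e he
  obtain ⟨j₀, hU⟩ := hU σ σ' b g ν q s hF hK
  obtain ⟨j₂, Λ, hL, hB⟩ := hL σ σ' b g ν q s hF hK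
  obtain ⟨L₁, hT⟩ := hT n q j₀ j₂ Λ (sub ν q) hL hA L' e he
  have n0 : (0 : ℝ) < n := by exact_mod_cast by omega
  have q1 := hK.q1
  choose! x hx using hA
  obtain ⟨X, hX⟩ : ∃ X, ∀ l ≤ L' + 1, x l ≤ X :=
    ⟨(Finset.range (L' + 2)).sup x, fun l hl => Finset.le_sup (Finset.mem_range.2 (by omega))⟩
  obtain ⟨L, h1, h2⟩ : ∃ L, L₁ ≤ L ∧ (X + L' + j₀ + 4) * q ≤ L := ⟨_, le_max_left _ _, le_max_right _ _⟩
  have h3 : ∀ k, k ≤ X + L' + j₀ + 4 → k * q ≤ L := fun k hk => (Nat.mul_le_mul_right q hk).trans h2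
  obtain ⟨μ, hG⟩ := hM L
  obtain ⟨⟨a, ha⟩, hs⟩ := id hG
  have hl : Legs n q j₀ Λ L μ.g μ.ϑ := by
    refine ⟨μ.gpos, hs, fun j k t c1 c2 c3 => ?_⟩
    have t0 : 0 < t := lt_of_lt_of_le (div_pos (mul_pos (pow_pos n0 _) μ.gpos) n0) c2
    refine lt_of_not_ge fun c4 => (hU L μ hG (h3 3 (by omega)) j k
      (σ.B ⟨t, (n : ℝ) ^ (k * q) * μ.ϑ / n⟩) c1 (Or.inr ⟨n * t, ?_, ?_⟩) ?_).1 ⟨_, c4, hB _ t0⟩
    · rw [mem_Ici, mul_comm (n : ℝ) t]
      exact (div_le_iff₀ n0).1 c2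
    · refine Eq.trans ?_ (σ.conj t _ t0).symm
      rw [mul_div_cancel₀ _ n0.ne']
    · rintro ⟨ζ, c5, c6⟩
      have c7 := (σ.inj ζ _ (lt_of_lt_of_le (by positivity) c5) t0 c6).1
      exact absurd (le_of_le_of_eq c5 c7) (not_le.2 c3)
  obtain ⟨τ, t1, t2, t3⟩ := hT L μ.g μ.ϑ a h1 hl fun k hk =>
    ⟨XTR.ncg μ.toRaw (Nat.mul_pos (by omega) q1) (by omega), ha _ (by omega)⟩
  obtain ⟨ρ, r1, r2⟩ := hN σ σ' ν q s j₀ j₂ Λ L μ L' τ hK.ne hU hL hB hG (h3 _ (by omega))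
    (fun l l1 l2 => by
      have e1 : q - 1 + l * q + x l * q = (x l + l + 1) * q - 1 := by
        rw [add_mul, add_mul, one_mul]; omega
      have e2 : q - 1 + x l * q = (x l + 1) * q - 1 := by
        rw [add_mul, one_mul]; omega
      have e3 := hX l l2
      have e4 := h3 (x l + l + 1) (by omega)
      have e5 := h3 (x l + 1) (by omega)
      refine XTR.disj μ (x := x l * q) (by omega) (by omega) ?_
      rw [e1, e2, ha _ (by omega), ha _ (by omega)]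
      exact fun c => hx l l1 (add_right_cancel c)) t1
  exact ⟨ρ, r1 ▸ t2, r2 ▸ t3⟩

end RT95
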