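import Pool.Agent.Lib.RT95.Blue
import Pool.Agent.Lib.RT.T43c
import Pool.Agent.Lib.RT.T23

/-! The pairing bound and the lower bound of the transversality sum. -/

set_option autoImplicit false

open Filter Topology Set Metric Complex Bornology MeasureTheory N62a1eb23

namespace RT95

open Pool.Agent.Lib.MP_c35c17_an KN KR73

namespace XTRV

variable {n : ℕ} {σ : Sy n} {b : ℝ} {g : ℂ → ℂ}

theorem big (hn : 2 ≤ n) (hb : 100 ≤ b) : 2 * (b ^ 4 + 4) ≤ b ^ (3 * n) := by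
  have h1 : b ^ 6 ≤ b ^ (3 * n) := pow_le_pow_right₀ (by linarith) (by omega)
  have h2 : 100 ^ 4 ≤ b ^ 4 := by gcongr
  have h3 : 100 ^ 2 ≤ b ^ 2 := by gcongr
  nlinarith [show b ^ 6 = b ^ 4 * b ^ 2 by ring]

theorem dg (h : Lv n b g) {y : ℂ} (hy : ‖y‖ ≤ b ^ (3 * n)) : ‖deriv g y - 1‖ ≤ 1 / 2 := by
  have h1 := big h.hn h.hb
  have h2 : 0 ≤ b ^ 4 := by positivity
  have hd : Differentiable ℂ fun z => g z - z := h.ent.sub differentiable_id
  have h3 := Complex.norm_deriv_le_of_forall_mem_sphere_norm_le (c := y) (R := 8) (C := 4)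
    (by norm_num) hd.diffContOnCl fun z hz => h.near z (by
      have := norm_le_insert' z y
      rw [mem_sphere_iff_norm.mp hz] at this
      linarith)
  rw [deriv_fun_sub (h.ent y) differentiableAt_fun_id, deriv_id''] at h3
  linarith

theorem dg_ne (h : Lv n b g) {y : ℂ} (hy : ‖y‖ ≤ b ^ (3 * n)) : deriv g y ≠ 0 := fun e => by
  have := dg h hy
  rw [e] at this
  norm_num at this

theorem pre (h : Fit σ b g) {y : ℂ} (hy : ‖σ.hom y‖ < b ^ 4) : ‖y‖ < b ^ 4 + 4 := by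
  have h1 := h.hm.near y
  have h2 := norm_le_insert (σ.hom y) y
  linarith

theorem pre' (h : Fit σ b g) {y : ℂ} (hy : ‖σ.hom y‖ < b ^ 4) : ‖y‖ ≤ b ^ (3 * n) / 2 := by
  linarith [pre h hy, big h.lv.hn h.lv.hb]

theorem ev (h : Fit σ b g) {y : ℂ} (hy : ‖σ.hom y‖ < b ^ 4) : (σ.hom : ℂ → ℂ) =ᶠ[𝓝 y] g := by
  filter_upwards [(isOpen_lt σ.hom.continuous.norm continuous_const).mem_nhds hy] with z hz
    using h.hm.eq z (pre' h hz)

theorem rt_lt (h : Fit σ b g) {u : ℂ} (hu : ‖σ.hom (u ^ n)‖ < b ^ 4) : ‖u‖ < b ^ 2 + 2 := by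
  have h1 := pre h hu
  have hb := h.lv.hb
  by_contra c
  push Not at c
  have h2 : ‖u‖ ^ 2 ≤ ‖u‖ ^ n := pow_le_pow_right₀ (by nlinarith) h.lv.hn
  have h3 : (b ^ 2 + 2) ^ 2 ≤ ‖u‖ ^ 2 := by gcongr
  rw [norm_pow] at h1
  nlinarith

theorem r_lt (hb : 100 ≤ b) : b ^ 2 + 2 ≤ b ^ 4 := by
  have h3 : 100 ^ 2 ≤ b ^ 2 := by gcongr
  nlinarith [show b ^ 4 = b ^ 2 * b ^ 2 by ring]

theorem dG (h : Lv n b g) (u : ℂ) :
    deriv (G0 n g) u = deriv g (u ^ n) * (n * u ^ (n - 1)) :=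
  ((h.ent _).hasDerivAt.comp u (hasDerivAt_pow n u)).deriv

theorem ev2 (h : Fit σ b g) {u : ℂ} (hu : ‖σ.hom (u ^ n)‖ < b ^ 4) :
    deriv (fun u => σ.hom (u ^ n)) u = deriv (G0 n g) u :=
  ((ev h hu).comp_tendsto (continuous_pow n).continuousAt).deriv_eq

theorem cc_le (h : Lv n b g) (k : ℕ) : ‖cc n g k‖ ≤ 5 := by
  have := h.bdd (k + 1)
  rwa [Function.iterate_succ_apply, G0, zero_pow (by have := h.hn; omega)] at this

theorem cc_pow (h : Lv n b g) (k : ℕ) : ‖cc n g k ^ n‖ ≤ b ^ (3 * n) / 2 := by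
  have hb := h.hb
  have h1 : ‖cc n g k‖ ^ n ≤ b ^ n := pow_le_pow_left₀ (norm_nonneg _) (by linarith [cc_le h k]) n
  have h2 : b ≤ b ^ (2 * n) := le_self_pow₀ (by linarith) (by have := h.hn; omega)
  have h3 : 0 ≤ b ^ n := by positivity
  rw [norm_pow]
  nlinarith [show b ^ (3 * n) = b ^ n * b ^ (2 * n) by ring]

theorem it_eq (h : Fit σ b g) (l : ℕ) : ∀ z ∈ σ.Vv b l, (G0 n g)^[l] z = σ.G^[l] z := by
  induction l with
  | zero => exact fun _ _ => rfl
  | succ l ih =>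
    intro z hz
    rw [Sy.Vv, mem_ofPred_eq, Function.iterate_succ_apply'] at hz
    rw [Function.iterate_succ_apply', Function.iterate_succ_apply',
      ih z ((rt_lt h hz).trans_le (r_lt h.lv.hb))]
    exact (h.hm.eq _ (pre' h hz)).symm

theorem cc_it (l i : ℕ) : (G0 n g)^[l] (cc n g i) = cc n g (l + i) :=
  (Function.iterate_add_apply _ _ _ _).symm

end XTRV

open XTRV

theorem st_TRV {n : ℕ} (hn : 2 ≤ n) : St_TRV n := by
  obtain ⟨C₀, hC, h⟩ := RT43.trv
  refine ⟨max 100 C₀, le_max_left _ _, fun σ g w hf hw N j hj hc u hu hu1 => ?_⟩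
  have hCb : C₀ ≤ max 100 C₀ := le_max_right _ _
  generalize max 100 C₀ = b at *
  have hb := hf.lv.hb
  have hB := big hn hb
  have h4 : 0 ≤ b ^ 4 := by positivity
  have hGd : Differentiable ℂ (G0 n g) := hf.lv.ent.comp (differentiable_pow n)
  have hcs : ∀ k, cc n g (k + 1) = σ.hom (cc n g k ^ n) := fun k => by
    rw [hf.hm.eq _ (cc_pow hf.lv k), cc, Function.iterate_succ_apply']; rfl
  have hcR : ∀ k, ‖cc n g k‖ < b ^ 4 := fun k => by nlinarith [cc_le hf.lv k, r_lt hb]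
  refine h n σ.hom (b ^ 4) (b ^ 2 + 2) (Lip n b) hn (by nlinarith) ?_ (fun x hx => ?_)
    (fun y hy => (hf.lv.ent y).congr_of_eventuallyEq (ev hf hy)) (fun u hu => rt_lt hf hu)
    (fun u hu => ?_) (cc n g) (fun k => (dd n g k)⁻¹) N
    (hf.hm.eq 0 (by rw [norm_zero]; positivity)).symm hcs hcR (by simp [dd]) (fun k hk => ?_) w
    hw.1.differentiableOn (fun y hy => hw.2 y (by linarith [pre' hf hy])) j u hj hu hu1
  · have h1 : C₀ * (b ^ 2 + 2) ≤ b * (b ^ 2 + 2) := by gcongr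
    have h2 : 100 ^ 2 ≤ b ^ 2 := by gcongr
    nlinarith [show b ^ 4 = b * (b * b ^ 2) by ring, mul_le_mul hb h2 (by norm_num) (by linarith)]
  · have hy : ‖σ.hom (σ.hom.symm x)‖ < b ^ 4 := by simpa using hx
    exact (HasDerivAt.of_local_left_inverse σ.hom.symm.continuous.continuousAt
      ((hf.lv.ent _).hasDerivAt.congr_of_eventuallyEq (ev hf hy))
      (dg_ne hf.lv (by linarith [pre' hf hy]))
      (Eventually.of_forall σ.hom.apply_symm_apply)).differentiableAt.differentiableWithinAt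
  · have h1 := dg hf.lv (y := u ^ n) (by linarith [pre' hf hu])
    have h2 := norm_le_insert' (deriv g (u ^ n)) 1
    rw [norm_one] at h2
    rw [ev2 hf hu, dG hf.lv, norm_mul, norm_mul, norm_pow, Complex.norm_natCast, Lip, mul_assoc]
    gcongr
    · linarith
    · exact ((rt_lt hf hu).trans_le (r_lt hb)).le
  · have h3 : deriv (G0 n g) (cc n g k) ≠ 0 := by
      rw [dG hf.lv]
      exact mul_ne_zero (dg_ne hf.lv (by linarith [cc_pow hf.lv k]))
        (mul_ne_zero (Nat.cast_ne_zero.mpr (by omega)) (pow_ne_zero _ (hc k hk)))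
    rw [ev2 hf (by rw [← hcs]; exact hcR _), dd, RT23.deriv_iter_succ hGd, mul_inv, mul_right_comm]
    change (deriv (G0 n g) (cc n g k))⁻¹ * _ * _ = _
    rw [inv_mul_cancel₀ h3, one_mul, dd]

theorem st_TRANS {n : ℕ} (_hn : 2 ≤ n) : St_TRANS n := by
  intro b h σ g w hf hw N j hj hc hD hs
  have hb := hf.lv.hb
  have hGd : Differentiable ℂ (G0 n g) := hf.lv.ent.comp (differentiable_pow n)
  obtain ⟨k, hk, hk1, hk0, hkx⟩ := RT43.killers (hGd.iterate j) (R := b ^ 4) (by positivity)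
    (cc n g) N (fun i _ => by rw [cc_it]; nlinarith [cc_le hf.lv (j + i), r_lt hb]) hD hs
  have hV : ∀ z ∈ σ.Vv b j, ‖(G0 n g)^[j] z‖ < b ^ 4 := fun z hz => by rw [it_eq hf j z hz]; exact hz
  have h1 := h σ g w hf hw N j hj hc k (hk.mono hV) fun z hz => hk1 z (hV z hz)
  rw [Finset.sum_eq_single 0 (fun i hi h0 => by
    rw [hk0 i (by omega) (by have := Finset.mem_range.mp hi; omega), mul_zero]) (by simp),
    show dd n g 0 = 1 by simp [dd], inv_one, one_mul] at h1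
  rw [mul_assoc, ← Real.exp_zero, ← add_neg_cancel (4000 : ℝ), Real.exp_add]
  exact mul_le_mul_of_nonneg_left (hkx.trans h1) (Real.exp_pos _).le

end RT95
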