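import Pool.Agent.Lib.RT95.Kit

/-! Block UP: low points of the slits are low in the next system. -/

set_option autoImplicit false

open Set Function

namespace RT95

theorem st_UP {n : ℕ} (hn : 2 ≤ n) : St_UP n := by
  intro σ σ' b g ν q s hF hL
  obtain ⟨ρ, H⟩ := hL.l2
  refine ⟨⌈ρ⌉₊, fun L μ hG hq j k z h1 h2 h3 ↦ ?_⟩
  have n1 : (1 : ℝ) ≤ n := by exact_mod_cast (by omega : 1 ≤ n)
  have a (i : ℕ) (hi : i ≤ j + ⌈ρ⌉₊) : ‖σ.G^[i * q] z / s‖ ≤ ρ ∧
      ‖σ.G^[i * q] z / s‖ ^ n ≤ 2 * ‖σ.G^[(i + 1) * q] z / s‖ + 8 := by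
    have e : σ.G^[(i + 1) * q] z = σ.G^[q] (σ.G^[i * q] z) := by
      rw [← iterate_add_apply, add_mul, one_mul, add_comm]
    rw [e]
    refine H L μ hG hq (k + i) _ ((Nat.mul_le_mul_right _ (by omega)).trans h1) ?_ fun h ↦ h3 ?_
    · rw [← iterate_succ_apply' σ.G, iterate_succ_apply, add_mul]
      exact μ.S_iter h2 _
    · refine (σ.ext_iter (by positivity) (i * q) z).1 (σ.Ext_mono ?_ h)
      rw [← div_eq_mul_inv, ← one_div, div_le_div_iff₀ (by positivity) (by positivity), one_mul,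
        ← pow_add]
      exact pow_le_pow_right₀ n1 (by rw [← add_mul]; exact Nat.mul_le_mul_right _ (by omega))
  have c (i : ℕ) (hi : i ≤ j) : σ.G^[i * q] z / s ∉ σ'.Ext (5 / 8) := by
    refine hF.not_ext ((not_lt.1 fun h ↦ ?_).trans hF.lv.five_le)
    have d (m : ℕ) (hm : m ≤ ⌈ρ⌉₊) : 5 + (m : ℝ) < ‖σ.G^[(i + m) * q] z / s‖ := by
      induction m with
      | zero => simpa using h
      | succ m ih =>
        have d1 := ih (by omega)
        have d2 := (a (i + m) (by omega)).2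
        have d3 : (0 : ℝ) ≤ m := m.cast_nonneg
        have d4 := pow_le_pow_right₀ (by linarith : 1 ≤ ‖σ.G^[(i + m) * q] z / s‖) hn
        rw [← add_assoc]
        push_cast
        nlinarith
    linarith [d _ le_rfl, (a (i + ⌈ρ⌉₊) (by omega)).1, Nat.le_ceil ρ]
  have e (i : ℕ) (hi : i ≤ j + 1) : σ'.G^[i] (z / s) = σ.G^[i * q] z / s := by
    induction i with
    | zero => simp
    | succ i ih =>
      rw [iterate_succ_apply', ih (by omega), eq_div_iff hL.ne, mul_comm, hL.l1 _ (c i (by omega)),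
        mul_div_cancel₀ _ hL.ne, ← iterate_add_apply, add_mul, one_mul, add_comm]
  refine ⟨fun h ↦ c j le_rfl ?_, e⟩
  rw [← e j (by omega)]
  refine σ'.Ext_mono ?_ ((σ'.ext_iter (by positivity) j _).2 h)
  rw [mul_inv_cancel₀ (by positivity)]
  norm_num

end RT95
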