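import Pool.Agent.Lib.RT95.Kit1
import Pool.Agent.Lib.KR73.B_SEP

/-! Tools for levels. -/

set_option autoImplicit false

open Filter Topology Set Metric Complex Bornology MeasureTheory N62a1eb23
open scoped Real ENNReal

namespace RT95

open Pool.Agent.Lib.MP_c35c17_an KN KR73

section lip
variable {n d : ℕ} {b w : ℝ}

theorem four_le_Lip (hn : 2 ≤ n) (hb : 100 ≤ b) : 4 * b ^ 4 ≤ Lip n b := by
  have h1 : b ^ 4 ≤ (b ^ 4) ^ (n - 1) := le_self_pow₀ (one_le_pow₀ (by linarith)) (by omega)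
  have h2 : 0 ≤ b ^ 4 := by positivity
  rw [Lip]
  nlinarith [ntwo hn]

theorem one_le_Lip (hn : 2 ≤ n) (hb : 100 ≤ b) : 1 ≤ Lip n b := by
  linarith [four_le_Lip hn hb, one_le_pow₀ (n := 4) (show (1 : ℝ) ≤ b by linarith)]

theorem sep_pos (hn : 2 ≤ n) (hb : 100 ≤ b) : 0 < sep n b d w := by
  have := one_le_Lip hn hb
  rw [sep]
  positivity

theorem sep_le_one (hn : 2 ≤ n) (hb : 100 ≤ b) : sep n b d w ≤ 1 :=
  mul_le_one₀ (inv_le_one_of_one_le₀ (one_le_pow₀ (one_le_Lip hn hb))) (Real.exp_pos _).le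
    (Real.exp_le_one_iff.mpr (neg_nonpos.mpr (by positivity)))

theorem gam_pos (hb : 100 ≤ b) (M : ℕ) : 0 < gam b M w := by
  have : 0 < b := by linarith
  rw [gam]
  positivity

theorem pow_half (hb : 100 ≤ b) {k m : ℕ} (h : k < m) : b ^ k + 4 ≤ b ^ m / 2 := by
  have h1 : b ^ (k + 1) ≤ b ^ m := pow_le_pow_right₀ (by linarith) h
  have h2 : 1 ≤ b ^ k := one_le_pow₀ (by linarith)
  rw [pow_succ] at h1
  nlinarith

theorem pow_small (hn : 2 ≤ n) (hb : 100 ≤ b) {u : ℂ} (h : ‖u‖ ≤ 2 * b ^ 2) :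
    ‖u ^ n‖ ≤ b ^ (3 * n) / 2 := by
  have h0 : 0 < b ^ 2 := by positivity
  have h1 : ‖u‖ ^ n ≤ (b ^ 3 / 2) ^ n := pow_le_pow_left₀ (norm_nonneg _) (by nlinarith) n
  rw [div_pow, ← pow_mul] at h1
  rw [norm_pow]
  exact h1.trans (div_le_div_of_nonneg_left (by positivity) two_pos
    (le_self_pow₀ one_le_two (by omega)))

end lip

namespace Lv

variable {n : ℕ} {b : ℝ} {g : ℂ → ℂ} {u y : ℂ} {k m : ℕ}

theorem bpos (h : Lv n b g) : 0 < b := by linarith [h.hb]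

theorem big (h : Lv n b g) : 400 ≤ b ^ (3 * n) := by
  have h1 := pow_le_pow_right₀ (show (1 : ℝ) ≤ b by linarith [h.hb])
    (show 2 ≤ 3 * n by have := h.hn; omega)
  nlinarith [h.hb]

theorem five_le (h : Lv n b g) : 5 ≤ b ^ 2 := by nlinarith [h.hb]

theorem deriv_g (h : Lv n b g) (hy : ‖y‖ ≤ b ^ (3 * n)) : ‖deriv g y - 1‖ ≤ 1 / 100 := by
  have h0 := h.big
  have h1 := norm_deriv_le_of_forall_mem_sphere_norm_le (f := fun z => g z - z) (c := y)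
    (R := b ^ (3 * n)) (C := 4) (by linarith) (h.ent.sub differentiable_id).diffContOnCl
    fun z hz => h.near z (by
      have := norm_le_norm_sub_add z y
      rw [mem_sphere_iff_norm.mp hz] at this
      linarith)
  rw [((h.ent y).hasDerivAt.fun_sub (hasDerivAt_id' y)).deriv] at h1
  refine h1.trans ?_
  rw [div_le_div_iff₀ (by linarith) (by norm_num)]
  linarith

theorem deriv_g_le (h : Lv n b g) (hy : ‖y‖ ≤ b ^ (3 * n)) : ‖deriv g y‖ ≤ 2 := by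
  have h1 := norm_le_norm_sub_add (deriv g y) 1
  rw [norm_one] at h1
  linarith [h.deriv_g hy]

theorem deriv_g_ne (h : Lv n b g) (hy : ‖y‖ ≤ b ^ (3 * n)) : deriv g y ≠ 0 := fun e => by
  have h1 := h.deriv_g hy
  rw [e, zero_sub, norm_neg, norm_one] at h1
  linarith

theorem hasDerivAt_G0 (h : Lv n b g) (u : ℂ) :
    HasDerivAt (G0 n g) (deriv g (u ^ n) * (n * u ^ (n - 1))) u :=
  (h.ent _).hasDerivAt.comp u (hasDerivAt_pow n u)

theorem G0_diff (h : Lv n b g) : Differentiable ℂ (G0 n g) :=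
  fun u => (h.hasDerivAt_G0 u).differentiableAt

theorem iter_diff (h : Lv n b g) (k : ℕ) : Differentiable ℂ (G0 n g)^[k] := h.G0_diff.iterate k

theorem Fq_diff (h : Lv n b g) (q : ℕ) : Differentiable ℂ (Fq n g q) :=
  (h.iter_diff (q - 1)).comp h.ent

theorem deriv_G0 (h : Lv n b g) (hu : ‖u‖ ≤ 2 * b ^ 2) : ‖deriv (G0 n g) u‖ ≤ Lip n b := by
  have h0 := h.big
  have h1 := h.deriv_g_le (y := u ^ n) ((pow_small h.hn h.hb hu).trans (by linarith))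
  have h2 : ‖u‖ ^ (n - 1) ≤ (b ^ 4) ^ (n - 1) :=
    pow_le_pow_left₀ (norm_nonneg _) (by nlinarith [h.five_le]) _
  rw [(h.hasDerivAt_G0 u).deriv, norm_mul, norm_mul, norm_pow, Complex.norm_natCast, Lip,
    mul_assoc]
  gcongr

theorem deriv_G0_ne (h : Lv n b g) (hu : ‖u‖ ≤ 2 * b ^ 2) (h0 : u ≠ 0) :
    deriv (G0 n g) u ≠ 0 := by
  have h1 := h.big
  rw [(h.hasDerivAt_G0 u).deriv]
  exact mul_ne_zero (h.deriv_g_ne ((pow_small h.hn h.hb hu).trans (by linarith)))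
    (mul_ne_zero (by exact_mod_cast (by have := h.hn; omega : n ≠ 0)) (pow_ne_zero _ h0))

theorem deriv_succ (h : Lv n b g) (k : ℕ) (u : ℂ) : deriv (G0 n g)^[k + 1] u =
    deriv (G0 n g) ((G0 n g)^[k] u) * deriv (G0 n g)^[k] u := by
  rw [Function.iterate_succ']
  exact deriv_comp u (h.G0_diff _) (h.iter_diff k u)

theorem deriv_add (h : Lv n b g) (k m : ℕ) (u : ℂ) : deriv (G0 n g)^[k + m] u =
    deriv (G0 n g)^[k] ((G0 n g)^[m] u) * deriv (G0 n g)^[m] u := by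
  rw [Function.iterate_add]
  exact deriv_comp u (h.iter_diff k _) (h.iter_diff m u)

theorem deriv_iter_le (h : Lv n b g) (hu : ∀ j < k, ‖(G0 n g)^[j] u‖ ≤ 2 * b ^ 2) :
    ‖deriv (G0 n g)^[k] u‖ ≤ Lip n b ^ k := by
  induction k with
  | zero => simp
  | succ k ih =>
    rw [h.deriv_succ, norm_mul, pow_succ']
    exact mul_le_mul (h.deriv_G0 (hu k (by omega))) (ih fun j hj => hu j (by omega))
      (norm_nonneg _) (by linarith [one_le_Lip h.hn h.hb])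

theorem G0_zero (h : Lv n b g) : G0 n g 0 = g 0 := by
  rw [G0, zero_pow (by have := h.hn; omega)]

theorem cc_eq (h : Lv n b g) (k : ℕ) : cc n g k = (G0 n g)^[k + 1] 0 := by
  rw [Function.iterate_succ_apply, h.G0_zero, cc]

theorem cc_le (h : Lv n b g) (k : ℕ) : ‖cc n g k‖ ≤ 5 := h.cc_eq k ▸ h.bdd _

theorem cc_le' (h : Lv n b g) (k : ℕ) : ‖cc n g k‖ ≤ 2 * b ^ 2 := by
  linarith [h.cc_le k, h.five_le]

theorem dd_succ (h : Lv n b g) (k : ℕ) :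
    dd n g (k + 1) = deriv (G0 n g) (cc n g k) * dd n g k := h.deriv_succ k _

theorem dd_le (h : Lv n b g) (m k : ℕ) : ‖dd n g (m + k)‖ ≤ Lip n b ^ k * ‖dd n g m‖ := by
  induction k with
  | zero => simp
  | succ k ih =>
    rw [← add_assoc, h.dd_succ, norm_mul, pow_succ', mul_assoc]
    exact mul_le_mul (h.deriv_G0 (h.cc_le' _)) ih (norm_nonneg _)
      (by linarith [one_le_Lip h.hn h.hb])

theorem dd_ne (h : Lv n b g) (h0 : ∀ j < k, cc n g j ≠ 0) : dd n g k ≠ 0 := by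
  induction k with
  | zero => simp [dd]
  | succ k ih =>
    rw [h.dd_succ]
    exact mul_ne_zero (h.deriv_G0_ne (h.cc_le' k) (h0 k (by omega))) (ih fun j hj => h0 j (by omega))

theorem deriv_Fq (h : Lv n b g) (q : ℕ) : deriv (Fq n g q) 0 = dd n g (q - 1) * deriv g 0 :=
  deriv_comp 0 (h.iter_diff (q - 1) _) (h.ent 0)

theorem Vh_zero (h : Lv n b g) (w : ℂ → ℂ) (h0 : ∀ j < k, cc n g j ≠ 0) :
    Vh n g w k 0 = dd n g k * SS n g w k := by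
  induction k with
  | zero => simp [Vh, dd, SS]
  | succ k ih =>
    have h1 := h.dd_ne h0
    have h2 : Vh n g w (k + 1) 0 =
      deriv (G0 n g) (cc n g k) * Vh n g w k 0 + w (cc n g k ^ n) := rfl
    rw [h2, ih fun j hj => h0 j (by omega), SS, SS, Finset.sum_range_succ, ← add_assoc, mul_add _ _
      (_ * w _), mul_inv_cancel_left₀ h1, h.dd_succ, mul_assoc]

theorem Vh_diff (h : Lv n b g) {w : ℂ → ℂ} (hw : Differentiable ℂ w) (k : ℕ) :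
    Differentiable ℂ (Vh n g w k) := by
  induction k with
  | zero => exact hw
  | succ k ih =>
    have h1 := (h.iter_diff k).comp h.ent
    exact ((h.G0_diff.deriv.comp h1).mul ih).add (hw.comp (h1.pow n))

end Lv

theorem cc_zero (n : ℕ) (g : ℂ → ℂ) : cc n g 0 = g 0 := rfl

theorem cc_succ (n : ℕ) (g : ℂ → ℂ) (k : ℕ) : cc n g (k + 1) = g (cc n g k ^ n) :=
  Function.iterate_succ_apply' _ _ _

theorem dd_zero (n : ℕ) (g : ℂ → ℂ) : dd n g 0 = 1 := by simp [dd]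

theorem Fq_pow {n q : ℕ} (g : ℂ → ℂ) (hq : 1 ≤ q) (u : ℂ) : Fq n g q (u ^ n) = (G0 n g)^[q] u := by
  obtain ⟨q, rfl⟩ := Nat.exists_eq_add_of_le' hq
  rfl

theorem G0_ren {n q : ℕ} (g : ℂ → ℂ) (hq : 1 ≤ q) (s u : ℂ) :
    G0 n (ren n g q s) u = s⁻¹ * (G0 n g)^[q] (s * u) := by
  rw [G0, ren, ← mul_pow, Fq_pow g hq]

theorem Hm.iter {n : ℕ} {b : ℝ} {g : ℂ → ℂ} {hom : ℂ ≃ₜ ℂ} (h : Hm n b g hom) (hl : Lv n b g)
    {m : ℕ} {v : ℂ} (hv : ∀ j < m, ‖(G0 n g)^[j] v‖ ≤ 2 * b ^ 2) :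
    (G0 n hom)^[m] v = (G0 n g)^[m] v := by
  induction m with
  | zero => rfl
  | succ m ih =>
    rw [Function.iterate_succ_apply', Function.iterate_succ_apply', ih fun j hj => hv j (by omega)]
    exact h.eq _ (pow_small hl.hn hl.hb (hv m (by omega)))

namespace Fit

variable {n : ℕ} {σ : Sy n} {b : ℝ} {g : ℂ → ℂ} {t x τ : ℝ} {u v z : ℂ} {j m : ℕ}

theorem logb (h : Fit σ b g) : 0 < Real.log b := Real.log_pos (by linarith [h.lv.hb])

theorem exp_nat (h : Fit σ b g) (k : ℕ) : Real.exp (Real.log b * k) = b ^ k := by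
  rw [mul_comm, Real.exp_nat_mul, Real.exp_log h.lv.bpos]

theorem norm_B (h : Fit σ b g) (ht : 3 / 4 ≤ t) :
    ‖σ.B ⟨t, x⟩‖ = Real.exp (4 * Real.log b * t) := by
  rw [h.chart t x ht, norm_exp]

theorem ext_exp (h : Fit σ b g) (hτ : 3 / 4 ≤ τ) :
    z ∈ σ.Ext τ ↔ Real.exp (4 * Real.log b * τ) ≤ ‖z‖ := by
  have hl := h.logb
  constructor
  · rintro ⟨ζ, h1, rfl⟩
    have h2 : τ ≤ ζ.re := h1
    rw [show ζ = ⟨ζ.re, ζ.im⟩ from rfl, h.norm_B (hτ.trans h2)]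
    gcongr
  · intro h1
    have h2 := (Real.exp_pos _).trans_le h1
    have h3 : τ ≤ Real.log ‖z‖ / (4 * Real.log b) := by
      rw [le_div_iff₀' (by positivity)]
      exact (Real.le_log_iff_exp_le h2).mpr h1
    refine ⟨⟨Real.log ‖z‖ / (4 * Real.log b), arg z / (2 * π)⟩, h3, ?_⟩
    rw [h.chart _ _ (hτ.trans h3), mul_div_cancel₀ _ (by positivity),
      mul_div_cancel₀ _ (by positivity), ← exp_log (norm_pos_iff.mp h2)]
    rw [exp_log (norm_pos_iff.mp h2)]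
    conv_rhs => rw [← exp_log (norm_pos_iff.mp h2)]
    exact congrArg exp (Complex.ext (log_re z).symm (log_im z).symm)

theorem ext_iff (h : Fit σ b g) {k : ℕ} (hk : 3 ≤ k) : z ∈ σ.Ext (k / 4) ↔ b ^ k ≤ ‖z‖ := by
  have h1 : (3 : ℝ) ≤ k := by exact_mod_cast hk
  rw [h.ext_exp (by linarith), ← h.exp_nat k]
  ring_nf

theorem ext_one (h : Fit σ b g) : z ∈ σ.Ext 1 ↔ b ^ 4 ≤ ‖z‖ := by
  simpa using h.ext_iff (z := z) (k := 4) (by norm_num)

theorem ext_34 (h : Fit σ b g) : z ∈ σ.Ext (3 / 4) ↔ b ^ 3 ≤ ‖z‖ := by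
  simpa using h.ext_iff (z := z) (k := 3) le_rfl

theorem pow_le_G (h : Fit σ b g) (u : ℂ) : ‖u ^ n‖ ≤ ‖σ.G u‖ + 4 := by
  have h1 := norm_sub_norm_le (u ^ n) (σ.G u)
  rw [norm_sub_rev] at h1
  have h2 : ‖σ.G u - u ^ n‖ ≤ 4 := h.hm.near (u ^ n)
  linarith

theorem G_le (h : Fit σ b g) (u : ℂ) : ‖σ.G u‖ ≤ ‖u‖ ^ n + 4 := by
  have h1 := norm_sub_norm_le (σ.G u) (u ^ n)
  rw [norm_pow] at h1
  have h2 : ‖σ.G u - u ^ n‖ ≤ 4 := h.hm.near (u ^ n)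
  linarith

theorem ext58 (h : Fit σ b g) : u ∈ σ.Ext (5 / 8) ↔
    Real.exp (4 * Real.log b * (n * (5 / 8))) ≤ ‖σ.G u‖ := by
  rw [← h.ext_exp (by linarith [ntwo σ.hn]), ← σ.ext_iter (by norm_num) 1 u, pow_one]
  rfl

theorem pow_le (h : Fit σ b g) (hu : u ∉ σ.Ext (5 / 8)) : ‖u ^ n‖ ≤ b ^ (3 * n) / 2 := by
  have h1 := not_le.mp (mt h.ext58.mpr hu)
  obtain ⟨k, hk⟩ : ∃ k, 3 * n = k + 1 := ⟨3 * n - 1, by have := σ.hn; omega⟩
  have h2 : (3 : ℝ) * n = k + 1 := by exact_mod_cast hk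
  have h3 : Real.exp (4 * Real.log b * (n * (5 / 8))) ≤ b ^ k := by
    rw [← h.exp_nat]
    exact Real.exp_le_exp.mpr (by nlinarith [ntwo σ.hn, h.logb])
  linarith [h.pow_le_G u, pow_half h.lv.hb (show k < 3 * n by omega)]

theorem G_eq (h : Fit σ b g) (hu : u ∉ σ.Ext (5 / 8)) : σ.G u = G0 n g u := h.hm.eq _ (h.pow_le hu)

theorem not_ext (h : Fit σ b g) (hu : ‖u‖ ≤ b ^ 2) : u ∉ σ.Ext (5 / 8) := fun e => by
  have h1 := h.ext58.mp e
  have h2 : b ^ (2 * n + 1) ≤ Real.exp (4 * Real.log b * (n * (5 / 8))) := by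
    rw [← h.exp_nat]
    push_cast
    exact Real.exp_le_exp.mpr (by nlinarith [ntwo σ.hn, h.logb])
  have h3 := pow_le_pow_left₀ (norm_nonneg _) hu n
  rw [← pow_mul] at h3
  have h4 : 0 < b ^ (2 * n + 1) := pow_pos h.lv.bpos _
  linarith [h.G_le u, pow_half h.lv.hb (show 2 * n < 2 * n + 1 by omega)]

theorem small (h : Fit σ b g) (hu : ‖σ.G u‖ < b ^ 4) : ‖u‖ ≤ 2 * b ^ 2 := by
  by_contra e
  have h1 := not_le.mp e
  have h2 := h.lv.five_le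
  have h3 : ‖u‖ ^ 2 ≤ ‖u‖ ^ n := pow_le_pow_right₀ (by linarith) σ.hn
  have h4 := h.pow_le_G u
  rw [norm_pow] at h4
  nlinarith

theorem mem_Vv (h : Fit σ b g) : z ∈ σ.Vv b j ↔ σ.G^[j] z ∉ σ.Ext 1 := by
  rw [h.ext_one, not_le]
  rfl

theorem Vv_mono (h : Fit σ b g) (hj : j ≤ m) : σ.Vv b m ⊆ σ.Vv b j := fun z hz => by
  obtain ⟨k, rfl⟩ := Nat.exists_eq_add_of_le' hj
  rw [h.mem_Vv] at hz ⊢
  exact fun e => hz (by rw [Function.iterate_add_apply]; exact σ.ext_fwd one_pos e k)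

theorem iter_small (h : Fit σ b g) (hz : σ.G^[m] z ∉ σ.Ext 1) (hj : j < m) :
    ‖σ.G^[j] z‖ ≤ 2 * b ^ 2 := h.small (by
  rw [← Function.iterate_succ_apply' σ.G]
  exact h.Vv_mono hj (h.mem_Vv.mpr hz))

theorem iter_eq (h : Fit σ b g) (hz : σ.G^[m] z ∉ σ.Ext 1) (hj : j ≤ m) :
    σ.G^[j] z = (G0 n g)^[j] z := by
  induction j with
  | zero => rfl
  | succ j ih =>
    rw [Function.iterate_succ_apply', Function.iterate_succ_apply', ← ih (by omega)]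
    exact h.hm.eq _ (pow_small σ.hn h.lv.hb (h.iter_small hz hj))

theorem iter_eq' (h : Fit σ b g) (hv : ∀ j < m, ‖(G0 n g)^[j] v‖ ≤ 2 * b ^ 2) :
    σ.G^[m] v = (G0 n g)^[m] v := h.hm.iter h.lv hv

theorem orb_eq (h : Fit σ b g) (j : ℕ) : σ.G^[j] 0 = (G0 n g)^[j] 0 :=
  h.iter_eq (σ.orb_not one_pos j) le_rfl

theorem hom_zero (h : Fit σ b g) : σ.hom 0 = g 0 :=
  h.hm.eq 0 (by rw [norm_zero]; linarith [h.lv.big])

theorem c_eq (h : Fit σ b g) (j : ℕ) : σ.G^[j] (σ.hom 0) = cc n g j := by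
  rw [h.lv.cc_eq, ← h.orb_eq, Function.iterate_succ_apply, σ.G_zero]

theorem symm_le (h : Fit σ b g) (x : ℂ) : ‖σ.hom.symm x‖ ≤ ‖x‖ + 4 := by
  have h1 := h.hm.near (σ.hom.symm x)
  have h2 := norm_sub_norm_le (σ.hom.symm x) x
  rw [σ.hom.apply_symm_apply, norm_sub_rev] at h1
  linarith

theorem symm_lt (h : Fit σ b g) {x : ℂ} (hx : ‖x‖ < b ^ 5) : ‖σ.hom.symm x‖ < b ^ (3 * n) / 2 := by
  linarith [h.symm_le x, pow_half h.lv.hb (show 5 < 3 * n by have := σ.hn; omega)]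

theorem g_symm (h : Fit σ b g) {x : ℂ} (hx : ‖x‖ < b ^ 5) : g (σ.hom.symm x) = x := by
  rw [← h.hm.eq _ (h.symm_lt hx).le, σ.hom.apply_symm_apply]

theorem hasDerivAt_symm (h : Fit σ b g) {x : ℂ} (hx : ‖x‖ < b ^ 5) :
    HasDerivAt σ.hom.symm (deriv g (σ.hom.symm x))⁻¹ x :=
  HasDerivAt.of_local_left_inverse σ.hom.symm.continuous.continuousAt (h.lv.ent _).hasDerivAt
    (h.lv.deriv_g_ne (by linarith [h.symm_lt hx, h.lv.big]))
    (mem_of_superset ((isOpen_lt continuous_norm continuous_const).mem_nhds hx)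
      fun _ hy => h.g_symm hy)

theorem four_lt (h : Fit σ b g) : b ^ 4 < b ^ 5 :=
  pow_lt_pow_right₀ (by linarith [h.lv.hb]) (by norm_num)

theorem hol_symm (h : Fit σ b g) {x : ℂ} (hx : x ∉ σ.Ext 1) : DifferentiableAt ℂ σ.hom.symm x :=
  (h.hasDerivAt_symm ((not_le.mp (mt h.ext_one.mpr hx)).trans h.four_lt)).differentiableAt

theorem lip (h : Fit σ b g) (hu : ‖u‖ ≤ b ^ 4) (hv : ‖v‖ ≤ b ^ 4) :
    ‖σ.G u - σ.G v‖ ≤ Lip n b * ‖u - v‖ := by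
  obtain ⟨m, hm⟩ : ∃ m, n = m + 1 := ⟨n - 1, by have := σ.hn; omega⟩
  have h1 := XSEP.pow_lip hu hv m
  have h2 : (m : ℝ) + 1 = n := by rw [hm]; push_cast; rfl
  rw [← hm, h2] at h1
  rw [Lip, show n - 1 = m by omega]
  have h3 : ‖σ.G u - σ.G v‖ ≤ 2 * ‖u ^ n - v ^ n‖ := h.hm.lip (u ^ n) (v ^ n)
  linarith

theorem lip_iter (h : Fit σ b g) (e : ℕ) (hu : ∀ j < e, ‖σ.G^[j] u‖ ≤ b ^ 4)
    (hv : ∀ j < e, ‖σ.G^[j] v‖ ≤ b ^ 4) : ‖σ.G^[e] u - σ.G^[e] v‖ ≤ Lip n b ^ e * ‖u - v‖ := by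
  induction e with
  | zero => simp
  | succ e ih =>
    rw [Function.iterate_succ_apply', Function.iterate_succ_apply', pow_succ', mul_assoc]
    exact (h.lip (hu e (by omega)) (hv e (by omega))).trans (mul_le_mul_of_nonneg_left
      (ih (fun j hj => hu j (by omega)) fun j hj => hv j (by omega))
      (by linarith [one_le_Lip σ.hn h.lv.hb]))

theorem Ph_ball (h : Fit σ b g) {L : ℕ} (μ : Md σ L) (i s q : ℕ) : μ.Ph i s q ⊆ ball 0 (b ^ 4) :=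
  fun _ hz => mem_ball_zero_iff.mpr
    (not_le.mp fun e => disjoint_left.mp μ.Ph_off hz (h.ext_one.mpr e))

theorem cc_mem (h : Fit σ b g) {L : ℕ} (μ : Md σ L) (l : ℕ) : cc n g l ∈ μ.S l :=
  h.c_eq l ▸ μ.c_mem l

theorem cc_ne (h : Fit σ b g) {L l : ℕ} (μ : Md σ L) (hl : l ≤ L) : cc n g l ≠ 0 :=
  h.c_eq l ▸ μ.orb_ne hl

end Fit

namespace Nu

variable {n q : ℕ} {b r γ K : ℝ} {x : ℂ}

theorem big (h : Nu n b q r γ K) (hb : 100 ≤ b) : 10 ^ 4 ≤ K := by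
  nlinarith [h.bK, one_le_pow₀ (n := 3 * n) (show (1 : ℝ) ≤ b by linarith)]

theorem rpos (h : Nu n b q r γ K) (hb : 100 ≤ b) : 0 < r :=
  pos_of_mul_pos_left (a := r) (b := K) (by linarith [h.rK]) (by linarith [h.big hb])

theorem inv_le (h : Nu n b q r γ K) (hb : 100 ≤ b) : K⁻¹ ≤ r := by
  rw [inv_le_iff_one_le_mul₀ (by linarith [h.big hb])]
  exact h.rK

theorem small (h : Nu n b q r γ K) (hn : 2 ≤ n) (hb : 100 ≤ b) (hx : ‖x‖ ^ n ≤ 2 * γ) :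
    ‖x‖ ≤ K⁻¹ ^ 9 := by
  have h1 := h.big hb
  have h0 : 0 < K := by linarith
  refine le_of_pow_le_pow_left₀ (n := n) (by omega) (by positivity) (hx.trans ?_)
  have h2 : K ≤ K ^ n := le_self_pow₀ (by linarith) (by omega)
  have h3 := h.γK
  rw [show 10 * n = 9 * n + n by ring, pow_add, ← mul_assoc] at h3
  rw [← pow_mul, inv_pow, ← one_div, le_div_iff₀ (by positivity)]
  nlinarith [mul_pos h.γpos (pow_pos h0 (9 * n))]

end Nu

theorem Ok.of_good {n L d T : ℕ} {σ : Sy n} {μ : Md σ L} {b : ℝ} {g : ℂ → ℂ} {ν : ℕ → ZMod n}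
    (hf : Fit σ b g) (hg : μ.Good ν) (hd : 0 < d) (hT : (NN n d + 1) * ss d ≤ T)
    (hL : 3 * (T + ss d + 1) ≤ L) (hν : NRs ν d (T + ss d)) : Ok μ b g d T := by
  obtain ⟨⟨a, ha⟩, hs⟩ := hg
  refine ⟨hf, hd, hT, hL, hs, fun i h1 h2 => ?_⟩
  obtain ⟨x, h3, h4⟩ := hν i h1 h2
  have h5 : ss d = 4 * d + 4 := rfl
  exact ⟨x, h3, by rw [ha _ (by omega), ha _ (by omega)]; exact fun e => h4 (add_right_cancel e)⟩

end RT95
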