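import Pool.Agent.Lib.RT95.Blue
import Pool.Agent.Lib.RT95.Kit

/-! The velocity is comparable with the derivative along the critical orbit. -/

set_option autoImplicit false

open Filter Topology Set Metric Complex Bornology MeasureTheory N62a1eb23
open scoped Real ENNReal

namespace RT95

open Pool.Agent.Lib.MP_c35c17_an KN KR73

namespace XVEL

variable {n : ℕ} {b W K : ℝ} {d q T j M M' : ℕ}

theorem one_le_K (hb : 100 ≤ b) {r γ : ℝ} (h : Nu n b q r γ K) : 1 ≤ K := by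
  have h1 : (1 : ℝ) ≤ b ^ (3 * n) := one_le_pow₀ (by linarith)
  linarith [h.bK]

theorem lip_sep (hn : 2 ≤ n) (hb : 100 ≤ b) (h : Nm n b W d q T j M M' K) :
    Lip n b ≤ sep n b d W * K := by
  have h1 : (1 : ℝ) ≤ b ^ 4 := one_le_pow₀ (by linarith)
  have h2 := h.nu.rK
  rwa [div_mul_eq_mul_div, le_div_iff₀ (by linarith [four_le_Lip hn hb]), one_mul] at h2

theorem deep (hn : 2 ≤ n) (hb : 100 ≤ b) (h : Nm n b W d q T j M M' K) {D : ℝ} (hD : 0 ≤ D)
    (hg : sep n b d W ≤ 2 * gam b M W * D) : K ^ 2 ≤ D := by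
  have h1 : (1 : ℝ) ≤ b ^ 4 := one_le_pow₀ (by linarith)
  have hK := one_le_K hb h.nu
  have h2 : 2 ≤ 2 * gam b M W * D * K :=
    (by linarith [four_le_Lip hn hb, lip_sep hn hb h] : 2 ≤ sep n b d W * K).trans
      (mul_le_mul_of_nonneg_right hg (by linarith))
  have h3 : gam b M W * K ^ 3 ≤ 1 := (mul_le_mul_of_nonneg_left
    (pow_le_pow_right₀ hK (by omega)) h.nu.γpos.le).trans h.nu.γK
  have h4 := mul_le_mul_of_nonneg_right h2 (sq_nonneg K)
  nlinarith [mul_le_mul_of_nonneg_right h3 hD]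

theorem low (hn : 2 ≤ n) (hb : 100 ≤ b) (h : Nm n b W d q T j M M' K) {D : ℝ}
    (hg : sep n b d W ≤ 4 * b ^ 4 * D) : 1 ≤ K * D := by
  have h1 : (1 : ℝ) ≤ b ^ 4 := one_le_pow₀ (by linarith)
  have hK := one_le_K hb h.nu
  have h2 := mul_le_mul_of_nonneg_right hg (by linarith : 0 ≤ K)
  refine le_of_mul_le_mul_left ?_ (by linarith : 0 < 4 * b ^ 4)
  nlinarith [four_le_Lip hn hb, lip_sep hn hb h]

theorem kill (hb : 100 ≤ b) (h : Nm n b W d q T j M M' K) {D E : ℝ} (hD : 0 ≤ D)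
    (hs : 0 ≤ sep n b d W) (hg : sep n b d W ≤ 2 * gam b M' W * D) (hE : sep n b d W ≤ E) {N : ℕ}
    (hN : N ≤ q) : 4 * b ^ 4 * (N : ℝ) ^ 34 ≤ D * E := by
  have h0 : 0 < gam b M' W := by unfold gam; positivity
  have h1 : (N : ℝ) ^ 34 ≤ (q : ℝ) ^ 34 := pow_le_pow_left₀ (by positivity) (by exact_mod_cast hN) _
  have h2 : sep n b d W ^ 2 ≤ 2 * gam b M' W * D * E := by
    rw [sq]
    exact mul_le_mul hg hE hs (by positivity)
  have h3 := mul_le_mul_of_nonneg_left h1 (by positivity : 0 ≤ 8 * b ^ 4 * gam b M' W)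
  refine le_of_mul_le_mul_left ?_ (by linarith : 0 < 2 * gam b M' W)
  nlinarith [h.kill]

theorem fin (hb : 100 ≤ b) (h : Nm n b W d q T j M M' K) {D S : ℝ} (hD : K ≤ D) (hS : 0 ≤ S)
    (h1 : 1 ≤ Real.exp 4000 * Lip n b ^ j * (S + D⁻¹)) : D ≤ K * (D * S) := by
  have hK := one_le_K hb h.nu
  have hD0 : 0 < D := by linarith
  have h2 : K * D⁻¹ ≤ 1 := by rwa [← div_eq_mul_inv, div_le_one hD0]
  have h3 := mul_le_mul_of_nonneg_right h.jK (by positivity : 0 ≤ S + D⁻¹)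
  have h4 : 1 ≤ K * S := by nlinarith
  nlinarith [mul_le_mul_of_nonneg_left h4 hD0.le]

end XVEL

theorem st_VEL {n : ℕ} (hn : 2 ≤ n) (hMISS : St_MISS n) (hSEP : St_SEP n) (hGROW : St_GROW n) :
    St_VEL n := by
  intro σ L μ b W g w d q T j M M' K hT hO hW hQ h hw
  have hF := hO.fit
  have hb := hF.lv.hb
  have hG := hGROW σ L μ b g d T hO W hW hQ
  have hq := h.hq
  have hL := hO.hor
  have hl : ∀ m ≤ T, 1 ≤ K * ‖dd n g m‖ := fun m hm => XVEL.low hn hb h (hG m hm).1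
  refine ⟨XVEL.deep hn hb h (norm_nonneg _) ((hG T le_rfl).2 M h.M1 h.M2), fun h1 m hm => ?_,
    fun N h1 hN hD => ?_⟩
  · rcases le_total m T with e | e
    · exact hl m e
    have h2 := hF.lv.dd_le m (q - 1 - m)
    rw [show m + (q - 1 - m) = q - 1 by omega] at h2
    exact h1.trans (h2.trans (mul_le_mul_of_nonneg_right
      ((pow_le_pow_right₀ (one_le_Lip hn hb) (by omega)).trans h.sK) (norm_nonneg _)))
  obtain ⟨N, rfl⟩ : ∃ N', N = N' + 1 := ⟨N - 1, by omega⟩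
  have h0 : ∀ k ≤ N, cc n g k ≠ 0 := fun k hk => hF.cc_ne μ (by omega)
  have h2 := hT σ g w hF hw N j h.j1 h0
    (fun e => by have := hl j h.jT; rw [e, norm_zero, mul_zero] at this; linarith) fun k k1 kN =>
      XVEL.kill hb h (norm_nonneg _) (sep_pos hn hb).le
        ((hG j h.jT).2 M' h.M1' h.M2')
        (hSEP σ L μ b g d T hO W hQ 0 (Nat.zero_le _) (μ.S k) (μ.toRaw.S_conn k)
          (μ.toRaw.S_unb k) ((hMISS σ L μ b g d T hO).2 k k1 (by omega)) _ (hF.cc_mem μ k))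
        (by omega)
  rw [norm_inv] at h2
  rw [hF.lv.Vh_zero w fun k hk => h0 k (by omega), norm_mul]
  exact XVEL.fin hb h hD (norm_nonneg _) h2

end RT95
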