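import Pool.Agent.Lib.RT95.Kit

/-! Block ZERO: the polynomial itself is the first level. -/

set_option autoImplicit false

open Filter Topology Set Metric Complex Bornology MeasureTheory N62a1eb23
open scoped Real ENNReal

namespace RT95

open Pool.Agent.Lib.MP_c35c17_an KN KR73

theorem st_ZERO {n : ℕ} (hn : 2 ≤ n) : St_ZERO n := by
  intro c hc b hb
  have h2 := L.norm_le_two hn hc
  refine ⟨⟨hn, hb, by fun_prop, fun y _ => by rw [add_sub_cancel_left]; linarith,
    fun j => (orbit_lt hn hc (by linarith) j).le⟩, fun σ σ' ν h hB hF => ?_⟩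
  have e (z : ℂ) : σ.G^[1] z = z ^ n + c := h _
  obtain ⟨R, hR⟩ := hB.exists_norm_le
  refine ⟨le_rfl, one_ne_zero, fun u hu => ?_, R, fun L μ _ _ k z _ _ hz => ?_⟩
  · rw [one_mul, one_mul, e, hF.G_eq hu]
    rfl
  · rw [div_one, div_one, e, ← norm_pow]
    refine ⟨hR z fun h1 => hz (σ.Ext_mono (inv_le_one_of_one_le₀ (one_le_npow hn _)) h1), ?_⟩
    have := norm_sub_le (z ^ n + c) c
    rw [add_sub_cancel_right] at this
    linarith [norm_nonneg (z ^ n + c)]

end RT95
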