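import Pool.Agent.Lib.RT95.Main
import Pool.Agent.Lib.KR73.FO
import Pool.Agent.Lib.KN55.B_PEAK

/-! From the assembly to the final form. -/

set_option autoImplicit false

open Filter Topology Set Metric Complex Bornology MeasureTheory N62a1eb23
open scoped Real ENNReal

namespace RT95

open Pool.Agent.Lib.MP_c35c17_an KN KR73

/-- the conclusion of the assembly -/
def Core (n : ℕ) : Prop := ∃ C : ℝ, 1 ≤ C ∧ ∀ c ∈ multibrotSet n, ∀ Φ, L.Bot n c 1 Φ →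
  Function.Injective (fun j => (F n c)^[j] 0) → ∀ θ, Peak c Φ θ → AP (nu n θ) →
  ∀ (m : ℕ) (p q e : ℕ → ℕ), p 0 = 1 → (∀ i < m, p (i + 1) = p i * q i) →
  (∀ i ≤ m, Rq (nu n θ) (p i)) →
  (∀ i ≤ m, 0 < e i ∧ C * (e i : ℝ) ^ 28 ≤ q i ∧ NRs (sub (nu n θ) (p i)) (e i) (q i - 1)) →
    infDist c (HH n) ≤ C * Real.exp (-∑ i ∈ Finset.range (m + 1), √(q i))

theorem HH_nonempty {n : ℕ} (hn : 2 ≤ n) : (HH n).Nonempty := by
  refine ⟨0, 1, 0, one_pos, ?_, differentiable_iter n 0 1 0, ?_⟩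
  · simp [Function.IsPeriodicPt, Function.IsFixedPt]; omega
  · rw [(hasDerivAt_iter n 0 1 0).deriv]
    simp [dF, zero_pow (show n - 1 ≠ 0 by omega)]

theorem fin {n : ℕ} (hn : 2 ≤ n) (h : Core n) : ∃ C : ℝ, 0 < C ∧ ∀ c ∈ multibrotSet n,
    ∀ Φ : ℂ → ℂ, L.Bot n c 1 Φ → c ∈ closure (Φ '' {w | 1 < ‖w‖}) →
    ∃ θ : ℝ, MapClusterPt c (𝓝[{w | 1 < ‖w‖}] exp (2 * π * I * θ)) Φ ∧
      ∀ ν : ℕ → ZMod n, (∀ i, ν i = (⌊((n : ℝ) ^ (i + 1) - 1) * θ⌋ : ℤ)) →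
      ((∃ᶠ d : ℕ in atTop, ∀ k, 1 ≤ k → k ≤ d ^ 29 → ∃ x < d, ν (k + x) ≠ ν x) →
        c ∈ closure (HH n)) ∧
      ((∀ k > 0, ∃ x, ν (x + k) ≠ ν x) → ∀ (m : ℕ) (p q e : ℕ → ℕ), p 0 = 1 →
        (∀ i < m, p (i + 1) = p i * q i) → (∀ i ≤ m, ∀ j, ¬ p i ∣ j + 1 → ν (j + p i) = ν j) →
        (∀ i ≤ m, 0 < e i ∧ C * (e i : ℝ) ^ 28 ≤ q i ∧ ∀ k, 1 ≤ k → k < q i → ∃ x < e i,
          ν ((k + x + 1) * p i - 1) ≠ ν ((x + 1) * p i - 1)) →
        infDist c (HH n) ≤ C * Real.exp (-∑ i ∈ Finset.range (m + 1), √(q i))) := by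
  obtain ⟨C, hC, h⟩ := h
  refine ⟨C, by linarith, fun c hc Φ hΦ hcl => ?_⟩
  obtain ⟨θ, hP, hM⟩ := st_PEAK hn c hc Φ hΦ hcl
  refine ⟨θ, hM, fun ν hν => ?_⟩
  obtain rfl : ν = nu n θ := funext fun i => by
    rw [hν, nu, lts, lt, show (n : ℝ) * ((n : ℝ) ^ i * θ) - θ = ((n : ℝ) ^ (i + 1) - 1) * θ by ring]
  by_cases hi : Function.Injective fun j => (F n c)^[j] 0
  swap
  · have h1 : c ∈ closure (HH n) := finite_orbit hn hc hi
    exact ⟨fun _ => h1, fun _ _ _ _ _ _ _ _ _ => by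
      rw [infDist_zero_of_mem_closure h1]
      positivity⟩
  refine ⟨fun hd => ?_, fun hA m p q e h1 h2 h3 h4 => h c hc Φ hΦ hi θ hP hA m p q e h1 h2 h3
    fun i hi' => ⟨(h4 i hi').1, (h4 i hi').2.1, fun k a1 a2 => (h4 i hi').2.2 k a1 (by omega)⟩⟩
  have hA : AP (nu n θ) := fun k hk => by
    obtain ⟨d, a1, a2⟩ := (hd.and_eventually (eventually_ge_atTop k)).exists
    obtain ⟨x, -, a3⟩ := a1 k hk (a2.trans (Nat.le_self_pow (by norm_num) d))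
    exact ⟨x, by rwa [add_comm]⟩
  refine (mem_closure_iff_infDist_zero (HH_nonempty hn)).mpr
    (le_antisymm (le_of_forall_pos_le_add fun ε hε => ?_) infDist_nonneg)
  have ht : Tendsto (fun d : ℕ => C * Real.exp (-√d)) atTop (𝓝 (C * 0)) :=
    (Real.tendsto_exp_neg_atTop_nhds_zero.comp
      (Real.tendsto_sqrt_atTop.comp tendsto_natCast_atTop_atTop)).const_mul C
  rw [mul_zero] at ht
  obtain ⟨d, a1, a2, a3⟩ := (hd.and_eventually ((ht.eventually (gt_mem_nhds hε)).and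
    (tendsto_natCast_atTop_atTop.eventually_ge_atTop C))).exists
  have a4 : (1 : ℝ) ≤ d := hC.trans a3
  have a5 := h c hc Φ hΦ hi θ hP hA 0 (fun _ => 1) (fun _ => d ^ 29) (fun _ => d) rfl
    (fun _ h => absurd h (Nat.not_lt_zero _)) (fun _ _ j hj => absurd (one_dvd _) hj)
    fun _ _ => ⟨by exact_mod_cast one_pos.trans_le a4, by
      push_cast
      rw [pow_succ' (d : ℝ) 28]
      gcongr, by
      rw [sub_one]
      exact fun k b1 b2 => a1 k b1 (b2.trans (Nat.sub_le _ _))⟩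
  rw [zero_add, Finset.sum_range_one] at a5
  rw [zero_add]
  refine a5.trans (le_trans ?_ a2.le)
  gcongr
  exact Nat.le_self_pow (by norm_num) d

end RT95
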