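import Pool.Agent.Lib.RT95.B_ANG
import Pool.Agent.Lib.RT95.B_BRU
import Pool.Agent.Lib.RT95.B_BRW
import Pool.Agent.Lib.RT95.B_CHART
import Pool.Agent.Lib.RT95.B_COLC
import Pool.Agent.Lib.RT95.B_CONC
import Pool.Agent.Lib.RT95.B_CONE
import Pool.Agent.Lib.RT95.B_COV
import Pool.Agent.Lib.RT95.B_DN
import Pool.Agent.Lib.RT95.B_END
import Pool.Agent.Lib.RT95.B_FEC
import Pool.Agent.Lib.RT95.B_GLOB
import Pool.Agent.Lib.RT95.B_GROW
import Pool.Agent.Lib.RT95.B_HSEQ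
import Pool.Agent.Lib.RT95.B_L3
import Pool.Agent.Lib.RT95.B_LAM
import Pool.Agent.Lib.RT95.B_LAND
import Pool.Agent.Lib.RT95.B_LG
import Pool.Agent.Lib.RT95.B_LH
import Pool.Agent.Lib.RT95.B_MD
import Pool.Agent.Lib.RT95.B_MISS
import Pool.Agent.Lib.RT95.B_NEW
import Pool.Agent.Lib.RT95.B_NUM
import Pool.Agent.Lib.RT95.B_ORD
import Pool.Agent.Lib.RT95.B_PSI
import Pool.Agent.Lib.RT95.B_QQ
import Pool.Agent.Lib.RT95.B_RENL
import Pool.Agent.Lib.RT95.B_SEP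
import Pool.Agent.Lib.RT95.B_SER
import Pool.Agent.Lib.RT95.B_SMALL
import Pool.Agent.Lib.RT95.B_TIP
import Pool.Agent.Lib.RT95.B_TR
import Pool.Agent.Lib.RT95.B_TRV
import Pool.Agent.Lib.RT95.B_UP
import Pool.Agent.Lib.RT95.B_VEL
import Pool.Agent.Lib.RT95.B_ZERO
import Pool.Agent.Lib.RT95.Fin

/-! All blocks of the bound for renormalization towers. -/

set_option autoImplicit false

namespace RT95

theorem core {n : ℕ} (hn : 2 ≤ n) : Core n :=
  have hBRW := st_BRW hn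
  have hMISS := st_MISS hn
  have hSER := st_SER hn hBRW hMISS
  have hSEP := st_SEP hn
  have hCOV := st_COV hn
  have hCONC := st_CONC hn
  main hn (st_CHART hn) (st_GLOB hn) (st_ZERO hn) (st_MD hn)
    (st_QQ hn hBRW hMISS hSER (st_COLC hn))
    (st_BRU hn hBRW hMISS hSEP (st_SMALL hn hBRW hMISS hSER (st_LG hn))) hCOV
    (st_RENL hn hCOV (st_ORB hn)) (st_CONE hn hCOV (st_PSI hn)) (st_TRV hn) (st_TRANS hn)
    (st_VEL hn hMISS hSEP (st_GROW hn hBRW hMISS hSER hSEP)) (st_NUM hn)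
    (st_TR hn (st_UP hn) (st_LAM hn (st_L3 hn))
      (st_TIP (st_HSEQ st_ORD st_FEC st_LH) st_OSC st_ANG) (st_NEW hn (st_DN hn)))
    hCONC (st_END hn st_LAND (st_CHI hn) hCONC)

end RT95
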