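import Pool.Agent.Lib.RT95.Blue
import Pool.Agent.Lib.RT.T28c

/-! The angle of the new model. -/

set_option autoImplicit false

namespace RT95

open KN

theorem st_ANG : St_ANG := by
  intro n ν L' hn hν
  obtain ⟨L₀, η, η0, h⟩ := RT28.ang hn hν L' ((n : ℝ) ^ (L' + 1))
  refine ⟨L₀ + L' + 1, η, η0, fun H N a x h1 h2 h3 k hk => ?_⟩
  obtain ⟨a1, a2⟩ := h H N a x (fun k hk => h1 k (by omega))
    (fun r k hr => h2 r k (by omega)) (fun r hr => h3 r (by omega)) k hk
  refine ⟨by rw [← h1 k (by omega), ← a1]; unfold nu lts KN.lt; congr 2; ring, fun m => lt_of_le_of_lt ?_ (a2 m)⟩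
  have : (1 : ℝ) ≤ n := by exact_mod_cast (by omega : 1 ≤ n)
  gcongr

end RT95
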