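import Pool.Agent.Lib.RT95.Blue

/-! A disc of parameters without attracting cycles about a point of the multibrot set. -/

set_option autoImplicit false

open Filter Topology Set Metric Complex Bornology MeasureTheory N62a1eb23
open scoped Real ENNReal

namespace RT95

open Pool.Agent.Lib.MP_c35c17_an KN KR73

theorem st_BALL {n : ℕ} (hn : 2 ≤ n) : St_BALL n := by
  intro c hc r hr0 hr1 hH
  set ρ := ‖c‖ + 4 with hρ
  have hρ1 : 1 ≤ ρ := by linarith [norm_nonneg c]
  set Λ : ℝ := n * (ρ + 1) ^ (n - 1) with hΛ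
  have hn' : (2 : ℝ) ≤ n := by exact_mod_cast hn
  have hΛ1 : 1 ≤ Λ := by
    have : (1 : ℝ) ≤ (ρ + 1) ^ (n - 1) := one_le_pow₀ (by linarith)
    nlinarith
  have hρu : ∀ u ∈ ball (0 : ℂ) r, ‖c + u‖ + 3 ≤ ρ := by
    intro u hu
    have h1 : ‖u‖ < 1 := (mem_ball_zero_iff.mp hu).trans_le hr1
    linarith [norm_add_le c u]
  have hlow : ∀ u ∈ ball (0 : ℂ) r, ∀ k, 1 / (4 * Λ ^ (k + 1)) < ‖(F n (c + u))^[k + 1] 0‖ := by
    intro u hu k
    by_contra hcon
    have hcon := not_lt.mp hcon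
    have hle : 1 / (4 * Λ ^ (k + 1)) < ρ := by
      have : 1 ≤ Λ ^ (k + 1) := one_le_pow₀ hΛ1
      rw [div_lt_iff₀ (by positivity)]
      nlinarith
    have hb : ∀ j ≤ k + 1, ‖(F n (c + u))^[j] 0‖ ≤ ρ := by
      intro j hj
      by_contra h
      obtain ⟨i, hi⟩ := Nat.exists_eq_add_of_le' hj
      have := (escape_iter hn (hρu u hu) (not_le.mp h).le i).1
      rw [← Function.iterate_add_apply, ← hi] at this
      linarith [not_le.mp h]
    obtain ⟨z, hz⟩ := attracting_of_close hn (by linarith) (Nat.succ_pos k) hb hcon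
    have hm : c + u ∈ ball c r := by
      rw [mem_ball, dist_eq_norm, add_sub_cancel_left]
      exact mem_ball_zero_iff.mp hu
    exact Set.disjoint_left.mp hH hm ⟨_, z, hz⟩
  have hne : ∀ u ∈ ball (0 : ℂ) r, ∀ k, (F n (c + u))^[k + 1] 0 ≠ 0 := by
    intro u hu k h
    have := hlow u hu k
    rw [h, norm_zero] at this
    have : 0 < 1 / (4 * Λ ^ (k + 1)) := by positivity
    linarith
  have hdiff : ∀ k, Differentiable ℂ fun u => (F n (c + u))^[k] 0 := fun k u =>
    ((hasDerivAt_param n k (c + u)).comp_const_add c u).differentiableAt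
  set A : ℝ := 5 * Real.log (4 * Λ) + 3 * (Real.log ρ + Real.pi) with hA
  have hl4 : 0 < Real.log (4 * Λ) := Real.log_pos (by linarith)
  have hlρ : 0 ≤ Real.log ρ := Real.log_nonneg hρ1
  have hup : ∀ u ∈ closedBall (0 : ℂ) (r / 2), ∀ k,
      ‖(F n (c + u))^[k + 1] 0‖ ≤ Real.exp (A * (k + 1)) := by
    intro u hu k
    obtain ⟨φ, h0, hφ, he⟩ := exists_log_ball (hdiff (k + 1)) hr0 fun z hz => hne z hz k
    have hM : ∀ z ∈ ball (0 : ℂ) r, -(φ z).re ≤ (k + 1) * Real.log (4 * Λ) := by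
      intro z hz
      have h1 := hlow z hz k
      rw [← he z hz, Complex.norm_exp] at h1
      have h2 := Real.log_lt_log (by positivity) h1
      rw [Real.log_exp, one_div, Real.log_inv] at h2
      have h3 : Real.log (4 * Λ ^ (k + 1)) ≤ Real.log ((4 * Λ) ^ (k + 1)) := by
        refine Real.log_le_log (by positivity) ?_
        rw [mul_pow (4 : ℝ) Λ]
        exact mul_le_mul_of_nonneg_right (le_self_pow₀ (by norm_num : (1 : ℝ) ≤ 4) (by omega))
          (by positivity)
      rw [Real.log_pow] at h3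
      push_cast at h3
      linarith
    have hu' : ‖u‖ ≤ r / 2 := by simpa using hu
    have hub : u ∈ ball (0 : ℂ) r := by rw [mem_ball_zero_iff]; linarith
    have hBC := Complex.borelCaratheodory (f := fun z => -φ z) (M := (k + 1) * Real.log (4 * Λ))
      (by positivity) hφ.neg (fun z hz => by simpa using hM z hz) hr0 hub
    have h00 : ‖φ 0‖ ≤ (k + 1) * Real.log (4 * Λ) + (Real.log ρ + Real.pi) := by
      refine (Complex.norm_le_abs_re_add_abs_im _).trans ?_
      have a1 : |(φ 0).im| ≤ Real.pi := by rw [h0, Complex.log_im]; exact Complex.abs_arg_le_pi _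
      have a2 := hM 0 (mem_ball_self hr0)
      have a3 : (φ 0).re ≤ Real.log ρ := by
        rw [h0, Complex.log_re]
        refine Real.log_le_log (norm_pos_iff.mpr (hne 0 (mem_ball_self hr0) k)) ?_
        rw [add_zero]
        exact (orbit_lt hn hc (by linarith) _).le
      have a4 : 0 ≤ (k + 1) * Real.log (4 * Λ) := by positivity
      have : |(φ 0).re| ≤ (k + 1) * Real.log (4 * Λ) + Real.log ρ := abs_le.mpr ⟨by linarith, by linarith⟩
      linarith
    simp only [norm_neg] at hBC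
    have hd : 0 < r - ‖u‖ := by linarith
    have b1 : 2 * ((k + 1) * Real.log (4 * Λ)) * ‖u‖ / (r - ‖u‖) ≤
        2 * ((k + 1) * Real.log (4 * Λ)) := by
      rw [div_le_iff₀ hd]
      gcongr
      linarith
    have b2 : ‖φ 0‖ * (r + ‖u‖) / (r - ‖u‖) ≤ ‖φ 0‖ * 3 := by
      rw [div_le_iff₀ hd, mul_assoc]
      gcongr
      linarith
    rw [← he u hub, Complex.norm_exp]
    refine Real.exp_le_exp.mpr ((Complex.re_le_norm _).trans ?_)
    have hk : (0 : ℝ) ≤ k := Nat.cast_nonneg k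
    have := Real.pi_pos
    rw [hA]
    nlinarith
  have hbd : ∀ u ∈ closedBall (0 : ℂ) (r / 2), ∀ k, ‖(F n (c + u))^[k] 0‖ ≤ ρ := by
    intro u hu j
    by_contra h
    have hub : u ∈ ball (0 : ℂ) r := closedBall_subset_ball (by linarith) hu
    obtain ⟨m, hm⟩ := lin_lt_dbl A j
    have h1 := (escape_iter hn (hρu u hub) (not_le.mp h).le (m + 1)).2
    rw [← Function.iterate_add_apply, show m + 1 + j = (m + j) + 1 by ring] at h1
    have h2 := hup u hu (m + j)
    have h3 : Real.exp (2 ^ m * Real.log (3 / 2)) ≤ 2 * (3 / 2 : ℝ) ^ (2 ^ (m + 1)) := by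
      have : Real.exp (2 ^ m * Real.log (3 / 2)) = (3 / 2 : ℝ) ^ (2 ^ m) := by
        rw [show (2 : ℝ) ^ m = ((2 ^ m : ℕ) : ℝ) by push_cast; ring, Real.exp_nat_mul,
          Real.exp_log (by norm_num)]
      rw [this]
      have h4 : (3 / 2 : ℝ) ^ (2 ^ m) ≤ (3 / 2 : ℝ) ^ (2 ^ (m + 1)) :=
        pow_le_pow_right₀ (by norm_num) (Nat.pow_le_pow_right (by norm_num) (by omega))
      have h5 : (0 : ℝ) ≤ (3 / 2 : ℝ) ^ (2 ^ (m + 1)) := by positivity
      linarith
    push_cast at h2
    have := Real.exp_lt_exp.mpr hm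
    linarith
  intro c' hc' hT
  have hu : c' - c ∈ closedBall (0 : ℂ) (r / 2) := by
    rw [mem_closedBall_zero_iff, ← dist_eq_norm]
    exact (mem_ball.mp hc').le
  have h1 := hbd (c' - c) hu
  rw [add_sub_cancel] at h1
  have h2 := (tendsto_norm_atTop_iff_cobounded.mpr hT).eventually (eventually_gt_atTop ρ)
  obtain ⟨k, hk⟩ := h2.exists
  exact absurd (h1 k) (not_le.mpr hk)

end RT95
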