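import Pool.Agent.Lib.RT95.Blue

/-! The angles of the last hits of the first leg. -/

set_option autoImplicit false

open Filter Topology Set Metric Complex Bornology MeasureTheory N62a1eb23
open scoped Real ENNReal

namespace RT95

open Pool.Agent.Lib.MP_c35c17_an KN KR73

namespace HSEQ

theorem rotN {n q j₂ : ℕ} {Λ : ℂ → ℂ} (h : Lm n q j₂ Λ) {t : ℝ} (ht : 0 < t) (m : ℕ) (x : ℝ) :
    Λ ⟨t, x + m / n⟩ = Λ ⟨t, x⟩ + m * (I / n) := by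
  induction m with
  | zero => simp
  | succ m ih =>
    have e : x + ((m + 1 : ℕ) : ℝ) / n = (x + m / n) + 1 / n := by push_cast; ring
    rw [e, h.rot _ _ ht, ih]; push_cast; ring

theorem rotZ {n q j₂ : ℕ} {Λ : ℂ → ℂ} (h : Lm n q j₂ Λ) {t : ℝ} (ht : 0 < t) (m : ℤ) (x : ℝ) :
    Λ ⟨t, x + m / n⟩ = Λ ⟨t, x⟩ + m * (I / n) := by
  obtain ⟨k, rfl | rfl⟩ := Int.eq_nat_or_neg m
  · simpa using rotN h ht k x
  · have h1 := rotN h ht k (x + ((-(k : ℤ) : ℤ) : ℝ) / n)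
    have e : x + ((-(k : ℤ) : ℤ) : ℝ) / n + k / n = x := by push_cast; ring
    rw [e] at h1
    rw [h1]; push_cast; ring

theorem rot_re {n q j₂ : ℕ} {Λ : ℂ → ℂ} (h : Lm n q j₂ Λ) {t : ℝ} (ht : 0 < t) (m : ℤ) (x : ℝ) :
    (Λ ⟨t, x + m / n⟩).re = (Λ ⟨t, x⟩).re := by
  have e : (m : ℂ) * (I / n) = ((m / n : ℝ) : ℂ) * I := by push_cast; ring
  rw [rotZ h ht, e, add_re, mul_re, ofReal_re, ofReal_im, I_re, I_im]; ring

theorem rot_im {n q j₂ : ℕ} {Λ : ℂ → ℂ} (h : Lm n q j₂ Λ) {t : ℝ} (ht : 0 < t) (m : ℤ) (x : ℝ) :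
    (Λ ⟨t, x + m / n⟩).im = (Λ ⟨t, x⟩).im + m / n := by
  have e : (m : ℂ) * (I / n) = ((m / n : ℝ) : ℂ) * I := by push_cast; ring
  rw [rotZ h ht, e, add_im, mul_im, ofReal_re, ofReal_im, I_re, I_im]; ring

theorem im_fe (n i : ℕ) (z : ℂ) (m : ℤ) :
    ((n : ℂ) ^ i * z + m * I).im = (n : ℝ) ^ i * z.im + m := by
  have e : (n : ℂ) ^ i = (((n : ℝ) ^ i : ℝ) : ℂ) := by push_cast; rfl
  rw [e, add_im, im_ofReal_mul]
  simp

end HSEQ

open HSEQ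

theorem st_HSEQ (hO : St_ORD) (hF : St_FEC) (hL : St_LH) : St_HSEQ := by
  intro n q j₀ j₂ Λ L g ϑ hΛ hG v L₀ hv hLL hcg
  have hn := hΛ.hn
  have hq := hΛ.q1
  have n1 : (1 : ℝ) < n := by exact_mod_cast (by omega : 1 < n)
  have n0 : (0 : ℝ) < n := by linarith
  have mono : ∀ a : ℕ, a ≤ v + L₀ + j₀ + 4 → a * q ≤ L := fun a ha =>
    (Nat.mul_le_mul_right q ha).trans hLL
  have lt : ∀ a : ℕ, j₀ + j₂ + 4 < a → ((n : ℝ) ^ a)⁻¹ < ((n : ℝ) ^ (j₀ + j₂ + 4))⁻¹ := fun a ha =>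
    inv_strictAnti₀ (by positivity) (pow_lt_pow_right₀ n1 ha)
  have cancel : ∀ i a : ℕ, (n : ℝ) ^ i * ((n : ℝ) ^ (a + i))⁻¹ = ((n : ℝ) ^ a)⁻¹ := fun i a => by
    rw [pow_add]; field_simp
  obtain ⟨hex, htr⟩ := hL n q j₀ j₂ Λ L g ϑ hΛ hG
  have tip0 : 0 < tip n q g 0 := by have := hG.gpos; unfold tip; positivity
  have h0 : ∀ r, ∃ T, r ≤ L₀ → LH n q Λ g ϑ 0 ((n : ℝ) ^ (v + r + 1))⁻¹ T := by
    intro r
    by_cases hr : r ≤ L₀
    · have hle : (v + r + 1 + j₀ + 2) * q ≤ L := mono _ (by omega)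
      have hlt : tip n q g 0 < ((n : ℝ) ^ ((v + r + 1 + j₀ + 2) * q))⁻¹ := by
        have h1 : (n : ℝ) ^ ((v + r + 1 + j₀ + 2) * q) ≤ (n : ℝ) ^ L := pow_le_pow_right₀ n1.le hle
        have h2 : (0 : ℝ) < (n : ℝ) ^ ((v + r + 1 + j₀ + 2) * q) := by positivity
        have h3 := hG.small
        have h4 := hG.gpos
        have h5 : tip n q g 0 ≤ g := by
          unfold tip; rw [zero_mul, pow_zero, one_mul]; exact div_le_self h4.le n1.le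
        rw [lt_inv_comm₀ tip0 h2, lt_inv_comm₀ h2 tip0, inv_eq_one_div, lt_div_iff₀ h2]
        nlinarith [mul_le_mul h5 h1 h2.le h4.le, mul_pos h4 (h2.trans_le h1)]
      obtain ⟨T, hT⟩ := hex 0 _ (hG.up (v + r + 1) 0 _ (by simpa using hle) le_rfl hlt).le
      exact ⟨T, fun _ => hT⟩
    · exact ⟨0, fun h => absurd h hr⟩
  choose T0 hT0 using h0
  have hT1 : ∀ r ≤ L₀, LH n q Λ g ϑ 1 ((n : ℝ) ^ (v + r))⁻¹ ((n : ℝ) ^ (1 * q) * T0 r) := by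
    intro r hr
    have := htr 0 1 _ _ (mono _ (by omega)) (by rw [cancel]; exact lt _ (by omega)) (hT0 r hr)
    rwa [cancel, zero_add] at this
  obtain ⟨m₀, hm₀⟩ := hF n q j₀ j₂ Λ L g ϑ hΛ hG 0 1 (mono _ (by omega))
  have h1 : ∀ k, ∃ m : ℤ, k < L₀ → ∀ t, tip n q g 1 ≤ t →
      (n : ℝ) ^ k * (yy n q Λ ϑ 1 t).re < ((n : ℝ) ^ (j₀ + j₂ + 4))⁻¹ →
      yy n q Λ ϑ (1 + k) ((n : ℝ) ^ (k * q) * t) = (n : ℂ) ^ k * yy n q Λ ϑ 1 t + m * I := by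
    intro k
    by_cases hk : k < L₀
    · obtain ⟨m, hm⟩ := hF n q j₀ j₂ Λ L g ϑ hΛ hG 1 k (mono _ (by omega))
      exact ⟨m, fun _ => hm⟩
    · exact ⟨0, fun h => absurd h hk⟩
  choose m₁ hm₁ using h1
  refine ⟨fun r => (n : ℝ) ^ (1 * q) * T0 r,
    fun k => ⌊(n : ℝ) ^ ((k + 1) * q) * ϑ - ϑ⌋ - m₀ - n * m₁ k, -(m₀ : ZMod n), hT1, ?_, ?_⟩
  · intro k _
    have e : (n : ℝ) * ((n : ℝ) ^ ((k + 1) * q - 1) * ϑ) = (n : ℝ) ^ ((k + 1) * q) * ϑ := by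
      rw [← mul_assoc, ← pow_succ', Nat.sub_add_cancel (Nat.mul_pos (Nat.succ_pos k) hq)]
    simp only [sub, nu, lts, KN.lt, e]
    push_cast
    simp [sub_eq_add_neg]
  · intro r k hrk
    have hr : r ≤ L₀ := by omega
    have hk : k < L₀ := by omega
    set j : ℤ := ⌊(n : ℝ) ^ ((k + 1) * q) * ϑ - ϑ⌋ with hj
    have a1 : (j : ℝ) < (n : ℝ) ^ ((k + 1) * q) * ϑ - ϑ := by
      refine lt_of_le_of_ne (Int.floor_le _) fun h => hcg k hk ⟨j, by linarith⟩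
    have a2 : (n : ℝ) ^ ((k + 1) * q) * ϑ - ϑ < j + 1 := Int.lt_floor_add_one _
    obtain ⟨b1, b2, b3⟩ := hT0 r hr
    have Tpos : 0 < T0 r := tip0.trans_le b1
    have e0 : ∀ t, yy n q Λ ϑ 0 t = Λ ⟨t, ϑ / n⟩ := fun t => by
      unfold yy; rw [zero_mul, pow_zero, one_mul]
    have ev : v + (r + k + 1) = v + r + 1 + k := by ring
    have c0 := hT1 (r + k + 1) hrk
    rw [ev] at c0
    have c1 := htr 1 k _ _ (mono _ (by omega)) (by rw [cancel]; exact lt _ (by omega)) c0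
    rw [cancel] at c1
    obtain ⟨d1, d2, d3⟩ := c1
    have f1 := hm₁ k hk _ c0.1 (by rw [c0.2.1, cancel]; exact lt _ (by omega))
    have f0 := hm₀ _ b1 (by rw [b2, cancel]; exact lt _ (by omega))
    set T' := (n : ℝ) ^ (k * q) * ((n : ℝ) ^ (1 * q) * T0 (r + k + 1)) with hT'
    have T'pos : 0 < T' := by
      refine lt_of_lt_of_le ?_ d1
      have := hG.gpos; unfold tip; positivity
    have ek : ∀ t, yy n q Λ ϑ (1 + k) t = Λ ⟨t, (n : ℝ) ^ ((k + 1) * q) * ϑ / n⟩ := fun t => by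
      unfold yy; rw [add_comm 1 k]
    simp only [e0] at b2 b3 f0
    simp only [ek] at d2 d3 f1
    have o1 := hO n q j₂ Λ hΛ (ϑ / n + j / n) ((n : ℝ) ^ ((k + 1) * q) * ϑ / n) (T0 r) T' _
      (by rw [← add_div]; exact div_lt_div_of_pos_right (by linarith) n0) Tpos T'pos
      (by rw [rot_re hΛ Tpos]; exact b2) d2
      (fun t ht => by rw [rot_re hΛ (Tpos.trans ht)]; exact b3 t ht) d3
    have o2 := hO n q j₂ Λ hΛ ((n : ℝ) ^ ((k + 1) * q) * ϑ / n) (ϑ / n + ((j + 1 : ℤ) : ℝ) / n) T'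
      (T0 r) _ (by rw [← add_div]; exact div_lt_div_of_pos_right (by push_cast; linarith) n0)
      T'pos Tpos d2 (by rw [rot_re hΛ Tpos]; exact b2) d3
      (fun t ht => by rw [rot_re hΛ (Tpos.trans ht)]; exact b3 t ht)
    rw [rot_im hΛ Tpos, f1, im_fe] at o1 o2
    rw [zero_add] at f0
    have g0 := congrArg Complex.im f0
    rw [im_fe, pow_one] at g0
    have o1' := mul_lt_mul_of_pos_left o1 n0
    have o2' := mul_lt_mul_of_pos_left o2 n0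
    have q1 : (n : ℝ) * ((j : ℝ) / n) = j := by field_simp
    have q2 : (n : ℝ) * (((j + 1 : ℤ) : ℝ) / n) = j + 1 := by push_cast; field_simp
    rw [mul_add, mul_add] at o1' o2'
    simp only [g0, pow_succ]
    constructor <;> push_cast <;> nlinarith

end RT95
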