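import Pool.Agent.Lib.RT95.Kit
import Pool.Agent.Lib.KR73.B_LA

/-! Separation of the orbit of the critical value from unbounded continua off the cylinder. -/

set_option autoImplicit false

open Filter Topology Set Metric Complex Bornology MeasureTheory N62a1eb23
open scoped Real ENNReal

namespace RT95

open Pool.Agent.Lib.MP_c35c17_an KN KR73

namespace XSEP

variable {n L : ℕ} {σ : Sy n} {b : ℝ} {g : ℂ → ℂ} {d T i : ℕ} {μ : Md σ L}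

theorem b_pow (h : Lv n b g) {k : ℕ} (hk : 1 ≤ k) : 100 ≤ b ^ k :=
  h.hb.trans (le_self_pow₀ (by linarith [h.hb]) (by omega))

/-- the truncated slit -/
def E0 (μ : Md σ L) (d i : ℕ) : Set ℂ := σ.G^[i] '' μ.D ∪
  (fun t : ℝ => σ.B ⟨t, (n : ℝ) ^ i * μ.ϑ⟩) '' Icc ((n : ℝ) ^ i * μ.g) (((n : ℝ) ^ ee d)⁻¹ * (3 / 4))

theorem tip_lt (h : Ok μ b g d T) (hi : i ≤ T) :
    (n : ℝ) ^ i * μ.g < ((n : ℝ) ^ ee d)⁻¹ * (3 / 4) := by
  have h1 := inv_pos.mpr (npow_pos σ.hn (ee d))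
  have h2 := h.g_lt (show i + ee d ≤ L by have := h.hor; unfold ss at this; unfold ee; omega)
  linarith

theorem E0_conn (h : Ok μ b g d T) (hi : i ≤ T) : IsPreconnected (E0 μ d i) :=
  IsPreconnected.union _ (μ.tip_mem i) ⟨_, ⟨le_rfl, (tip_lt h hi).le⟩, rfl⟩
    (μ.pre.image _ (σ.iter_cont i).continuousOn)
    (isPreconnected_Icc.image _ ((σ.ray_cont _).mono fun _ ht => (μ.tip_pos i).trans_le ht.1))

theorem E0_sub (h : Ok μ b g d T) (hi : i ≤ T) : E0 μ d i ⊆ μ.Ph i (ss d) (ee d) := by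
  have h1 := h.hor
  have h2 := tip_lt h hi
  have h3 := inv_pos.mpr (npow_pos σ.hn (ee d))
  rintro z (hz | ⟨t, ht, rfl⟩)
  · refine ⟨μ.S_P (by omega) (Or.inl hz), ?_⟩
    rintro ⟨ζ, h4, rfl⟩
    have h5 : ((n : ℝ) ^ ee d)⁻¹ ≤ ζ.re := h4
    have h6 := μ.top i ζ (h3.trans_le h5) hz
    linarith
  · refine ⟨μ.S_P (by omega) (μ.ray_mem ht.1 (Cg.refl _)), fun h4 => ?_⟩
    have h5 := (σ.mem_Ext h3 ((μ.tip_pos i).trans_le ht.1)).mp h4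
    linarith [ht.2]

theorem far (h : Fit σ b g) (d i : ℕ) (x : ℝ) :
    (Lip n b ^ ee d)⁻¹ ≤ ‖σ.B ⟨((n : ℝ) ^ ee d)⁻¹ * (3 / 4), x⟩ - cc n g i‖ := by
  have h1 := npow_pos σ.hn (ee d)
  have h3 : 0 < ((n : ℝ) ^ ee d)⁻¹ * (3 / 4) := by positivity
  have hc : ∀ j, σ.G^[j] (cc n g i) = cc n g (j + i) := fun j => by
    rw [← h.c_eq, ← h.c_eq, Function.iterate_add_apply]
  have h4 := h.lip_iter (u := σ.B ⟨((n : ℝ) ^ ee d)⁻¹ * (3 / 4), x⟩) (v := cc n g i) (ee d)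
    (fun j hj => ?_) fun j _ => ?_
  · rw [σ.iter h3, mul_inv_cancel_left₀ h1.ne', hc] at h4
    have h5 := (h.ext_34 (z := σ.B ⟨3 / 4, (n : ℝ) ^ ee d * x⟩)).mp
      ((σ.mem_Ext (by norm_num) (by norm_num)).mpr le_rfl)
    have h7 := norm_sub_norm_le (σ.B ⟨3 / 4, (n : ℝ) ^ ee d * x⟩) (cc n g (ee d + i))
    rw [inv_le_iff_one_le_mul₀' (pow_pos (one_pos.trans_le (one_le_Lip σ.hn h.lv.hb)) _)]
    linarith [h.lv.cc_le (ee d + i), b_pow h.lv (show 1 ≤ 3 by norm_num)]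
  · rw [σ.iter h3]
    refine le_of_not_ge fun h5 => ?_
    have h6 := (σ.mem_Ext one_pos (mul_pos (npow_pos σ.hn j) h3)).mp (h.ext_one.mpr h5)
    have h7 := mul_le_mul_of_nonneg_right (npow_mono σ.hn hj.le) h3.le
    rw [mul_inv_cancel_left₀ h1.ne'] at h7
    linarith
  · rw [hc]
    linarith [h.lv.cc_le (j + i), b_pow h.lv (show 1 ≤ 4 by norm_num)]

end XSEP

theorem st_SEP {n : ℕ} (hn : 2 ≤ n) : St_SEP n := by
  intro σ L μ b g d T hO w hQ i hi E hE hU hD p hp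
  have h0 := XSEP.far hO.fit d i ((n : ℝ) ^ i * μ.ϑ)
  set p0 := σ.B ⟨((n : ℝ) ^ ee d)⁻¹ * (3 / 4), (n : ℝ) ^ i * μ.ϑ⟩ with hp0
  have hx : σ.G^[i] (σ.hom 0) = cc n g i := hO.fit.c_eq i
  set x := cc n g i
  have h1 : 0 ≤ (Lip n b ^ ee d)⁻¹ :=
    inv_nonneg.mpr (pow_nonneg (zero_le_one.trans (one_le_Lip hn hO.fit.lv.hb)) _)
  have h2 : Real.exp (-(2 * π * w ^ 2)) ≤ 1 := Real.exp_le_one_iff.mpr (neg_nonpos.mpr (by positivity))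
  have h3 := Real.exp_pos (-(2 * π * w ^ 2))
  unfold sep
  rcases le_total ‖p0 - x‖ ‖p - x‖ with h4 | h4
  · exact (mul_le_of_le_one_right h1 h2).trans (h0.trans h4)
  have hs := hO.hor
  have h5 : x ∈ μ.P i d := μ.S_P (by unfold ss at hs; omega) (hx ▸ μ.c_mem i)
  have h6 : 0 < ‖p - x‖ := norm_pos_iff.mpr (sub_ne_zero.mpr fun e =>
    Set.disjoint_left.mp hD hp (e ▸ h5))
  have h7 : ∃ q ∈ E, ‖p0 - x‖ ≤ ‖q - x‖ := by
    by_contra h8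
    refine hU ((isBounded_ball (x := x) (r := ‖p0 - x‖)).subset fun q hq => ?_)
    rw [mem_ball_iff_norm]
    exact not_le.mp fun h9 => h8 ⟨q, hq, h9⟩
  have h8 := st_LA1 _ _ (XSEP.E0 μ d i) E w x ‖p - x‖ ‖p0 - x‖ (hQ i hi) (XSEP.E0_sub hO hi)
    (hD.mono_right fun z hz => hz.1) (XSEP.E0_conn hO hi) hE h6 h4
    ⟨x, Or.inl ⟨_, μ.mem, hx⟩, by simp⟩
    ⟨p0, Or.inr ⟨_, ⟨(XSEP.tip_lt hO hi).le, le_rfl⟩, rfl⟩, le_rfl⟩ ⟨p, hp, le_rfl⟩ h7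
  rw [Real.log_le_iff_le_exp (div_pos (h6.trans_le h4) h6), div_le_iff₀ h6] at h8
  refine (mul_le_mul_of_nonneg_right (h0.trans h8) h3.le).trans (le_of_eq ?_)
  rw [mul_right_comm, ← Real.exp_add, add_neg_cancel, Real.exp_zero, one_mul]

end RT95
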