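import Pool.Agent.Lib.RT95.Defs

/-! Statements of the blocks for renormalization towers. -/

set_option autoImplicit false

open Filter Topology Set Metric Complex Bornology MeasureTheory N62a1eb23
open scoped Real ENNReal

namespace RT95

open Pool.Agent.Lib.MP_c35c17_an KN KR73

/-! ### systems -/

def St_CHART (n : ℕ) : Prop := ∀ (b : ℝ) (g : ℂ → ℂ), Lv n b g → ∃ σ : Sy n, Fit σ b g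

def St_GLOB (n : ℕ) : Prop := ∀ c ∈ multibrotSet n, ∀ Φ, L.Bot n c 1 Φ →
  Function.Injective (fun j => (F n c)^[j] 0) → ∀ θ, Peak c Φ θ → AP (nu n θ) →
    ∃ σ : Sy n, (∀ y, σ.hom y = y + c) ∧ IsBounded (σ.Ext 1)ᶜ ∧ HR σ (nu n θ)

def St_ZERO (n : ℕ) : Prop := ∀ c ∈ multibrotSet n, ∀ b : ℝ, 100 ≤ b → Lv n b (fun y => y + c) ∧
  ∀ (σ σ' : Sy n) (ν : ℕ → ZMod n), (∀ y, σ.hom y = y + c) → IsBounded (σ.Ext 1)ᶜ →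
    Fit σ' b (fun y => y + c) → Link σ σ' ν 1 1

/-! ### models -/

def St_MD (n : ℕ) : Prop := ∀ (σ : Sy n) (L : ℕ) (ρ : Raw σ L), ∃ μ : Md σ L, μ.toRaw = ρ

def St_LG (n : ℕ) : Prop := ∀ (σ : Sy n) (L : ℕ) (μ : Md σ L), ∀ l ≤ L, Lg (μ.S l)

def St_DN (n : ℕ) : Prop := ∀ (σ : Sy n) (L : ℕ) (μ : Md σ L) (k : ℕ) (τ : ℝ) (s : ℂ) (E : Set ℂ),
  k ≤ L → s ≠ 0 → (n : ℝ) ^ k * μ.g ≤ τ → E = (fun z => z / s) '' (σ.G^[k] '' μ.D ∪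
    (fun t : ℝ => σ.B ⟨t, (n : ℝ) ^ k * μ.ϑ⟩) '' Icc ((n : ℝ) ^ k * μ.g) τ) →
      IsCompact E ∧ IsPreconnected E ∧ Zp E

/-! ### capacity -/

def St_COLC (n : ℕ) : Prop := ∀ b : ℝ, ∃ w₀ > 0, ∀ (σ : Sy n) (g : ℂ → ℂ), Fit σ b g →
  ∀ (α : ℝ) (q : ℕ), 2 ≤ q → Cap (σ.Col α q) (σ.Cob α q) w₀

def St_BRW (n : ℕ) : Prop := ∀ (σ : Sy n) (L : ℕ) (μ : Md σ L) (b : ℝ) (g : ℂ → ℂ), Fit σ b g →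
  ∀ (i x : ℕ) (U : Set ℂ), x ≤ L → Disjoint U (σ.Ext 1) →
  (∀ i' y, i < i' → i' + y = i + x → (∀ j < y, nu n μ.ϑ (i' + j) = nu n μ.ϑ j) →
    Disjoint U (μ.S y)) →
  DifferentiableOn ℂ (μ.Y i x) U ∧ (∀ z ∈ U, σ.G^[x] (μ.Y i x z) = z) ∧
    MapsTo (μ.Y i x) U (μ.P i x)

def St_MISS (n : ℕ) : Prop := ∀ (σ : Sy n) (L : ℕ) (μ : Md σ L) (b : ℝ) (g : ℂ → ℂ) (d T : ℕ),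
  Ok μ b g d T → (∀ i' y, 1 ≤ i' → i' ≤ T + ss d → (∀ j < y, nu n μ.ϑ (i' + j) = nu n μ.ϑ j) →
    y < d ∧ Disjoint (μ.P (i' + y) d) (μ.S y)) ∧
    ∀ k, 1 ≤ k → k ≤ T + ss d → Disjoint (μ.S k) (μ.P 0 d)

def St_SER (n : ℕ) : Prop := ∀ (σ : Sy n) (L : ℕ) (μ : Md σ L) (b : ℝ) (g : ℂ → ℂ) (d T : ℕ),
  Ok μ b g d T → ∀ (w : ℝ) (j M : ℕ), μ.Q d T w → j + M * ss d ≤ T →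
    Cap (μ.Ph j ((M + 1) * ss d) ((M + 1) * ss d)) (μ.Ph j d 0) (w / √(M + 1))

/-- the a priori bound -/
def St_QQ (n : ℕ) : Prop := ∀ b : ℝ, ∃ C > 0, ∀ (σ : Sy n) (L : ℕ) (μ : Md σ L) (g : ℂ → ℂ)
  (d T : ℕ), Ok μ b g d T → μ.Q d T (C * (d : ℝ) ^ 4)

def St_SEP (n : ℕ) : Prop := ∀ (σ : Sy n) (L : ℕ) (μ : Md σ L) (b : ℝ) (g : ℂ → ℂ) (d T : ℕ),
  Ok μ b g d T → ∀ w : ℝ, μ.Q d T w → ∀ i ≤ T, ∀ E : Set ℂ, IsPreconnected E → ¬ IsBounded E →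
    Disjoint E (μ.P i d) → ∀ p ∈ E, sep n b d w ≤ ‖p - cc n g i‖

def St_GROW (n : ℕ) : Prop := ∀ (σ : Sy n) (L : ℕ) (μ : Md σ L) (b : ℝ) (g : ℂ → ℂ) (d T : ℕ),
  Ok μ b g d T → ∀ w : ℝ, 0 < w → μ.Q d T w → ∀ m ≤ T, sep n b d w ≤ 4 * b ^ 4 * ‖dd n g m‖ ∧
    ∀ M : ℕ, M * ss d ≤ m → 100 * w ^ 2 ≤ M → sep n b d w ≤ 2 * gam b M w * ‖dd n g m‖

def St_SMALL (n : ℕ) : Prop := ∀ (σ : Sy n) (L : ℕ) (μ : Md σ L) (b : ℝ) (g : ℂ → ℂ) (d T : ℕ)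
  (ν : ℕ → ZMod n), Ok μ b g d T → μ.Good ν → Rq ν (T + ss d + 1) → ∀ w : ℝ, 0 < w → μ.Q d T w →
    ∀ M : ℕ, M * ss d ≤ T → 100 * w ^ 2 ≤ M → ∀ z ∈ μ.Ph 0 (M * ss d + d) (M * ss d + 1),
      ‖z - g 0‖ ≤ gam b M w

/-! ### renormalization -/

def St_BRU (n : ℕ) : Prop := ∀ (σ : Sy n) (L : ℕ) (μ : Md σ L) (b : ℝ) (g : ℂ → ℂ) (d T : ℕ)
  (ν : ℕ → ZMod n), Ok μ b g d T → μ.Good ν → Rq ν (T + ss d + 1) → ∀ w : ℝ, 0 < w → μ.Q d T w →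
    ∀ M : ℕ, M * ss d ≤ T → 100 * w ^ 2 ≤ M →
      ∃ X, An n b g (T + ss d + 1) (sep n b d w / Lip n b) (gam b M w) X ∧
        μ.Ret (T + ss d + 1) (gam b M w) X

def St_COV (n : ℕ) : Prop := ∀ (b : ℝ) (g : ℂ → ℂ) (q : ℕ) (r γ K : ℝ) (X : ℂ → ℂ), Lv n b g →
  An n b g q r γ X → Nu n b q r γ K → deriv (Fq n g q) 0 ≠ 0 ∧ K ^ 2 ≤ ‖dd n g (q - 1)‖ ∧
    ∀ s : ℂ, s ^ (n - 1) * deriv (Fq n g q) 0 = 1 → ‖s‖ ≤ K⁻¹ ^ 10 ∧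
      (∀ x, ‖x‖ ≤ K⁻¹ ^ 8 → ‖X x / s ^ n - (x - cc n g (q - 1)) / s‖ ≤
        ‖(x - cc n g (q - 1)) / s‖ / (5 * b ^ (3 * n))) ∧
      ∀ y, ‖y‖ ≤ 2 * b ^ (3 * n) → ∃ x, ‖x‖ ≤ K⁻¹ ^ 8 ∧
        ‖(x - cc n g (q - 1)) / s‖ ≤ 4 * b ^ (3 * n) ∧ X x = s ^ n * y

def St_ORB (n : ℕ) : Prop := ∀ (u : ℕ → ℂ) (ρ : ℝ), u 0 = 0 → (∀ k, ‖u k‖ ≤ ρ) →
  (∀ k, ‖u k ^ n - (u (k + 1) - u 1)‖ ≤ ‖u (k + 1) - u 1‖ / 5) → ‖u 1‖ ≤ 3 ∧ ∀ k, ‖u k‖ ≤ 4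

def St_RENL (n : ℕ) : Prop := ∀ (σ : Sy n) (b : ℝ) (g : ℂ → ℂ) (ν : ℕ → ZMod n) (q : ℕ)
  (r γ K : ℝ) (s : ℂ), Fit σ b g → Nu n b q r γ K → s ^ (n - 1) * deriv (Fq n g q) 0 = 1 →
  HM σ ν → (∀ (L : ℕ) (μ : Md σ L), μ.Good ν → 3 * q ≤ L → ∃ X, An n b g q r γ X ∧ μ.Ret q γ X) →
    Lv n b (ren n g q s) ∧ ∀ σ' : Sy n, Fit σ' b (ren n g q s) → Link σ σ' ν q s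

def St_PSI (n : ℕ) : Prop := ∀ (b : ℝ) (g w : ℂ → ℂ) (q : ℕ) (r γ K : ℝ) (X : ℂ → ℂ), Lv n b g →
  An n b g q r γ X → Nu n b q r γ K → Wf n b w → (∀ m ≤ q - 1, 1 ≤ K * ‖dd n g m‖) →
    ∀ x, ‖x‖ ≤ r / (200 * K) → ‖Vh n g w (q - 1) (X x)‖ ≤ 3 * q * K * ‖dd n g (q - 1)‖

def St_CONE (n : ℕ) : Prop := ∀ (b : ℝ) (g w : ℂ → ℂ) (q : ℕ) (r γ K : ℝ) (X : ℂ → ℂ),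
  Lv n b g → An n b g q r γ X → Nu n b q r γ K → Wf n b w → (∀ m ≤ q - 1, 1 ≤ K * ‖dd n g m‖) →
  ‖dd n g (q - 1)‖ ≤ K * ‖Vh n g w (q - 1) 0‖ → ∀ s : ℂ, s ^ (n - 1) * deriv (Fq n g q) 0 = 1 →
    ∃ (B : ℂ) (w' : ℂ → ℂ), Wf n b w' ∧ K ≤ ‖B‖ ∧
      ∀ y, Vh n g w (q - 1) (s ^ n * y) = s * B * w' y

/-! ### transversality -/

def St_TRV (n : ℕ) : Prop := ∃ b : ℝ, 100 ≤ b ∧ Trv n b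

def St_TRANS (n : ℕ) : Prop := ∀ b : ℝ, Trv n b → Trs n b

def St_VEL (n : ℕ) : Prop := ∀ (σ : Sy n) (L : ℕ) (μ : Md σ L) (b W : ℝ) (g w : ℂ → ℂ)
  (d q T j M M' : ℕ) (K : ℝ), Trs n b → Ok μ b g d T → 0 < W → μ.Q d T W →
  Nm n b W d q T j M M' K → Wf n b w → K ^ 2 ≤ ‖dd n g T‖ ∧
    (1 ≤ ‖dd n g (q - 1)‖ → ∀ m ≤ q - 1, 1 ≤ K * ‖dd n g m‖) ∧
    ∀ N, 1 ≤ N → N ≤ q - 1 → K ≤ ‖dd n g N‖ → ‖dd n g N‖ ≤ K * ‖Vh n g w N 0‖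

def St_NUM (n : ℕ) : Prop := ∀ b C : ℝ, 100 ≤ b → 0 < C → ∃ d₀ : ℕ, ∀ d q : ℕ, d₀ ≤ d →
  d ^ 28 ≤ q → q < (d + 1) ^ 28 → ∃ T j M M' K, Nm n b (C * (d : ℝ) ^ 4) d q T j M M' K

/-! ### transfer of models -/

def St_UP (n : ℕ) : Prop := ∀ (σ σ' : Sy n) (b : ℝ) (g : ℂ → ℂ) (ν : ℕ → ZMod n) (q : ℕ) (s : ℂ),
  Fit σ' b g → Link σ σ' ν q s → ∃ j₀, Up σ σ' ν q s j₀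

def St_L3 (n : ℕ) : Prop := ∀ (σ σ' : Sy n) (b : ℝ) (g : ℂ → ℂ) (ν : ℕ → ZMod n) (q : ℕ) (s : ℂ),
  Fit σ' b g → Link σ σ' ν q s → ∃ j₂ : ℕ, ∀ (j : ℕ) (z : ℂ), z ∈ σ.Ext ((n : ℝ) ^ (j * q))⁻¹ →
    z / s ∈ σ'.Ext ((n : ℝ) ^ (j + 1 + j₂))⁻¹

def St_LAM (n : ℕ) : Prop := ∀ (σ σ' : Sy n) (b : ℝ) (g : ℂ → ℂ) (ν : ℕ → ZMod n) (q : ℕ) (s : ℂ),
  Fit σ' b g → Link σ σ' ν q s → ∃ (j₂ : ℕ) (Λ : ℂ → ℂ), Lm n q j₂ Λ ∧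
    ∀ ζ : ℂ, 0 < ζ.re → σ'.B (Λ ζ) = σ.B ζ / s

def St_ORD : Prop := ∀ (n q j₂ : ℕ) (Λ : ℂ → ℂ), Lm n q j₂ Λ → ∀ x x' T T' u : ℝ, x < x' → 0 < T →
  0 < T' → (Λ ⟨T, x⟩).re = u → (Λ ⟨T', x'⟩).re = u → (∀ t, T < t → u < (Λ ⟨t, x⟩).re) →
  (∀ t, T' < t → u < (Λ ⟨t, x'⟩).re) → (Λ ⟨T, x⟩).im < (Λ ⟨T', x'⟩).im

def St_FEC : Prop := ∀ (n q j₀ j₂ : ℕ) (Λ : ℂ → ℂ) (L : ℕ) (g ϑ : ℝ), Lm n q j₂ Λ →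
  Legs n q j₀ Λ L g ϑ → ∀ k i : ℕ, (k + i + j₀ + 3) * q ≤ L → ∃ m : ℤ, ∀ t, tip n q g k ≤ t →
    (n : ℝ) ^ i * (yy n q Λ ϑ k t).re < ((n : ℝ) ^ (j₀ + j₂ + 4))⁻¹ →
      yy n q Λ ϑ (k + i) ((n : ℝ) ^ (i * q) * t) = (n : ℂ) ^ i * yy n q Λ ϑ k t + m * I

def St_LH : Prop := ∀ (n q j₀ j₂ : ℕ) (Λ : ℂ → ℂ) (L : ℕ) (g ϑ : ℝ), Lm n q j₂ Λ →
  Legs n q j₀ Λ L g ϑ → (∀ (k : ℕ) (u : ℝ), (yy n q Λ ϑ k (tip n q g k)).re ≤ u →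
    ∃ T, LH n q Λ g ϑ k u T) ∧ ∀ (k i : ℕ) (u T : ℝ), (k + i + j₀ + 3) * q ≤ L →
      (n : ℝ) ^ i * u < ((n : ℝ) ^ (j₀ + j₂ + 4))⁻¹ → LH n q Λ g ϑ k u T →
        LH n q Λ g ϑ (k + i) ((n : ℝ) ^ i * u) ((n : ℝ) ^ (i * q) * T)

def St_HSEQ : Prop := ∀ (n q j₀ j₂ : ℕ) (Λ : ℂ → ℂ) (L : ℕ) (g ϑ : ℝ), Lm n q j₂ Λ →
  Legs n q j₀ Λ L g ϑ → ∀ v L₀ : ℕ, j₀ + j₂ + 5 ≤ v → (v + L₀ + j₀ + 4) * q ≤ L →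
  (∀ k < L₀, ¬ Cg ((n : ℝ) ^ ((k + 1) * q) * ϑ) ϑ) → ∃ (T : ℕ → ℝ) (N : ℕ → ℤ) (a : ZMod n),
    (∀ r ≤ L₀, LH n q Λ g ϑ 1 ((n : ℝ) ^ (v + r))⁻¹ (T r)) ∧
    (∀ k < L₀, (N k : ZMod n) = sub (nu n ϑ) q k + a) ∧ ∀ r k, r + k + 1 ≤ L₀ →
      (n : ℝ) ^ (k + 1) * (yy n q Λ ϑ 1 (T (r + k + 1))).im - (yy n q Λ ϑ 1 (T r)).im ∈
        Ioo (N k : ℝ) (N k + 1)

def St_OSC : Prop := ∀ (n q j₀ j₂ : ℕ) (Λ : ℂ → ℂ), Lm n q j₂ Λ → ∀ J : ℕ, ∃ W : ℝ,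
  ∀ (L : ℕ) (g ϑ : ℝ) (j : ℕ), Legs n q j₀ Λ L g ϑ → (j + J + j₀ + 4) * q ≤ L → ∀ t t' : ℝ,
    tip n q g 1 ≤ t → tip n q g 1 ≤ t' →
    (yy n q Λ ϑ 1 t).re ∈ Ico ((n : ℝ) ^ (j + J))⁻¹ ((n : ℝ) ^ (j + (j₀ + j₂ + 4)))⁻¹ →
    (yy n q Λ ϑ 1 t').re ∈ Ico ((n : ℝ) ^ (j + J))⁻¹ ((n : ℝ) ^ (j + (j₀ + j₂ + 4)))⁻¹ →
      (n : ℝ) ^ j * |(yy n q Λ ϑ 1 t).im - (yy n q Λ ϑ 1 t').im| ≤ W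

def St_ANG : Prop := ∀ (n : ℕ) (ν : ℕ → ZMod n) (L' : ℕ), 2 ≤ n → AP ν → ∃ (L₀ : ℕ) (η : ℝ),
  0 < η ∧ ∀ (H : ℕ → ℝ) (N : ℕ → ℤ) (a : ZMod n) (x : ℝ), (∀ k < L₀, (N k : ZMod n) = ν k + a) →
    (∀ r k, r + k + 1 ≤ L₀ → (n : ℝ) ^ (k + 1) * H (r + k + 1) - H r ∈ Ioo (N k : ℝ) (N k + 1)) →
    (∀ r ≤ L₀, |H r - x| ≤ η) → ∀ k ≤ L', nu n x k = ν k + a ∧
      ∀ m : ℤ, (n : ℝ) ^ (k + 1) * η < |((n : ℝ) ^ (k + 1) - 1) * x - m|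

def St_TIP : Prop := ∀ (n q j₀ j₂ : ℕ) (Λ : ℂ → ℂ) (ν : ℕ → ZMod n), Lm n q j₂ Λ → AP ν →
  ∀ (L' : ℕ) (e : ℝ), 0 < e → ∃ L₁ : ℕ, ∀ (L : ℕ) (g ϑ : ℝ) (a : ZMod n), L₁ ≤ L →
    Legs n q j₀ Λ L g ϑ → (∀ k, (k + 1) * q ≤ L → ¬ Cg ((n : ℝ) ^ ((k + 1) * q) * ϑ) ϑ ∧
      sub (nu n ϑ) q k = ν k + a) → ∃ τ, Tip n q j₀ Λ L g ϑ L' τ ∧ (yy n q Λ ϑ 1 τ).re < e ∧
        ∃ a', ∀ k ≤ L', nu n (yy n q Λ ϑ 1 τ).im k = ν k + a'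

def St_NEW (n : ℕ) : Prop := ∀ (σ σ' : Sy n) (ν : ℕ → ZMod n) (q : ℕ) (s : ℂ) (j₀ j₂ : ℕ)
  (Λ : ℂ → ℂ) (L : ℕ) (μ : Md σ L) (L' : ℕ) (τ : ℝ), s ≠ 0 → Up σ σ' ν q s j₀ → Lm n q j₂ Λ →
  (∀ ζ : ℂ, 0 < ζ.re → σ'.B (Λ ζ) = σ.B ζ / s) → μ.Good ν → (L' + j₀ + 4) * q ≤ L →
  (∀ l, 1 ≤ l → l ≤ L' + 1 → Disjoint (μ.S (q - 1 + l * q)) (μ.S (q - 1))) →
  Tip n q j₀ Λ L μ.g μ.ϑ L' τ →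
    ∃ ρ : Raw σ' L', ρ.g = (yy n q Λ μ.ϑ 1 τ).re ∧ ρ.ϑ = (yy n q Λ μ.ϑ 1 τ).im

def St_TR (n : ℕ) : Prop := ∀ (σ σ' : Sy n) (b : ℝ) (g : ℂ → ℂ) (ν : ℕ → ZMod n) (q : ℕ) (s : ℂ),
  Fit σ' b g → Link σ σ' ν q s → HM σ ν → AP (sub ν q) → HR σ' (sub ν q)

/-! ### the end -/

def St_LAND : Prop := ∃ C > 0, ∀ (f : ℂ → ℂ) (c : ℂ) (r : ℝ), 0 < r →
  DifferentiableOn ℂ f (ball c r) → (∀ z ∈ ball c r, f z ≠ 0 ∧ f z ≠ 1) → ‖f c‖ ≤ 40 →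
    r * ‖deriv f c‖ ≤ C

def St_BALL (n : ℕ) : Prop := ∀ c ∈ multibrotSet n, ∀ r : ℝ, 0 < r → r ≤ 1 →
  Disjoint (ball c r) (HH n) → ball c (r / 2) ⊆ multibrotSet n

def St_CHI (n : ℕ) : Prop := ∀ (b : ℝ) (g : ℂ → ℂ), Lv n b g → ‖g 0‖ < 1 / 8 →
  ∃ u, G0 n g u = u ∧ ‖deriv (G0 n g) u‖ < 1

def St_CONC (n : ℕ) : Prop := ∀ (c : ℂ) (p : ℕ) (s : ℂ) (g : ℂ → ℂ) (B : ℂ) (w : ℂ → ℂ),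
  Cc n c p s g B w → (∀ u, (F n c)^[p] (s * u) = s * G0 n g u) ∧
    (∀ u, deriv (G0 n g) u = dF n c p (s * u)) ∧ ∀ (k : ℕ) (y : ℂ),
      (F n c)^[(k + 1) * p - 1] (s ^ n * y + c) = s * (G0 n g)^[k] (g y) ∧
        dQ n c ((k + 1) * p - 1) (s ^ n * y + c) = s * B * Vh n g w k y

def St_END (n : ℕ) : Prop := ∃ C > 0, ∀ c ∈ multibrotSet n, ∀ (b : ℝ) (p : ℕ) (s : ℂ) (g : ℂ → ℂ)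
  (B : ℂ) (w : ℂ → ℂ) (k : ℕ) (K : ℝ), Cc n c p s g B w → Lv n b g → Wf n b w → 1 ≤ k → 200 ≤ K →
    K ≤ ‖Vh n g w k 0‖ → 1 ≤ ‖B‖ → infDist c (HH n) * (‖B‖ * K) ≤ C

end RT95
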