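import Pool.Agent.Lib.KR73.Kit

/-! Definitions for renormalization towers. -/

set_option autoImplicit false

open Filter Topology Set Metric Complex Bornology MeasureTheory N62a1eb23
open scoped Real ENNReal

namespace RT95

open Pool.Agent.Lib.MP_c35c17_an KN KR73

/-! ### sequences -/

/-- not periodic -/
def AP {α : Type} (ν : ℕ → α) : Prop := ∀ k, 0 < k → ∃ x, ν (x + k) ≠ ν x

/-- renormalizable with period `q` -/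
def Rq {α : Type} (ν : ℕ → α) (q : ℕ) : Prop := ∀ j, ¬ q ∣ j + 1 → ν (j + q) = ν j

/-- the renormalized sequence -/
def sub {α : Type} (ν : ℕ → α) (q j : ℕ) : α := ν ((j + 1) * q - 1)

/-- the first `d` letters do not come back up to time `T` -/
def NRs {α : Type} (ν : ℕ → α) (d T : ℕ) : Prop :=
  ∀ i, 1 ≤ i → i ≤ T → ∃ x < d, ν (i + x) ≠ ν x

/-! ### levels -/

/-- the return map of a level -/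
noncomputable def G0 (n : ℕ) (g : ℂ → ℂ) (u : ℂ) : ℂ := g (u ^ n)

/-- the orbit of the critical value -/
noncomputable def cc (n : ℕ) (g : ℂ → ℂ) (k : ℕ) : ℂ := (G0 n g)^[k] (g 0)

/-- the derivative along the orbit of the critical value -/
noncomputable def dd (n : ℕ) (g : ℂ → ℂ) (k : ℕ) : ℂ := deriv (G0 n g)^[k] (g 0)

/-- a level -/
structure Lv (n : ℕ) (b : ℝ) (g : ℂ → ℂ) : Prop where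
  hn : 2 ≤ n
  hb : 100 ≤ b
  ent : Differentiable ℂ g
  near : ∀ y, ‖y‖ ≤ 2 * b ^ (3 * n) → ‖g y - y‖ ≤ 4
  bdd : ∀ j, ‖(G0 n g)^[j] 0‖ ≤ 5

/-- the cone of vector fields -/
def Wf (n : ℕ) (b : ℝ) (w : ℂ → ℂ) : Prop :=
  Differentiable ℂ w ∧ ∀ y, ‖y‖ ≤ 2 * b ^ (3 * n) → ‖w y - 1‖ ≤ 1 / 4

/-- the velocity after `k` returns -/
noncomputable def Vh (n : ℕ) (g w : ℂ → ℂ) : ℕ → ℂ → ℂ
  | 0 => w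
  | k + 1 => fun y =>
      deriv (G0 n g) ((G0 n g)^[k] (g y)) * Vh n g w k y + w ((G0 n g)^[k] (g y) ^ n)

/-- the transversality sum -/
noncomputable def SS (n : ℕ) (g w : ℂ → ℂ) (N : ℕ) : ℂ :=
  w 0 + ∑ k ∈ Finset.range N, (dd n g (k + 1))⁻¹ * w (cc n g k ^ n)

/-- the Cauchy transform of the weighted orbit -/
noncomputable def Hs (n : ℕ) (g : ℂ → ℂ) (N : ℕ) (x : ℂ) : ℂ :=
  ∑ k ∈ Finset.range (N + 1), (dd n g k)⁻¹ * (x - cc n g k)⁻¹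

/-- the univalent part of the return of time `q` -/
noncomputable def Fq (n : ℕ) (g : ℂ → ℂ) (q : ℕ) (y : ℂ) : ℂ := (G0 n g)^[q - 1] (g y)

/-- the renormalized level -/
noncomputable def ren (n : ℕ) (g : ℂ → ℂ) (q : ℕ) (s y : ℂ) : ℂ := s⁻¹ * Fq n g q (s ^ n * y)

/-- the Lipschitz constant -/
noncomputable def Lip (n : ℕ) (b : ℝ) : ℝ := 2 * n * (b ^ 4) ^ (n - 1)

/-- the separation constant -/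
noncomputable def sep (n : ℕ) (b : ℝ) (d : ℕ) (w : ℝ) : ℝ :=
  (Lip n b ^ ee d)⁻¹ * Real.exp (-(2 * π * w ^ 2))

/-- the size of a deep piece -/
noncomputable def gam (b : ℝ) (M : ℕ) (w : ℝ) : ℝ := 4 * b ^ 4 * Real.exp (-(M / w ^ 2))

/-- a homeomorphism that extends the level map -/
structure Hm (n : ℕ) (b : ℝ) (g : ℂ → ℂ) (hom : ℂ ≃ₜ ℂ) : Prop where
  eq : ∀ y, ‖y‖ ≤ b ^ (3 * n) / 2 → hom y = g y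
  out : ∀ y, b ^ (3 * n) ≤ ‖y‖ → hom y = y
  near : ∀ y, ‖hom y - y‖ ≤ 4
  lip : ∀ y y', ‖hom y - hom y'‖ ≤ 2 * ‖y - y'‖
  lip' : ∀ y y', ‖y - y'‖ ≤ 2 * ‖hom y - hom y'‖

/-- the logarithm of the chart -/
structure Lf (n : ℕ) (b : ℝ) (hom : ℂ ≃ₜ ℂ) (A : ℂ → ℂ) : Prop where
  cont : ContinuousOn A {ζ | 0 < ζ.re}
  top : ∀ t x : ℝ, 3 / 4 ≤ t → A ⟨t, x⟩ = ⟨4 * Real.log b * t, 2 * π * x⟩
  eqn : ∀ t x : ℝ, 0 < t → G0 n hom (exp (A ⟨t, x⟩)) = exp (A ⟨n * t, n * x⟩)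

/-! ### systems -/

/-- a branched covering of the plane with a chart of the basin of infinity -/
structure Sy (n : ℕ) where
  hom : ℂ ≃ₜ ℂ
  B : ℂ → ℂ
  κ : ℝ
  hn : 2 ≤ n
  κpos : 0 < κ
  cont : ContinuousOn B {ζ | 0 < ζ.re}
  inj : ∀ ζ ζ' : ℂ, 0 < ζ.re → 0 < ζ'.re → B ζ = B ζ' → ζ.re = ζ'.re ∧ Cg ζ.im ζ'.im
  conj : ∀ t x : ℝ, 0 < t → G0 n hom (B ⟨t, x⟩) = B ⟨n * t, n * x⟩
  rot : ∀ t x : ℝ, 0 < t → B ⟨t, x + 1 / n⟩ = exp (2 * π * I / n) * B ⟨t, x⟩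
  opn : ∀ U ⊆ {ζ : ℂ | 0 < ζ.re}, IsOpen U → IsOpen (B '' U)
  far : ∀ ε > 0, ∃ T, ∀ t x : ℝ, T ≤ t → ‖B ⟨t, x⟩ / exp (2 * π * (⟨κ * t, x⟩ : ℂ)) - 1‖ ≤ ε
  orb : ∀ (j : ℕ) (ζ : ℂ), 0 < ζ.re → B ζ ≠ (G0 n hom)^[j] 0

namespace Sy

variable {n : ℕ} (σ : Sy n)

/-- the map -/
noncomputable def G : ℂ → ℂ := G0 n σ.hom

/-- points of potential at least `τ` -/
def Ext (τ : ℝ) : Set ℂ := σ.B '' {ζ | τ ≤ ζ.re}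

/-- a collar piece -/
def Col (α : ℝ) (q : ℕ) : Set ℂ :=
  σ.B '' {ζ | 1 ≤ (n : ℝ) ^ q * ζ.re ∧ (n : ℝ) ^ q * ζ.re ≤ n ∧ (n : ℝ) ^ q * |ζ.im - α| ≤ 1 / 4}

/-- the neighbourhood of a collar piece -/
def Cob (α : ℝ) (q : ℕ) : Set ℂ := σ.B ''
  {ζ | 3 / 4 < (n : ℝ) ^ q * ζ.re ∧ (n : ℝ) ^ q * ζ.re < n + 1 / 2 ∧ (n : ℝ) ^ q * |ζ.im - α| < 1 / 2}

/-- preimages of the large disc -/
def Vv (b : ℝ) (j : ℕ) : Set ℂ := {z | ‖σ.G^[j] z‖ < b ^ 4}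

/-- the slit at time `l` -/
def slt (D : Set ℂ) (g ϑ : ℝ) (l : ℕ) : Set ℂ :=
  σ.G^[l] '' D ∪ (fun t : ℝ => σ.B ⟨t, (n : ℝ) ^ l * ϑ⟩) '' Ici ((n : ℝ) ^ l * g)

end Sy

/-- the system fits the level -/
structure Fit {n : ℕ} (σ : Sy n) (b : ℝ) (g : ℂ → ℂ) : Prop where
  lv : Lv n b g
  hm : Hm n b g σ.hom
  chart : ∀ t x : ℝ, 3 / 4 ≤ t → σ.B ⟨t, x⟩ = exp (⟨4 * Real.log b * t, 2 * π * x⟩ : ℂ)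

/-! ### models -/

/-- continuous functions without zeros have continuous logarithms -/
def Zp (D : Set ℂ) : Prop := ∀ f : ℂ → ℂ, ContinuousOn f D → (∀ z ∈ D, f z ≠ 0) →
  ∃ l : ℂ → ℂ, ContinuousOn l D ∧ ∀ z ∈ D, exp (l z) = f z

/-- a continuum that joins the critical value to a ray -/
structure Raw {n : ℕ} (σ : Sy n) (L : ℕ) where
  D : Set ℂ
  g : ℝ
  ϑ : ℝ
  gpos : 0 < g
  cpt : IsCompact D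
  pre : IsPreconnected D
  zp : Zp D
  mem : σ.hom 0 ∈ D
  base : σ.B ⟨g, ϑ⟩ ∈ D
  top0 : ∀ ζ : ℂ, 0 < ζ.re → σ.B ζ ∈ D → ζ.re ≤ g
  dis : ∀ l, 1 ≤ l → l ≤ L + 1 → Disjoint (σ.slt D g ϑ l) (σ.slt D g ϑ 0)

/-- slits -/
def Raw.S {n : ℕ} {σ : Sy n} {L : ℕ} (ρ : Raw σ L) (l : ℕ) : Set ℂ := σ.slt ρ.D ρ.g ρ.ϑ l

/-- the slit model with its inverse branches -/
structure Md {n : ℕ} (σ : Sy n) (L : ℕ) extends Raw σ L where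
  A : ZMod n → ℂ → ℂ
  cont : ∀ a, ContinuousOn (A a) (toRaw.S 0)ᶜ
  hol : ∀ a, ∀ y ∉ toRaw.S 0, DifferentiableAt ℂ σ.hom.symm y → DifferentiableAt ℂ (A a) y
  inv : ∀ a, ∀ y ∉ toRaw.S 0, σ.G (A a y) = y
  disj : ∀ a b, ∀ y ∉ toRaw.S 0, ∀ y' ∉ toRaw.S 0, A a y = A b y' → a = b
  surj : ∀ y, σ.G y ∉ toRaw.S 0 → ∃ a, y = A a (σ.G y)
  opn : ∀ a, IsOpen (A a '' (toRaw.S 0)ᶜ)
  sect : ∀ l ≤ L, toRaw.S l ⊆ A (nu n ϑ l) '' (toRaw.S 0)ᶜ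
  chart : ∀ a, ∀ t x : ℝ, g < t → ¬ Cg x ϑ → A a (σ.B ⟨t, x⟩) = σ.B ⟨t / n, gh n ϑ a x⟩

namespace Md

variable {n : ℕ} {σ : Sy n} {L : ℕ} (μ : Md σ L)

/-- sectors -/
def V (a : ZMod n) : Set ℂ := μ.A a '' (μ.S 0)ᶜ

/-- cylinders -/
def P (i s : ℕ) : Set ℂ := {z | ∀ x < s, σ.G^[x] z ∈ μ.V (nu n μ.ϑ (i + x))}

/-- truncated cylinders -/
def Ph (i s q : ℕ) : Set ℂ := μ.P i s \ σ.Ext ((n : ℝ) ^ q)⁻¹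

/-- branch along a factor of the kneading sequence -/
noncomputable def Y (i x : ℕ) : ℂ → ℂ := br μ.A (nu n μ.ϑ) i x

/-- a blob about a precritical point -/
def Bl (d i x : ℕ) : Set ℂ := μ.Y i x '' (σ.G ⁻¹' μ.Ph 0 (NN n d * ss d) (NN n d * ss d))

/-- all base annuli have capacity at most `w ^ 2` -/
def Q (d T : ℕ) (w : ℝ) : Prop := ∀ i ≤ T, Cap (μ.Ph i (ss d) (ee d)) (μ.Ph i d 0) w

/-- the model has the letters of `ν` and a low tip -/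
def Good (ν : ℕ → ZMod n) : Prop :=
  (∃ a, ∀ j ≤ L, nu n μ.ϑ j = ν j + a) ∧ 2 * μ.g * (n : ℝ) ^ L < 1

/-- returns to the critical point -/
def Ret (q : ℕ) (γ : ℝ) (X : ℂ → ℂ) : Prop := ∀ (k : ℕ) (z : ℂ), (k + 1) * q ≤ L →
  σ.G z ∈ μ.S (k * q) → (z ∉ σ.Ext ((n : ℝ) ^ q)⁻¹ → ‖z‖ ^ n ≤ 2 * γ) ∧ X (σ.G^[q] z) = z ^ n

end Md

/-- raw models of every horizon -/
def HR {n : ℕ} (σ : Sy n) (ν : ℕ → ZMod n) : Prop := ∀ (L : ℕ) (e : ℝ), 0 < e →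
  ∃ ρ : Raw σ L, ρ.g < e ∧ ∃ a, ∀ j ≤ L, nu n ρ.ϑ j = ν j + a

/-- models of every horizon -/
def HM {n : ℕ} (σ : Sy n) (ν : ℕ → ZMod n) : Prop := ∀ L : ℕ, ∃ μ : Md σ L, μ.Good ν

/-- the hypotheses of the capacity estimates -/
structure Ok {n : ℕ} {σ : Sy n} {L : ℕ} (μ : Md σ L) (b : ℝ) (g : ℂ → ℂ) (d T : ℕ) : Prop where
  fit : Fit σ b g
  dpos : 0 < d
  big : (NN n d + 1) * ss d ≤ T
  hor : 3 * (T + ss d + 1) ≤ L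
  small : 2 * μ.g * (n : ℝ) ^ L < 1
  nr : NR n μ.ϑ d (T + ss d)

/-! ### renormalization -/

/-- the inverse branch of the return -/
structure An (n : ℕ) (b : ℝ) (g : ℂ → ℂ) (q : ℕ) (r γ : ℝ) (X : ℂ → ℂ) : Prop where
  hol : DifferentiableOn ℂ X (ball 0 r)
  inv : ∀ x ∈ ball (0 : ℂ) r, Fq n g q (X x) = x
  sm : ∀ x ∈ ball (0 : ℂ) r, ‖X x‖ ≤ 2 * γ
  bd : ∀ x ∈ ball (0 : ℂ) r, ∀ m ≤ q - 1, ‖(G0 n g)^[m] (g (X x))‖ ≤ 2 * b ^ 2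
  x0 : ‖cc n g (q - 1)‖ ^ n ≤ 2 * γ
  X0 : X (cc n g (q - 1)) = 0

/-- the sizes of a renormalization step -/
structure Nu (n : ℕ) (b : ℝ) (q : ℕ) (r γ K : ℝ) : Prop where
  bK : 10 ^ 4 * b ^ (3 * n) ≤ K
  q1 : 1 ≤ q
  qK : (q : ℝ) ≤ K
  r1 : r ≤ 1
  rK : 1 ≤ r * K
  eK : 4 * b ^ 4 * Lip n b ^ q * K ≤ Real.exp K
  γpos : 0 < γ
  γK : γ * K ^ (10 * n) ≤ 1

/-- all sizes of a level -/
structure Nm (n : ℕ) (b W : ℝ) (d q T j M M' : ℕ) (K : ℝ) : Prop where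
  hq : T + ss d + 1 = q
  dpos : 0 < d
  big : (NN n d + 1) * ss d ≤ T
  j1 : 1 ≤ j
  jT : j ≤ T
  M1 : M * ss d ≤ T
  M2 : 100 * W ^ 2 ≤ M
  M1' : M' * ss d ≤ j
  M2' : 100 * W ^ 2 ≤ M'
  kill : 8 * b ^ 4 * (q : ℝ) ^ 34 * gam b M' W ≤ sep n b d W ^ 2
  jK : 2 * Real.exp 4000 * Lip n b ^ j ≤ K
  sK : Lip n b ^ ss d ≤ K
  sq : Real.exp √q ≤ K
  nu : Nu n b q (sep n b d W / Lip n b) (gam b M W) K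

/-- two consecutive systems -/
structure Link {n : ℕ} (σ σ' : Sy n) (ν : ℕ → ZMod n) (q : ℕ) (s : ℂ) : Prop where
  q1 : 1 ≤ q
  ne : s ≠ 0
  l1 : ∀ u ∉ σ'.Ext (5 / 8), s * σ'.G u = σ.G^[q] (s * u)
  l2 : ∃ ρ : ℝ, ∀ (L : ℕ) (μ : Md σ L), μ.Good ν → 3 * q ≤ L → ∀ (k : ℕ) (z : ℂ),
    (k + 2) * q ≤ L → σ.G z ∈ μ.S (k * q) → z ∉ σ.Ext ((n : ℝ) ^ (2 * q))⁻¹ →
      ‖z / s‖ ≤ ρ ∧ ‖z / s‖ ^ n ≤ 2 * ‖σ.G^[q] z / s‖ + 8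

/-- low points of the slits are low in the next system -/
def Up {n : ℕ} (σ σ' : Sy n) (ν : ℕ → ZMod n) (q : ℕ) (s : ℂ) (j₀ : ℕ) : Prop :=
  ∀ (L : ℕ) (μ : Md σ L), μ.Good ν → 3 * q ≤ L → ∀ (j k : ℕ) (z : ℂ), (k + j + j₀ + 2) * q ≤ L →
    σ.G z ∈ μ.S (k * q) → z ∉ σ.Ext ((n : ℝ) ^ ((j + j₀ + 2) * q))⁻¹ →
      z / s ∉ σ'.Ext ((n : ℝ) ^ j)⁻¹ ∧ ∀ i ≤ j + 1, σ'.G^[i] (z / s) = σ.G^[i * q] z / s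

/-- the change of chart -/
structure Lm (n q j₂ : ℕ) (Λ : ℂ → ℂ) : Prop where
  hn : 2 ≤ n
  q1 : 1 ≤ q
  cont : ContinuousOn Λ {ζ | 0 < ζ.re}
  pos : ∀ ζ : ℂ, 0 < ζ.re → 0 < (Λ ζ).re
  rot : ∀ t x : ℝ, 0 < t → Λ ⟨t, x + 1 / n⟩ = Λ ⟨t, x⟩ + I / n
  inj : InjOn Λ {ζ | 0 < ζ.re}
  im : ∃ a : ℝ, ∀ ε > 0, ∃ T : ℝ, ∀ t x : ℝ, T ≤ t → |(Λ ⟨t, x⟩).im - x - a| ≤ ε
  re : ∀ u : ℝ, ∃ T : ℝ, ∀ t x : ℝ, T ≤ t → u ≤ (Λ ⟨t, x⟩).re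
  fe : ∀ t x : ℝ, 0 < t → (Λ ⟨t, x⟩).re < 5 / 8 → ∃ m : ℤ,
    Λ ⟨(n : ℝ) ^ q * t, (n : ℝ) ^ q * x⟩ = n * Λ ⟨t, x⟩ + m * I
  low : ∀ (j : ℕ) (t x : ℝ), ((n : ℝ) ^ (j * q))⁻¹ ≤ t → ((n : ℝ) ^ (j + 1 + j₂))⁻¹ ≤ (Λ ⟨t, x⟩).re

/-- the leg number `k` in the new chart -/
noncomputable def yy (n q : ℕ) (Λ : ℂ → ℂ) (ϑ : ℝ) (k : ℕ) (t : ℝ) : ℂ :=
  Λ ⟨t, (n : ℝ) ^ (k * q) * ϑ / n⟩

/-- the lower end of a leg -/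
noncomputable def tip (n q : ℕ) (g : ℝ) (k : ℕ) : ℝ := (n : ℝ) ^ (k * q) * g / n

/-- low points of the legs are low -/
structure Legs (n q j₀ : ℕ) (Λ : ℂ → ℂ) (L : ℕ) (g ϑ : ℝ) : Prop where
  gpos : 0 < g
  small : 2 * g * (n : ℝ) ^ L < 1
  up : ∀ (j k : ℕ) (t : ℝ), (k + j + j₀ + 2) * q ≤ L → tip n q g k ≤ t →
    t < ((n : ℝ) ^ ((j + j₀ + 2) * q))⁻¹ → (yy n q Λ ϑ k t).re < ((n : ℝ) ^ j)⁻¹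

/-- last hit of the level `u` -/
def LH (n q : ℕ) (Λ : ℂ → ℂ) (g ϑ : ℝ) (k : ℕ) (u T : ℝ) : Prop :=
  tip n q g k ≤ T ∧ (yy n q Λ ϑ k T).re = u ∧ ∀ t, T < t → u < (yy n q Λ ϑ k t).re

/-- the tip of the new model -/
structure Tip (n q j₀ : ℕ) (Λ : ℂ → ℂ) (L : ℕ) (g ϑ : ℝ) (L' : ℕ) (τ : ℝ) : Prop where
  lo : tip n q g 1 ≤ τ
  hi : τ < ((n : ℝ) ^ ((L' + 1 + j₀ + 2) * q))⁻¹
  mx : ∀ t ∈ Icc (tip n q g 1) τ, (yy n q Λ ϑ 1 t).re ≤ (yy n q Λ ϑ 1 τ).re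
  deep : ∃ j, (1 + j + j₀ + 2) * q ≤ L ∧ tip n q g 1 < ((n : ℝ) ^ ((j + j₀ + 2) * q))⁻¹ ∧
    (n : ℝ) ^ (L' + 1) * ((n : ℝ) ^ j)⁻¹ ≤ (yy n q Λ ϑ 1 τ).re
  mar : ∀ l, 1 ≤ l → l ≤ L' + 1 → ∀ t ∈ Icc (tip n q g 1) τ,
    (yy n q Λ ϑ 1 τ).re ≤ (n : ℝ) ^ l * (yy n q Λ ϑ 1 t).re →
      ¬ Cg ((n : ℝ) ^ l * (yy n q Λ ϑ 1 t).im) (yy n q Λ ϑ 1 τ).im

/-! ### transversality -/

/-- the pairing bound -/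
def Trv (n : ℕ) (b : ℝ) : Prop := ∀ (σ : Sy n) (g w : ℂ → ℂ), Fit σ b g → Wf n b w →
  ∀ N j : ℕ, 1 ≤ j → (∀ k ≤ N, cc n g k ≠ 0) → ∀ u : ℂ → ℂ, DifferentiableOn ℂ u (σ.Vv b j) →
    (∀ z ∈ σ.Vv b j, ‖u z‖ ≤ 1) →
      ‖∑ k ∈ Finset.range (N + 1), (dd n g k)⁻¹ * u (cc n g k)‖ ≤
        Lip n b ^ j * (‖SS n g w (N + 1)‖ + ‖(dd n g (N + 1))⁻¹‖)

/-- the lower bound of the transversality sum -/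
def Trs (n : ℕ) (b : ℝ) : Prop := ∀ (σ : Sy n) (g w : ℂ → ℂ), Fit σ b g → Wf n b w →
  ∀ N j : ℕ, 1 ≤ j → (∀ k ≤ N, cc n g k ≠ 0) → dd n g j ≠ 0 →
    (∀ k, 1 ≤ k → k ≤ N → 4 * b ^ 4 * (N : ℝ) ^ 34 ≤ ‖dd n g j‖ * ‖cc n g k - g 0‖) →
      1 ≤ Real.exp 4000 * Lip n b ^ j * (‖SS n g w (N + 1)‖ + ‖(dd n g (N + 1))⁻¹‖)

/-! ### the polynomial -/

/-- the velocity of an iterate when the point moves with the parameter -/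
noncomputable def dQ (n : ℕ) (c : ℂ) : ℕ → ℂ → ℂ
  | 0 => fun _ => 1
  | k + 1 => fun x => (n : ℂ) * (F n c)^[k] x ^ (n - 1) * dQ n c k x + 1

/-- the level of period `p` of the polynomial and its velocity -/
structure Cc (n : ℕ) (c : ℂ) (p : ℕ) (s : ℂ) (g : ℂ → ℂ) (B : ℂ) (w : ℂ → ℂ) : Prop where
  pos : 0 < p
  ne : s ≠ 0
  val : ∀ y, (F n c)^[p - 1] (s ^ n * y + c) = s * g y
  vel : ∀ y, dQ n c (p - 1) (s ^ n * y + c) = s * B * w y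

/-- the parameters with an attracting cycle -/
def HH (n : ℕ) : Set ℂ := {c | ∃ m z, IsAttractingCycle (fun z ↦ z ^ n + c) m z}

end RT95
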