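import Pool.Agent.Lib.RT95.Blue
import Pool.Agent.Lib.RT.T27b

/-! Basic tools for the slit model of a system. -/

set_option autoImplicit false

open Filter Topology Set Metric Complex Bornology MeasureTheory N62a1eb23
open scoped Real ENNReal

namespace RT95

open Pool.Agent.Lib.MP_c35c17_an KN KR73

namespace Sy

variable {n : ℕ} (σ : Sy n) {z : ℂ} {t x τ τ' : ℝ}

theorem mono7 (h : τ ≤ τ') : σ.Ext τ' ⊆ σ.Ext τ := image_mono fun _ hζ => h.trans hζ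

theorem contG7 : Continuous σ.G := σ.hom.continuous.comp (continuous_pow n)

theorem rot7 (ht : 0 < t) (x : ℝ) (a : ℕ) :
    σ.B ⟨t, x + a / n⟩ = exp (2 * π * I / n) ^ a * σ.B ⟨t, x⟩ := by
  induction a with
  | zero => simp
  | succ a ih =>
    rw [show x + ((a + 1 : ℕ) : ℝ) / n = x + a / n + 1 / n by push_cast; ring, σ.rot _ _ ht, ih,
      pow_succ']
    exact (mul_assoc _ _ _).symm

theorem per7 (ht : 0 < t) (x : ℝ) (m : ℤ) : σ.B ⟨t, x + m⟩ = σ.B ⟨t, x⟩ := by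
  have hn := σ.hn
  have h1 : ∀ y : ℝ, σ.B ⟨t, y + 1⟩ = σ.B ⟨t, y⟩ := fun y => by
    have h2 := σ.rot7 ht y n
    rwa [div_self (npos hn).ne', (isPrimitiveRoot_exp n (by omega)).pow_eq_one, one_mul] at h2
  induction m using Int.induction_on with
  | zero => simp
  | succ m ih => rw [← ih, ← h1 (x + (m : ℤ))]; congr 2; push_cast; ring
  | pred m ih => rw [← ih, ← h1]; congr 2; push_cast; ring

theorem cgB7 {y : ℝ} (ht : 0 < t) (h : Cg x y) : σ.B ⟨t, x⟩ = σ.B ⟨t, y⟩ := by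
  obtain ⟨m, rfl⟩ := h
  exact σ.per7 ht y m

theorem mul7 (t x : ℝ) (ht : 0 < t) : σ.G (σ.B ⟨t, x⟩) = σ.B ⟨n * t, n * x⟩ := σ.conj t x ht

theorem pre7 (hτ : 0 < τ) (h : σ.G z ∈ σ.Ext (n * τ)) : z ∈ σ.Ext τ := by
  have hn := σ.hn
  have p := npos hn
  obtain ⟨ζ, h1, e⟩ := h
  have h2 : τ ≤ ζ.re / n := by rw [le_div_iff₀' p]; exact h1
  have h3 := hτ.trans_le h2
  have h4 := σ.mul7 (ζ.re / n) (ζ.im / n) h3
  rw [mul_div_cancel₀ _ p.ne', mul_div_cancel₀ _ p.ne'] at h4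
  have h5 : σ.B ⟨ζ.re / n, ζ.im / n⟩ ^ n = z ^ n := σ.hom.injective (h4.trans e)
  have h6 : σ.B ⟨ζ.re / n, ζ.im / n⟩ ≠ 0 := σ.orb 0 _ h3
  have : NeZero n := ⟨by omega⟩
  obtain ⟨a, -, e1⟩ := (isPrimitiveRoot_exp n (by omega)).eq_pow_of_pow_eq_one
    (ξ := z / σ.B ⟨ζ.re / n, ζ.im / n⟩) (by rw [div_pow, ← h5, div_self (pow_ne_zero _ h6)])
  refine ⟨⟨ζ.re / n, ζ.im / n + a / n⟩, h2, ?_⟩
  rw [σ.rot7 h3, e1, div_mul_cancel₀ _ h6]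

theorem iter7 (ht : 0 < t) (j : ℕ) :
    σ.G^[j] (σ.B ⟨t, x⟩) = σ.B ⟨(n : ℝ) ^ j * t, (n : ℝ) ^ j * x⟩ := by
  induction j with
  | zero => simp
  | succ j ih =>
    rw [Function.iterate_succ_apply', ih, σ.mul7 _ _ (mul_pos (npow_pos σ.hn j) ht), ← mul_assoc,
      ← mul_assoc, ← pow_succ']

theorem mem7 (hτ : 0 < τ) (ht : 0 < t) : σ.B ⟨t, x⟩ ∈ σ.Ext τ ↔ τ ≤ t := by
  refine ⟨?_, fun h1 => ⟨_, h1, rfl⟩⟩
  rintro ⟨ζ, h1, e⟩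
  exact h1.trans_eq (σ.inj ζ ⟨t, x⟩ (hτ.trans_le h1) ht e).1

theorem ex_iter7 (hτ : 0 < τ) (j : ℕ) (z : ℂ) :
    σ.G^[j] z ∈ σ.Ext ((n : ℝ) ^ j * τ) ↔ z ∈ σ.Ext τ := by
  refine ⟨?_, ?_⟩
  · induction j with
    | zero => simp
    | succ j ih =>
      rw [Function.iterate_succ_apply', pow_succ', mul_assoc]
      exact fun h => ih (σ.pre7 (mul_pos (npow_pos σ.hn j) hτ) h)
  · rintro ⟨ζ, h1, rfl⟩
    rw [show ζ = ⟨ζ.re, ζ.im⟩ from rfl, σ.iter7 (hτ.trans_le h1)]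
    exact ⟨_, mul_le_mul_of_nonneg_left h1 (npow_pos σ.hn j).le, rfl⟩

theorem ex_fwd7 (hτ : 0 < τ) (j : ℕ) (h : z ∈ σ.Ext τ) : σ.G^[j] z ∈ σ.Ext τ :=
  σ.mono7 (le_mul_of_one_le_left hτ.le (one_le_npow σ.hn j)) ((σ.ex_iter7 hτ j z).mpr h)

theorem ex_inv7 (j q : ℕ) (z : ℂ) :
    σ.G^[j] z ∈ σ.Ext ((n : ℝ) ^ q)⁻¹ ↔ z ∈ σ.Ext ((n : ℝ) ^ (q + j))⁻¹ := by
  rw [← σ.ex_iter7 (inv_pos.mpr (npow_pos σ.hn (q + j))) j z, pow_add,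
    mul_inv, mul_left_comm, mul_inv_cancel₀ (npow_pos σ.hn j).ne', mul_one]

theorem opn7 (hτ : 0 < τ) : IsOpen (σ.B '' {ζ | τ < ζ.re}) :=
  σ.opn _ (fun _ h => hτ.trans h) (isOpen_lt continuous_const continuous_re)

theorem far7 (R : ℝ) : ∃ T : ℝ, ∀ z ∈ σ.Ext T, R ≤ ‖z‖ := by
  obtain ⟨T, hT⟩ := σ.far (1 / 2) one_half_pos
  have hκ := σ.κpos
  refine ⟨max T (2 * |R| / σ.κ), ?_⟩
  rintro _ ⟨ζ, h1, rfl⟩
  have h2 : max T (2 * |R| / σ.κ) ≤ ζ.re := h1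
  have h3 := hT ζ.re ζ.im ((le_max_left _ _).trans h2)
  have h4 : 2 * |R| ≤ σ.κ * ζ.re := by
    have := (le_max_right _ _).trans h2
    rwa [div_le_iff₀' hκ] at this
  have h5 : ‖exp (2 * π * (⟨σ.κ * ζ.re, ζ.im⟩ : ℂ))‖ = Real.exp (2 * π * (σ.κ * ζ.re)) := by
    rw [norm_exp]
    simp
  have h6 := norm_sub_norm_le (1 : ℂ) (σ.B ⟨ζ.re, ζ.im⟩ / exp (2 * π * (⟨σ.κ * ζ.re, ζ.im⟩ : ℂ)))
  rw [norm_sub_rev, norm_one, norm_div, h5] at h6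
  have h7 : 1 / 2 ≤ ‖σ.B ⟨ζ.re, ζ.im⟩‖ / Real.exp (2 * π * (σ.κ * ζ.re)) := by linarith
  rw [le_div_iff₀ (Real.exp_pos _)] at h7
  have h8 := Real.add_one_le_exp (2 * π * (σ.κ * ζ.re))
  have h9 := Real.pi_gt_three
  have h10 := abs_nonneg R
  have h11 := le_abs_self R
  show R ≤ ‖σ.B ⟨ζ.re, ζ.im⟩‖
  nlinarith

end Sy

namespace Fit

variable {n : ℕ} {σ : Sy n} {b : ℝ} {g : ℂ → ℂ} (h : Fit σ b g)
include h

theorem ext7 {t : ℝ} (ht : 3 / 4 ≤ t) (z : ℂ) :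
    z ∈ σ.Ext t ↔ Real.exp (4 * Real.log b * t) ≤ ‖z‖ :=
  RT27.ext_round (mul_pos four_pos (Real.log_pos (by linarith [h.lv.hb]))) ht h.chart z

theorem one7 (z : ℂ) : z ∈ σ.Ext 1 ↔ b ^ 4 ≤ ‖z‖ := by
  have hb : 0 < b := by linarith [h.lv.hb]
  rw [h.ext7 (by norm_num), mul_one, show (4 : ℝ) = (4 : ℕ) by norm_num, ← Real.log_pow,
    Real.exp_log (by positivity)]

theorem cls7 {τ : ℝ} (hτ : 0 < τ) : IsClosed (σ.Ext τ) := by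
  obtain ⟨k, hk⟩ := pow_unbounded_of_one_lt (1 / τ) (show (1 : ℝ) < n by linarith [ntwo σ.hn])
  rw [div_lt_iff₀ hτ] at hk
  have e : σ.Ext τ = {z | Real.exp (4 * Real.log b * ((n : ℝ) ^ k * τ)) ≤ ‖σ.G^[k] z‖} := by
    ext z
    rw [← σ.ex_iter7 hτ k z, h.ext7 (by linarith)]
    rfl
  rw [e]
  exact isClosed_le continuous_const (σ.contG7.iterate k).norm

theorem hol7 {z : ℂ} (hz : z ∉ σ.Ext 1) : DifferentiableAt ℂ σ.hom.symm z := by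
  rw [h.one7, not_le] at hz
  have hb := h.lv.hb
  set y := σ.hom.symm z with hy
  have e : σ.hom y = z := σ.hom.apply_symm_apply z
  have h1 : ‖y‖ < b ^ (3 * n) / 2 := by
    have h2 := h.hm.near y
    have h3 := norm_sub_norm_le y (σ.hom y)
    rw [norm_sub_rev] at h3
    rw [e] at h2 h3
    have h4 : b ^ 5 ≤ b ^ (3 * n) := pow_le_pow_right₀ (by linarith) (by have := σ.hn; omega)
    have h5 : (100 : ℝ) ^ 4 ≤ b ^ 4 := pow_le_pow_left₀ (by norm_num) hb 4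
    have h6 : b ^ 5 = b * b ^ 4 := by ring
    nlinarith
  have h2 : (σ.hom : ℂ → ℂ) =ᶠ[𝓝 y] g :=
    mem_of_superset (isOpen_ball.mem_nhds (mem_ball_zero_iff.mpr h1)) fun u hu =>
      h.hm.eq u (mem_ball_zero_iff.mp hu).le
  have h3 : HasDerivAt σ.hom (deriv g y) y := (h.lv.ent y).hasDerivAt.congr_of_eventuallyEq h2
  have h4 : deriv g y ≠ 0 := fun h0 => by
    rw [h0, hasDerivAt_iff_isLittleO] at h3
    have h5 := h3.def (show (0 : ℝ) < 1 / 4 by norm_num)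
    have h6 : ∀ᶠ u in 𝓝 y, u = y := h5.mono fun u hu => by
      have h7 := h.hm.lip' u y
      rw [smul_zero, sub_zero] at hu
      exact sub_eq_zero.mp (norm_eq_zero.mp (by linarith [norm_nonneg (u - y)]))
    obtain ⟨u, h8, h9⟩ := ((h6.filter_mono nhdsWithin_le_nhds).and
      (self_mem_nhdsWithin (a := y) (s := {y}ᶜ))).exists
    exact h9 h8
  exact (HasDerivAt.of_local_left_inverse σ.hom.symm.continuous.continuousAt h3 h4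
    (Eventually.of_forall σ.hom.apply_symm_apply)).differentiableAt

end Fit

namespace Md

variable {n : ℕ} {σ : Sy n} {L : ℕ} (μ : Md σ L) {z : ℂ} {a b : ZMod n} {i s s' q q' l : ℕ}
  {t x τ : ℝ}

theorem top7 (l : ℕ) (ζ : ℂ) (h0 : 0 < ζ.re) (h : σ.B ζ ∈ σ.G^[l] '' μ.D) :
    ζ.re ≤ (n : ℝ) ^ l * μ.g := by
  obtain ⟨z, hz, e⟩ := h
  have p := npow_pos σ.hn l
  have h1 : σ.G^[l] z ∈ σ.Ext ((n : ℝ) ^ l * (ζ.re / (n : ℝ) ^ l)) := by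
    rw [mul_div_cancel₀ _ p.ne', e]
    exact ⟨ζ, le_rfl (a := ζ.re), rfl⟩
  obtain ⟨ξ, h2, rfl⟩ := (σ.ex_iter7 (div_pos h0 p) l z).mp h1
  have h3 : ζ.re / (n : ℝ) ^ l ≤ ξ.re := h2
  have h4 := μ.top0 ξ ((div_pos h0 p).trans_le h3) hz
  rw [← div_le_iff₀' p]
  exact h3.trans h4

theorem g_lt7 (h3 : 2 * μ.g * (n : ℝ) ^ L < 1) (h : l + q ≤ L) :
    (n : ℝ) ^ l * μ.g < ((n : ℝ) ^ q)⁻¹ / 2 := by
  have h1 := npow_pos σ.hn q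
  have h2 := mul_le_mul_of_nonneg_left (npow_mono σ.hn h) μ.gpos.le
  rw [lt_div_iff₀ two_pos, lt_inv_comm₀ (by have := μ.gpos; have := npow_pos σ.hn l; positivity) h1,
    lt_inv_comm₀ h1 (by have := μ.gpos; have := npow_pos σ.hn l; positivity), ← one_div,
    lt_div_iff₀ h1]
  rw [pow_add] at h2
  nlinarith

theorem S_map7 (hz : z ∈ μ.S l) : σ.G z ∈ μ.S (l + 1) := by
  rcases hz with ⟨z, hz, rfl⟩ | ⟨t, ht, rfl⟩
  · exact Or.inl ⟨z, hz, Function.iterate_succ_apply' _ _ _⟩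
  · have h0 : 0 < t := (mul_pos (npow_pos σ.hn l) μ.gpos).trans_le ht
    refine Or.inr ⟨n * t, ?_, ?_⟩
    · rw [mem_Ici, pow_succ', mul_assoc]
      exact mul_le_mul_of_nonneg_left ht (npos σ.hn).le
    · have h1 := σ.mul7 t ((n : ℝ) ^ l * μ.ϑ) h0
      rw [← mul_assoc, ← pow_succ'] at h1
      exact h1.symm

theorem S_iter7 (hz : z ∈ μ.S l) (j : ℕ) : σ.G^[j] z ∈ μ.S (l + j) := by
  induction j with
  | zero => exact hz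
  | succ j ih => rw [Function.iterate_succ_apply']; exact μ.S_map7 ih

theorem ray_mem7 (ht : (n : ℝ) ^ l * μ.g ≤ t) (hx : Cg x ((n : ℝ) ^ l * μ.ϑ)) :
    σ.B ⟨t, x⟩ ∈ μ.S l :=
  Or.inr ⟨t, ht, (σ.cgB7 ((mul_pos (npow_pos σ.hn l) μ.gpos).trans_le ht) hx).symm⟩

theorem off7 (ht : (n : ℝ) ^ l * μ.g < t) (h : σ.B ⟨t, x⟩ ∈ μ.S l) :
    Cg x ((n : ℝ) ^ l * μ.ϑ) := by
  have h0 := mul_pos (npow_pos σ.hn l) μ.gpos
  rcases h with h1 | ⟨s, hs, h1⟩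
  · exact absurd (μ.top7 l ⟨t, x⟩ (h0.trans ht) h1) (not_le.mpr ht)
  · exact (σ.inj ⟨t, x⟩ ⟨s, _⟩ (h0.trans ht) (h0.trans_le hs) h1.symm).2

theorem mem_V7 : z ∈ μ.V a ↔ σ.G z ∉ μ.S 0 ∧ μ.A a (σ.G z) = z := by
  refine ⟨?_, fun h => ⟨_, h.1, h.2⟩⟩
  rintro ⟨y, hy, rfl⟩
  rw [μ.inv a y hy]
  exact ⟨hy, rfl⟩

theorem V_uniq7 (ha : z ∈ μ.V a) (hb : z ∈ μ.V b) : a = b := by
  obtain ⟨y, hy, rfl⟩ := ha
  obtain ⟨y', hy', e⟩ := hb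
  exact μ.disj a b y hy y' hy' e.symm

theorem exists_V7 (h : σ.G z ∉ μ.S 0) : ∃ a, z ∈ μ.V a := by
  obtain ⟨a, e⟩ := μ.surj z h
  exact ⟨a, _, h, e.symm⟩

theorem V_cl7 (ha : z ∈ μ.V a) (hb : z ∈ closure (μ.V b)) : a = b := by
  obtain ⟨y, h1, h2⟩ := mem_closure_iff.mp hb _ (μ.opn a) ha
  exact μ.V_uniq7 h1 h2

theorem S_V7 (hl : l ≤ L) (hz : z ∈ μ.S l) : z ∈ μ.V (nu n μ.ϑ l) := μ.sect l hl hz

theorem S_P7 (h : i + s ≤ L + 1) : μ.S i ⊆ μ.P i s :=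
  fun _ hz x hx => μ.S_V7 (by omega) (μ.S_iter7 hz x)

theorem P_open7 (i s : ℕ) : IsOpen (μ.P i s) := by
  have : μ.P i s = ⋂ x ∈ Iio s, σ.G^[x] ⁻¹' μ.V (nu n μ.ϑ (i + x)) := by
    ext; simp [P]
  exact this ▸ (finite_Iio s).isOpen_biInter fun x _ => (μ.opn _).preimage (σ.contG7.iterate x)

theorem P_mono7 (h : s ≤ s') : μ.P i s' ⊆ μ.P i s := fun _ hz x hx => hz x (hx.trans_le h)

theorem P_add7 {x : ℕ} : z ∈ μ.P i (x + s) ↔ z ∈ μ.P i x ∧ σ.G^[x] z ∈ μ.P (i + x) s := by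
  refine ⟨fun h => ⟨μ.P_mono7 (Nat.le_add_right _ _) h, fun y hy => ?_⟩, fun h y hy => ?_⟩
  · rw [← Function.iterate_add_apply, add_comm y x, add_assoc]
    exact h _ (by omega)
  · rcases lt_or_ge y x with h1 | h1
    · exact h.1 y h1
    · obtain ⟨e, rfl⟩ := Nat.exists_eq_add_of_le h1
      have h2 := h.2 e (by omega)
      rwa [← Function.iterate_add_apply, add_comm e x, add_assoc] at h2

theorem Y_succ7 {x : ℕ} : μ.Y i (x + 1) z = μ.A (nu n μ.ϑ i) (μ.Y (i + 1) x z) := br_succ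

theorem P_back7 {x : ℕ} (h : z ∈ μ.P i x) : μ.Y i x (σ.G^[x] z) = z := by
  induction x generalizing i z with
  | zero => rfl
  | succ x ih =>
    rw [add_comm x 1, μ.P_add7] at h
    rw [μ.Y_succ7, Function.iterate_succ_apply, ih (z := σ.G z) h.2]
    exact (μ.mem_V7.mp (h.1 0 one_pos)).2

theorem Ph_mono7 (hs : s ≤ s') (hq : q ≤ q') : μ.Ph i s' q' ⊆ μ.Ph i s q := fun _ hz =>
  ⟨μ.P_mono7 hs hz.1, fun h => hz.2 (σ.mono7 (inv_anti₀ (npow_pos σ.hn q) (npow_mono σ.hn hq)) h)⟩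

theorem Ph_open7 {b : ℝ} {g : ℂ → ℂ} (h : Fit σ b g) (i s q : ℕ) : IsOpen (μ.Ph i s q) :=
  (μ.P_open7 i s).sdiff (h.cls7 (inv_pos.mpr (npow_pos σ.hn q)))

theorem Ph_off7 (i s q : ℕ) : μ.Ph i s q ⊆ (σ.Ext 1)ᶜ :=
  fun _ hz h1 => (μ.Ph_mono7 le_rfl (Nat.zero_le q) hz).2 (by simpa using h1)

theorem Ph_ball7 {b : ℝ} {g : ℂ → ℂ} (h : Fit σ b g) (i s q : ℕ) : μ.Ph i s q ⊆ ball 0 (b ^ 4) :=
  fun z hz => mem_ball_zero_iff.mpr (not_le.mp fun h1 => μ.Ph_off7 i s q hz ((h.one7 z).mpr h1))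

theorem let_one7 (ht : μ.g < t) (a : ZMod n) :
    σ.B ⟨t, x⟩ ∈ μ.V a ↔ ¬ Cg ((n : ℝ) * x) μ.ϑ ∧ lt n μ.ϑ x = a := by
  have h0 : 0 < t := μ.gpos.trans ht
  have h2 := ntwo σ.hn
  have h3 : μ.g < n * t := by nlinarith
  have e := σ.mul7 t x h0
  have key : ¬ Cg ((n : ℝ) * x) μ.ϑ → σ.B ⟨t, x⟩ ∈ μ.V (lt n μ.ϑ x) := fun h => by
    rw [μ.mem_V7, e, μ.chart _ _ _ h3 h, mul_div_cancel_left₀ _ (npos σ.hn).ne']
    exact ⟨fun h1 => h (by simpa using μ.off7 (l := 0) (by simpa using h3) h1),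
      σ.cgB7 h0 (gh_back σ.hn x)⟩
  refine ⟨fun h => ?_, fun h => h.2 ▸ key h.1⟩
  have h4 : ¬ Cg ((n : ℝ) * x) μ.ϑ := fun h1 => (μ.mem_V7.1 h).1
    (e ▸ μ.ray_mem7 (l := 0) (by simpa using h3.le) (by simpa using h1))
  exact ⟨h4, μ.V_uniq7 (key h4) h⟩

theorem LET7 (i s : ℕ) (t ξ : ℝ) (ht : μ.g < t) : σ.B ⟨t, ξ⟩ ∈ μ.P i s ↔
    ∀ y < s, ¬ Cg ((n : ℝ) ^ (y + 1) * ξ) μ.ϑ ∧ lts n μ.ϑ ξ y = nu n μ.ϑ (i + y) := by
  have h0 : 0 < t := μ.gpos.trans ht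
  refine forall₂_congr fun y _ => ?_
  have h1 := one_le_npow σ.hn y
  rw [σ.iter7 h0, μ.let_one7 (by nlinarith), pow_succ', mul_assoc, lts]

end Md

namespace Ok

variable {n : ℕ} {σ : Sy n} {L : ℕ} {μ : Md σ L} {b : ℝ} {g : ℂ → ℂ} {d T : ℕ} (h : Ok μ b g d T)
include h

theorem ss_le7 : ss d ≤ T := le_trans (Nat.le_mul_of_pos_left _ (Nat.succ_pos _)) h.big

theorem Ns_le7 : NN n d * ss d + ss d ≤ T := by
  have := h.big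
  rwa [add_mul, one_mul] at this

theorem NN_pos7 : 0 < NN n d := by
  have h1 := σ.hn
  have h2 := h.dpos
  rw [NN]
  positivity

end Ok

end RT95
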