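import Pool.Agent.Lib.RT95.Blue

/-! Tools for systems and models. -/

set_option autoImplicit false

open Filter Topology Set Metric Complex Bornology MeasureTheory N62a1eb23
open scoped Real ENNReal

namespace RT95

open Pool.Agent.Lib.MP_c35c17_an KN KR73

theorem cont_mk {X : Type} [TopologicalSpace X] {u v : X → ℝ} (hu : Continuous u)
    (hv : Continuous v) : Continuous fun p => (⟨u p, v p⟩ : ℂ) := by
  simp only [Complex.mk_eq_add_mul_I]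
  fun_prop

namespace Sy

variable {n : ℕ} (σ : Sy n) {t x y τ τ' : ℝ} {z : ℂ}

theorem G_def (u : ℂ) : σ.G u = σ.hom (u ^ n) := rfl

theorem G_zero : σ.G 0 = σ.hom 0 := by rw [G_def, zero_pow (by have := σ.hn; omega)]

theorem G_cont : Continuous σ.G := σ.hom.continuous.comp (continuous_pow n)

theorem iter_cont (j : ℕ) : Continuous σ.G^[j] := σ.G_cont.iterate j

theorem G_B (ht : 0 < t) : σ.G (σ.B ⟨t, x⟩) = σ.B ⟨n * t, n * x⟩ := σ.conj t x ht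

theorem ray_cont (x : ℝ) : ContinuousOn (fun t : ℝ => σ.B ⟨t, x⟩) (Ioi 0) :=
  σ.cont.comp (cont_mk continuous_id continuous_const).continuousOn fun _ ht => ht

theorem rot_nat (ht : 0 < t) (a : ℕ) :
    σ.B ⟨t, x + a / n⟩ = exp (2 * π * I / n) ^ a * σ.B ⟨t, x⟩ := by
  induction a with
  | zero => simp
  | succ a ih =>
    rw [show x + ((a + 1 : ℕ) : ℝ) / n = x + a / n + 1 / n by push_cast; ring, σ.rot _ _ ht, ih]
    ring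

theorem add_one (ht : 0 < t) : σ.B ⟨t, x + 1⟩ = σ.B ⟨t, x⟩ := by
  have h := σ.rot_nat (x := x) ht n
  rwa [div_self (npos σ.hn).ne', (isPrimitiveRoot_exp n (by have := σ.hn; omega)).pow_eq_one,
    one_mul] at h

theorem per (ht : 0 < t) (h : Cg x y) : σ.B ⟨t, x⟩ = σ.B ⟨t, y⟩ := by
  obtain ⟨m, rfl⟩ := h
  induction m using Int.induction_on with
  | zero => simp
  | succ m ih => rw [← ih, ← σ.add_one (x := y + (m : ℤ)) ht]; push_cast; rw [add_assoc]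
  | pred m ih => rw [← ih, ← σ.add_one ht]; push_cast; congr 2; ring

theorem iter (ht : 0 < t) (j : ℕ) :
    σ.G^[j] (σ.B ⟨t, x⟩) = σ.B ⟨(n : ℝ) ^ j * t, (n : ℝ) ^ j * x⟩ := by
  induction j with
  | zero => simp
  | succ j ih =>
    rw [Function.iterate_succ_apply', ih, σ.G_B (mul_pos (npow_pos σ.hn j) ht), pow_succ',
      mul_assoc, mul_assoc]

theorem B_ne (ht : 0 < t) : σ.B ⟨t, x⟩ ≠ 0 := σ.orb 0 _ ht

theorem pre1 (ht : 0 < t) (e : σ.G z = σ.B ⟨t, x⟩) :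
    ∃ x', Cg (n * x') x ∧ z = σ.B ⟨t / n, x'⟩ := by
  have h0 := npos σ.hn
  have h1 := σ.G_B (x := x / n) (div_pos ht h0)
  rw [mul_div_cancel₀ _ h0.ne', mul_div_cancel₀ _ h0.ne', ← e] at h1
  have h2 := σ.B_ne (x := x / n) (div_pos ht h0)
  have hn : n ≠ 0 := by have := σ.hn; omega
  have : NeZero n := ⟨hn⟩
  obtain ⟨i, -, hi⟩ := (isPrimitiveRoot_exp n hn).eq_pow_of_pow_eq_one
    (ξ := z / σ.B ⟨t / n, x / n⟩) (by
      rw [div_pow, ← σ.hom.injective h1, div_self (pow_ne_zero _ h2)])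
  refine ⟨x / n + i / n, ⟨i, by push_cast; field_simp⟩, ?_⟩
  rw [σ.rot_nat (div_pos ht h0), hi, div_mul_cancel₀ _ h2]

theorem pre (j : ℕ) (ht : 0 < t) (e : σ.G^[j] z = σ.B ⟨t, x⟩) :
    ∃ t' x', 0 < t' ∧ t = (n : ℝ) ^ j * t' ∧ Cg ((n : ℝ) ^ j * x') x ∧ z = σ.B ⟨t', x'⟩ := by
  induction j generalizing t x with
  | zero => exact ⟨t, x, ht, by simp, by simpa using Cg.refl x, e⟩
  | succ j ih =>
    rw [Function.iterate_succ_apply'] at e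
    obtain ⟨x', h1, h2⟩ := σ.pre1 ht e
    obtain ⟨t', x'', h3, h4, h5, h6⟩ := ih (div_pos ht (npos σ.hn)) h2
    refine ⟨t', x'', h3, ?_, ?_, h6⟩
    · rw [pow_succ', mul_assoc, ← h4, mul_div_cancel₀ _ (npos σ.hn).ne']
    · rw [pow_succ', mul_assoc]
      exact (h5.mul_nat n).trans h1

theorem Ext_mono (h : τ ≤ τ') : σ.Ext τ' ⊆ σ.Ext τ := image_mono fun _ hζ => h.trans hζ

theorem mem_Ext (hτ : 0 < τ) (ht : 0 < t) : σ.B ⟨t, x⟩ ∈ σ.Ext τ ↔ τ ≤ t := by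
  refine ⟨?_, fun h1 => ⟨_, h1, rfl⟩⟩
  rintro ⟨ζ, h1, e⟩
  exact h1.trans_eq (σ.inj ζ ⟨t, x⟩ (hτ.trans_le h1) ht e).1

theorem ext_iter (hτ : 0 < τ) (j : ℕ) (z : ℂ) :
    σ.G^[j] z ∈ σ.Ext ((n : ℝ) ^ j * τ) ↔ z ∈ σ.Ext τ := by
  have p := npow_pos σ.hn j
  constructor
  · rintro ⟨ζ, a, e⟩
    obtain ⟨t', x', -, h1, -, rfl⟩ := σ.pre (t := ζ.re) (x := ζ.im) j ((mul_pos p hτ).trans_le a)
      e.symm
    exact ⟨_, le_of_mul_le_mul_left (a.trans_eq h1) p, rfl⟩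
  · rintro ⟨ζ, a, rfl⟩
    exact ⟨_, mul_le_mul_of_nonneg_left a p.le,
      (σ.iter (t := ζ.re) (x := ζ.im) (hτ.trans_le a) j).symm⟩

theorem ext_pow (q j : ℕ) (z : ℂ) :
    σ.G^[j] z ∈ σ.Ext ((n : ℝ) ^ q)⁻¹ ↔ z ∈ σ.Ext ((n : ℝ) ^ (q + j))⁻¹ := by
  rw [← σ.ext_iter (inv_pos.mpr (npow_pos σ.hn (q + j))) j z, pow_add, mul_inv, mul_left_comm,
    mul_inv_cancel₀ (npow_pos σ.hn j).ne', mul_one]

theorem ext_fwd (hτ : 0 < τ) (hz : z ∈ σ.Ext τ) (j : ℕ) : σ.G^[j] z ∈ σ.Ext τ :=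
  σ.Ext_mono (le_mul_of_one_le_left hτ.le (one_le_npow σ.hn j)) ((σ.ext_iter hτ j z).mpr hz)

theorem orb_not (hτ : 0 < τ) (j : ℕ) : σ.G^[j] 0 ∉ σ.Ext τ := by
  rintro ⟨ζ, h, e⟩
  exact σ.orb j ζ (hτ.trans_le h) e

theorem ext_far (R : ℝ) : ∃ T, ∀ t x : ℝ, T ≤ t → R ≤ ‖σ.B ⟨t, x⟩‖ := by
  obtain ⟨T, hT⟩ := σ.far (1 / 2) one_half_pos
  have hκ := σ.κpos
  refine ⟨max T (R / (π * σ.κ)), fun t x ht => ?_⟩
  have h1 := norm_sub_norm_le 1 (σ.B ⟨t, x⟩ / exp (2 * π * (⟨σ.κ * t, x⟩ : ℂ)))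
  rw [norm_sub_rev, norm_one, norm_div, norm_chart] at h1
  have h2 : 1 / 2 ≤ ‖σ.B ⟨t, x⟩‖ / Real.exp (2 * π * (σ.κ * t)) := by
    linarith [hT t x (le_of_max_le_left ht)]
  rw [le_div_iff₀ (Real.exp_pos _)] at h2
  have h3 := (div_le_iff₀ (by positivity)).mp (le_of_max_le_right ht)
  nlinarith [Real.add_one_le_exp (2 * π * (σ.κ * t))]

theorem ray_tendsto (x : ℝ) : Tendsto (fun t : ℝ => ‖σ.B ⟨t, x⟩‖) atTop atTop :=
  tendsto_atTop.mpr fun R => by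
    obtain ⟨T, hT⟩ := σ.ext_far R
    exact eventually_atTop.mpr ⟨T, fun t ht => hT t x ht⟩

theorem ext_closed (hτ : 0 < τ) : IsClosed (σ.Ext τ) := by
  refine isClosed_of_closure_subset fun z hz => ?_
  obtain ⟨T, hT⟩ := σ.ext_far (‖z‖ + 1)
  have k : IsCompact (σ.B '' (Icc τ T ×ℂ Icc 0 1)) :=
    (isCompact_Icc.reProdIm isCompact_Icc).image_of_continuousOn
      (σ.cont.mono fun w hw => hτ.trans_le hw.1.1)
  refine image_mono (fun w hw => hw.1.1) (k.isClosed.closure_subset (closure_mono ?_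
    (isOpen_ball.inter_closure ⟨mem_ball_self one_pos, hz⟩)))
  rintro _ ⟨a, w, hw, rfl⟩
  obtain ⟨m, h1, h2⟩ := exists_lift 0 w.im
  refine ⟨⟨w.re, w.im + m⟩, ⟨⟨hw, not_lt.mp fun h => ?_⟩, h1, by simpa using h2.le⟩,
    σ.per (hτ.trans_le hw) (cg_add_int _ m)⟩
  have h3 := norm_sub_norm_le (σ.B w) z
  rw [mem_ball_iff_norm] at a
  linarith [hT w.re w.im h.le]

theorem ext_open (hτ : 0 ≤ τ) : IsOpen (σ.B '' {ζ | τ < ζ.re}) :=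
  σ.opn _ (fun _ h => hτ.trans_lt h) (isOpen_lt continuous_const continuous_re)

theorem ray_closed (hτ : 0 < τ) (x : ℝ) : IsClosed ((fun t : ℝ => σ.B ⟨t, x⟩) '' Ici τ) := by
  refine isClosed_of_closure_subset fun z hz => ?_
  obtain ⟨T, hT⟩ := σ.ext_far (‖z‖ + 1)
  have k : IsCompact ((fun t : ℝ => σ.B ⟨t, x⟩) '' Icc τ T) :=
    isCompact_Icc.image_of_continuousOn ((σ.ray_cont x).mono fun w hw => hτ.trans_le hw.1)
  refine image_mono Icc_subset_Ici_self (k.isClosed.closure_subset (closure_mono ?_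
    (isOpen_ball.inter_closure ⟨mem_ball_self one_pos, hz⟩)))
  rintro _ ⟨a, w, hw, rfl⟩
  refine ⟨w, ⟨hw, not_lt.mp fun h => ?_⟩, rfl⟩
  have h3 := norm_sub_norm_le (σ.B ⟨w, x⟩) z
  rw [mem_ball_iff_norm] at a
  linarith [hT w x h.le]

theorem Vv_open (b : ℝ) (j : ℕ) : IsOpen (σ.Vv b j) :=
  isOpen_lt (σ.iter_cont j).norm continuous_const

end Sy

namespace Raw

variable {n L : ℕ} {σ : Sy n} (ρ : Raw σ L) {z : ℂ} {l : ℕ} {t x : ℝ}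

theorem tip_pos (l : ℕ) : 0 < (n : ℝ) ^ l * ρ.g := mul_pos (npow_pos σ.hn l) ρ.gpos

theorem top (l : ℕ) (ζ : ℂ) (h : 0 < ζ.re) (hz : σ.B ζ ∈ σ.G^[l] '' ρ.D) :
    ζ.re ≤ (n : ℝ) ^ l * ρ.g := by
  obtain ⟨p, hp, e⟩ := hz
  obtain ⟨t', x', h1, h2, -, rfl⟩ := σ.pre (t := ζ.re) (x := ζ.im) l h e
  rw [h2]
  exact mul_le_mul_of_nonneg_left (ρ.top0 _ h1 hp) (npow_pos σ.hn l).le

theorem S_map (hz : z ∈ ρ.S l) : σ.G z ∈ ρ.S (l + 1) := by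
  rcases hz with ⟨z, hz, rfl⟩ | ⟨t, ht, rfl⟩
  · exact Or.inl ⟨z, hz, Function.iterate_succ_apply' _ _ _⟩
  · refine Or.inr ⟨n * t, ?_, ?_⟩
    · rw [mem_Ici, pow_succ', mul_assoc]
      exact mul_le_mul_of_nonneg_left ht (npos σ.hn).le
    · simp only
      rw [σ.G_B ((ρ.tip_pos l).trans_le ht), pow_succ', mul_assoc]

theorem S_iter (hz : z ∈ ρ.S l) (j : ℕ) : σ.G^[j] z ∈ ρ.S (l + j) := by
  induction j with
  | zero => exact hz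
  | succ j ih => rw [Function.iterate_succ_apply']; exact ρ.S_map ih

theorem c_mem (l : ℕ) : σ.G^[l] (σ.hom 0) ∈ ρ.S l := Or.inl ⟨_, ρ.mem, rfl⟩

theorem c_mem' (l : ℕ) : σ.G (σ.G^[l] 0) ∈ ρ.S l := by
  rw [← Function.iterate_succ_apply' σ.G, Function.iterate_succ_apply, σ.G_zero]
  exact ρ.c_mem l

theorem ray_mem (ht : (n : ℝ) ^ l * ρ.g ≤ t) (hx : Cg x ((n : ℝ) ^ l * ρ.ϑ)) :
    σ.B ⟨t, x⟩ ∈ ρ.S l := Or.inr ⟨t, ht, (σ.per ((ρ.tip_pos l).trans_le ht) hx).symm⟩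

theorem off (ht : (n : ℝ) ^ l * ρ.g < t) (h : σ.B ⟨t, x⟩ ∈ ρ.S l) : Cg x ((n : ℝ) ^ l * ρ.ϑ) := by
  have h0 := ρ.tip_pos l
  rcases h with h1 | ⟨s, hs, h1⟩
  · exact absurd (ρ.top l ⟨t, x⟩ (h0.trans ht) h1) (not_le.mpr ht)
  · exact (σ.inj ⟨t, x⟩ ⟨s, _⟩ (h0.trans ht) (h0.trans_le hs) h1.symm).2

theorem tip_mem (l : ℕ) : σ.B ⟨(n : ℝ) ^ l * ρ.g, (n : ℝ) ^ l * ρ.ϑ⟩ ∈ σ.G^[l] '' ρ.D :=
  ⟨_, ρ.base, σ.iter ρ.gpos l⟩

theorem S_closed (l : ℕ) : IsClosed (ρ.S l) :=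
  (ρ.cpt.image (σ.iter_cont l)).isClosed.union (σ.ray_closed (ρ.tip_pos l) _)

theorem S_conn (l : ℕ) : IsPreconnected (ρ.S l) :=
  IsPreconnected.union _ (ρ.tip_mem l) ⟨_, self_mem_Ici, rfl⟩
    (ρ.pre.image _ (σ.iter_cont l).continuousOn)
    (isPreconnected_Ici.image _ ((σ.ray_cont _).mono fun _ ht => (ρ.tip_pos l).trans_le ht))

theorem S_unb (l : ℕ) : ¬ IsBounded (ρ.S l) := fun hb => by
  obtain ⟨R, hR⟩ := hb.exists_norm_le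
  obtain ⟨t, b1, b2⟩ := (((σ.ray_tendsto ((n : ℝ) ^ l * ρ.ϑ)).eventually_gt_atTop R).and
    (eventually_ge_atTop ((n : ℝ) ^ l * ρ.g))).exists
  exact b1.not_ge (hR _ (Or.inr ⟨t, b2, rfl⟩))

theorem S_dis (h1 : 1 ≤ l) (h2 : l ≤ L + 1) : Disjoint (ρ.S l) (ρ.S 0) := ρ.dis l h1 h2

theorem ncg (h1 : 1 ≤ l) (h2 : l ≤ L + 1) : ¬ Cg ((n : ℝ) ^ l * ρ.ϑ) ρ.ϑ := fun h =>
  disjoint_left.mp (ρ.S_dis h1 h2) (ρ.ray_mem le_rfl (Cg.refl _)) (ρ.ray_mem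
    (mul_le_mul_of_nonneg_right (npow_mono σ.hn (Nat.zero_le l)) ρ.gpos.le) (by simpa using h))

include ρ in
theorem orb_ne (hl : l ≤ L) : σ.G^[l] (σ.hom 0) ≠ 0 := fun h =>
  disjoint_left.mp (ρ.S_dis (l := l + 1) (by omega) (by omega)) (ρ.S_map (ρ.c_mem l))
    (by rw [h, σ.G_zero]; exact ρ.c_mem 0)

end Raw

namespace Md

variable {n L : ℕ} {σ : Sy n} (μ : Md σ L) {z : ℂ} {a b : ZMod n} {i s s' q q' l : ℕ} {t x : ℝ}

theorem mem_V : z ∈ μ.V a ↔ σ.G z ∉ μ.S 0 ∧ μ.A a (σ.G z) = z := by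
  refine ⟨?_, fun h => ⟨_, h.1, h.2⟩⟩
  rintro ⟨y, hy, rfl⟩
  rw [μ.inv a y hy]
  exact ⟨hy, rfl⟩

theorem V_uniq (ha : z ∈ μ.V a) (hb : z ∈ μ.V b) : a = b := by
  obtain ⟨y, hy, rfl⟩ := ha
  obtain ⟨y', hy', e⟩ := hb
  exact μ.disj a b y hy y' hy' e.symm

theorem exists_V (h : σ.G z ∉ μ.S 0) : ∃ a, z ∈ μ.V a := by
  obtain ⟨a, e⟩ := μ.surj z h
  exact ⟨a, _, h, e.symm⟩

theorem V_open (a : ZMod n) : IsOpen (μ.V a) := μ.opn a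

theorem V_uniq' (ha : z ∈ μ.V a) (hb : z ∈ closure (μ.V b)) : a = b := by
  obtain ⟨y, h1, h2⟩ := mem_closure_iff.mp hb _ (μ.V_open a) ha
  exact μ.V_uniq h1 h2

theorem S_V (hl : l ≤ L) (hz : z ∈ μ.S l) : z ∈ μ.V (nu n μ.ϑ l) := μ.sect l hl hz

theorem S_P (h : i + s ≤ L + 1) : μ.S i ⊆ μ.P i s :=
  fun _ hz x hx => μ.S_V (by omega) (μ.S_iter hz x)

theorem disj_of {k k' : ℕ} (hk : k + i ≤ L) (hk' : k' + i ≤ L)
    (h : nu n μ.ϑ (k + i) ≠ nu n μ.ϑ (k' + i)) : Disjoint (μ.S k) (μ.S k') :=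
  disjoint_left.mpr fun _ h1 h2 =>
    h (μ.V_uniq (μ.S_V hk (μ.S_iter h1 i)) (μ.S_V hk' (μ.S_iter h2 i)))

theorem P_open (i s : ℕ) : IsOpen (μ.P i s) := by
  have : μ.P i s = ⋂ x ∈ Iio s, σ.G^[x] ⁻¹' μ.V (nu n μ.ϑ (i + x)) := by
    ext; simp [P]
  exact this ▸ (finite_Iio s).isOpen_biInter fun x _ => (μ.V_open _).preimage (σ.iter_cont x)

theorem P_mono (h : s ≤ s') : μ.P i s' ⊆ μ.P i s := fun _ hz x hx => hz x (hx.trans_le h)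

theorem P_add {x : ℕ} : z ∈ μ.P i (x + s) ↔ z ∈ μ.P i x ∧ σ.G^[x] z ∈ μ.P (i + x) s := by
  refine ⟨fun h => ⟨μ.P_mono (Nat.le_add_right _ _) h, fun y hy => ?_⟩, fun h y hy => ?_⟩
  · rw [← Function.iterate_add_apply, add_comm y x, add_assoc]
    exact h _ (by omega)
  · rcases lt_or_ge y x with h1 | h1
    · exact h.1 y h1
    · obtain ⟨e, rfl⟩ := Nat.exists_eq_add_of_le h1
      have h2 := h.2 e (by omega)
      rwa [← Function.iterate_add_apply, add_comm e x, add_assoc] at h2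

theorem Y_succ {x : ℕ} : μ.Y i (x + 1) z = μ.A (nu n μ.ϑ i) (μ.Y (i + 1) x z) := br_succ

theorem P_back {x : ℕ} (h : z ∈ μ.P i x) : μ.Y i x (σ.G^[x] z) = z := by
  induction x generalizing i z with
  | zero => rfl
  | succ x ih =>
    rw [add_comm x 1, μ.P_add] at h
    rw [μ.Y_succ, Function.iterate_succ_apply, ih (z := σ.G z) h.2]
    exact (μ.mem_V.mp (h.1 0 one_pos)).2

theorem inj_D (hl : l ≤ L + 1) : InjOn σ.G^[l] μ.D := fun z hz z' hz' e => by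
  have h : ∀ u ∈ μ.D, μ.Y 0 l (σ.G^[l] u) = u := fun u hu =>
    μ.P_back (μ.S_P (i := 0) (s := l) (by omega) (Or.inl ⟨u, hu, rfl⟩))
  rw [← h z hz, e, h z' hz']

theorem Ph_mono (hs : s ≤ s') (hq : q ≤ q') : μ.Ph i s' q' ⊆ μ.Ph i s q := fun _ hz =>
  ⟨μ.P_mono hs hz.1, fun h =>
    hz.2 (σ.Ext_mono (inv_anti₀ (npow_pos σ.hn q) (npow_mono σ.hn hq)) h)⟩

theorem Ph_open (i s q : ℕ) : IsOpen (μ.Ph i s q) :=
  (μ.P_open i s).sdiff (σ.ext_closed (inv_pos.mpr (npow_pos σ.hn q)))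

theorem Ph_off : Disjoint (μ.Ph i s q) (σ.Ext 1) := disjoint_left.mpr fun _ hz h =>
  (μ.Ph_mono le_rfl (Nat.zero_le q) hz).2 (by simpa using h)

end Md

/-- the potential of the tip is small -/
theorem g_lt {n L l q : ℕ} {g : ℝ} (hn : 2 ≤ n) (hg : 0 < g) (h3 : 2 * g * (n : ℝ) ^ L < 1)
    (h : l + q ≤ L) : (n : ℝ) ^ l * g < ((n : ℝ) ^ q)⁻¹ / 2 := by
  have h1 := npow_pos hn q
  have h2 := mul_le_mul_of_nonneg_left (npow_mono hn h) hg.le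
  rw [lt_div_iff₀ two_pos, ← one_div, lt_div_iff₀ h1]
  rw [pow_add] at h2
  nlinarith

namespace Ok

variable {n L : ℕ} {σ : Sy n} {μ : Md σ L} {b : ℝ} {g : ℂ → ℂ} {d T l q : ℕ}

theorem ss_le (h : Ok μ b g d T) : ss d ≤ T :=
  le_trans (Nat.le_mul_of_pos_left _ (Nat.succ_pos _)) h.big

theorem Ns_le (h : Ok μ b g d T) : NN n d * ss d + ss d ≤ T := by
  have := h.big
  rwa [add_mul, one_mul] at this

theorem NN_pos (h : Ok μ b g d T) : 0 < NN n d := by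
  have h1 := σ.hn
  have h2 := h.dpos
  rw [NN]
  positivity

theorem g_lt (h : Ok μ b g d T) (hl : l + q ≤ L) : (n : ℝ) ^ l * μ.g < ((n : ℝ) ^ q)⁻¹ / 2 :=
  RT95.g_lt σ.hn μ.gpos h.small hl

end Ok

theorem HR.hm {n : ℕ} {σ : Sy n} {ν : ℕ → ZMod n} (h : HR σ ν) (hMD : St_MD n) : HM σ ν :=
  fun L => by
    have h0 := npow_pos σ.hn L
    obtain ⟨ρ, h1, h2⟩ := h L (1 / (2 * (n : ℝ) ^ L)) (by positivity)
    obtain ⟨μ, rfl⟩ := hMD σ L ρ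
    rw [lt_div_iff₀ (by positivity)] at h1
    exact ⟨μ, h2, by linarith⟩

theorem Rq.mul {α : Type} {ν : ℕ → α} {q j : ℕ} (h : Rq ν q) (hj : ¬ q ∣ j + 1) (k : ℕ) :
    ν (k * q + j) = ν j := by
  induction k with
  | zero => simp
  | succ k ih =>
    rw [← ih, ← h (k * q + j) fun e => hj ((Nat.dvd_add_right (dvd_mul_left q k)).mp
      (by rwa [add_assoc] at e))]
    congr 1
    ring

theorem Lm.rot_int {n q j₂ : ℕ} {Λ : ℂ → ℂ} (h : Lm n q j₂ Λ) {t : ℝ} (ht : 0 < t) (x : ℝ) (m : ℤ) :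
    Λ ⟨t, x + m / n⟩ = Λ ⟨t, x⟩ + m / n * I := by
  induction m using Int.induction_on with
  | zero => simp
  | succ m ih =>
    rw [show x + ((m + 1 : ℤ) : ℝ) / n = x + ((m : ℤ) : ℝ) / n + 1 / n by push_cast; ring,
      h.rot _ _ ht, ih]
    push_cast
    ring
  | pred m ih =>
    have h1 := h.rot t (x + ((-m - 1 : ℤ) : ℝ) / n) ht
    rw [show x + ((-m - 1 : ℤ) : ℝ) / n + 1 / n = x + ((-m : ℤ) : ℝ) / n by push_cast; ring,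
      ih] at h1
    push_cast at h1 ⊢
    linear_combination -h1

end RT95
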