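import Pool.Agent.Lib.RT95.Kit

/-! Assembly of the bound for renormalization towers. -/

set_option autoImplicit false

open Filter Topology Set Metric Complex Bornology MeasureTheory N62a1eb23
open scoped Real ENNReal

namespace RT95

open Pool.Agent.Lib.MP_c35c17_an KN KR73

section seq
variable {α : Type} {ν : ℕ → α} {p q : ℕ}

theorem sub_one (ν : ℕ → α) : sub ν 1 = ν := funext fun j => by simp [sub]

theorem sub_sub (hq : 1 ≤ q) : sub (sub ν p) q = sub ν (p * q) := funext fun j => by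
  rw [sub, sub, sub, Nat.sub_add_cancel (Nat.mul_pos j.succ_pos hq), mul_assoc, mul_comm q p]

theorem Rq.sub (h : Rq ν (p * q)) (hp : 0 < p) : Rq (sub ν p) q := fun j hj => by
  have h1 := Nat.mul_pos j.succ_pos hp
  have h2 := h ((j + 1) * p - 1) (by
    rw [Nat.sub_add_cancel h1, mul_comm (j + 1)]
    exact fun e => hj (Nat.dvd_of_mul_dvd_mul_left hp e))
  rw [RT95.sub, RT95.sub, ← h2]
  congr 1
  rw [show (j + q + 1) * p = (j + 1) * p + p * q by ring]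
  simp only [Nat.succ_eq_add_one] at h1
  omega

theorem AP.sub (h : AP ν) (hR : Rq ν p) (hp : 0 < p) : AP (sub ν p) := fun k hk => by
  obtain ⟨x, hx⟩ := h (k * p) (Nat.mul_pos hk hp)
  obtain ⟨y, hy⟩ : p ∣ x + 1 := by_contra fun e => hx (by rw [add_comm, hR.mul e])
  obtain ⟨y, rfl⟩ : ∃ y', y = y' + 1 := ⟨y - 1, by
    rcases y with _ | y
    · simp at hy
    · simp⟩
  refine ⟨y, ?_⟩
  rw [RT95.sub, RT95.sub, show (y + k + 1) * p = p * (y + 1) + k * p by ring, mul_comm (y + 1),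
    ← hy, show x + 1 + k * p - 1 = x + k * p by omega]
  exact hx

end seq

/-- the state of the induction -/
def Sta (n : ℕ) (b : ℝ) (c : ℂ) (ν : ℕ → ZMod n) (p : ℕ) (E : ℝ) : Prop :=
  ∃ (s B : ℂ) (g w : ℂ → ℂ) (σ : Sy n), Cc n c p s g B w ∧ Fit σ b g ∧ HM σ (sub ν p) ∧
    Wf n b w ∧ Real.exp E ≤ ‖B‖

/-- the data of a level -/
def Dat (n : ℕ) (b : ℝ) (σ : Sy n) (g : ℂ → ℂ) (ν : ℕ → ZMod n) (q : ℕ) : Prop :=
  ∃ (W : ℝ) (d T j M M' : ℕ) (K : ℝ), 0 < W ∧ Nm n b W d q T j M M' K ∧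
    ∀ (L : ℕ) (μ : Md σ L), μ.Good ν → 3 * q ≤ L → Ok μ b g d T ∧ μ.Q d T W

variable {n : ℕ} {b : ℝ}

theorem level (hQ : St_QQ n) (hN : St_NUM n) (hb : 100 ≤ b) : ∃ C : ℝ, 1 ≤ C ∧
    ∀ (σ : Sy n) (g : ℂ → ℂ) (ν : ℕ → ZMod n) (e q : ℕ), Fit σ b g → 0 < e →
      C * (e : ℝ) ^ 28 ≤ q → NRs ν e (q - 1) → Dat n b σ g ν q := by
  classical
  obtain ⟨C, hC, h1⟩ := hQ b
  obtain ⟨d₀, h2⟩ := hN b C hb hC
  refine ⟨((d₀ + 1 : ℕ) : ℝ) ^ 28, one_le_pow₀ (by exact_mod_cast d₀.succ_pos),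
    fun σ g ν e q hf he hq hν => ?_⟩
  have h3 : ((d₀ + 1) * e) ^ 28 ≤ q := by
    rw [mul_pow]
    exact_mod_cast hq
  have ex : ∃ d, q < (d + 1) ^ 28 := ⟨q, (Nat.lt_succ_self q).trans_le (Nat.le_self_pow (by norm_num) _)⟩
  have h4 : (d₀ + 1) * e ≤ Nat.find ex := Nat.lt_succ_iff.mp
    (lt_of_pow_lt_pow_left₀ 28 (Nat.zero_le _) (h3.trans_lt (Nat.find_spec ex)))
  have h5 : d₀ + 1 ≤ Nat.find ex := (Nat.le_mul_of_pos_right _ he).trans h4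
  have h6 : e ≤ Nat.find ex := (Nat.le_mul_of_pos_left _ d₀.succ_pos).trans h4
  obtain ⟨T, j, M, M', K, h7⟩ := h2 (Nat.find ex) q (by omega) (by
    have h8 := not_lt.mp (Nat.find_min ex (m := Nat.find ex - 1) (by omega))
    rwa [Nat.sub_add_cancel (by omega)] at h8) (Nat.find_spec ex)
  have hd : (0 : ℝ) < Nat.find ex := by exact_mod_cast h7.dpos
  refine ⟨_, _, T, j, M, M', K, by positivity, h7, fun L μ hg hL => ?_⟩
  have h9 := h7.hq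
  have h10 : Ok μ b g (Nat.find ex) T := Ok.of_good hf hg h7.dpos h7.big (by omega)
    fun i a1 a2 => by
      obtain ⟨x, a3, a4⟩ := hν i a1 (by omega)
      exact ⟨x, a3.trans_le h6, a4⟩
  exact ⟨h10, h1 σ L μ g _ T h10⟩

theorem last (hV : St_VEL n) (hT : Trs n b) {σ : Sy n} {g w : ℂ → ℂ} {ν : ℕ → ZMod n} {q : ℕ}
    (hf : Fit σ b g) (hm : HM σ ν) (hw : Wf n b w) (h : Dat n b σ g ν q) :
    ∃ (k : ℕ) (K : ℝ), 1 ≤ k ∧ 200 ≤ K ∧ Real.exp √q ≤ K ∧ K ≤ ‖Vh n g w k 0‖ := by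
  obtain ⟨W, d, T, j, M, M', K, hW, hN, h1⟩ := h
  obtain ⟨μ, hμ⟩ := hm (3 * q)
  obtain ⟨h2, h3⟩ := h1 _ μ hμ le_rfl
  obtain ⟨h4, -, h5⟩ := hV σ _ μ b W g w d q T j M M' K hT h2 hW h3 hN hw
  have hK := hN.nu.big hf.lv.hb
  have h6 := hN.hq
  have h7 := hN.j1.trans hN.jT
  have h8 := h5 T h7 (by omega) (by nlinarith)
  exact ⟨T, K, h7, by linarith, hN.sq, le_of_mul_le_mul_left (by nlinarith) (by linarith : 0 < K)⟩

theorem step (hn : 2 ≤ n) (hCH : St_CHART n) (hMD : St_MD n) (hBR : St_BRU n) (hCO : St_COV n)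
    (hRE : St_RENL n) (hCN : St_CONE n) (hV : St_VEL n) (hTR : St_TR n) (hT : Trs n b) {σ : Sy n}
    {g w : ℂ → ℂ} {ν : ℕ → ZMod n} {q : ℕ} (hf : Fit σ b g) (hm : HM σ ν) (hw : Wf n b w)
    (h : Dat n b σ g ν q) (hR : Rq ν q) (hA : AP (sub ν q)) :
    ∃ (s B : ℂ) (w' : ℂ → ℂ) (σ' : Sy n), s ≠ 0 ∧ Fit σ' b (ren n g q s) ∧ HM σ' (sub ν q) ∧
      Wf n b w' ∧ Real.exp √q ≤ ‖B‖ ∧ ∀ y, Vh n g w (q - 1) (s ^ n * y) = s * B * w' y := by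
  obtain ⟨W, d, T, j, M, M', K, hW, hN, h1⟩ := h
  have h0 : ∀ (L : ℕ) (μ : Md σ L), μ.Good ν → 3 * q ≤ L → ∃ X,
      An n b g q (sep n b d W / Lip n b) (gam b M W) X ∧ μ.Ret q (gam b M W) X :=
    fun L μ a1 a2 => by
      have a3 := hBR σ L μ b g d T ν (h1 L μ a1 a2).1 a1 (hN.hq ▸ hR) W hW (h1 L μ a1 a2).2 M hN.M1
        hN.M2
      rwa [hN.hq] at a3
  obtain ⟨μ, hμ⟩ := hm (3 * q)
  obtain ⟨h2, h3⟩ := h1 _ μ hμ le_rfl
  obtain ⟨X, hX, -⟩ := h0 _ μ hμ le_rfl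
  obtain ⟨h4, h5, -⟩ := hCO b g q _ _ K X hf.lv hX hN.nu
  obtain ⟨s, hs⟩ := IsAlgClosed.exists_pow_nat_eq (deriv (Fq n g q) 0)⁻¹ (show 0 < n - 1 by omega)
  have hs' : s ^ (n - 1) * deriv (Fq n g q) 0 = 1 := by rw [hs, inv_mul_cancel₀ h4]
  obtain ⟨h6, h7⟩ := hRE σ b g ν q _ _ K s hf hN.nu hs' hm h0
  obtain ⟨σ', hσ⟩ := hCH b _ h6
  obtain ⟨-, h8, h9⟩ := hV σ _ μ b W g w d q T j M M' K hT h2 hW h3 hN hw
  have hK := hN.nu.big hf.lv.hb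
  have h10 := hN.hq
  have h11 := hN.j1.trans hN.jT
  obtain ⟨B, w', h12, h13, h14⟩ := hCN b g w q _ _ K X hf.lv hX hN.nu hw (h8 (by nlinarith))
    (h9 _ (by omega) le_rfl (by nlinarith)) s hs'
  exact ⟨s, B, w', σ', (h7 σ' hσ).ne, hσ, (hTR σ σ' b _ ν q s hσ (h7 σ' hσ) hm hA).hm hMD, h12,
    hN.sq.trans h13, h14⟩

theorem Cc.ren (hC : St_CONC n) {c s s' B B' : ℂ} {p q : ℕ} {g w w' : ℂ → ℂ}
    (h : Cc n c p s g B w) (hq : 1 ≤ q) (hs : s' ≠ 0)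
    (hv : ∀ y, Vh n g w (q - 1) (s' ^ n * y) = s' * B' * w' y) :
    Cc n c (p * q) (s * s') (ren n g q s') (B * B') w' := by
  have h1 := (hC c p s g B w h).2.2 (q - 1)
  rw [Nat.sub_add_cancel hq, mul_comm q p] at h1
  refine ⟨Nat.mul_pos h.pos hq, mul_ne_zero h.ne hs, fun y => ?_, fun y => ?_⟩
  · rw [mul_pow, mul_assoc, (h1 _).1, RT95.ren, mul_assoc, mul_inv_cancel_left₀ hs]
    rfl
  · rw [mul_pow, mul_assoc, (h1 _).2, hv]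
    ring

theorem main (hn : 2 ≤ n) (hCH : St_CHART n) (hGL : St_GLOB n) (hZ : St_ZERO n) (hMD : St_MD n)
    (hQ : St_QQ n) (hBR : St_BRU n) (hCO : St_COV n) (hRE : St_RENL n) (hCN : St_CONE n)
    (hTV : St_TRV n) (hTS : St_TRANS n) (hV : St_VEL n) (hN : St_NUM n) (hTR : St_TR n)
    (hC : St_CONC n) (hE : St_END n) : ∃ C : ℝ, 1 ≤ C ∧ ∀ c ∈ multibrotSet n, ∀ Φ, L.Bot n c 1 Φ →
      Function.Injective (fun j => (F n c)^[j] 0) → ∀ θ, Peak c Φ θ → AP (nu n θ) →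
      ∀ (m : ℕ) (p q e : ℕ → ℕ), p 0 = 1 → (∀ i < m, p (i + 1) = p i * q i) →
      (∀ i ≤ m, Rq (nu n θ) (p i)) →
      (∀ i ≤ m, 0 < e i ∧ C * (e i : ℝ) ^ 28 ≤ q i ∧ NRs (sub (nu n θ) (p i)) (e i) (q i - 1)) →
        infDist c (HH n) ≤ C * Real.exp (-∑ i ∈ Finset.range (m + 1), √(q i)) := by
  obtain ⟨b, hb, hT⟩ := hTV
  have hT' := hTS b hT
  obtain ⟨C, hC1, h1⟩ := level hQ hN hb
  obtain ⟨C', hC', h2⟩ := hE
  refine ⟨max C C', le_max_of_le_left hC1, fun c hc Φ hΦ hi θ hP hA m p q e p0 hp hR hq => ?_⟩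
  have hq' : ∀ i ≤ m, C * (e i : ℝ) ^ 28 ≤ q i := fun i hi =>
    (mul_le_mul_of_nonneg_right (le_max_left _ _) (by positivity)).trans (hq i hi).2.1
  have hq1 : ∀ i ≤ m, 1 ≤ q i := fun i hi => by
    have a1 : (1 : ℝ) ≤ (e i : ℝ) ^ 28 := one_le_pow₀ (by exact_mod_cast (hq i hi).1)
    exact_mod_cast (one_le_mul_of_one_le_of_one_le hC1 a1).trans (hq' i hi)
  have key : ∀ i ≤ m, Sta n b c (nu n θ) (p i) (∑ j ∈ Finset.range i, √(q j)) := fun i => by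
    induction i with
    | zero =>
      intro _
      obtain ⟨σ, a1, a2, a3⟩ := hGL c hc Φ hΦ hi θ hP hA
      obtain ⟨a4, a5⟩ := hZ c hc b hb
      obtain ⟨σ', a6⟩ := hCH b _ a4
      refine ⟨1, 1, _, fun _ => 1, σ', ⟨by omega, one_ne_zero, fun y => ?_, fun y => ?_⟩, a6, ?_,
        ⟨differentiable_const _, fun _ _ => by simp⟩, by simp⟩
      · simp [p0]
      · simp [p0, dQ]
      · rw [p0]
        exact (hTR σ σ' b _ _ 1 1 a6 (a5 σ σ' _ a1 a2 a6) (a3.hm hMD)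
          ((sub_one (nu n θ)).symm ▸ hA)).hm hMD
    | succ i ih =>
      intro hi'
      obtain ⟨s, B, g, w, σ, a1, a2, a3, a4, a5⟩ := ih (by omega)
      have a6 := hq1 i (by omega)
      have a7 := hR (i + 1) hi'
      rw [hp i hi'] at a7 ⊢
      obtain ⟨s', B', w', σ', b1, b2, b3, b4, b5, b6⟩ := step hn hCH hMD hBR hCO hRE hCN hV hTR hT'
        a2 a3 a4 (h1 σ g _ _ _ a2 (hq i (by omega)).1 (hq' i (by omega)) (hq i (by omega)).2.2)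
        (a7.sub a1.pos) (by rw [sub_sub a6]; exact hA.sub a7 (Nat.mul_pos a1.pos a6))
      refine ⟨_, _, _, w', σ', a1.ren hC a6 b1 b6, b2, sub_sub (p := p i) a6 ▸ b3, b4, ?_⟩
      rw [Finset.sum_range_succ, Real.exp_add, norm_mul]
      exact mul_le_mul a5 b5 (Real.exp_pos _).le (norm_nonneg _)
  obtain ⟨s, B, g, w, σ, a1, a2, a3, a4, a5⟩ := key m le_rfl
  obtain ⟨k, K, b1, b2, b3, b4⟩ := last hV hT' a2 a3 a4
    (h1 σ g _ _ _ a2 (hq m le_rfl).1 (hq' m le_rfl) (hq m le_rfl).2.2)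
  have b5 := h2 c hc b _ s g B w k K a1 a2.lv a4 b1 b2 b4
    ((Real.one_le_exp (Finset.sum_nonneg fun _ _ => Real.sqrt_nonneg _)).trans a5)
  rw [Real.exp_neg, ← div_eq_mul_inv, le_div_iff₀ (Real.exp_pos _), Finset.sum_range_succ,
    Real.exp_add]
  exact ((mul_le_mul_of_nonneg_left (mul_le_mul a5 b3 (Real.exp_pos _).le (norm_nonneg _))
    infDist_nonneg).trans b5).trans (le_max_right _ _)

end RT95
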